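import Pool.Agent.MX.E.Defs

/-!
# Project MX, block E: the function `asr`
-/

namespace Pool.Agent.MX.E

open Complex Pool.Agent.S3.E

theorem RR_conj (w : ℂ) : RR ((starRingEnd ℂ) w) = RR w := by
  unfold RR
  have h : 1 + (starRingEnd ℂ) w ^ 2 = (starRingEnd ℂ) (1 + w ^ 2) := by
    rw [map_add, map_one, map_pow]
  rw [h, norm_conj, norm_conj]

theorem PP_conj (w : ℂ) : PP ((starRingEnd ℂ) w) = PP w := by
  unfold PP
  have h : 1 + (starRingEnd ℂ) w ^ 2 = (starRingEnd ℂ) (1 + w ^ 2) := by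
    rw [map_add, map_one, map_pow]
  rw [h, norm_conj, norm_conj]

theorem asr_of_nonneg {w : ℂ} (h : 0 ≤ w.im) : asr w = ash w := if_pos h

theorem asr_re (w : ℂ) : (asr w).re = PP w := by
  unfold asr
  split_ifs
  · exact ash_re w
  · rw [conj_re, ash_re, PP_conj]

theorem asr_im (w : ℂ) : (asr w).im = if 0 ≤ w.im then RR w else -RR w := by
  unfold asr
  split_ifs
  · exact ash_im w
  · rw [conj_im, ash_im, RR_conj]

theorem RR_of_im_eq {w : ℂ} (h : w.im = 0) : RR w = 0 := by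
  have hw : w = ((w.re : ℝ) : ℂ) := by
    apply Complex.ext <;> simp [h]
  unfold RR
  have h1 : ‖(1 : ℂ) + w ^ 2‖ = 1 + ‖w‖ ^ 2 := by
    rw [hw]
    have : (1 : ℂ) + ((w.re : ℝ) : ℂ) ^ 2 = ((1 + w.re ^ 2 : ℝ) : ℂ) := by push_cast; ring
    rw [this, norm_real, norm_real, Real.norm_eq_abs, Real.norm_eq_abs, sq_abs,
      abs_of_pos (by positivity)]
  rw [h1]
  simp

theorem continuous_asr : Continuous asr := by
  have h1 : Continuous ash := continuous_ash
  have h2 : Continuous fun w : ℂ => (starRingEnd ℂ) (ash ((starRingEnd ℂ) w)) :=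
    continuous_conj.comp (continuous_ash.comp continuous_conj)
  refine Continuous.if_le h1 h2 continuous_const continuous_im ?_
  intro w hw
  apply Complex.ext
  · rw [conj_re, ash_re, ash_re, PP_conj]
  · rw [conj_im, ash_im, ash_im, RR_conj, RR_of_im_eq hw.symm]
    simp

theorem asr_zero : asr 0 = 0 := by
  rw [asr_of_nonneg (by simp), ash_zero]

theorem sinh_asr {w : ℂ} (h : 0 ≤ w.re) : sinh (asr w) = w := by
  unfold asr
  split_ifs with h'
  · exact sinh_ash h h'
  · have h1 : sinh (ash ((starRingEnd ℂ) w)) = (starRingEnd ℂ) w := by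
      apply sinh_ash
      · rw [conj_re]; exact h
      · rw [conj_im]; linarith
    rw [sinh_conj, h1, conj_conj]

theorem asr_re_nonneg (w : ℂ) : 0 ≤ (asr w).re := by
  rw [asr_re]
  exact PP_nonneg w

theorem asr_re_pos {w : ℂ} (h : 0 < w.re) : 0 < (asr w).re := by
  rw [asr_re]
  exact PP_pos h

theorem asr_im_abs {w : ℂ} : |(asr w).im| ≤ Real.pi / 2 := by
  rw [asr_im]
  have h1 := RR_nonneg w
  have h2 := RR_le w
  split_ifs
  · rw [abs_of_nonneg h1]; exact h2
  · rw [abs_neg, abs_of_nonneg h1]; exact h2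

theorem asr_im_lt {w : ℂ} (h : 0 < w.re) : |(asr w).im| < Real.pi / 2 := by
  rw [asr_im]
  have h1 := RR_nonneg w
  have h2 := RR_lt h
  split_ifs
  · rw [abs_of_nonneg h1]; exact h2
  · rw [abs_neg, abs_of_nonneg h1]; exact h2

/-- `sinh p cos r = Re w`, `cosh p sin r = Im w`. -/
theorem asr_eqs {w : ℂ} (h : 0 ≤ w.re) :
    Real.sinh (asr w).re * Real.cos (asr w).im = w.re ∧
      Real.cosh (asr w).re * Real.sin (asr w).im = w.im := by
  have h1 := sinh_asr h
  have h2 : sinh (asr w) = sinh (((asr w).re : ℂ) + ((asr w).im : ℂ) * I) := by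
    rw [re_add_im]
  rw [h2, sinh_add, cosh_mul_I, sinh_mul_I, ← ofReal_cos, ← ofReal_sin, ← ofReal_cosh,
    ← ofReal_sinh] at h1
  constructor
  · have := congrArg re h1
    simp at this
    exact this
  · have := congrArg im h1
    simp at this
    exact this

theorem asr_cosh_form (p r : ℝ) : cosh ((p : ℂ) + (r : ℂ) * I) =
    ((Real.cosh p * Real.cos r : ℝ) : ℂ) + ((Real.sinh p * Real.sin r : ℝ) : ℂ) * I := by
  rw [cosh_add, cosh_mul_I, sinh_mul_I]
  push_cast
  ring

theorem cosh_asr_re (w : ℂ) :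
    (cosh (asr w)).re = Real.cosh (asr w).re * Real.cos (asr w).im := by
  have h2 : cosh (asr w) = cosh (((asr w).re : ℂ) + ((asr w).im : ℂ) * I) := by
    rw [re_add_im]
  rw [h2, asr_cosh_form]
  simp only [add_re, add_im, mul_re, mul_im, ofReal_re, ofReal_im, I_re, I_im, mul_zero, mul_one,
    sub_self, add_zero, zero_add]

theorem cosh_asr_im (w : ℂ) :
    (cosh (asr w)).im = Real.sinh (asr w).re * Real.sin (asr w).im := by
  have h2 : cosh (asr w) = cosh (((asr w).re : ℂ) + ((asr w).im : ℂ) * I) := by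
    rw [re_add_im]
  rw [h2, asr_cosh_form]
  simp only [add_re, add_im, mul_re, mul_im, ofReal_re, ofReal_im, I_re, I_im, mul_zero, mul_one,
    sub_self, add_zero, zero_add]

theorem cos_asr_pos {w : ℂ} (h : 0 < w.re) : 0 < Real.cos (asr w).im := by
  have h1 := abs_lt.1 (asr_im_lt h)
  exact Real.cos_pos_of_mem_Ioo ⟨by linarith [h1.1], h1.2⟩

theorem cosh_asr_re_pos {w : ℂ} (h : 0 < w.re) : 0 < (cosh (asr w)).re := by
  rw [cosh_asr_re]
  exact mul_pos (Real.cosh_pos _) (cos_asr_pos h)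

theorem cosh_asr_ne {w : ℂ} (h : 0 < w.re) : cosh (asr w) ≠ 0 := by
  intro h0
  have h1 := cosh_asr_re_pos h
  rw [h0, zero_re] at h1
  exact lt_irrefl _ h1

/-- `cosh² q = 1 + w²`. -/
theorem cosh_asr_sq {w : ℂ} (h : 0 ≤ w.re) : cosh (asr w) ^ 2 = 1 + w ^ 2 := by
  rw [cosh_sq, sinh_asr h]
  ring

theorem hasStrictDerivAt_asr {w : ℂ} (h : 0 < w.re) :
    HasStrictDerivAt asr (1 / cosh (asr w)) w := by
  have h1 : ∀ᶠ y in nhds w, sinh (asr y) = y := by
    have o1 : IsOpen {z : ℂ | 0 < z.re} := isOpen_lt continuous_const continuous_re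
    filter_upwards [o1.mem_nhds h] with y hy
    exact sinh_asr (le_of_lt hy)
  have h2 := HasStrictDerivAt.of_local_left_inverse continuous_asr.continuousAt
    (Complex.hasStrictDerivAt_sinh (asr w)) (cosh_asr_ne h) h1
  rw [one_div]
  exact h2

end Pool.Agent.MX.E
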