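import Pool.Agent.MX.E.Pt

/-!
# Project MX, block E: the real parts of the slots where `I ≥ 5/4 R`
-/

namespace Pool.Agent.MX.E

open Complex Pool.Agent.S3.E

/-- `Re (asr w) < I` from `(Re w)² + sinh² I (Im w)² < sinh² I`. -/
theorem asr_re_lt {w : ℂ} {x : ℝ} (hx : 0 < x) (h0 : 0 ≤ w.re)
    (h : w.re ^ 2 + Real.sinh x ^ 2 * w.im ^ 2 < Real.sinh x ^ 2) : (asr w).re < x := by
  obtain ⟨e1, e2⟩ := asr_eqs h0
  have hx0 : 0 < Real.sinh x := Real.sinh_pos_iff.2 hx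
  by_contra hn
  push Not at hn
  have h1 : Real.sinh x ≤ Real.sinh (asr w).re := Real.sinh_le_sinh.2 hn
  have h2 : Real.sinh x ^ 2 ≤ Real.sinh (asr w).re ^ 2 := pow_le_pow_left₀ hx0.le h1 2
  have h3 := Real.sin_sq_add_cos_sq (asr w).im
  have h4 := Real.cosh_sq (asr w).re
  have h5 := sq_nonneg (Real.sin (asr w).im)
  have h6 := sq_nonneg (Real.cos (asr w).im)
  rw [← e1, ← e2, mul_pow, mul_pow, h4] at h
  have h7 : 0 < Real.sinh x ^ 2 := by positivity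
  have k1 := mul_le_mul_of_nonneg_right h2 h6
  have k2 : 0 ≤ Real.sinh x ^ 2 * (Real.sinh (asr w).re ^ 2 * Real.sin (asr w).im ^ 2) := by
    positivity
  nlinarith

section

variable {y b : ℂ}

/-- The coordinates of `b tan y`. -/
theorem bt_re (hc : cos y ≠ 0) : (b * tan y).re * normSq (cos y) =
    b.re * (Real.sin y.re * Real.cos y.re) - b.im * (Real.cosh y.im * Real.sinh y.im) := by
  have h1 := tan_re' hc
  have h2 := tan_im' hc
  rw [mul_re, sub_mul, mul_assoc, mul_assoc, h1, h2]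

theorem bt_im (hc : cos y ≠ 0) : (b * tan y).im * normSq (cos y) =
    b.re * (Real.cosh y.im * Real.sinh y.im) + b.im * (Real.sin y.re * Real.cos y.re) := by
  have h1 := tan_re' hc
  have h2 := tan_im' hc
  rw [mul_im, add_mul, mul_assoc, mul_assoc, h1, h2]

/-- Reduction to the numerators. -/
theorem slope_aux (hn : Nm y.re y.im) (h0 : 0 ≤ (b * tan y).re) {W1 W2 : ℝ}
    (h1 : b.re * (Real.sin y.re * Real.cos y.re) - b.im * (Real.cosh y.im * Real.sinh y.im) = W1)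
    (h2 : b.re * (Real.cosh y.im * Real.sinh y.im) + b.im * (Real.sin y.re * Real.cos y.re) = W2)
    (h : W1 ^ 2 + Real.sinh y.im ^ 2 * W2 ^ 2 < Real.sinh y.im ^ 2 *
      (1 + Real.sinh y.im ^ 2 - Real.sin y.re ^ 2) ^ 2) : (asr (b * tan y)).re < y.im := by
  apply asr_re_lt hn.I0 h0
  have e1 := bt_re (b := b) hn.cos_ne
  have e2 := bt_im (b := b) hn.cos_ne
  have hk : normSq (cos y) = 1 + Real.sinh y.im ^ 2 - Real.sin y.re ^ 2 := by
    rw [normSq_cos]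
    have := Real.sin_sq_add_cos_sq y.re
    linarith
  have hk0 : 0 < normSq (cos y) := normSq_pos.2 hn.cos_ne
  rw [h1] at e1
  rw [h2] at e2
  rw [← hk, ← e1, ← e2] at h
  have h3 : 0 < normSq (cos y) ^ 2 := by positivity
  by_contra hc
  push Not at hc
  have := mul_le_mul_of_nonneg_right hc h3.le
  nlinarith

/-- `sin² R ≤ .64 sinh² I`. -/
theorem Nm.S_le (hn : Nm y.re y.im) (h : 5 / 4 * y.re ≤ y.im) :
    Real.sin y.re ≤ 4 / 5 * Real.sinh y.im := by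
  have h1 := (Real.sin_lt hn.R0).le
  have h2 : y.im ≤ Real.sinh y.im := Real.self_le_sinh_iff.2 hn.I0.le
  linarith

theorem sc_le {S H X h : ℝ} (_hS : 0 ≤ S) (hH : h ^ 2 = H) (h0 : 0 < h) (h1 : H ≤ 174 / 1000)
    (hSH : S ≤ 16 / 25 * H) (hX : X ^ 2 = S * (1 - S)) : X ≤ (4 / 5 - 32 / 125 * H) * h := by
  have hH0 : 0 ≤ H := by rw [← hH]; positivity
  have k : X ^ 2 ≤ ((4 / 5 - 32 / 125 * H) * h) ^ 2 := by
    rw [hX, mul_pow, hH]
    have k1 : S * (1 - S) ≤ 16 / 25 * H * (1 - 16 / 25 * H) := by nlinarith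
    nlinarith [mul_nonneg hH0 (sq_nonneg H)]
  refine abs_le_of_sq_le_sq' k ?_ |>.2
  apply mul_nonneg _ h0.le
  linarith

theorem Ch_le {C h H : ℝ} (hH : h ^ 2 = H) (h0 : 0 < h) (hC : C ^ 2 = 1 + H) :
    C * h ≤ (1 + H / 2) * h := by
  apply mul_le_mul_of_nonneg_right _ h0.le
  have hH0 : 0 ≤ H := by rw [← hH]; positivity
  refine abs_le_of_sq_le_sq' ?_ (by linarith) |>.2
  rw [hC]
  nlinarith [sq_nonneg H]

/-- The numerical inequality of `slS`. -/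
theorem slS_num {b1 b2 H : ℝ} (h1 : 4 / 5 ≤ b1) (h1' : b1 ≤ 53 / 50) (h2 : 0 ≤ b2)
    (hm : 4 / 5 * b1 + b2 ≤ 24 / 25) (hH0 : 0 ≤ H) (hH : H ≤ 174 / 1000) :
    (b1 * (4 / 5 - 32 / 125 * H) + b2 * (1 + H / 2)) ^ 2 + b1 ^ 2 * (H * (1 + H)) <
      (1 + 9 / 25 * H) ^ 2 := by
  have e1 : b1 * (4 / 5 - 32 / 125 * H) + b2 * (1 + H / 2) ≤
      24 / 25 + 12 / 25 * H - 82 / 125 * H * b1 := by nlinarith
  have e0 : 0 ≤ b1 * (4 / 5 - 32 / 125 * H) + b2 * (1 + H / 2) := by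
    have : 0 ≤ 4 / 5 - 32 / 125 * H := by linarith
    positivity
  have e2 := pow_le_pow_left₀ e0 e1 2
  have e3 : (24 / 25 + 12 / 25 * H - 82 / 125 * H * b1) ^ 2 + b1 ^ 2 * (H * (1 + H)) <
      (1 + 9 / 25 * H) ^ 2 := by
    have k := mul_nonneg (sub_nonneg.2 h1) (sub_nonneg.2 h1')
    have k2 : 0 ≤ H * (1 + H) + (82 / 125 * H) ^ 2 := by positivity
    have k3 := mul_nonneg k2 k
    have f1 : (24 / 25 + 12 / 25 * H - 82 / 125 * H * (4 / 5)) ^ 2 +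
        (4 / 5) ^ 2 * (H * (1 + H)) < (1 + 9 / 25 * H) ^ 2 := by nlinarith
    have f2 : (24 / 25 + 12 / 25 * H - 82 / 125 * H * (53 / 50)) ^ 2 +
        (53 / 50) ^ 2 * (H * (1 + H)) < (1 + 9 / 25 * H) ^ 2 := by nlinarith
    -- convexity in `b1`
    obtain ⟨t, ht⟩ : ∃ t : ℝ, t = (b1 - 4 / 5) / (53 / 50 - 4 / 5) := ⟨_, rfl⟩
    have ht0 : 0 ≤ t := by rw [ht]; apply div_nonneg (by linarith) (by norm_num)
    have ht1 : t ≤ 1 := by rw [ht, div_le_one (by norm_num)]; linarith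
    have hb : b1 = 4 / 5 + t * (13 / 50) := by rw [ht]; ring
    have key : (24 / 25 + 12 / 25 * H - 82 / 125 * H * b1) ^ 2 + b1 ^ 2 * (H * (1 + H)) =
        (1 - t) * ((24 / 25 + 12 / 25 * H - 82 / 125 * H * (4 / 5)) ^ 2 +
          (4 / 5) ^ 2 * (H * (1 + H))) +
        t * ((24 / 25 + 12 / 25 * H - 82 / 125 * H * (53 / 50)) ^ 2 +
          (53 / 50) ^ 2 * (H * (1 + H))) -
        t * (1 - t) * (13 / 50) ^ 2 * (H * (1 + H) + (82 / 125 * H) ^ 2) := by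
      rw [hb]; ring
    have k5 : 0 ≤ t * (1 - t) * (13 / 50) ^ 2 * (H * (1 + H) + (82 / 125 * H) ^ 2) := by
      have : 0 ≤ 1 - t := by linarith
      positivity
    have k6 : (1 - t) * ((24 / 25 + 12 / 25 * H - 82 / 125 * H * (4 / 5)) ^ 2 +
          (4 / 5) ^ 2 * (H * (1 + H))) +
        t * ((24 / 25 + 12 / 25 * H - 82 / 125 * H * (53 / 50)) ^ 2 +
          (53 / 50) ^ 2 * (H * (1 + H))) < (1 + 9 / 25 * H) ^ 2 := by
      rcases ht0.eq_or_lt with h | h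
      · rw [← h]; linarith
      · have a1 := mul_lt_mul_of_pos_left f2 h
        have a2 := mul_le_mul_of_nonneg_left f1.le (by linarith : (0:ℝ) ≤ 1 - t)
        linarith
    linarith
  linarith

/-- **The slot of a same-sign neighbour, `I ≥ 5/4 R`.** -/
theorem slS (hn : Nm y.re y.im) (hI : 5 / 4 * y.re ≤ y.im) (hb1 : 4 / 5 ≤ b.re)
    (hb1' : b.re ≤ 53 / 50) (hb2 : b.im ≤ 0) (_hb3 : -b.im ≤ b.re / 5)
    (hm : 4 / 5 * b.re - b.im ≤ 24 / 25) : (asr (b * tan y)).re < y.im := by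
  have hT1 := hn.tan_re
  have hT2 := hn.tan_im
  have h0 : 0 ≤ (b * tan y).re := by
    rw [mul_re]
    have := mul_nonneg (by linarith : (0:ℝ) ≤ b.re) hT1.le
    have := mul_nonneg (by linarith : (0:ℝ) ≤ -b.im) hT2.le
    linarith
  obtain ⟨b1, e1⟩ : ∃ b1 : ℝ, b.re = b1 := ⟨_, rfl⟩
  obtain ⟨b2, e2⟩ : ∃ b2 : ℝ, b.im = -b2 := ⟨-b.im, by ring⟩
  have hSl := hn.S_le hI
  apply slope_aux hn h0 rfl rfl
  rw [e1, e2]
  rw [e1] at hb1 hb1' _hb3 hm
  rw [e2] at hb2 _hb3 hm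
  obtain ⟨H, hH⟩ : ∃ H : ℝ, Real.sinh y.im ^ 2 = H := ⟨_, rfl⟩
  obtain ⟨S, hS⟩ : ∃ S : ℝ, Real.sin y.re ^ 2 = S := ⟨_, rfl⟩
  have hH1 := hn.h1
  have hC := Real.cosh_sq y.im
  have hcs := Real.sin_sq_add_cos_sq y.re
  have hs0 := hn.s0
  have hh0 := hn.h0
  have hc0 : 0 < Real.cos y.re := lt_of_lt_of_le (by norm_num) hn.c0
  have hC0 := Real.cosh_pos y.im
  rw [hH] at hH1 hC
  rw [hS] at hcs
  have hSH : S ≤ 16 / 25 * H := by
    have := pow_le_pow_left₀ hs0.le hSl 2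
    rw [mul_pow, hS, hH] at this
    linarith
  have hS0 : 0 ≤ S := by rw [← hS]; positivity
  have hH0 : 0 < H := by rw [← hH]; positivity
  have X1 := sc_le (X := Real.sin y.re * Real.cos y.re) hS0 hH hh0 hH1 hSH (by
    rw [mul_pow, hS, show Real.cos y.re ^ 2 = 1 - S by linarith])
  have X2 := Ch_le hH hh0 (C := Real.cosh y.im) (by rw [hC]; ring)
  have hX0 : 0 ≤ Real.sin y.re * Real.cos y.re := by positivity
  have hY0 : 0 ≤ Real.cosh y.im * Real.sinh y.im := by positivity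
  have hY2 : (Real.cosh y.im * Real.sinh y.im) ^ 2 = H * (1 + H) := by
    rw [mul_pow, hH, hC]; ring
  obtain ⟨X, hX⟩ : ∃ X : ℝ, Real.sin y.re * Real.cos y.re = X := ⟨_, rfl⟩
  obtain ⟨Y, hY⟩ : ∃ Y : ℝ, Real.cosh y.im * Real.sinh y.im = Y := ⟨_, rfl⟩
  rw [hX] at X1 hX0
  rw [hY] at X2 hY0 hY2
  rw [hX, hY, hH, hS]
  obtain ⟨h, hh⟩ : ∃ h : ℝ, Real.sinh y.im = h := ⟨_, rfl⟩
  rw [hh] at hH hh0 X1 X2
  have hb20 : 0 ≤ b2 := by linarith
  have hb10 : 0 < b1 := by linarith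
  -- the first term
  have A : (b1 * X - -b2 * Y) ^ 2 ≤
      (b1 * (4 / 5 - 32 / 125 * H) + b2 * (1 + H / 2)) ^ 2 * H := by
    rw [← hH, ← mul_pow]
    apply pow_le_pow_left₀
    · have := mul_nonneg hb10.le hX0
      have := mul_nonneg hb20 hY0
      linarith
    · have := mul_le_mul_of_nonneg_left X1 hb10.le
      have := mul_le_mul_of_nonneg_left X2 hb20
      rw [hH]
      linarith
  -- the second term
  have hXY : X ≤ Y := by
    have h1 : X ^ 2 ≤ Y ^ 2 := by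
      have : X ^ 2 = S * (1 - S) := by
        rw [← hX, mul_pow, hS, show Real.cos y.re ^ 2 = 1 - S by linarith]
      rw [this, hY2]
      nlinarith
    exact abs_le_of_sq_le_sq' h1 hY0 |>.2
  have B : (b1 * Y + -b2 * X) ^ 2 ≤ b1 ^ 2 * (H * (1 + H)) := by
    rw [← hY2, ← mul_pow]
    apply pow_le_pow_left₀
    · have : b2 * X ≤ b1 * Y := mul_le_mul (by linarith) hXY hX0 hb10.le
      linarith
    · have := mul_nonneg hb20 hX0
      linarith
  have D : (1 + 9 / 25 * H) ^ 2 ≤ (1 + H - S) ^ 2 :=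
    pow_le_pow_left₀ (by positivity) (by linarith) 2
  have N := slS_num hb1 hb1' hb20 (by linarith) hH0.le hH1
  have B' := mul_le_mul_of_nonneg_left B hH0.le
  have D' := mul_le_mul_of_nonneg_left D hH0.le
  have N' := mul_lt_mul_of_pos_left N hH0
  linarith

/-- **The slot of an opposite neighbour, `I ≥ 5/4 R`.** -/
theorem slO (hn : Nm y.re y.im) (hI : 5 / 4 * y.re ≤ y.im) (hb1 : 0 < b.re) (hb2 : 0 ≤ b.im)
    (hb : b.re ^ 2 + b.im ^ 2 ≤ 121 / 100) (h0 : 0 ≤ (b * tan y).re) :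
    (asr (b * tan y)).re < y.im := by
  obtain ⟨b1, e1⟩ : ∃ b1 : ℝ, b.re = b1 := ⟨_, rfl⟩
  obtain ⟨b2, e2⟩ : ∃ b2 : ℝ, b.im = b2 := ⟨_, rfl⟩
  have hSl := hn.S_le hI
  have hre := bt_re (b := b) hn.cos_ne
  have hk0 : 0 < normSq (cos y) := normSq_pos.2 hn.cos_ne
  have hW0 : 0 ≤ (b * tan y).re * normSq (cos y) := mul_nonneg h0 hk0.le
  rw [hre] at hW0
  apply slope_aux hn h0 rfl rfl
  rw [e1, e2] at hW0 hb ⊢
  rw [e1] at hb1
  rw [e2] at hb2
  obtain ⟨H, hH⟩ : ∃ H : ℝ, Real.sinh y.im ^ 2 = H := ⟨_, rfl⟩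
  obtain ⟨S, hS⟩ : ∃ S : ℝ, Real.sin y.re ^ 2 = S := ⟨_, rfl⟩
  have hH1 := hn.h1
  have hC := Real.cosh_sq y.im
  have hcs := Real.sin_sq_add_cos_sq y.re
  have hs0 := hn.s0
  have hh0 := hn.h0
  have hc0 : 0 < Real.cos y.re := lt_of_lt_of_le (by norm_num) hn.c0
  have hC0 := Real.cosh_pos y.im
  rw [hH] at hH1 hC
  rw [hS] at hcs
  have hSH : S ≤ 16 / 25 * H := by
    have := pow_le_pow_left₀ hs0.le hSl 2
    rw [mul_pow, hS, hH] at this
    linarith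
  have hS0 : 0 ≤ S := by rw [← hS]; positivity
  have hH0 : 0 < H := by rw [← hH]; positivity
  have hX0 : 0 ≤ Real.sin y.re * Real.cos y.re := by positivity
  have hY0 : 0 ≤ Real.cosh y.im * Real.sinh y.im := by positivity
  have hX2 : (Real.sin y.re * Real.cos y.re) ^ 2 = S * (1 - S) := by
    rw [mul_pow, hS, show Real.cos y.re ^ 2 = 1 - S by linarith]
  have hY2 : (Real.cosh y.im * Real.sinh y.im) ^ 2 = H * (1 + H) := by
    rw [mul_pow, hH, hC]; ring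
  obtain ⟨X, hX⟩ : ∃ X : ℝ, Real.sin y.re * Real.cos y.re = X := ⟨_, rfl⟩
  obtain ⟨Y, hY⟩ : ∃ Y : ℝ, Real.cosh y.im * Real.sinh y.im = Y := ⟨_, rfl⟩
  rw [hX] at hX0 hX2
  rw [hY] at hY0 hY2
  rw [hX, hY] at hW0
  rw [hX, hY, hH, hS]
  have hbb : 0 ≤ b1 ^ 2 + b2 ^ 2 := by positivity
  -- `W1 ≤ b1 X`
  have A : (b1 * X - b2 * Y) ^ 2 ≤ 121 / 100 * (S * (1 - S)) := by
    have h1 : (b1 * X - b2 * Y) ^ 2 ≤ (b1 * X) ^ 2 := by
      apply pow_le_pow_left₀ hW0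
      have := mul_nonneg hb2 hY0
      linarith
    rw [mul_pow, hX2] at h1
    have h2 : b1 ^ 2 * (S * (1 - S)) ≤ 121 / 100 * (S * (1 - S)) := by
      apply mul_le_mul_of_nonneg_right
      · have := sq_nonneg b2
        linarith
      · rw [← hX2]; positivity
    linarith
  have B : (b1 * X - b2 * Y) ^ 2 + (b1 * Y + b2 * X) ^ 2 =
      (b1 ^ 2 + b2 ^ 2) * ((S + H) * (1 + H - S)) := by
    have : (b1 * X - b2 * Y) ^ 2 + (b1 * Y + b2 * X) ^ 2 = (b1 ^ 2 + b2 ^ 2) * (X ^ 2 + Y ^ 2) := by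
      ring
    rw [this, hX2, hY2]
    ring
  have B' : (b1 ^ 2 + b2 ^ 2) * ((S + H) * (1 + H - S)) ≤
      121 / 100 * ((S + H) * (1 + H - S)) := by
    apply mul_le_mul_of_nonneg_right hb
    apply mul_nonneg <;> linarith
  have hA0 := sq_nonneg (b1 * X - b2 * Y)
  have K : 121 / 100 * (S * (1 - S)) < H * ((1 + H - S) * (1 - 21 / 100 * H - 221 / 100 * S)) := by
    have k1 : S * (1 - S) ≤ 16 / 25 * H * (1 - 16 / 25 * H) := by nlinarith
    have k2 : (1 + 9 / 25 * H) * (1 - 21 / 100 * H - 221 / 100 * (16 / 25 * H)) ≤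
        (1 + H - S) * (1 - 21 / 100 * H - 221 / 100 * S) := by
      apply mul_le_mul (by linarith) (by linarith) _ (by linarith)
      linarith
    have k3 : 121 / 100 * (16 / 25 * (1 - 16 / 25 * H)) <
        (1 + 9 / 25 * H) * (1 - 21 / 100 * H - 221 / 100 * (16 / 25 * H)) := by nlinarith
    have k4 := mul_lt_mul_of_pos_left (k3.trans_le k2) hH0
    linarith
  have L : (b1 * X - b2 * Y) ^ 2 + H * (b1 * Y + b2 * X) ^ 2 ≤
      121 / 100 * (S * (1 - S)) + H * (121 / 100 * ((S + H) * (1 + H - S))) := by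
    have e : H * (b1 * Y + b2 * X) ^ 2 = H * ((b1 ^ 2 + b2 ^ 2) * ((S + H) * (1 + H - S))) -
        H * (b1 * X - b2 * Y) ^ 2 := by rw [← B]; ring
    rw [e]
    have := mul_le_mul_of_nonneg_left B' hH0.le
    have := mul_nonneg hH0.le hA0
    linarith
  have e : H * (1 + H - S) ^ 2 = H * ((1 + H - S) * (1 - 21 / 100 * H - 221 / 100 * S)) +
      H * (121 / 100 * ((S + H) * (1 + H - S))) := by ring
  rw [e]
  linarith

end

/-! ### Numbers of the disc -/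

theorem slQ {R I : ℝ} (h0 : 0 < R) (hI : 0 < I) (hd : R ^ 2 + I ^ 2 ≤ Real.pi / 5 * (R + I / 4)) :
    R ^ 2 + I ^ 2 ≤ 0.62832 * R + 0.15708 * I := by
  have hp := Real.pi_lt_d4
  have h1 : Real.pi / 5 * (R + I / 4) ≤ 0.62832 * (R + I / 4) :=
    mul_le_mul_of_nonneg_right (by linarith) (by positivity)
  linarith

theorem slc_poly {R I : ℝ} (hQ : R ^ 2 + I ^ 2 ≤ 0.62832 * R + 0.15708 * I) :
    0.8 - 0.386416 * R ^ 2 + 0.406504 * I ^ 2 - 0.19634 * (0.3 * (R * I) - 0.0225) +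
      1.0324 * (R * I) ≤ 0.96 := by
  nlinarith [sq_nonneg (R - 0.33652 * I - 0.23023), sq_nonneg (I - 0.39885)]

theorem cosh_le' {x : ℝ} (h0 : 0 ≤ x) (h1 : x ≤ 1 / 2) :
    Real.cosh x ≤ 1 + x ^ 2 / 2 + x ^ 4 / 20 + x ^ 6 / 800 := by
  have e : Real.cosh x = 1 + 2 * Real.sinh (x / 2) ^ 2 := by
    have h2 := Real.cosh_two_mul (x / 2)
    rw [show 2 * (x / 2) = x by ring] at h2
    have h3 := Real.cosh_sq (x / 2)
    linarith
  have h2 := sinh_le (x := x / 2) (by linarith) (by linarith)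
  have h3 : 0 ≤ Real.sinh (x / 2) := Real.sinh_nonneg_iff.2 (by linarith)
  have h4 := pow_le_pow_left₀ h3 h2 2
  rw [e]
  have e2 : (x / 2 + (x / 2) ^ 3 / 5) ^ 2 = x ^ 2 / 4 + x ^ 4 / 40 + x ^ 6 / 1600 := by ring
  linarith

/-- **The bound of `4/5 cos R cosh I + sin R sinh I` on the disc.** -/
theorem slC {R I : ℝ} (h0 : 0 < R) (hI : 0 < I)
    (hd : R ^ 2 + I ^ 2 ≤ Real.pi / 5 * (R + I / 4)) :
    4 / 5 * (Real.cos R * Real.cosh I) + Real.sin R * Real.sinh I ≤ 24 / 25 := by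
  have hQ := slQ h0 hI hd
  have hR1 := num_R hQ
  have hI1 := num_I hQ
  have hR2 : R ^ 2 ≤ 0.4073 := by nlinarith
  have hI2 : I ^ 2 ≤ 0.16193 := by nlinarith
  have hc := Pool.Agent.AT.E.V4_cos4 h0.le
  have hch := cosh_le' hI.le (by linarith)
  have hsh := sinh_le hI.le (by linarith)
  have hs := (Real.sin_lt h0).le
  have hs0 : 0 < Real.sin R := Real.sin_pos_of_pos_of_lt_pi h0 (by linarith [Real.pi_gt_three])
  have hR0 := sq_nonneg R
  have hI0 := sq_nonneg I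
  have c1 : Real.cos R ≤ 1 - 0.48302 * R ^ 2 := by
    have : R ^ 4 ≤ 0.4073 * R ^ 2 := by
      have e : R ^ 4 = R ^ 2 * R ^ 2 := by ring
      rw [e]
      exact mul_le_mul_of_nonneg_right hR2 hR0
    norm_num at this ⊢
    linarith
  have c2 : Real.cosh I ≤ 1 + 0.50813 * I ^ 2 := by
    have k1 : I ^ 4 ≤ 0.16193 * I ^ 2 := by
      have e : I ^ 4 = I ^ 2 * I ^ 2 := by ring
      rw [e]
      exact mul_le_mul_of_nonneg_right hI2 hI0
    have k2 : I ^ 6 ≤ 0.0263 * I ^ 2 := by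
      have e : I ^ 6 = I ^ 4 * I ^ 2 := by ring
      rw [e]
      apply mul_le_mul_of_nonneg_right _ hI0
      norm_num at k1 hI2 ⊢
      linarith
    norm_num at k1 k2 ⊢
    linarith
  have c3 : Real.sinh I ≤ 1.0324 * I := by
    have k1 : I ^ 3 ≤ 0.16193 * I := by
      have e : I ^ 3 = I ^ 2 * I := by ring
      rw [e]
      exact mul_le_mul_of_nonneg_right hI2 hI.le
    norm_num at k1 ⊢
    linarith
  have d1 : Real.cos R * Real.cosh I ≤ (1 - 0.48302 * R ^ 2) * (1 + 0.50813 * I ^ 2) :=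
    mul_le_mul c1 c2 (Real.cosh_pos I).le (by norm_num at hR2 ⊢; linarith)
  have d2 : Real.sin R * Real.sinh I ≤ R * (1.0324 * I) :=
    mul_le_mul hs c3 (Real.sinh_nonneg_iff.2 hI.le) h0.le
  have e1 : (1 - 0.48302 * R ^ 2) * (1 + 0.50813 * I ^ 2) =
      1 - 0.48302 * R ^ 2 + 0.50813 * I ^ 2 - 0.48302 * 0.50813 * (R * I) ^ 2 := by ring
  have e2 : 0.3 * (R * I) - 0.0225 ≤ (R * I) ^ 2 := by
    nlinarith [sq_nonneg (R * I - 0.15)]
  have k := slc_poly hQ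
  rw [e1] at d1
  norm_num at d1 d2 e2 k ⊢
  linarith

/-- `sinh I` and `sin R` on the disc where `I ≤ 5/4 R`. -/
theorem slD_aux {R I : ℝ} (h0 : 0 < R) (hI : 0 < I)
    (hd : R ^ 2 + I ^ 2 ≤ Real.pi / 5 * (R + I / 4)) (h : I ≤ 5 / 4 * R) :
    Real.sinh I ≤ 1318 / 1000 * Real.sin R ∧
      Real.cosh I * Real.sinh I < 2 * Real.sin R * Real.cos R := by
  have hQ := slQ h0 hI hd
  have hR1 := num_R hQ
  have hI1 := num_I hQ
  have hI2 : I ^ 2 ≤ 0.16193 := by nlinarith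
  have hsh := sinh_le hI.le (by linarith)
  have hsR := Pool.Agent.AT.E.V4_sin3 h0.le
  have hch := cosh_le hI.le (by linarith)
  have hc2 : 1 - R ^ 2 / 2 ≤ Real.cos R := Real.one_sub_sq_div_two_le_cos
  have hh0 : 0 < Real.sinh I := Real.sinh_pos_iff.2 hI
  have hs0 : 0 < Real.sin R := Real.sin_pos_of_pos_of_lt_pi h0 (by linarith [Real.pi_gt_three])
  have hch' : Real.cosh I ≤ 1.0972 := by
    norm_num at hI2 ⊢
    linarith
  have k3 : I ^ 3 ≤ 0.16193 * I := by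
    have e : I ^ 3 = I ^ 2 * I := by ring
    rw [e]
    exact mul_le_mul_of_nonneg_right hI2 hI.le
  rcases le_total R (33 / 100) with hR | hR
  · have hR2 : R ^ 2 ≤ 1089 / 10000 := by nlinarith
    have e3 : R ^ 3 ≤ 1089 / 10000 * R := by
      have e : R ^ 3 = R ^ 2 * R := by ring
      rw [e]
      exact mul_le_mul_of_nonneg_right hR2 h0.le
    have hI3 : I ^ 3 ≤ (5 / 4 * R) ^ 3 := pow_le_pow_left₀ hI.le h 3
    have e4 : (5 / 4 * R) ^ 3 = 125 / 64 * R ^ 3 := by ring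
    rw [e4] at hI3
    have f1 : Real.sinh I ≤ 12926 / 10000 * R := by linarith
    have f2 : 9818 / 10000 * R ≤ Real.sin R := by linarith
    refine ⟨by linarith, ?_⟩
    have g1 : Real.cosh I * Real.sinh I ≤ 1.0972 * (12926 / 10000 * R) :=
      mul_le_mul hch' f1 hh0.le (by norm_num)
    have g2 : 9818 / 10000 * R * (9455 / 10000) ≤ Real.sin R * Real.cos R :=
      mul_le_mul f2 (by linarith) (by norm_num) hs0.le
    norm_num at g1
    linarith
  · have hs' : Real.sin (33 / 100) ≤ Real.sin R :=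
      Real.sin_le_sin_of_le_of_le_pi_div_two (by linarith [Real.pi_gt_three])
        (by linarith [Real.pi_gt_three]) hR
    have hs3 := Pool.Agent.AT.E.V4_sin3 (x := 33 / 100) (by norm_num)
    have f2 : 324 / 1000 ≤ Real.sin R := by
      norm_num at hs3
      linarith
    have f1 : Real.sinh I ≤ 4155 / 10000 := by
      norm_num at k3
      linarith
    refine ⟨by linarith, ?_⟩
    have g1 : Real.cosh I * Real.sinh I ≤ 1.0972 * (4155 / 10000) :=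
      mul_le_mul hch' f1 hh0.le (by norm_num)
    have hc3 : 79 / 100 ≤ Real.cos R := by nlinarith
    have g2 : 324 / 1000 * (79 / 100) ≤ Real.sin R * Real.cos R :=
      mul_le_mul f2 hc3 (by norm_num) hs0.le
    norm_num at g1 g2
    linarith

/-- **The numbers of the disc where `I ≤ 5/4 R`.** -/
theorem slD {R I : ℝ} (h0 : 0 < R) (hI : 0 < I)
    (hd : R ^ 2 + I ^ 2 ≤ Real.pi / 5 * (R + I / 4)) (h : I ≤ 5 / 4 * R) :
    Real.sinh I ^ 2 - Real.sin R ^ 2 ≤ 14 / 25 * (Real.sin R * Real.sinh I) ∧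
      Real.cosh I * Real.sinh I < 2 * Real.sin R * Real.cos R := by
  obtain ⟨h1, h2⟩ := slD_aux h0 hI hd h
  refine ⟨?_, h2⟩
  have hh0 : 0 < Real.sinh I := Real.sinh_pos_iff.2 hI
  have hQ := slQ h0 hI hd
  have hR1 := num_R hQ
  have hs0 : 0 < Real.sin R := Real.sin_pos_of_pos_of_lt_pi h0 (by linarith [Real.pi_gt_three])
  nlinarith [mul_nonneg (sub_nonneg.2 h1) hh0.le, mul_nonneg (sub_nonneg.2 h1) hs0.le]

end Pool.Agent.MX.E
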