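import Pool.Agent.MX.E.SlotR

/-!
# Project MX, block E: the one-vertex lemmas

The lemmas of `Pool.Agent.AT2.E.VA` with the chord inequality of the slots as the hypothesis.
-/

namespace Pool.Agent.MX.E

open Real Pool.Agent.AT.E
open Pool.Agent.S3.E hiding bo ro be KK
open Pool.Agent.AT2.E (half_slot ph_le_th sin_cos_le sin_R_le k2_sc s2_sc)

variable {ι : Type*} {a w R I : ℝ} {J : Finset ι} {ρ β p r : ι → ℝ}

/-- The chord inequality of a vertex. -/
theorem Vx.chord (h : AT2.E.Vx a w R I J ρ β p r)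
    (hc : ∀ j ∈ J, th R I * p j ≤ xx R I * r j) :
    a * (xx R I * R + th R I * I) ≤ π * xx R I := by
  have h1 : ∑ j ∈ J, th R I * p j ≤ ∑ j ∈ J, xx R I * r j := Finset.sum_le_sum hc
  rw [← Finset.mul_sum, ← Finset.mul_sum] at h1
  have e1 := h.hR
  have e2 := h.hI
  calc a * (xx R I * R + th R I * I) = xx R I * (a * R) + th R I * (a * I) := by ring
    _ = xx R I * (π - (∑ j ∈ J, r j + w * th R I)) +
        th R I * (∑ j ∈ J, p j + w * xx R I) := by
        rw [e2, show a * R = π - (∑ j ∈ J, r j + w * th R I) by linarith]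
    _ ≤ π * xx R I := by linarith

theorem Vx.chord3 (h : AT2.E.Vx a w R I J ρ β p r)
    (hc : ∀ j ∈ J, th R I * p j ≤ xx R I * r j) :
    3 * (xx R I * R + th R I * I) ≤ π * xx R I := by
  have h1 := Vx.chord h hc
  have h2 : 0 ≤ xx R I * R + th R I * I := by
    have := xx_pos h.R0 h.R1 h.I0
    have := th_pos h.R0 h.R1 h.I0
    have := h.R0
    have := h.I0
    positivity
  have h3 := mul_le_mul_of_nonneg_right h.a3 h2
  linarith

theorem Vx.th_le (h : AT2.E.Vx a w R I J ρ β p r) (hk : k2 R I ≤ 1)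
    (hc : ∀ j ∈ J, th R I * p j ≤ xx R I * r j) : th R I ≤ 27 / 50 := by
  by_contra hn
  push Not at hn
  have h1 := V4_theta (xx_pos h.R0 h.R1 h.I0) h.R0 h.R1 h.I0 hn.le (th_lt h.R0 h.R1 h.I0)
    (tan_R_eq h.R0 h.R1 h.I0) (tanh_I_eq h.R0 h.R1 h.I0) (sin_th_le h.R0 h.R1 h.I0 hk)
  have := Vx.chord3 h hc
  linarith

theorem Vx.pos_lt (h : AT2.E.Vx a w R I J ρ β p r) (hk : k2 R I ≤ 1)
    (hc : ∀ j ∈ J, th R I * p j ≤ xx R I * r j) :
    2 * (sin (th R I) * cosh (xx R I)) ^ 2 < 1 := by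
  by_contra hn
  push Not at hn
  have h1 := V4_pos (xx_pos h.R0 h.R1 h.I0) h.R0 h.R1 h.I0 (th_pos h.R0 h.R1 h.I0)
    (th_lt h.R0 h.R1 h.I0)
    (tan_R_eq h.R0 h.R1 h.I0) (tanh_I_eq h.R0 h.R1 h.I0) (sin_th_le h.R0 h.R1 h.I0 hk) hn
  have := Vx.chord3 h hc
  linarith

/-- Lemma B. -/
theorem Vx.lemB (h : AT2.E.Vx a w R I J ρ β p r) (hk : k2 R I ≤ 1)
    (hc : ∀ j ∈ J, th R I * p j ≤ xx R I * r j) : ph R I ≤ π / 4 := by
  have h1 := ph_le_th h.R0 h.R1 h.I0
  have h2 := Vx.th_le h hk hc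
  linarith [pi_gt_three]

/-- **Lemma C.** The argument of `tan z` is less than `π / 2 - 1 / 2`. -/
theorem Vx.lemC (h : AT2.E.Vx a w R I J ρ β p r) (hk : k2 R I ≤ 1) 
    (hch : ∀ j ∈ J, th R I * p j ≤ xx R I * r j) :
    al R I + 1 / 2 < π / 2 := by
  have h0 := h.R0
  have h1 := h.R1
  have hI := h.I0
  have hpi := pi_gt_three
  have ht := th_pos h0 h1 hI
  have hx := xx_pos h0 h1 hI
  obtain ⟨hs1, hc1⟩ := sin_cos_le ht (Vx.th_le h hk hch)
  have hs := sin_th_le h0 h1 hI hk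
  have hs0 : 0 < sin (th R I) := sin_pos_of_pos_of_lt_pi ht (by linarith [th_lt h0 h1 hI])
  have hc0 : 0 < cos (th R I) := by linarith
  have hsx : 0 < sinh (xx R I) := sinh_pos_iff.2 hx
  have hcx := cosh_pos (xx R I)
  have hT := V1_tan_pos h0 h1 hI
  have e := tan_al_eq h0 h1 hI
  by_contra hc
  push Not at hc
  have hT1 : 9 / 5 ≤ tan (al R I) := by
    have e1 : tan (π / 2 - 1 / 2) ≤ tan (al R I) := by
      rcases eq_or_lt_of_le (show π / 2 - 1 / 2 ≤ al R I by linarith) with e | e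
      · rw [e]
      · exact (tan_lt_tan_of_nonneg_of_lt_pi_div_two (by linarith) (al_lt R I) e).le
    rw [tan_pi_div_two_sub] at e1
    have e2 := V1_tan_half
    have e3 : 0 < tan (1 / 2) := tan_pos_of_pos_of_lt_pi_div_two (by norm_num) (by linarith)
    refine le_trans ?_ e1
    rw [le_inv_comm₀ (by norm_num) e3]
    linarith
  rw [tanh_eq_sinh_div_cosh, tan_eq_sin_div_cos (th R I)] at e
  have e2 : tan (al R I) * sinh (xx R I) * cos (th R I) = sin (th R I) * cosh (xx R I) := by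
    field_simp at e
    linarith
  have e3 : 9 / 5 * sinh (xx R I) * (8576 / 10000) ≤ sin (th R I) * cosh (xx R I) := by
    rw [← e2]
    have a1 : 9 / 5 * sinh (xx R I) ≤ tan (al R I) * sinh (xx R I) :=
      mul_le_mul_of_nonneg_right hT1 hsx.le
    exact mul_le_mul a1 hc1 (by norm_num) (by positivity)
  have e4 : (9 / 5 * sinh (xx R I) * (8576 / 10000)) ^ 2 ≤ (sin (th R I) * cosh (xx R I)) ^ 2 :=
    pow_le_pow_left₀ (by positivity) e3 2
  have e5 : (sin (th R I) * cosh (xx R I)) ^ 2 =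
      sin (th R I) ^ 2 + sin (th R I) ^ 2 * sinh (xx R I) ^ 2 := by
    rw [mul_pow, cosh_sq]
    ring
  have e6 : sin (th R I) ^ 2 ≤ sinh (xx R I) ^ 2 := pow_le_pow_left₀ hs0.le hs 2
  have e7 : sin (th R I) ^ 2 ≤ (5142 / 10000) ^ 2 := pow_le_pow_left₀ hs0.le hs1 2
  have e8 : sin (th R I) ^ 2 * sinh (xx R I) ^ 2 ≤ (5142 / 10000) ^ 2 * sinh (xx R I) ^ 2 :=
    mul_le_mul_of_nonneg_right e7 (sq_nonneg _)
  have e9 : 0 < sinh (xx R I) ^ 2 := by positivity
  rw [e5] at e4
  norm_num at e8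
  nlinarith

/-- `|sin z| ≤ 1`. -/
theorem Vx.sig3 (h : AT2.E.Vx a w R I J ρ β p r) (hk : k2 R I ≤ 1) 
    (hch : ∀ j ∈ J, th R I * p j ≤ xx R I * r j) :
    s2 R I ≤ 1 := by
  rcases h.h0.eq_or_lt with hw | hw
  · exact (h.toAT hw.symm).sig3 hk
  have h0 := h.R0
  have h1 := h.R1
  have hI := h.I0
  have hpi := pi_gt_three
  have ht := th_pos h0 h1 hI
  obtain ⟨hs1, hc1⟩ := sin_cos_le ht (Vx.th_le h hk hch)
  have hs0 : 0 < sin (th R I) := sin_pos_of_pos_of_lt_pi ht (by linarith [th_lt h0 h1 hI])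
  obtain ⟨hr1, hr2⟩ := sin_R_le h0 (AT2.E.Vx.R_le h hw)
  have hsR : 0 < sin R := sin_pos_of_pos_of_lt_pi h0 (by linarith)
  have e := tanh_I_eq h0 h1 hI
  have hch : 1 ≤ cosh (xx R I) := one_le_cosh _
  have hcI := cosh_pos I
  have hsI : 0 < sinh I := sinh_pos_iff.2 hI
  have e1 : sinh I ≤ 5142 / 10000 * cosh I := by
    rw [tanh_eq_sinh_div_cosh] at e
    have e2 : sin (th R I) / cosh (xx R I) ≤ 5142 / 10000 := by
      rw [div_le_iff₀ (by linarith)]
      linarith
    rw [← e, div_le_iff₀ hcI] at e2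
    exact e2
  have e2 : sinh I ^ 2 ≤ (5142 / 10000) ^ 2 * (sinh I ^ 2 + 1) := by
    rw [← cosh_sq, ← mul_pow]
    exact pow_le_pow_left₀ hsI.le e1 2
  have e3 : sin R ^ 2 ≤ (782 / 1000) ^ 2 := pow_le_pow_left₀ hsR.le hr1 2
  rw [s2_sc]
  norm_num at e2 e3
  linarith

/-- The angle `φ`. -/
theorem Vx.phi3 (h : AT2.E.Vx a w R I J ρ β p r) (hk : k2 R I ≤ 1) 
    (hch : ∀ j ∈ J, th R I * p j ≤ xx R I * r j) :
    ph R I ≤ 9 / 20 ∧ (ph R I ≤ 1 / 3 ∨ 21 / 50 ≤ k2 R I) := by
  rcases h.h0.eq_or_lt with hw | hw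
  · exact (h.toAT hw.symm).phi3 hk
  have h0 := h.R0
  have h1 := h.R1
  have hI := h.I0
  have hpi := pi_gt_three
  have ht := th_pos h0 h1 hI
  have ht' := th_lt h0 h1 hI
  have hx := xx_pos h0 h1 hI
  have hR7 := AT2.E.Vx.R_le h hw
  obtain ⟨hs1, hc1⟩ := sin_cos_le ht (Vx.th_le h hk hch)
  have hs0 : 0 < sin (th R I) := sin_pos_of_pos_of_lt_pi ht (by linarith)
  obtain ⟨hr1, hr2⟩ := sin_R_le h0 hR7
  have hsR : 0 < sin R := sin_pos_of_pos_of_lt_pi h0 (by linarith)
  have hcR : 0 < cos R := by linarith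
  have hcθ : 0 < cos (th R I) := by linarith
  have hsx : 0 < sinh (xx R I) := sinh_pos_iff.2 hx
  have hcx := cosh_pos (xx R I)
  have htR : tan R ≤ 1256 / 1000 := by
    rw [tan_eq_sin_div_cos, div_le_iff₀ hcR]
    linarith
  have htR0 : 0 < tan R := by
    rw [tan_eq_sin_div_cos]
    positivity
  have e1 := tan_R_eq h0 h1 hI
  have hsx1 : sinh (xx R I) ≤ 1256 / 1000 := by
    have e2 : sinh (xx R I) = tan R * cos (th R I) := by
      rw [e1]
      field_simp
    rw [e2]
    calc tan R * cos (th R I) ≤ 1256 / 1000 * 1 :=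
          mul_le_mul htR (cos_le_one _) hcθ.le (by norm_num)
      _ = 1256 / 1000 := by norm_num
  constructor
  · -- `tan φ = tanh x tan θ ≤ 0.783 * 0.5996`
    have e2 := tan_ph_eq h0 h1 hI
    have e3 : tanh (xx R I) ≤ 783 / 1000 := by
      rw [tanh_eq_sinh_div_cosh, div_le_iff₀ hcx]
      refine le_of_sq_le_sq ?_ (by positivity)
      rw [mul_pow, cosh_sq]
      have : sinh (xx R I) ^ 2 ≤ (1256 / 1000) ^ 2 := pow_le_pow_left₀ hsx.le hsx1 2
      norm_num at this ⊢
      linarith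
    have e4 : tan (th R I) ≤ 59959 / 100000 := by
      rw [tan_eq_sin_div_cos, div_le_iff₀ hcθ]
      linarith
    have e4' : 0 < tan (th R I) := tan_pos_of_pos_of_lt_pi_div_two ht ht'
    have e5 : tan (ph R I) ≤ 4695 / 10000 := by
      rw [e2]
      calc tanh (xx R I) * tan (th R I) ≤ 783 / 1000 * (59959 / 100000) :=
            mul_le_mul e3 e4 e4'.le (by norm_num)
        _ ≤ 4695 / 10000 := by norm_num
    by_contra hn
    push Not at hn
    have e6 := tan_lt_tan_of_nonneg_of_lt_pi_div_two (by norm_num : (0 : ℝ) ≤ 9 / 20)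
      (ph_lt R I) hn
    have e7 : 4697 / 10000 ≤ tan (9 / 20) := by
      have hc : 0 < cos (9 / 20) := cos_pos_of_mem_Ioo ⟨by linarith, by linarith⟩
      rw [tan_eq_sin_div_cos, le_div_iff₀ hc]
      have h2 := V4_sin3 (x := 9 / 20) (by norm_num)
      have h3 := V4_cos4 (x := 9 / 20) (by norm_num)
      norm_num at h2 h3 ⊢
      linarith
    linarith
  · by_contra hcon
    push Not at hcon
    obtain ⟨hp, hk42⟩ := hcon
    rw [k2_sc] at hk42
    -- `R > 6/7`
    have hR6 : 6 / 7 ≤ R := by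
      by_contra hn
      push Not at hn
      have h2 : sin R ≤ sin (6 / 7) :=
        sin_le_sin_of_le_of_le_pi_div_two (by linarith) (by linarith) hn.le
      have h3 := V4_sin5 (x := 6 / 7) (by norm_num)
      have h4 : sin R ≤ 7561 / 10000 := by
        norm_num at h3 ⊢
        linarith
      have h5 : sin R ^ 2 ≤ (7561 / 10000) ^ 2 := pow_le_pow_left₀ hsR.le h4 2
      have h6 := sin_sq_add_cos_sq R
      have h7 := sq_nonneg (sinh I)
      norm_num at h5
      linarith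
    -- `θ > 1/3`, `tanh I > 0.265`
    have hθ3 : 1 / 3 < th R I := lt_of_lt_of_le hp (ph_le_th h0 h1 hI)
    have htph : 1 / 3 < tan (ph R I) := by
      have h2 : ph R I < tan (ph R I) := lt_tan (by linarith) (ph_lt R I)
      linarith
    rw [tan_ph] at htph
    have hIpos : 265 / 1000 ≤ tanh I := by
      by_contra hn
      push Not at hn
      have h2 : 0 ≤ tanh I := V1_tanh_nonneg hI.le
      have h3 : tan R * tanh I ≤ 1256 / 1000 * (265 / 1000) :=
        mul_le_mul htR hn.le h2 (by norm_num)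
      norm_num at h3
      linarith
    have hI1 : 265 / 1000 ≤ I := by
      have h2 : tanh I ≤ I := by
        rw [tanh_eq_sinh_div_cosh, div_le_iff₀ (cosh_pos I)]
        have h5 := V6_artanh (v := I) hI.le
        have h6 : 0 ≤ sinh I := sinh_nonneg_iff.2 hI.le
        have hd : ∀ v : ℝ, HasDerivAt (fun u : ℝ => u * cosh u - sinh u) (v * sinh v) v := by
          intro v
          have h1 := ((hasDerivAt_id' v).mul (Real.hasDerivAt_cosh v)).sub (Real.hasDerivAt_sinh v)
          refine h1.congr_deriv ?_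
          ring
        have hm : MonotoneOn (fun u : ℝ => u * cosh u - sinh u) (Set.Ici 0) := by
          apply monotoneOn_of_deriv_nonneg (convex_Ici 0)
          · exact fun y _ => (hd y).continuousAt.continuousWithinAt
          · exact fun y _ => (hd y).differentiableAt.differentiableWithinAt
          · intro y hy
            rw [(hd y).deriv]
            have : 0 ≤ y := interior_subset hy
            exact mul_nonneg this (sinh_nonneg_iff.2 this)
        have := hm (Set.mem_Ici.2 le_rfl) (Set.mem_Ici.2 hI.le) hI.le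
        simp at this
        linarith
      linarith
    -- the chord inequality
    have hch := Vx.chord h hch
    have ha := (h.big hw).1
    have hxs : xx R I ≤ 1256 / 1000 := (self_le_sinh_iff.2 hx.le).trans hsx1
    have hpi4 := pi_lt_d4
    have h2 : 0 ≤ xx R I * R + th R I * I := by positivity
    have h3 : 7 / 2 * (xx R I * R + th R I * I) ≤ π * xx R I :=
      (mul_le_mul_of_nonneg_right ha h2).trans hch
    have h4 : xx R I * (6 / 7) ≤ xx R I * R := mul_le_mul_of_nonneg_left hR6 hx.le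
    have h5 : 1 / 3 * (265 / 1000) ≤ th R I * I :=
      mul_le_mul hθ3.le hI1 (by norm_num) ht.le
    have h6 : π * xx R I ≤ 3.1416 * xx R I := mul_le_mul_of_nonneg_right hpi4.le hx.le
    norm_num at h5 h6
    linarith

end Pool.Agent.MX.E
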