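import Pool.Agent.MX.E.Vert
import Pool.Agent.MX.E.VA
import Pool.Agent.MX.E.Slope

/-!
# Project MX, block E: the a priori inequalities at a zero

`(B)`-vertices with an opposite neighbour: `I < (5/4) R`, hence `|b|² ≤ 1 + (3/5) arg b` for the
coefficient which such a vertex gives. `(A)`-vertices: maximum principle for `|cos z|²`.
-/

namespace Pool.Agent.MX.E

open Complex Pool.Agent.AT.E
open Pool.Agent.S3.E hiding bo ro be KK

variable {ι : Type*}

/-- If `b₂ ≤ b₁ / 2` then `arg b ≤ 1/2`. -/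
theorem arg_le_half {b : ℂ} (h1 : 0 < b.re) (h2 : 0 ≤ b.im) (h3 : 2 * b.im ≤ b.re) :
    arg b ≤ 1 / 2 := by
  have hb0 : b ≠ 0 := by
    intro h
    rw [h] at h1
    simp at h1
  have hro : 0 < ‖b‖ := norm_pos_iff.2 hb0
  have ha0 : 0 ≤ arg b := arg_nonneg_iff.2 h2
  have ha1 : arg b < Real.pi / 2 :=
    lt_of_le_of_lt (le_abs_self _) (abs_arg_lt_pi_div_two_iff.mpr (Or.inl h1))
  have e1 : b.re = ‖b‖ * Real.cos (arg b) := by
    rw [Complex.cos_arg hb0]
    field_simp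
  have e2 : b.im = ‖b‖ * Real.sin (arg b) := by
    rw [Complex.sin_arg]
    field_simp
  by_contra hn
  push Not at hn
  have h4 := Real.pi_gt_three
  have h5 : Real.tan (1 / 2) < Real.tan (arg b) :=
    Real.tan_lt_tan_of_nonneg_of_lt_pi_div_two (by norm_num) ha1 hn
  have h6 : 1 / 2 < Real.tan (1 / 2) := Real.lt_tan (by norm_num) (by linarith)
  have hc : 0 < Real.cos (arg b) := Real.cos_pos_of_mem_Ioo ⟨by linarith, ha1⟩
  have h7 : Real.cos (arg b) < 2 * Real.sin (arg b) := by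
    have h8 : 1 / 2 < Real.tan (arg b) := by linarith
    rw [Real.tan_eq_sin_div_cos, lt_div_iff₀ hc] at h8
    linarith
  have h8 := mul_lt_mul_of_pos_left h7 hro
  rw [e1, e2] at h3
  linarith

/-- `2 sin ph ≤ cos ph` for `ph ≤ 9/20`. -/
theorem ph_half {φ : ℝ} (h0 : 0 ≤ φ) (h1 : φ ≤ 9 / 20) :
    2 * Real.sin φ ≤ Real.cos φ := by
  have hp := Real.pi_gt_three
  have h2 : Real.sin φ ≤ Real.sin (9 / 20) :=
    Real.sin_le_sin_of_le_of_le_pi_div_two (by linarith) (by linarith) h1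
  have h3 : Real.cos (9 / 20) ≤ Real.cos φ :=
    Real.cos_le_cos_of_nonneg_of_le_pi h0 (by linarith) h1
  have h4 := V4_sin5 (x := 9 / 20) (by norm_num)
  have h5 : 1 - (9 / 20 : ℝ) ^ 2 / 2 ≤ Real.cos (9 / 20) := Real.one_sub_sq_div_two_le_cos
  norm_num at h4 h5
  linarith

namespace Zr

variable {a w : ι → ℝ} {N : ι → Finset ι} {σ : ι → Bool} {τ : ℝ} {z : ι → ℂ}

theorem sl_same (h : Zr a w N σ τ z) {i j : ι} (hij : j ∈ N i) (hs : σ i = σ j) :
    4 / 5 * (bs σ τ z i j).re - (bs σ τ z i j).im ≤ 24 / 25 := by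
  have hj := (h.bn_of hij hs).2
  have h1 := slC (h.R_pos j) (h.I_pos j) (h.disc hj)
  rw [bs_re, bs_im_same hs, cos_re', cos_im']
  have h2 := mul_le_mul_of_nonneg_left h1 h.τ0
  have h3 := h.τ1
  linarith

theorem re_same (h : Zr a w N σ τ z) {i j : ι} (hij : j ∈ N i) (hs : σ i = σ j) :
    (bs σ τ z i j).re ≤ 53 / 50 := by
  have h1 := (h.kbs hij hs).nn
  by_contra hn
  push Not at hn
  have := mul_self_lt_mul_self (by norm_num) hn
  have := sq_nonneg (bs σ τ z i j).im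
  norm_num at *
  nlinarith

/-- The slope of a mixed vertex. -/
theorem slope (h : Zr a w N σ τ z) {i : ι} (hi : Bn N σ i) (hm : ∃ j ∈ N i, σ i ≠ σ j) :
    (z i).im < 5 / 4 * (z i).re := by
  by_contra hn
  push Not at hn
  obtain ⟨hR0, hR1, hI⟩ := h.pos i
  have hnm := h.nm hi
  have key : ∀ j ∈ N i, (qs σ τ z i j).re < (z i).im := by
    intro j hj
    by_cases hs : σ i = σ j
    · have hk := h.kbs hj hs
      exact slS hnm hn hk.re (h.re_same hj hs) hk.im hk.sl (h.sl_same hj hs)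
    · exact slO hnm hn (h.bre i j) (h.bim hs)
        (by have := h.bsq i j; norm_num at this ⊢; linarith) (h.wre hj)
  have keyh : (asr (tan (z i))).re < (z i).im := by
    have := slO (b := 1) hnm hn (by simp) (by simp) (by norm_num)
      (by rw [one_mul]; exact hnm.tan_re.le)
    rwa [one_mul] at this
  have e := h.eqI i
  have h1 : ∑ j ∈ N i, (qs σ τ z i j).re < ∑ _j ∈ N i, (z i).im := by
    obtain ⟨j, hj, -⟩ := hm
    exact Finset.sum_lt_sum_of_nonempty ⟨j, hj⟩ key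
  rw [Finset.sum_const, nsmul_eq_mul] at h1
  have h2 := mul_le_mul_of_nonneg_left keyh.le (h.nb.w0 i)
  have h3 := mul_le_mul_of_nonneg_right (h.nb.card i (Or.inr hm)).1 hI.le
  linarith

/-- `sinh² I - sin² R ≤ (14/25) sin R sinh I` at a mixed vertex. -/
theorem slD' (h : Zr a w N σ τ z) {i : ι} (hi : Bn N σ i) (hm : ∃ j ∈ N i, σ i ≠ σ j) :
    Real.sinh (z i).im ^ 2 - Real.sin (z i).re ^ 2 ≤
      14 / 25 * (Real.sin (z i).re * Real.sinh (z i).im) ∧
      Real.cosh (z i).im * Real.sinh (z i).im < 2 * Real.sin (z i).re * Real.cos (z i).re :=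
  slD (h.pos i).1 (h.pos i).2.2 (h.disc hi) (h.slope hi hm).le

/-- The opposite coefficients given by a mixed vertex. -/
theorem rho_B (h : Zr a w N σ τ z) {i j : ι} (hij : j ∈ N i) (hs : σ i ≠ σ j)
    (hj : Bn N σ j) : ‖bs σ τ z i j‖ ^ 2 ≤ 1 + 3 / 5 * arg (bs σ τ z i j) := by
  obtain ⟨k1, -⟩ := h.slD' hj ⟨i, h.nb.symm i j hij, hs.symm⟩
  have hk := h.kb hj
  have hn := normSq_cos (z j)
  rw [normSq_apply] at hn
  have hcs := Real.sin_sq_add_cos_sq (z j).re
  have h0 := h.τ0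
  have h1 := h.τ1
  have hre := h.bre i j
  have him := h.bim hs
  have e1 := bs_re σ τ z i j
  have e2 := bs_im_opp hs τ z
  have hmi : -(cos (z j)).im = Real.sin (z j).re * Real.sinh (z j).im := by
    rw [cos_im']; ring
  obtain ⟨κ1, hκ1⟩ : ∃ x : ℝ, (cos (z j)).re = x := ⟨_, rfl⟩
  obtain ⟨κ2, hκ2⟩ : ∃ x : ℝ, -(cos (z j)).im = x := ⟨_, rfl⟩
  have hi' : (cos (z j)).im = -κ2 := by linarith
  rw [← hmi, hκ2] at k1
  rw [hκ1, hi'] at hn
  rw [hκ1] at e1
  rw [hκ2] at e2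
  have hκ20 : 0 ≤ κ2 := by
    have := hk.im
    linarith
  have hκ10 : 0 < κ1 := by
    have := hk.re
    linarith
  -- `|κ|² ≤ 1 + .56 κ₂`
  have hq : κ1 ^ 2 + κ2 ^ 2 ≤ 1 + 14 / 25 * κ2 := by nlinarith
  have hκ11 : κ1 ≤ 1 + 7 / 25 * κ2 := by
    by_contra hc
    push Not at hc
    have := mul_self_lt_mul_self (by positivity) hc
    nlinarith
  have hb2 : ‖bs σ τ z i j‖ ^ 2 = (1 - τ + τ * κ1) ^ 2 + (τ * κ2) ^ 2 := by
    rw [Complex.sq_norm, normSq_apply, e1, e2]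
    ring
  have hle : ‖bs σ τ z i j‖ ^ 2 ≤ 1 + 14 / 25 * (τ * κ2) := by
    rw [hb2]
    have f1 := mul_nonneg (mul_nonneg h0 (sub_nonneg.2 h1)) (sub_nonneg.2 hκ11)
    have f2 := mul_nonneg (mul_self_nonneg τ) (sub_nonneg.2 hq)
    have f3 : 0 ≤ τ * (1 - τ) := mul_nonneg h0 (sub_nonneg.2 h1)
    nlinarith
  have hb0 : bs σ τ z i j ≠ 0 := by
    intro hb
    rw [hb] at hre
    simp at hre
  have hro : 0 < ‖bs σ τ z i j‖ := norm_pos_iff.2 hb0
  have hsin : τ * κ2 = ‖bs σ τ z i j‖ * Real.sin (arg (bs σ τ z i j)) := by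
    rw [← e2, Complex.sin_arg]
    field_simp
  have harg : 0 ≤ arg (bs σ τ z i j) := arg_nonneg_iff.2 him
  have hs1 : Real.sin (arg (bs σ τ z i j)) ≤ arg (bs σ τ z i j) := Real.sin_le harg
  have hκle : κ2 ≤ 22 / 100 := by
    have h3 := hk.sl
    have h4 := hk.nn
    rw [hκ1, hi'] at h3 h4
    rw [neg_neg] at h3
    norm_num at h4
    nlinarith
  have hb3 : ‖bs σ τ z i j‖ ≤ 107 / 100 := by
    apply le_of_sq_le_sq _ (by norm_num)
    have : τ * κ2 ≤ 1 * (22 / 100) := mul_le_mul h1 hκle hκ20 (by norm_num)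
    norm_num
    linarith
  have h5 : τ * κ2 ≤ 107 / 100 * arg (bs σ τ z i j) := by
    rw [hsin]
    calc ‖bs σ τ z i j‖ * Real.sin (arg (bs σ τ z i j)) ≤
        ‖bs σ τ z i j‖ * arg (bs σ τ z i j) := mul_le_mul_of_nonneg_left hs1 hro.le
      _ ≤ _ := mul_le_mul_of_nonneg_right hb3 harg
  linarith

theorem half_B (h : Zr a w N σ τ z) {i j : ι} (hs : σ i ≠ σ j) (hj : Bn N σ j) :
    2 * (bs σ τ z i j).im ≤ (bs σ τ z i j).re := by
  have hk := h.kb hj
  rw [bs_re, bs_im_opp hs]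
  have h0 := h.τ0
  have h1 := h.τ1
  have h2 := mul_le_mul_of_nonneg_left hk.sl h0
  have h3 := mul_nonneg h0 (by linarith [hk.re] : (0 : ℝ) ≤ (cos (z j)).re)
  linarith

/-- `|b| ≤ max (1, |κ|)`. -/
theorem norm_le_max (h : Zr a w N σ τ z) (i j : ι) {K : ℝ} (h1 : 1 ≤ K) (hK : ‖cos (z j)‖ ≤ K) :
    ‖bs σ τ z i j‖ ≤ K := by
  have h0 := h.τ0
  have h1' := h.τ1
  have e : ∀ κ : ℂ, ‖κ‖ ≤ K → ‖1 + (τ : ℂ) * (κ - 1)‖ ≤ K := by
    intro κ hκ
    have e1 : 1 + (τ : ℂ) * (κ - 1) = ((1 - τ : ℝ) : ℂ) + (τ : ℂ) * κ := by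
      push_cast
      ring
    rw [e1]
    refine (norm_add_le _ _).trans ?_
    rw [norm_mul, norm_real, norm_real, Real.norm_eq_abs, Real.norm_eq_abs, abs_of_nonneg h0,
      abs_of_nonneg (sub_nonneg.2 h1')]
    have := mul_le_mul_of_nonneg_left hκ h0
    have := mul_le_mul_of_nonneg_left h1 (sub_nonneg.2 h1')
    linarith
  unfold bs
  split_ifs
  · exact e _ hK
  · exact e _ (by rw [Complex.norm_conj]; exact hK)

theorem th_KK (h : Zr a w N σ τ z) {i : ι} (hi : ¬Bn N σ i) :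
    th (z i).re (z i).im ≤ 3 / 5 := by
  have h1 := (h.K.2 i).2.2.2.2 hi
  rwa [AT2.E.RR_tan (h.pos i).1 (h.pos i).2.1 (h.pos i).2.2] at h1

/-- **Maximum principle.** -/
theorem k2_le [Finite ι] (h : Zr a w N σ τ z) {i : ι} (hi : ¬Bn N σ i) :
    k2 (z i).re (z i).im ≤ 1 := by
  classical
  have : Nonempty ι := ⟨i⟩
  obtain ⟨m, hm⟩ := Finite.exists_max
    (fun j => if Bn N σ j then 0 else k2 (z j).re (z j).im)
  by_contra hc
  push Not at hc
  have h1 := hm i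
  rw [if_neg hi] at h1
  have hmB : ¬Bn N σ m := by
    intro hB
    rw [if_pos hB] at h1
    linarith
  rw [if_neg hmB] at h1
  have hk : 1 < k2 (z m).re (z m).im := lt_of_lt_of_le hc h1
  obtain ⟨hR0, hR1, hI⟩ := h.pos m
  have hu := AT2.E.half_slot hR0 hR1 hI
  have hxI : xx (z m).re (z m).im < (z m).im :=
    hu.lt_I hR0 hR1 hI (by rw [one_pow]; exact hk.le) hk.le (Or.inl hk)
  refine (h.vx hmB).not_lt (fun j hj => ?_) hxI.le
  have hs : σ m ≠ σ j := fun hs => hmB ⟨j, hj, hs⟩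
  have hsl := h.slot hj hs
  by_cases hB : Bn N σ j
  · have h2 := Slot.le_xx_of hsl hR0 hR1 hI (h.rho_B hj hs hB)
      (arg_le_half (h.bre m j) (h.bim hs) (h.half_B hs hB)) hk.le (h.th_KK hmB)
    exact lt_of_le_of_lt h2 hxI
  · have h2 := hm j
    rw [if_neg hB, if_neg hmB] at h2
    refine hsl.lt_I hR0 hR1 hI ?_ hk.le (Or.inl hk)
    have h3 : ‖bs σ τ z m j‖ ≤ √(k2 (z m).re (z m).im) := by
      apply h.norm_le_max
      · rw [Real.one_le_sqrt]; exact hk.le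
      · rw [norm_cos_eq]; exact Real.sqrt_le_sqrt h2
    have h4 := pow_le_pow_left₀ (norm_nonneg _) h3 2
    rwa [Real.sq_sqrt (by linarith)] at h4

/-- The chord inequality of the slots of an `(A)`-vertex. -/
theorem chord [Finite ι] (h : Zr a w N σ τ z) {i : ι} (hi : ¬Bn N σ i) :
    ∀ j ∈ N i, th (z i).re (z i).im * (qs σ τ z i j).re ≤
      xx (z i).re (z i).im * (qs σ τ z i j).im := by
  intro j hj
  have hs : σ i ≠ σ j := fun hs => hi ⟨j, hj, hs⟩
  obtain ⟨hR0, hR1, hI⟩ := h.pos i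
  have hsl := h.slot hj hs
  by_cases hB : Bn N σ j
  · exact Slot.chord_of hsl hR0 hR1 hI (h.rho_B hj hs hB)
      (arg_le_half (h.bre i j) (h.bim hs) (h.half_B hs hB)) (h.k2_le hi)
  · refine hsl.chord hR0 hR1 hI (h.norm_le_max i j le_rfl ?_)
    rw [norm_cos_eq]
    exact Real.sqrt_le_one.2 (h.k2_le hB)

theorem th_leA [Finite ι] (h : Zr a w N σ τ z) {i : ι} (hi : ¬Bn N σ i) :
    th (z i).re (z i).im ≤ 27 / 50 := Vx.th_le (h.vx hi) (h.k2_le hi) (h.chord hi)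

theorem phi3 [Finite ι] (h : Zr a w N σ τ z) {i : ι} (hi : ¬Bn N σ i) :
    ph (z i).re (z i).im ≤ 9 / 20 ∧ (ph (z i).re (z i).im ≤ 1 / 3 ∨
      21 / 50 ≤ k2 (z i).re (z i).im) := Vx.phi3 (h.vx hi) (h.k2_le hi) (h.chord hi)

theorem sl_A [Finite ι] (h : Zr a w N σ τ z) {i : ι} (hi : ¬Bn N σ i) :
    2 * -(cos (z i)).im ≤ (cos (z i)).re := by
  obtain ⟨hR0, hR1, hI⟩ := h.pos i
  rw [cos_polar hR0 hR1, ← ofReal_neg, re_ofReal_mul, im_ofReal_mul,
    exp_ofReal_mul_I_re, exp_ofReal_mul_I_im, Real.cos_neg, Real.sin_neg]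
  have h1 := mul_le_mul_of_nonneg_left (ph_half (ph_pos hR0 hR1 hI).le (h.phi3 hi).1)
    (norm_nonneg (cos (z i)))
  linarith

theorem sl_all [Finite ι] (h : Zr a w N σ τ z) (i : ι) : 2 * -(cos (z i)).im ≤ (cos (z i)).re := by
  by_cases hi : Bn N σ i
  · have h1 := (h.kb hi).sl
    have h2 := (h.kb hi).re
    linarith
  · exact h.sl_A hi

/-- All opposite coefficients. -/
theorem half [Finite ι] (h : Zr a w N σ τ z) {i j : ι} (hs : σ i ≠ σ j) :
    2 * (bs σ τ z i j).im ≤ (bs σ τ z i j).re := by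
  rw [bs_re, bs_im_opp hs]
  have h1 := mul_le_mul_of_nonneg_left (h.sl_all j) h.τ0
  have h2 := h.τ1
  linarith

theorem arg_le [Finite ι] (h : Zr a w N σ τ z) {i j : ι} (hs : σ i ≠ σ j) :
    arg (bs σ τ z i j) ≤ 1 / 2 := arg_le_half (h.bre i j) (h.bim hs) (h.half hs)

/-- All `Re (b tan z) > 0`. -/
theorem w_pos [Finite ι] (h : Zr a w N σ τ z) {i j : ι} (hij : j ∈ N i) :
    0 < (bs σ τ z i j * tan (z i)).re := by
  obtain ⟨hR0, hR1, hI⟩ := h.pos i
  by_cases hs : σ i = σ j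
  · have hk := h.kbs hij hs
    exact (ptS (h.nm (h.bn_of hij hs).1) hk.re hk.im hk.sl hk.nn).1
  · have hh := h.half hs
    have hre := h.bre i j
    have him := h.bim hs
    by_cases hi : Bn N σ i
    · have h1 := (h.slD' hi ⟨j, hij, hs⟩).2
      have hnm := h.nm hi
      have t1 := tan_re' hnm.cos_ne
      have t2 := tan_im' hnm.cos_ne
      have hn : 0 < normSq (cos (z i)) := normSq_pos.2 hnm.cos_ne
      have h3 : 0 < (bs σ τ z i j * tan (z i)).re * normSq (cos (z i)) := by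
        have e : (bs σ τ z i j * tan (z i)).re * normSq (cos (z i)) =
            (bs σ τ z i j).re * (Real.sin (z i).re * Real.cos (z i).re) -
            (bs σ τ z i j).im * (Real.cosh (z i).im * Real.sinh (z i).im) := by
          rw [← t1, ← t2, mul_re]
          ring
        rw [e]
        have h4 := mul_lt_mul_of_pos_left h1 hre
        have h5 := mul_le_mul_of_nonneg_right hh
          (mul_nonneg (Real.cosh_pos (z i).im).le hnm.h0.le)
        linarith
      exact (pos_iff_pos_of_mul_pos h3).2 hn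
    · have h1 := Vx.lemC (h.vx hi) (h.k2_le hi) (h.chord hi)
      have h2 := h.arg_le hs
      have hb0 : bs σ τ z i j ≠ 0 := by
        intro hb
        rw [hb] at hre
        simp at hre
      have e : (bs σ τ z i j * tan (z i)).re = ‖bs σ τ z i j‖ * tt (z i).re (z i).im *
          Real.cos (al (z i).re (z i).im + arg (bs σ τ z i j)) := by
        have hpol : bs σ τ z i j * tan (z i) = ((‖bs σ τ z i j‖ * tt (z i).re (z i).im : ℝ) : ℂ) *
            exp (((al (z i).re (z i).im + arg (bs σ τ z i j) : ℝ) : ℂ) * I) := by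
          conv_lhs => rw [← norm_mul_exp_arg_mul_I (bs σ τ z i j), tan_polar hR0 hR1]
          push_cast
          rw [add_mul, Complex.exp_add]
          ring
        rw [hpol, Complex.re_ofReal_mul, Complex.exp_ofReal_mul_I_re]
      rw [e]
      apply mul_pos (mul_pos (norm_pos_iff.2 hb0) (tt_pos hR0 hR1))
      apply Real.cos_pos_of_mem_Ioo
      have := al_pos hR0 hR1 hI
      have := arg_nonneg_iff.2 him
      constructor <;> linarith [Real.pi_pos]

end Zr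

end Pool.Agent.MX.E
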