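import Pool.Agent.MX.E.Share

/-!
# Project MX, block E: the slots of a vertex with `sin R ≤ sinh I` are below `6/5 I`
-/

set_option autoImplicit false

namespace Pool.Agent.MX.E

open Real Pool.Agent.S3.E

private theorem sh3_coef {b1 b2 H : ℝ} (H0 : 0 ≤ H) (H1 : H ≤ 174 / 1000) (hb1 : 4 / 5 ≤ b1)
    (hb2 : 0 ≤ b2) (hs : b1 / 2 + b2 ≤ 655 / 1000) (hB : b1 ^ 2 + b2 ^ 2 ≤ 1.1236) :
    b1 * (1 - H / 2) + b2 * (1 + H / 2) ≤ 118125 / 100000 - 4618 / 10000 * H := by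
  rcases le_total b1 (10525 / 10000) with h | h
  · have k1 : b2 * (1 + H / 2) ≤ (655 / 1000 - b1 / 2) * (1 + H / 2) :=
      mul_le_mul_of_nonneg_right (by linarith) (by linarith)
    have k2 : b1 * (1 / 2 - 3 / 4 * H) ≤ 10525 / 10000 * (1 / 2 - 3 / 4 * H) :=
      mul_le_mul_of_nonneg_right h (by linarith)
    nlinarith
  · have k1 : b2 ≤ 1265 / 10000 := by
      by_contra hc
      push Not at hc
      nlinarith
    have k2 : b1 + b2 ≤ 1179 / 1000 := by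
      by_contra hc
      push Not at hc
      nlinarith
    have k3 : 926 / 1000 * H ≤ (b1 - b2) * H := mul_le_mul_of_nonneg_right (by linarith) H0
    linarith

theorem sh_S3 {R I b1 b2 : ℝ} (hn : Nm R I) (h : sin R ≤ sinh I) (hb1 : 4 / 5 ≤ b1)
    (hb2 : 0 ≤ b2) (hs : b1 / 2 + b2 ≤ 655 / 1000) (hB : b1 ^ 2 + b2 ^ 2 ≤ 1.1236) :
    (b1 * (sin R * cos R) + b2 * (cosh I * sinh I)) ^ 2 + sinh (6 / 5 * I) ^ 2 *
      ((b1 ^ 2 + b2 ^ 2) * (sin R ^ 2 + sinh I ^ 2) * (1 + sinh I ^ 2 - sin R ^ 2)) <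
      sinh (6 / 5 * I) ^ 2 * (1 + sinh (6 / 5 * I) ^ 2) * (1 + sinh I ^ 2 - sin R ^ 2) ^ 2 := by
  have hI0 := hn.I0
  have hI1 := hn.I1
  have hs0 := hn.s0
  have hc0 : 0 < cos R := lt_of_lt_of_le (by norm_num) hn.c0
  have hH1 := hn.h1
  have h0 := hn.h0
  have hC := sh_cosh_le I
  have hC0 := cosh_pos I
  have hsc := Real.sin_sq_add_cos_sq R
  have hQt : 6 / 5 * sinh I ≤ sinh (6 / 5 * I) := by
    have k1 := sh_sinh5 hI0.le (by linarith)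
    have k2 := sh_sinh3 (x := 6 / 5 * I) (by positivity)
    have k3 : 0 ≤ I ^ 3 := by positivity
    have k4 : I ^ 5 ≤ I ^ 3 * (1 / 5) := by
      have : I ^ 2 ≤ 1 / 5 := by nlinarith
      have := mul_le_mul_of_nonneg_left this k3
      nlinarith
    nlinarith
  obtain ⟨S, hS⟩ : ∃ S, S = sin R ^ 2 := ⟨_, rfl⟩
  obtain ⟨t, ht⟩ : ∃ t, t = sinh I := ⟨_, rfl⟩
  obtain ⟨H, hH⟩ : ∃ H, H = t ^ 2 := ⟨_, rfl⟩
  obtain ⟨Q, hQ⟩ : ∃ Q, Q = sinh (6 / 5 * I) ^ 2 := ⟨_, rfl⟩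
  have hQ1 : 144 / 100 * H ≤ Q := by
    have := pow_le_pow_left₀ (by positivity) hQt 2
    rw [hQ, hH, ht]
    nlinarith
  have hS0 : 0 ≤ S := by rw [hS]; positivity
  have hSH : S ≤ H := by
    have := pow_le_pow_left₀ hs0.le h 2
    rw [hS, hH, ht]
    exact this
  rw [← hQ]
  rw [← ht] at h0 hC hH1 ⊢
  rw [← hS]
  rw [← hH] at hC hH1 ⊢
  have H0 : 0 < H := by rw [hH]; positivity
  have Q0 : 0 < Q := by linarith
  -- `sin R cos R`
  have hscb : sin R * cos R ≤ t * (1 - H / 2) := by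
    refine abs_le_of_sq_le_sq' ?_ (mul_nonneg h0.le (by linarith)) |>.2
    have e1 : (sin R * cos R) ^ 2 = S * (1 - S) := by
      rw [hS, mul_pow, show cos R ^ 2 = 1 - sin R ^ 2 by linarith]
    have e2 : (t * (1 - H / 2)) ^ 2 = H * (1 - H / 2) ^ 2 := by rw [hH]; ring
    rw [e1, e2]
    have k1 : 0 ≤ (H - S) * (1 - H - S) := mul_nonneg (by linarith) (by linarith)
    nlinarith [mul_nonneg H0.le (sq_nonneg H)]
  obtain ⟨sc, hsc'⟩ : ∃ sc, sc = sin R * cos R := ⟨_, rfl⟩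
  rw [← hsc'] at hscb ⊢
  have sc0 : 0 ≤ sc := by rw [hsc']; positivity
  obtain ⟨C, hCd⟩ : ∃ C, C = cosh I := ⟨_, rfl⟩
  rw [← hCd] at hC hC0 ⊢
  -- `N`
  obtain ⟨N, hN⟩ : ∃ N, N = b1 * sc + b2 * (C * t) := ⟨_, rfl⟩
  rw [← hN]
  have N0 : 0 ≤ N := by rw [hN]; positivity
  have N1 : N ≤ t * (118125 / 100000 - 4618 / 10000 * H) := by
    have k2 : b1 * sc ≤ b1 * (t * (1 - H / 2)) := mul_le_mul_of_nonneg_left hscb (by linarith)
    have k3 : b2 * (C * t) ≤ b2 * ((1 + H / 2) * t) :=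
      mul_le_mul_of_nonneg_left (mul_le_mul_of_nonneg_right hC h0.le) hb2
    have k5 := mul_le_mul_of_nonneg_left (sh3_coef H0.le hH1 hb1 hb2 hs hB) h0.le
    rw [hN]
    nlinarith
  have N2 : N ^ 2 ≤ H * (118125 / 100000 - 4618 / 10000 * H) ^ 2 := by
    have k1 : N ^ 2 ≤ (t * (118125 / 100000 - 4618 / 10000 * H)) ^ 2 := pow_le_pow_left₀ N0 N1 2
    have k2 : (t * (118125 / 100000 - 4618 / 10000 * H)) ^ 2 =
        H * (118125 / 100000 - 4618 / 10000 * H) ^ 2 := by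
      rw [hH]; ring
    rwa [k2] at k1
  -- `b²`
  obtain ⟨B, hB'⟩ : ∃ B, B = b1 ^ 2 + b2 ^ 2 := ⟨_, rfl⟩
  rw [← hB'] at hB ⊢
  have B0 : 0 ≤ B := by rw [hB']; positivity
  -- the end
  obtain ⟨k, hk⟩ : ∃ k, k = 1 + H - S := ⟨_, rfl⟩
  rw [← hk]
  have kk : 1 ≤ k := by rw [hk]; linarith
  have br : 1 - 8072 / 10000 * H ≤ (1 + Q) * k - B * (S + H) := by
    have a1 : 0 ≤ Q * (H - S) := mul_nonneg Q0.le (by linarith)
    have a2 : B * (S + H) ≤ 1.1236 * (S + H) := mul_le_mul_of_nonneg_right hB (by linarith)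
    rw [hk]
    nlinarith
  have Qk : 144 / 100 * H * 1 ≤ Q * k := mul_le_mul hQ1 kk zero_le_one Q0.le
  have fin : H * (118125 / 100000 - 4618 / 10000 * H) ^ 2 <
      (Q * k) * ((1 + Q) * k - B * (S + H)) := by
    have a1 : (144 / 100 * H * 1) * (1 - 8072 / 10000 * H)
        ≤ (Q * k) * ((1 + Q) * k - B * (S + H)) :=
      mul_le_mul Qk br (by linarith) (by positivity)
    have a2 : (118125 / 100000 - 4618 / 10000 * H) ^ 2 < 144 / 100 * (1 - 8072 / 10000 * H) := by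
      nlinarith [mul_nonneg H0.le (by linarith : 0 ≤ 174 / 1000 - H)]
    have a3 := mul_lt_mul_of_pos_left a2 H0
    calc _ < _ := a3
      _ = (144 / 100 * H * 1) * (1 - 8072 / 10000 * H) := by ring
      _ ≤ _ := a1
  calc _ ≤ H * (118125 / 100000 - 4618 / 10000 * H) ^ 2 + Q * (B * (S + H) * k) := by linarith
    _ < (Q * k) * ((1 + Q) * k - B * (S + H)) + Q * (B * (S + H) * k) := by linarith
    _ = _ := by ring

/-- The slots of a vertex with `sin R ≤ sinh I` are below `6/5 I`. -/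
theorem sh3 {y b : ℂ} (hn : Nm y.re y.im) (_hD : Dz y) (hs : Real.sin y.re ≤ Real.sinh y.im)
    (h1 : 4 / 5 ≤ b.re) (_h2 : b.re ≤ 53 / 50) (h3 : b.im ≤ 0) (_h4 : -b.im ≤ b.re / 5)
    (h5 : b.re / 2 - b.im ≤ 655 / 1000) (h6 : b.re ^ 2 + b.im ^ 2 ≤ 1.1236) :
    (asr (b * Complex.tan y)).re < 6 / 5 * y.im := by
  obtain ⟨b2, e2⟩ : ∃ b2 : ℝ, b.im = -b2 := ⟨-b.im, by ring⟩
  have h2 : 0 ≤ b2 := by linarith
  obtain ⟨p0, hq⟩ := slot_q hn rfl e2 (by linarith) h2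
  have hm := sh_S3 hn hs h1 h2 (by linarith) (by rw [e2, neg_sq] at h6; exact h6)
  have hI := hn.I0
  have s1 : 0 < Real.sinh (asr (b * Complex.tan y)).re := Real.sinh_pos_iff.2 p0
  have s2 : 0 < Real.sinh (6 / 5 * y.im) := Real.sinh_pos_iff.2 (by positivity)
  have hlt := psi_lt (by positivity) (by positivity) (sq_nonneg _) (sq_nonneg _) hq hm
  have h7 := lt_of_pow_lt_pow_left₀ 2 s2.le hlt
  exact Real.sinh_lt_sinh.1 h7

end Pool.Agent.MX.E
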