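import Pool.Agent.MX.E.Crit
import Pool.Agent.MX.E.Share3

/-!
# Project MX, block E: vertices with clasps

At a vertex with clasps, `Im z < Re u`: the closed slots have positive real part.
-/

namespace Pool.Agent.MX.E

open Complex Pool.Agent.AT.E
open Pool.Agent.S3.E hiding bo ro be KK

variable {ι : Type*}

/-- `k2 < 1` gives `I < x`. -/
theorem I_lt_xx {R I : ℝ} (h0 : 0 < R) (h1 : R < Real.pi / 2) (hI : 0 < I) (hk : k2 R I < 1) :
    I < xx R I := by
  have hc : 0 < Real.cos R := Real.cos_pos_of_mem_Ioo ⟨by linarith, h1⟩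
  have hs : 0 < Real.sin R := Real.sin_pos_of_pos_of_lt_pi h0 (by linarith)
  have ht := th_pos h0 h1 hI
  have ht' := th_lt h0 h1 hI
  have hct : 0 < Real.cos (th R I) := Real.cos_pos_of_mem_Ioo ⟨by linarith, ht'⟩
  have hst : 0 < Real.sin (th R I) := Real.sin_pos_of_pos_of_lt_pi ht (by linarith)
  have e1 := tan_R_eq h0 h1 hI
  have e3 := tan_th_eq h0 h1 hI
  have hsI : 0 < Real.sinh I := Real.sinh_pos_iff.2 hI
  have f1 : Real.sin R * Real.cos (th R I) = Real.sinh (xx R I) * Real.cos R := by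
    rw [Real.tan_eq_sin_div_cos] at e1
    field_simp at e1
    linarith
  have f3 : Real.sin (th R I) * Real.cos R = Real.sinh I * Real.cos (th R I) := by
    rw [Real.tan_eq_sin_div_cos] at e3
    field_simp at e3
    linarith
  rw [AT2.E.k2_sc] at hk
  have hS := Real.sin_sq_add_cos_sq R
  have h2 : Real.sinh I < Real.sin R := by
    have : Real.sinh I ^ 2 < Real.sin R ^ 2 := by linarith
    exact lt_of_pow_lt_pow_left₀ 2 hs.le this
  -- `tan θ < tan R`
  have h3 : Real.tan (th R I) < Real.tan R := by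
    rw [Real.tan_eq_sin_div_cos R, lt_div_iff₀ hc, e3]
    exact h2
  have h4 : th R I < R := by
    by_contra hn
    push Not at hn
    rcases hn.eq_or_lt with h | h
    · rw [← h] at h3
      exact lt_irrefl _ h3
    · have := Real.tan_lt_tan_of_nonneg_of_lt_pi_div_two h0.le ht' h
      linarith
  have h5 : Real.sin (th R I) < Real.sin R :=
    Real.sin_lt_sin_of_lt_of_le_pi_div_two (by linarith) h1.le h4
  have h6 : Real.cos R < Real.cos (th R I) :=
    Real.cos_lt_cos_of_nonneg_of_le_pi_div_two ht.le h1.le h4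
  have h7 : Real.sinh I * (Real.cos (th R I) * Real.cos R) <
      Real.sinh (xx R I) * (Real.cos (th R I) * Real.cos R) := by
    have a1 : Real.sinh I * (Real.cos (th R I) * Real.cos R) =
        Real.sin (th R I) * (Real.cos R * Real.cos R) := by
      rw [← mul_assoc, ← f3]; ring
    have a2 : Real.sinh (xx R I) * (Real.cos (th R I) * Real.cos R) =
        Real.sin R * (Real.cos (th R I) * Real.cos (th R I)) := by
      rw [show Real.sinh (xx R I) * (Real.cos (th R I) * Real.cos R) =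
        Real.sinh (xx R I) * Real.cos R * Real.cos (th R I) by ring, ← f1]
      ring
    rw [a1, a2]
    exact mul_lt_mul'' h5 (mul_lt_mul'' h6 h6 hc.le hc.le) hst.le (by positivity)
  have h8 := lt_of_mul_lt_mul_right h7 (by positivity)
  exact Real.sinh_lt_sinh.1 h8

set_option linter.unusedSectionVars false

namespace Zr

variable [Finite ι] {a w : ι → ℝ} {N : ι → Finset ι} {σ : ι → Bool} {z : ι → ℂ}

/-- The opposite slots at `k2 ≥ 1`. -/
theorem opp_le (h : Zr a w N σ 1 z) {i j : ι} (hij : j ∈ N i) (hs : σ i ≠ σ j)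
    (hk : 1 ≤ k2 (z i).re (z i).im) : (qs σ 1 z i j).re ≤ (z i).im := by
  obtain ⟨hR0, hR1, hI⟩ := h.pos i
  have hsl := h.slot hij hs
  by_cases hB : Bn N σ j
  · have hx : xx (z i).re (z i).im ≤ (z i).im :=
      (AT2.E.half_slot hR0 hR1 hI).le_I hR0 hR1 hI (by rw [one_pow]; exact hk) hk
    have hθ : th (z i).re (z i).im ≤ 3 / 5 := by
      have := h.th_le i
      linarith
    exact (Slot.le_xx_of hsl hR0 hR1 hI (h.rho_B hij hs hB)
      (arg_le_half (h.bre i j) (h.bim hs) (h.half_B hs hB)) hk hθ).trans hx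
  · refine hsl.le_I hR0 hR1 hI ?_ hk
    have h3 : ‖bs σ 1 z i j‖ ≤ 1 := h.norm_le_max i j le_rfl (h.normA hB).2
    have h4 := pow_le_pow_left₀ (norm_nonneg _) h3 2
    rw [one_pow] at h4
    linarith

/-- **The closed slots have positive real part.** -/
theorem im_lt_xx (h : Zr a w N σ 1 z) {i : ι} (hw : 0 < w i)
    (hB : Bn N σ i → 6 * ((N i).card : ℝ) ≤ 5 * (a i - w i)) :
    (z i).im < xx (z i).re (z i).im := by
  obtain ⟨hR0, hR1, hI⟩ := h.pos i
  rcases lt_or_ge (k2 (z i).re (z i).im) 1 with hk | hk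
  · exact I_lt_xx hR0 hR1 hI hk
  exfalso
  have hx : xx (z i).re (z i).im ≤ (z i).im :=
    (AT2.E.half_slot hR0 hR1 hI).le_I hR0 hR1 hI (by rw [one_pow]; exact hk) hk
  have e := h.eqI i
  rw [h.u_re i] at e
  have hwx := mul_le_mul_of_nonneg_left hx hw.le
  by_cases hi : Bn N σ i
  · have hD := h.disc hi
    have hn := h.nm hi
    have hsR : 0 < Real.sin (z i).re :=
      Real.sin_pos_of_pos_of_lt_pi hR0 (by linarith [Real.pi_pos])
    have hsI : 0 < Real.sinh (z i).im := Real.sinh_pos_iff.2 hI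
    have hss : Real.sin (z i).re ≤ Real.sinh (z i).im := by
      refine le_of_sq_le_sq ?_ hsI.le
      rw [AT2.E.k2_sc] at hk
      have := Real.sin_sq_add_cos_sq (z i).re
      linarith
    have key : ∀ j ∈ N i, (qs σ 1 z i j).re < 6 / 5 * (z i).im := by
      intro j hj
      by_cases hs : σ i = σ j
      · have hj' := (h.bn_of hj hs).2
        have hb := h.kbs hj hs
        refine sh3 hn hD hss hb.re (h.re_same hj hs) hb.im hb.sl ?_ hb.nn
        have h1 := shC (h.disc hj') (h.re0 j) (h.I_pos j)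
        rw [bs_same hs, cos_re', cos_im']
        linarith
      · have := h.opp_le hj hs hk
        linarith
    obtain ⟨j, hj, hjs⟩ := hi
    have h1 : ∑ j ∈ N i, (qs σ 1 z i j).re < ∑ _j ∈ N i, 6 / 5 * (z i).im :=
      Finset.sum_lt_sum_of_nonempty ⟨j, hj⟩ key
    rw [Finset.sum_const, nsmul_eq_mul] at h1
    have h2 := mul_le_mul_of_nonneg_right (hB ⟨j, hj, hjs⟩) hI.le
    linarith
  · have key : ∀ j ∈ N i, (qs σ 1 z i j).re ≤ (z i).im := fun j hj =>
      h.opp_le hj (fun hs => hi ⟨j, hj, hs⟩) hk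
    have h1 : ∑ j ∈ N i, (qs σ 1 z i j).re ≤ ∑ _j ∈ N i, (z i).im := Finset.sum_le_sum key
    rw [Finset.sum_const, nsmul_eq_mul] at h1
    have h2 := mul_lt_mul_of_pos_right ((h.nb.card i (Or.inl hi)).2 hw) hI
    linarith

end Zr

end Pool.Agent.MX.E
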