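import Mathlib

/-!
# Project MX: the inequality (NB)

`I = arsinh (tan θ cos R)`, `y₁ = arsinh (tan θ cos (13π/40))`, `θ ≤ 21/50`, `R ≤ 16/25`, `a ≥ 5`.
For `R ≤ 2/5` one has `y₁ ≤ 3/5 I`, and `p ≥ 2/5 I` suffices; for `R ≥ 2/5` one has `sinh p ≥ 4/5 tan R / (1 + tan² θ)
≥ sinh y₁`, so `p ≥ y₁`, and the bracket is at least `3/4 I`.
-/

set_option autoImplicit false

open Real

namespace Pool.Agent.MX

private theorem nb_c1 : 0 < cos (13 * π / 40) ∧ cos (13 * π / 40) ≤ 527 / 1000 := by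
  have h1 := Real.pi_gt_d4
  have h2 := Real.pi_lt_d4
  constructor
  · exact Real.cos_pos_of_mem_Ioo ⟨by linarith, by linarith⟩
  · have h3 : cos (13 * π / 40) = sin (7 * π / 40) := by
      rw [← Real.cos_pi_div_two_sub]
      congr 1
      ring
    rw [h3]
    have h4 : |7 * π / 40| ≤ 1 := by
      rw [abs_le]
      constructor <;> linarith
    have h5 := (abs_le.1 (Real.sin_bound h4)).2
    have h6 : |7 * π / 40| = 7 * π / 40 := abs_of_pos (by linarith)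
    rw [h6] at h5
    have hx1 : (5497 : ℝ) / 10000 ≤ 7 * π / 40 := by linarith
    have hx2 : 7 * π / 40 ≤ 5498 / 10000 := by linarith
    generalize 7 * π / 40 = x at *
    nlinarith [pow_le_pow_left₀ (by norm_num) hx1 3, pow_le_pow_left₀ (by linarith) hx2 4]

private theorem nb_tan {θ : ℝ} (h0 : 0 < θ) (h : θ ≤ 21 / 50) : 0 < tan θ ∧ tan θ ≤ 9 / 20 := by
  have hp := Real.pi_gt_d4
  constructor
  · exact Real.tan_pos_of_pos_of_lt_pi_div_two h0 (by linarith)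
  · have hc : 0 < cos θ := Real.cos_pos_of_mem_Ioo ⟨by linarith, by linarith⟩
    rw [Real.tan_eq_sin_div_cos, div_le_iff₀ hc]
    have h1 : |θ| ≤ 1 := by
      rw [abs_of_pos h0]
      linarith
    have h2 := (abs_le.1 (Real.sin_bound h1)).2
    rw [abs_of_pos h0] at h2
    have h3 := Real.one_sub_sq_div_two_le_cos (x := θ)
    have h4 : θ ^ 5 ≤ (21 / 50) ^ 2 * θ ^ 3 := by
      have : θ ^ 5 = θ ^ 2 * θ ^ 3 := by ring
      rw [this]
      exact mul_le_mul_of_nonneg_right (pow_le_pow_left₀ h0.le h 2) (by positivity)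
    have h5 : 3 * (21 / 50) ^ 2 * θ - 2 * (21 / 50) ^ 3 ≤ θ ^ 3 := by
      nlinarith [mul_nonneg (sq_nonneg (θ - 21 / 50)) (by linarith : 0 ≤ θ + 2 * (21 / 50))]
    nlinarith

/-- `y₁ ≤ 3/5 I` -/
private theorem nb_y1 {s R I y1 : ℝ} (hs0 : 0 < s) (hs : s ≤ 9 / 20) (hR0 : 0 < R) (hR : R ≤ 2 / 5)
    (hI : I = arsinh (s * cos R)) (hy : y1 = arsinh (s * cos (13 * π / 40))) : y1 ≤ 3 / 5 * I := by
  have hc : 92 / 100 ≤ cos R := by
    have := Real.one_sub_sq_div_two_le_cos (x := R)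
    nlinarith
  have hc1 := Real.cos_le_one R
  obtain ⟨hd0, hd⟩ := nb_c1
  obtain ⟨t, ht⟩ : ∃ t, t = sinh (I / 5) := ⟨_, rfl⟩
  have hI0 : 0 < I := by
    rw [hI, Real.arsinh_pos_iff]
    positivity
  have ht0 : 0 < t := by
    rw [ht, Real.sinh_pos_iff]
    linarith
  have h3 : sinh (3 / 5 * I) = 4 * t ^ 3 + 3 * t := by
    have : 3 / 5 * I = 3 * (I / 5) := by ring
    rw [this, Real.sinh_three_mul, ← ht]
  have h2 : cosh (I / 5) ^ 2 = t ^ 2 + 1 := by
    rw [ht, Real.cosh_sq]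
  have h5 : s * cos R = 16 * t ^ 5 + 20 * t ^ 3 + 5 * t := by
    have e1 : sinh I = s * cos R := by rw [hI, Real.sinh_arsinh]
    have e2 : I = 3 * (I / 5) + 2 * (I / 5) := by ring
    rw [← e1, e2, Real.sinh_add, Real.sinh_three_mul, Real.cosh_three_mul, Real.sinh_two_mul,
      Real.cosh_two_mul, ← ht]
    have e3 : (4 * t ^ 3 + 3 * t) * (cosh (I / 5) ^ 2 + t ^ 2) +
        (4 * cosh (I / 5) ^ 3 - 3 * cosh (I / 5)) * (2 * t * cosh (I / 5)) =
        (4 * t ^ 3 + 3 * t) * (cosh (I / 5) ^ 2 + t ^ 2) +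
        (4 * cosh (I / 5) ^ 2 - 3) * (2 * t * cosh (I / 5) ^ 2) := by ring
    rw [e3, h2]
    ring
  have ht1 : t ≤ 9 / 100 := by
    have : s * cos R ≤ 9 / 20 := by nlinarith
    nlinarith [pow_pos ht0 5, pow_pos ht0 3]
  rw [← Real.sinh_le_sinh, h3, hy, Real.sinh_arsinh]
  -- `s c₁ ≤ (c₁ / cos R) (s cos R)`
  have h6 : s * cos (13 * π / 40) * (92 / 100) ≤ 527 / 1000 * (s * cos R) := by
    nlinarith [mul_le_mul hd hc (by norm_num) (by norm_num : (0:ℝ) ≤ 527 / 1000), mul_pos hs0 hd0]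
  rw [h5] at h6
  have h7 : t ^ 3 ≤ 81 / 10000 * t := by nlinarith [mul_pos ht0 ht0]
  have h8 : t ^ 5 ≤ 81 / 10000 * t ^ 3 := by nlinarith [pow_pos ht0 3, mul_pos ht0 ht0]
  nlinarith

theorem nb {a θ R I y1 p : ℝ} (ha : 5 ≤ a) (hθ0 : 0 < θ) (hθ : θ ≤ 21 / 50) (hR0 : 0 < R)
    (hR : R ≤ 16 / 25) (hI : I = arsinh (tan θ * cos R))
    (hy : y1 = arsinh (tan θ * cos (13 * π / 40)))
    (hp1 : 4 / 5 * (sin (2 * R) / (cosh (2 * I) + cos (2 * R))) ≤ sinh p) (hp2 : 2 / 5 * I ≤ p) :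
    5 / 8 * (y1 * I) <
      p * (2 * (13 * π / 40 - π / a) * y1 + 2 * (13 * π / 40 - R) * (I - y1)) := by
  have hpi1 := Real.pi_gt_d4
  have hpi2 := Real.pi_lt_d4
  obtain ⟨hs0, hs⟩ := nb_tan hθ0 hθ
  obtain ⟨hd0, hd⟩ := nb_c1
  obtain ⟨s, hsd⟩ : ∃ s, s = tan θ := ⟨_, rfl⟩
  rw [← hsd] at hs0 hs hI hy
  have hcR : 0 < cos R := Real.cos_pos_of_mem_Ioo ⟨by linarith, by linarith⟩
  have hcd : cos (13 * π / 40) < cos R :=
    Real.cos_lt_cos_of_nonneg_of_le_pi hR0.le (by linarith) (by linarith)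
  have hI0 : 0 < I := by
    rw [hI, Real.arsinh_pos_iff]
    positivity
  have hy0 : 0 < y1 := by
    rw [hy, Real.arsinh_pos_iff]
    positivity
  have hyI : y1 < I := by
    rw [hI, hy, Real.arsinh_lt_arsinh]
    exact mul_lt_mul_of_pos_left hcd hs0
  have hp0 : 0 < p := by linarith
  have haπ : π / a ≤ π / 5 := by
    apply div_le_div_of_nonneg_left Real.pi_pos.le (by norm_num) ha
  -- the bracket
  have hbr : π / 4 * y1 + 2 * (13 * π / 40 - R) * (I - y1) ≤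
      2 * (13 * π / 40 - π / a) * y1 + 2 * (13 * π / 40 - R) * (I - y1) := by
    have : π / 4 * y1 ≤ 2 * (13 * π / 40 - π / a) * y1 :=
      mul_le_mul_of_nonneg_right (by linarith) hy0.le
    linarith
  refine lt_of_lt_of_le ?_ (mul_le_mul_of_nonneg_left hbr hp0.le)
  rcases le_total R (2 / 5) with hR2 | hR2
  · have h1 := nb_y1 hs0 hs hR0 hR2 hI hy
    have h2 : π / 4 * y1 + 2 * (13 * π / 40 - 2 / 5) * (2 / 3 * y1) ≤
        π / 4 * y1 + 2 * (13 * π / 40 - R) * (I - y1) := by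
      have : 2 * (13 * π / 40 - 2 / 5) * (2 / 3 * y1) ≤ 2 * (13 * π / 40 - R) * (I - y1) := by
        apply mul_le_mul
        · linarith
        · linarith
        · positivity
        · linarith
      linarith
    have h3 : 8 / 5 * y1 ≤ π / 4 * y1 + 2 * (13 * π / 40 - 2 / 5) * (2 / 3 * y1) := by
      nlinarith
    calc 5 / 8 * (y1 * I) < 2 / 5 * I * (8 / 5 * y1) := by nlinarith [mul_pos hy0 hI0]
      _ ≤ p * (8 / 5 * y1) := mul_le_mul_of_nonneg_right hp2 (by positivity)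
      _ ≤ _ := mul_le_mul_of_nonneg_left (h3.trans h2) hp0.le
  · have hsinh : sinh I = s * cos R := by rw [hI, Real.sinh_arsinh]
    have hden : cosh (2 * I) + cos (2 * R) = 2 * cos R ^ 2 * (1 + s ^ 2) := by
      rw [Real.cosh_two_mul, Real.cosh_sq, hsinh, Real.cos_two_mul]
      ring
    have hR3 : R * cos R ≤ sin R := by
      have h := Real.le_tan hR0.le (by linarith : R < π / 2)
      rwa [Real.tan_eq_sin_div_cos, le_div_iff₀ hcR] at h
    have h1 : s * cos (13 * π / 40) ≤ sinh p := by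
      refine le_trans ?_ hp1
      rw [hden, Real.sin_two_mul]
      have h2 : 4 / 5 * (2 * sin R * cos R / (2 * cos R ^ 2 * (1 + s ^ 2))) =
          4 / 5 * (sin R / cos R) / (1 + s ^ 2) := by
        field_simp
      rw [h2, le_div_iff₀ (by positivity)]
      have h3 : 2 / 5 ≤ sin R / cos R := by
        rw [le_div_iff₀ hcR]
        nlinarith
      have h4 : s * cos (13 * π / 40) ≤ 9 / 20 * (527 / 1000) :=
        mul_le_mul hs hd hd0.le (by norm_num)
      have h5 : 1 + s ^ 2 ≤ 1 + (9 / 20) ^ 2 := by nlinarith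
      calc s * cos (13 * π / 40) * (1 + s ^ 2) ≤ 9 / 20 * (527 / 1000) * (1 + (9 / 20) ^ 2) :=
            mul_le_mul h4 h5 (by positivity) (by norm_num)
        _ ≤ 4 / 5 * (2 / 5) := by norm_num
        _ ≤ _ := by linarith
    have h2 : y1 ≤ p := by
      rw [← Real.sinh_le_sinh, hy, Real.sinh_arsinh]
      exact h1
    have h3 : 3 / 4 * I ≤ π / 4 * y1 + 2 * (13 * π / 40 - R) * (I - y1) := by
      have h4 : 3 / 4 * (I - y1) ≤ 2 * (13 * π / 40 - R) * (I - y1) :=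
        mul_le_mul_of_nonneg_right (by linarith) (by linarith)
      have h5 : 3 / 4 * y1 ≤ π / 4 * y1 := mul_le_mul_of_nonneg_right (by linarith) hy0.le
      linarith
    calc 5 / 8 * (y1 * I) < y1 * (3 / 4 * I) := by nlinarith [mul_pos hy0 hI0]
      _ ≤ p * (3 / 4 * I) := mul_le_mul_of_nonneg_right h2 (by positivity)
      _ ≤ _ := mul_le_mul_of_nonneg_left h3 hp0.le

end Pool.Agent.MX
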