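import Pool.Agent.MX.E.K4P
import Pool.Agent.AT2.E.Crit

/-!
# Project MX, block E: the facts at an edge with opposite signs
-/

namespace Pool.Agent.MX.E

open Complex Pool.Agent.S3 Pool.Agent.AT.E
open Pool.Agent.S3.E hiding bo ro be KK
open Pool.Agent.H25.RK (gdv gdv_re_lt gdv_hasDerivAt)

/-- The bounds at a vertex. -/
structure Pv (z : ℂ) : Prop where
  p : 0 < z.re ∧ z.re < Real.pi / 2 ∧ 0 < z.im
  t : th z.re z.im ≤ 27 / 50
  k : 1 / 4 ≤ k2 z.re z.im
  s : s2 z.re z.im ≤ 1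
  phi : ph z.re z.im ≤ 9 / 20 ∧ (ph z.re z.im ≤ 1 / 3 ∨ 21 / 50 ≤ k2 z.re z.im)
  kk : k2 z.re z.im ≤ 1 ∨ (k2 z.re z.im ≤ 1.1236 ∧ ph z.re z.im ≤ 1 / 5)
  D : 0 < 2 + 2 * cc z.im * gg z.re + gg z.re ^ 2 - cc z.im ^ 2

namespace Pv

variable {z : ℂ}

theorem thpos (h : Pv z) : 0 < th z.re z.im := th_pos h.p.1 h.p.2.1 h.p.2.2

theorem xxpos (h : Pv z) : 0 < xx z.re z.im := xx_pos h.p.1 h.p.2.1 h.p.2.2

theorem phpos (h : Pv z) : 0 < ph z.re z.im := ph_pos h.p.1 h.p.2.1 h.p.2.2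

theorem alpos (h : Pv z) : 0 < al z.re z.im := al_pos h.p.1 h.p.2.1 h.p.2.2

theorem ttpos (h : Pv z) : 0 < tt z.re z.im := tt_pos h.p.1 h.p.2.1

theorem k2pos (h : Pv z) : 0 < k2 z.re z.im := k2_pos h.p.1 h.p.2.1

theorem ph4 (h : Pv z) : ph z.re z.im ≤ Real.pi / 4 := by
  have := h.phi.1
  linarith [Real.pi_gt_three]

theorem cos_ne (h : Pv z) : cos z ≠ 0 := cos_ne_of' h
where
  cos_ne_of' (h : Pv z) : cos z ≠ 0 := by
    intro h0
    have h1 := norm_cos_sq z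
    rw [h0, norm_zero] at h1
    have := h.k2pos
    norm_num at h1
    linarith

theorem norm_pos (h : Pv z) : 0 < ‖cos z‖ := norm_pos_iff.2 h.cos_ne

theorem cos_sq_polar (h : Pv z) :
    cos z ^ 2 = (‖cos z ^ 2‖ : ℂ) * exp (-(2 * ph z.re z.im : ℝ) * I) := by
  conv_lhs => rw [cos_polar h.p.1 h.p.2.1]
  rw [mul_pow, norm_pow, ← Complex.exp_nat_mul]
  push_cast
  congr 2
  ring

theorem gd_uu (h : Pv z) : gd (UU (xx z.re z.im) (th z.re z.im)) = z :=
  S3.E.gd_uu h.p.1 h.p.2.1 h.p.2.2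

end Pv

/-- An edge with opposite signs. -/
structure OE (z y : ℂ) : Prop where
  a : Pv z
  b : Pv y
  w : 0 < ((starRingEnd ℂ) (cos y) * tan z).re
  w' : 0 < ((starRingEnd ℂ) (cos z) * tan y).re

namespace OE

variable {z y : ℂ}

theorem symm (h : OE z y) : OE y z := ⟨h.b, h.a, h.w', h.w⟩

theorem w_pol (h : OE z y) : (starRingEnd ℂ) (cos y) * tan z =
    ((‖cos y‖ * tt z.re z.im : ℝ) : ℂ) * exp (((al z.re z.im + ph y.re y.im : ℝ) : ℂ) * I) := by
  have h1 : (starRingEnd ℂ) (cos y) =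
      ((‖cos y‖ : ℝ) : ℂ) * exp (((ph y.re y.im : ℝ) : ℂ) * I) := by
    conv_lhs => rw [cos_polar h.b.p.1 h.b.p.2.1]
    rw [map_mul, conj_ofReal, ← exp_conj, map_mul, map_neg, conj_ofReal, conj_I]
    congr 2
    ring
  rw [h1, tan_polar h.a.p.1 h.a.p.2.1]
  push_cast
  rw [add_mul, Complex.exp_add]
  ring

theorem al_ph_lt (h : OE z y) : al z.re z.im + ph y.re y.im < Real.pi / 2 := by
  have h1 := h.w
  rw [h.w_pol, re_ofReal_mul, exp_ofReal_mul_I_re] at h1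
  by_contra hn
  push Not at hn
  have h2 : Real.cos (al z.re z.im + ph y.re y.im) ≤ 0 := by
    apply Real.cos_nonpos_of_pi_div_two_le_of_le hn
    linarith [al_lt z.re z.im, ph_lt y.re y.im, Real.pi_pos]
  have := mul_nonpos_of_nonneg_of_nonpos
    (mul_pos h.b.norm_pos h.a.ttpos).le h2
  linarith

theorem wim (h : OE z y) : 0 < ((starRingEnd ℂ) (cos y) * tan z).im := by
  rw [h.w_pol, im_ofReal_mul, exp_ofReal_mul_I_im]
  apply mul_pos (mul_pos h.b.norm_pos h.a.ttpos)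
  apply Real.sin_pos_of_pos_of_lt_pi
  · linarith [h.a.alpos, h.b.phpos]
  · linarith [h.al_ph_lt, Real.pi_pos]

theorem oppHyp (h : OE z y) :
    OppHyp (th z.re z.im) (th y.re y.im) (xx z.re z.im) (xx y.re y.im) := by
  have h1 := h.a.t
  have h2 := h.b.t
  have h3 := Real.pi_gt_three
  exact oppHyp_small h.a.thpos h.b.thpos (by linarith) (by linarith) (by linarith)

theorem qe_eq_ash (h : OE z y) : qe z y = ash ((starRingEnd ℂ) (cos y) * tan z) := by
  rw [qe_eq h.a.p.1 h.a.p.2.1 h.a.p.2.2 h.b.p.1 h.b.p.2.1 h.b.p.2.2, ash_eq_log h.w h.wim.le,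
    arsh]

theorem qe_pos (h : OE z y) :
    0 < (qe z y).re ∧ 0 < (qe z y).im ∧ (qe z y).im < Real.pi / 2 := by
  rw [h.qe_eq_ash, ash_re, ash_im]
  exact ⟨PP_pos h.w, RR_pos h.wim, RR_lt h.w⟩

theorem bw_pos (h : OE z y) : 0 < bw z y := div_pos h.qe_pos.1 h.a.p.2.2

theorem slot (h : OE z y) : Slot z.re z.im ‖cos y‖ (ph y.re y.im) (qe z y).re (qe z y).im := by
  obtain ⟨q1, q2, q3⟩ := h.qe_pos
  have h1 : sinh (qe z y) = (starRingEnd ℂ) (cos y) * tan z := by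
    rw [h.qe_eq_ash]
    exact sinh_ash h.w.le h.wim.le
  have h2 : sinh (((qe z y).re : ℂ) + ((qe z y).im : ℂ) * I) = (starRingEnd ℂ) (cos y) * tan z := by
    rw [re_add_im]; exact h1
  rw [sinh_add, cosh_mul_I, sinh_mul_I, ← ofReal_cos, ← ofReal_sin, ← ofReal_cosh,
    ← ofReal_sinh, h.w_pol] at h2
  refine ⟨q1.le, q2.le, q3.le, (norm_nonneg _), h.b.phpos.le, h.al_ph_lt.le, ?_, ?_⟩
  · have := congrArg re h2
    rw [re_ofReal_mul, exp_ofReal_mul_I_re] at this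
    simp at this
    exact this
  · have := congrArg im h2
    rw [im_ofReal_mul, exp_ofReal_mul_I_im] at this
    simp at this
    exact this

/-- `Im q + Re y < π/2`. -/
theorem qe_add_lt (h : OE z y) : (qe z y).im + y.re < Real.pi / 2 := by
  refine V8_pair h.a.p.1 h.a.p.2.1 h.a.p.2.2 h.b.p.1 h.b.p.2.1 h.a.D h.b.D h.slot ?_
  rw [norm_cos_sq]

theorem alt (h : OE z y) : 2 * ph z.re z.im + ph y.re y.im + (qe z y).im < Real.pi := by
  have h1 := h.a.phi.1
  have h2 := h.b.phi.1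
  have h3 := h.qe_pos.2.2
  have h4 := Real.pi_gt_three
  linarith

/-- (K4), `|κ_i| ≤ |κ_j|`. -/
theorem k4_aux (h : OE z y) (hle : ‖cos z‖ ≤ ‖cos y‖) {T : ℂ}
    (hT : T ^ 2 = 1 / cos z ^ 2 + 1 / (starRingEnd ℂ) (cos y) ^ 2 - 1) (hT0 : 0 < T.re) :
    0 < (T * (1 / cos z ^ 2 + 1 / (starRingEnd ℂ) (cos y) ^ 2) *
      (cos z ^ 2 + (starRingEnd ℂ) (cos y) ^ 2)).re := by
  have hki := norm_cos_sq z
  have hkj := norm_cos_sq y
  have hkk : k2 z.re z.im ≤ k2 y.re y.im := by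
    rw [← hki, ← hkj]
    exact pow_le_pow_left₀ (norm_nonneg _) hle 2
  have hY : (starRingEnd ℂ) (cos y) ^ 2 =
      ((k2 y.re y.im : ℝ) : ℂ) * exp ((2 * ph y.re y.im : ℝ) * I) := by
    conv_lhs => rw [cos_polar h.b.p.1 h.b.p.2.1]
    rw [map_mul, conj_ofReal, ← exp_conj, map_mul, map_neg, conj_ofReal, conj_I, mul_pow,
      ← Complex.exp_nat_mul, ← hkj]
    push_cast
    congr 2
    ring
  have htan : 1 / (starRingEnd ℂ) (cos y) ^ 2 - 1 =
      ((tt y.re y.im ^ 2 : ℝ) : ℂ) * exp (-(2 * al y.re y.im : ℝ) * I) := by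
    have e1 : 1 / cos y ^ 2 - 1 = tan y ^ 2 := by
      have := h.b.cos_ne
      rw [tan_eq_sin_div_cos]
      field_simp
      linear_combination -(sin_sq_add_cos_sq y)
    have e2 := congrArg (starRingEnd ℂ) e1
    rw [map_sub, map_div₀, map_one, map_pow, map_pow] at e2
    rw [e2]
    conv_lhs => rw [tan_polar h.b.p.1 h.b.p.2.1]
    rw [map_mul, conj_ofReal, ← exp_conj, map_mul, conj_ofReal, conj_I, mul_pow,
      ← Complex.exp_nat_mul]
    push_cast
    congr 2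
    ring
  have hX : cos z ^ 2 = ((k2 z.re z.im : ℝ) : ℂ) *
      exp (-(2 * ph z.re z.im : ℝ) * I) := by
    conv_lhs => rw [h.a.cos_sq_polar, norm_pow, hki]
  have hG : 0 < 2 * k2 z.re z.im * k2 y.re y.im +
      (k2 y.re y.im ^ 2 + k2 z.re z.im ^ 2) *
        Real.cos (2 * ph z.re z.im + 2 * ph y.re y.im) -
      Real.tan (ph z.re z.im) * (k2 y.re y.im ^ 2 - k2 z.re z.im ^ 2) *
        Real.sin (2 * ph z.re z.im + 2 * ph y.re y.im) := by
    have h3 := h.a.phi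
    have h4 : k2 y.re y.im ≤ 2 * Real.cos (2 * ph y.re y.im) := by
      have h5 := h.b.s
      have e9 : ‖1 - cos y ^ 2‖ = s2 y.re y.im := by
        rw [show (1 : ℂ) - cos y ^ 2 = sin y ^ 2 by
          linear_combination -(sin_sq_add_cos_sq y), norm_pow, S3.E.norm_sin_sq]
      rw [← e9, ← abs_of_nonneg (norm_nonneg (1 - cos y ^ 2)),
        ← sq_le_one_iff_abs_le_one,
        ← Complex.normSq_eq_norm_sq, Complex.normSq_apply, sub_re, sub_im, one_re, one_im,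
        h.b.cos_sq_polar, norm_pow, hkj, ← ofReal_neg, re_ofReal_mul, im_ofReal_mul,
        exp_ofReal_mul_I_re, exp_ofReal_mul_I_im, Real.cos_neg, Real.sin_neg] at h5
      have h6 := Real.sin_sq_add_cos_sq (2 * ph y.re y.im)
      have h7 := h.b.k2pos
      have h8 : k2 y.re y.im * (k2 y.re y.im -
          2 * Real.cos (2 * ph y.re y.im)) ≤ 0 := by
        linear_combination h5 + (k2 y.re y.im) ^ 2 * (-h6)
      by_contra hc
      push Not at hc
      have := mul_pos h7 (sub_pos.2 hc)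
      linarith
    rcases h.b.kk with hb | hb
    · exact k4_three h.a.phpos.le h3.1 h.a.k h3.2 hkk hb h.b.phpos.le h.b.ph4 h4
    · exact k4_threeB h.a.phpos.le h3.1 h.a.k hkk hb.1 h.b.phpos.le hb.2
  exact k4_geo hX hY h.a.k2pos hkk h.a.phpos h.a.ph4 h.b.phpos h.b.ph4
    (pow_pos h.b.ttpos 2) htan h.b.alpos h.symm.al_ph_lt hT hT0 hG

/-- (K4). -/
theorem k4 (h : OE z y) {T : ℂ}
    (hT : T ^ 2 = 1 / cos z ^ 2 + 1 / (starRingEnd ℂ) (cos y) ^ 2 - 1) (hT0 : 0 < T.re) :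
    0 < (T * (1 / cos z ^ 2 + 1 / (starRingEnd ℂ) (cos y) ^ 2) *
      (cos z ^ 2 + (starRingEnd ℂ) (cos y) ^ 2)).re := by
  rcases le_total ‖cos z‖ ‖cos y‖ with hle | hle
  · exact h.k4_aux hle hT hT0
  · have h1 := h.symm.k4_aux hle (T := (starRingEnd ℂ) T) (by
      rw [← map_pow, hT, map_sub, map_add, map_div₀, map_div₀, map_one, map_pow, map_pow,
        Complex.conj_conj]
      ring) (by rwa [conj_re])
    have h2 : (starRingEnd ℂ) T * (1 / cos y ^ 2 + 1 / (starRingEnd ℂ) (cos z) ^ 2) *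
        (cos y ^ 2 + (starRingEnd ℂ) (cos z) ^ 2) =
        (starRingEnd ℂ) (T * (1 / cos z ^ 2 + 1 / (starRingEnd ℂ) (cos y) ^ 2) *
      (cos z ^ 2 + (starRingEnd ℂ) (cos y) ^ 2)) := by
      rw [map_mul, map_mul, map_add, map_add, map_div₀, map_div₀, map_one, map_pow, map_pow,
        Complex.conj_conj]
      ring
    rw [h2, conj_re] at h1
    exact h1

theorem Lc_uu (h : Pv z) :
    (Lc (uu z)).re = -Real.log ‖cos z‖ ∧ (Lc (uu z)).im = ph z.re z.im :=
  S3.E.Lc_uu h.p.1 h.p.2.1 h.p.2.2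

theorem reg_edge (h : OE z y) : Reg (uu z) ((starRingEnd ℂ) (uu y)) := by
  have := h.oppHyp.reg (xx z.re z.im) (xx y.re y.im)
  rw [← UU_conj] at this
  exact this

theorem QO_edge (h : OE z y) : QO (uu z) ((starRingEnd ℂ) (uu y)) := by
  refine ⟨h.reg_edge, ?_, ?_, ?_, ?_⟩
  · rw [uu, UU_re]; exact h.a.xxpos.le
  · rw [conj_re, uu, UU_re]; exact h.b.xxpos.le
  · rw [uu, UU_im]; exact h.a.thpos.le
  · rw [conj_im, uu, UU_im]; linarith [h.b.thpos]

theorem good_aux (h : OE z y) : S3.Good (uu z) ((starRingEnd ℂ) (uu y)) := by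
  have hq := h.QO_edge
  have hr := h.reg_edge
  have f1 := Lc_uu h.a
  have f2 := Lc_uu h.b
  have f3 : Lc ((starRingEnd ℂ) (uu y)) = (starRingEnd ℂ) (Lc (uu y)) := by
    apply Lc_conj
    have := hr.right
    rwa [conj_im, abs_neg] at this
  have p1 := h.a.ph4
  have p2 := h.b.ph4
  have p3 := h.a.phpos
  have p4 := h.b.phpos
  have hqe := h.qe_pos
  have hqe' : qq (uu z) ((starRingEnd ℂ) (uu y)) = qe z y := by
    rw [qe, uu, uu, UU_conj]
  have c1 : (Lc ((starRingEnd ℂ) (uu y))).im = -ph y.re y.im := by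
    rw [f3, conj_im, f2.2]
  have c2 : (Lc ((starRingEnd ℂ) (uu y))).re = -Real.log ‖cos y‖ := by
    rw [f3, conj_re, f2.1]
  have g1 := neg_lcy_le hr (by rw [c1, f1.2]; linarith)
  have goal : (Lc (uu z)).im - (Lc ((starRingEnd ℂ) (uu y))).im
      - (lcy (uu z) ((starRingEnd ℂ) (uu y))).im
      + (qq (uu z) ((starRingEnd ℂ) (uu y))).im < Real.pi := by
    have h1 := h.alt
    rw [f1.2] at g1
    rw [c1, f1.2, hqe']
    linarith
  exact good_own hr hq.ur hq.wr hq.ui hq.wi goal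

/-- principal branches at an edge -/
theorem good_edge (h : OE z y) :
    S3.Good (uu z) ((starRingEnd ℂ) (uu y)) ∧
    S3.Good ((starRingEnd ℂ) (uu y)) (uu z) := by
  refine ⟨h.good_aux, ?_⟩
  have h1 := h.symm.good_aux
  have h2 := h1.conj h.symm.reg_edge
  rwa [conj_conj] at h2

/-- The critical point at an edge: `z` has `c < 0`. -/
theorem ecrit (h : OE z y) :
    ECrit (uu z) (-((starRingEnd ℂ) (uu y))) (yy (uu z) ((starRingEnd ℂ) (uu y)))
      (qe z y) (-((starRingEnd ℂ) (qe y z))) (-(2 * Real.pi * bw z y))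
      (2 * Real.pi * bw y z) := by
  have hr := h.reg_edge
  obtain ⟨g1, g2⟩ := h.good_edge
  have hO := h.oppHyp
  have hb := h.bw_pos
  have hb' := h.symm.bw_pos
  set u := uu z with hu
  set w := (starRingEnd ℂ) (uu y) with hw
  have hw' : w = UU (xx y.re y.im) (-(th y.re y.im)) := by
    rw [hw, uu, UU_conj]
  have hrn := hr.neg_right
  have g1n := g1.neg_right
  have g2n := g2.neg_left hr.symm
  have ey1 : yy u (-w) = yy u w := yy_neg_right u w
  have ey2 : yy (-w) u = yy u w := by rw [yy_neg_left, yy_comm]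
  have hq1 : qq u w = qe z y := by rw [qe, hw']; rfl
  have hq2 : qq w u = (starRingEnd ℂ) (qe y z) := by
    have e1 : qe y z = qq ((starRingEnd ℂ) w) ((starRingEnd ℂ) u) := by
      rw [qe, hw, conj_conj, hu, uu, uu, UU_conj]
    rw [e1, qq_conj hr.symm, conj_conj]
  have ci := cosh_uu h.a.p.1 h.a.p.2.1 h.a.p.2.2
  have cj := cosh_uu h.b.p.1 h.b.p.2.1 h.b.p.2.2
  rw [← hu] at ci
  have cj' : cosh w * (starRingEnd ℂ) (cos y) = 1 := by
    rw [hw, ← conj_cosh', ← map_mul, cj, map_one]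
  have ni : cos z ≠ 0 := h.a.cos_ne
  have nj : (starRingEnd ℂ) (cos y) ≠ 0 := by
    rw [Ne, map_eq_zero]; exact h.b.cos_ne
  have hcu : cosh u = 1 / cos z := by field_simp; exact ci
  have hcw : cosh w = 1 / (starRingEnd ℂ) (cos y) := by field_simp; exact cj'
  refine ⟨⟨sdom_op hr g1, ?_⟩, ?_, ?_, ?_, ?_, ?_⟩
  · have := sdom_op hrn.symm g2n
    rwa [ey2] at this
  · have := ey_add_eq hrn g1n g2n
    rwa [ey1] at this
  · rw [ev_op hr g1, hq1]
  · have := ev_op hrn.symm g2n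
    rw [ey2, qq_neg_left hr.symm, hq2] at this
    exact this
  · have e := A_op hrn
    rw [ey1] at e
    rw [e, TT_neg_right, cosh_neg]
    have hT : TT u w ^ 2 = 1 / cos z ^ 2 + 1 / (starRingEnd ℂ) (cos y) ^ 2 - 1 := by
      have := one_add_TT_sq hr
      rw [hcu, hcw] at this
      simp only [div_pow, one_pow] at this
      linear_combination this
    have k := h.k4 hT (TT_re_pos hr)
    have e2 : -(2 * (Real.pi : ℂ) * TT u w * (1 + TT u w ^ 2) ^ 2 / (cosh u ^ 2 * cosh w ^ 2))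
        = ((-(2 * Real.pi) : ℝ) : ℂ) * (TT u w * (1 / cos z ^ 2 +
          1 / (starRingEnd ℂ) (cos y) ^ 2) * (cos z ^ 2 + (starRingEnd ℂ) (cos y) ^ 2)) := by
      rw [one_add_TT_sq hr, hcu, hcw]
      push_cast
      field_simp
      ring
    rw [e2, re_ofReal_mul]
    have hpi := Real.pi_pos
    have := mul_pos (mul_pos two_pos hpi) k
    linarith
  · intro α β hαβ
    have e := qf_op hrn ((-(2 * Real.pi * bw z y) : ℝ) : ℂ)
      ((2 * Real.pi * bw y z : ℝ) : ℂ) α β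
    rw [ey1] at e
    rw [e]
    have k := qf_neg hO hb hb' h.a.xxpos h.b.xxpos (p := α) (q := -β) (by
      rcases hαβ with h1 | h1
      · exact Or.inl h1
      · exact Or.inr (neg_ne_zero.2 h1))
    rw [← hw'] at k
    change (-(2 / Real.pi) * (((α : ℂ) ^ 2 + ((-β : ℝ) : ℂ) ^ 2
        - 2 * tanh u * tanh w * ((α : ℂ) * ((-β : ℝ) : ℂ))) / TT u w)
      + I / (Real.pi : ℂ) ^ 2 * (((-(2 * Real.pi * bw z y) : ℝ) : ℂ) * (α : ℂ) ^ 2
          / cosh u ^ 2
        + ((2 * Real.pi * bw y z : ℝ) : ℂ) * ((-β : ℝ) : ℂ) ^ 2 / cosh w ^ 2)).re < 0 at k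
    rw [TT_neg_right, cosh_neg, tanh_neg]
    convert k using 2
    push_cast
    ring

end OE

end Pool.Agent.MX.E
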