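import Pool.Agent.MX.E.Num

/-!
# Project MX, block E: the share of a same-sign edge, real inequalities
-/

set_option autoImplicit false

namespace Pool.Agent.MX.E

open Real Pool.Agent.AT.E

/-! ### upper bounds of `sinh`, `cosh` on `[0, 1]` -/

private theorem sh_mono {f f' : ℝ → ℝ} (hd : ∀ x, HasDerivAt f (f' x) x) (h0 : f 0 = 0)
    (hp : ∀ x, 0 ≤ x → x ≤ 1 → 0 ≤ f' x) {x : ℝ} (hx : 0 ≤ x) (hx1 : x ≤ 1) : 0 ≤ f x := by
  have hm : MonotoneOn f (Set.Icc 0 1) := by
    apply monotoneOn_of_deriv_nonneg (convex_Icc _ _)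
    · exact fun y _ => (hd y).continuousAt.continuousWithinAt
    · exact fun y _ => (hd y).differentiableAt.differentiableWithinAt
    · intro y hy
      rw [(hd y).deriv]
      rw [interior_Icc] at hy
      exact hp y hy.1.le hy.2.le
  have := hm (Set.left_mem_Icc.2 zero_le_one) (Set.mem_Icc.2 ⟨hx, hx1⟩) hx
  rwa [h0] at this

theorem sh_cosh4 {x : ℝ} (h0 : 0 ≤ x) (h1 : x ≤ 1) : cosh x ≤ 1 + x ^ 2 / 2 + x ^ 4 / 4 := by
  have h2 : cosh x ≤ exp (x ^ 2 / 2) := cosh_le_exp_half_sq x
  have hx2 : x ^ 2 ≤ 1 := by linarith only [h1, mul_nonneg (sub_nonneg.2 h0) (sub_nonneg.2 h1)]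
  have h4 := Real.abs_exp_sub_one_sub_id_le (x := x ^ 2 / 2) (by
      rw [abs_of_nonneg (by positivity)]; linarith only [hx2])
  have h5 := (abs_le.1 h4).2
  linarith only [h5, h2]

theorem sh_sinh5 {x : ℝ} (h0 : 0 ≤ x) (h1 : x ≤ 1) : sinh x ≤ x + x ^ 3 / 6 + x ^ 5 / 20 := by
  have hd : ∀ v : ℝ, HasDerivAt (fun u : ℝ => u + u ^ 3 / 6 + u ^ 5 / 20 - sinh u)
      (1 + v ^ 2 / 2 + v ^ 4 / 4 - cosh v) v := by
    intro v
    have h2 := (((hasDerivAt_id' v).add (((hasDerivAt_pow 3 v)).div_const 6)).add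
      ((hasDerivAt_pow 5 v).div_const 20)).sub (Real.hasDerivAt_sinh v)
    refine h2.congr_deriv ?_
    norm_num
    ring
  have := sh_mono hd (by simp) (fun y h2 h3 => by linarith only [sh_cosh4 h2 h3]) h0 h1
  linarith only [this]

theorem sh_cosh6 {x : ℝ} (h0 : 0 ≤ x) (h1 : x ≤ 1) :
    cosh x ≤ 1 + x ^ 2 / 2 + x ^ 4 / 24 + x ^ 6 / 120 := by
  have hd : ∀ v : ℝ, HasDerivAt (fun u : ℝ => 1 + u ^ 2 / 2 + u ^ 4 / 24 + u ^ 6 / 120 - cosh u)
      (v + v ^ 3 / 6 + v ^ 5 / 20 - sinh v) v := by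
    intro v
    have h2 := ((((hasDerivAt_pow 2 v).div_const 2).add ((hasDerivAt_pow 4 v).div_const 24)).add
      ((hasDerivAt_pow 6 v).div_const 120)).const_add 1 |>.sub (Real.hasDerivAt_cosh v)
    refine (HasDerivAt.congr_deriv h2 ?_).congr_of_eventuallyEq ?_
    · norm_num
      ring
    · filter_upwards with u
      simp only [Pi.sub_apply, Pi.add_apply]
      ring
  have := sh_mono hd (by simp) (fun y h2 h3 => by linarith only [sh_sinh5 h2 h3]) h0 h1
  linarith only [this]

theorem sh_sinh7 {x : ℝ} (h0 : 0 ≤ x) (h1 : x ≤ 1) :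
    sinh x ≤ x + x ^ 3 / 6 + x ^ 5 / 120 + x ^ 7 / 840 := by
  have hd : ∀ v : ℝ, HasDerivAt (fun u : ℝ => u + u ^ 3 / 6 + u ^ 5 / 120 + u ^ 7 / 840 - sinh u)
      (1 + v ^ 2 / 2 + v ^ 4 / 24 + v ^ 6 / 120 - cosh v) v := by
    intro v
    have h2 := ((((hasDerivAt_id' v).add (((hasDerivAt_pow 3 v)).div_const 6)).add
      ((hasDerivAt_pow 5 v).div_const 120)).add ((hasDerivAt_pow 7 v).div_const 840)).sub
        (Real.hasDerivAt_sinh v)
    refine h2.congr_deriv ?_
    norm_num
    ring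
  have := sh_mono hd (by simp) (fun y h2 h3 => by linarith only [sh_cosh6 h2 h3]) h0 h1
  linarith only [this]

theorem sh_sinh3 {x : ℝ} (h0 : 0 ≤ x) : x + x ^ 3 / 6 ≤ sinh x := by
  have := V4_sinh7 h0
  have h5 : 0 ≤ x ^ 5 := by positivity
  have h7 : 0 ≤ x ^ 7 := by positivity
  linarith only [h7, h5, this]

/-- `u (1 + u/3) ≤ sinh² x ≤ u (1 + u/3 + u²/20)`, `u = x²` -/
theorem sh_sq {x : ℝ} (h0 : 0 ≤ x) (h1 : x ^ 2 ≤ 17 / 100) :
    x ^ 2 + (x ^ 2) ^ 2 / 3 ≤ sinh x ^ 2 ∧
      sinh x ^ 2 ≤ x ^ 2 + (x ^ 2) ^ 2 / 3 + (x ^ 2) ^ 3 / 20 := by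
  have hx1 : x ≤ 1 := by (refine le_of_not_gt fun hng => ?_; linarith only [hng, h1,
                           mul_pos (sub_pos.2 hng) (sub_pos.2 hng)])
  obtain ⟨u, hu⟩ : ∃ u, u = x ^ 2 := ⟨_, rfl⟩
  have u0 : 0 ≤ u := by rw [hu]; positivity
  constructor
  · have h2 := sh_sinh3 h0
    have h3 : (x + x ^ 3 / 6) ^ 2 ≤ sinh x ^ 2 := pow_le_pow_left₀ (by positivity) h2 2
    have h4 : (x + x ^ 3 / 6) ^ 2 = x ^ 2 + (x ^ 2) ^ 2 / 3 + (x ^ 2) ^ 3 / 36 := by ring
    have h5 : 0 ≤ (x ^ 2) ^ 3 := by positivity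
    linarith only [h5, h3]
  · have h2 := sh_sinh7 h0 hx1
    have h3 : sinh x ^ 2 ≤ (x + x ^ 3 / 6 + x ^ 5 / 120 + x ^ 7 / 840) ^ 2 :=
      pow_le_pow_left₀ (sinh_nonneg_iff.2 h0) h2 2
    have h4 : (x + x ^ 3 / 6 + x ^ 5 / 120 + x ^ 7 / 840) ^ 2
        = u * (1 + u / 6 + u ^ 2 / 120 + u ^ 3 / 840) ^ 2 := by rw [hu]; ring
    rw [h4] at h3
    rw [← hu] at h1 ⊢
    have h5 : u ^ 2 ≤ 17 / 100 * u := by (refine le_of_not_gt fun hng => ?_; linarith only [hng, hu,
                                           mul_nonneg (sub_nonneg.2 hng.le) (sub_nonneg.2 hu.le),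
                                           mul_nonneg (sub_nonneg.2 hng.le) (sub_nonneg.2 hu.ge),
                                           mul_nonneg (sq_nonneg (1 * u)) (sub_nonneg.2 hu.le),
                                           mul_nonneg (sq_nonneg (1 * u)) (sub_nonneg.2 hu.ge),
                                           mul_nonneg (sq_nonneg (x)) (sub_nonneg.2 h1)])
    have h6 : u ^ 3 ≤ 17 / 100 * u ^ 2 := by linarith only [mul_nonneg (sq_nonneg (u)) (sub_nonneg.2 h1)]
    have h7 : 1 + u / 6 + u ^ 2 / 120 + u ^ 3 / 840 ≤ 1 + u / 6 + u ^ 2 / 115 := by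
      linarith only [sq_nonneg u, h6]
    have h8 : (1 + u / 6 + u ^ 2 / 120 + u ^ 3 / 840) ^ 2 ≤ (1 + u / 6 + u ^ 2 / 115) ^ 2 :=
      pow_le_pow_left₀ (by positivity) h7 2
    have h9 : (1 + u / 6 + u ^ 2 / 115) ^ 2 ≤ 1 + u / 3 + u ^ 2 / 20 := by
      (refine le_of_not_gt fun hng => ?_; linarith only [hng, h8, h6,
        mul_nonneg (sq_nonneg (u)) (sub_nonneg.2 hng.le),
        mul_nonneg (sq_nonneg (u)) (sq_nonneg (690 * 1 + 115 * u + 6 * (1 * u) ^ 2)),
        mul_nonneg (sq_nonneg (u)) (sq_nonneg (u ^ 2))])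
    have h10 := mul_le_mul_of_nonneg_left (h8.trans h9) u0
    calc _ ≤ _ := h3
      _ ≤ _ := h10
      _ = _ := by ring

/-! ### (S0) -/

theorem sh_S0 {R I : ℝ} (hR0 : 0 ≤ R) (hI0 : 0 ≤ I)
    (hQ : R ^ 2 + I ^ 2 ≤ 0.62832 * R + 0.15708 * I) :
    1 / 2 * (cos R * cosh I) + sin R * sinh I ≤ 655 / 1000 := by
  have hR := num_R hQ
  have hI := num_I hQ
  have hR2 : R ^ 2 ≤ 4073 / 10000 := by linarith only [hR,
                                          mul_nonneg (sub_nonneg.2 hR0) (sub_nonneg.2 hR)]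
  have hI2 : I ^ 2 ≤ 162 / 1000 := by linarith only [hI,
                                        mul_nonneg (sub_nonneg.2 hI0) (sub_nonneg.2 hI)]
  have c1 : cos R ≤ 1 - R ^ 2 / 2 + R ^ 4 / 24 := V4_cos4 hR0
  have c0 : 0 ≤ cos R := (cos_pos_of_mem_Ioo ⟨by linarith only [pi_pos, hR0], by linarith only [pi_gt_three,
                                                                                   hR]⟩).le
  have s1 : sin R ≤ R - 163 / 1000 * R ^ 3 := by
    have h := V4_sin5 hR0
    have h3 : 0 ≤ R ^ 3 := by positivity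
    have h2 : R ^ 5 ≤ 4073 / 10000 * R ^ 3 := by
      have := mul_le_mul_of_nonneg_right hR2 h3
      linarith only [this]
    linarith only [h2, h3, h]
  have s0 : 0 ≤ sin R := sin_nonneg_of_nonneg_of_le_pi hR0 (by linarith only [pi_gt_three, hR])
  have C1 : cosh I ≤ 1 + I ^ 2 / 2 + I ^ 4 / 23 := by
    have h := sh_cosh6 hI0 (by linarith only [hI])
    have h4 : 0 ≤ I ^ 4 := by positivity
    have h2 : I ^ 6 ≤ 162 / 1000 * I ^ 4 := by
      have := mul_le_mul_of_nonneg_right hI2 h4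
      linarith only [this]
    linarith only [h2, h4, h]
  have C0 := cosh_pos I
  have H1 : sinh I ≤ I + 1681 / 10000 * I ^ 3 := by
    have h := sh_sinh7 hI0 (by linarith only [hI])
    have h3 : 0 ≤ I ^ 3 := by positivity
    have h5 : 0 ≤ I ^ 5 := by positivity
    have h2 : I ^ 5 ≤ 162 / 1000 * I ^ 3 := by
      have := mul_le_mul_of_nonneg_right hI2 h3
      linarith only [this]
    have h7 : I ^ 7 ≤ 162 / 1000 * I ^ 5 := by
      have := mul_le_mul_of_nonneg_right hI2 h5
      linarith only [this]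
    linarith only [h7, h2, h3, h]
  have H0 : 0 ≤ sinh I := sinh_nonneg_iff.2 hI0
  have k1 : cos R * cosh I ≤ (1 - R ^ 2 / 2 + R ^ 4 / 24) * (1 + I ^ 2 / 2 + I ^ 4 / 23) :=
    mul_le_mul c1 C1 C0.le (c0.trans c1)
  have k2 : sin R * sinh I ≤ (R - 163 / 1000 * R ^ 3) * (I + 1681 / 10000 * I ^ 3) :=
    mul_le_mul s1 H1 H0 (s0.trans s1)
  have hRI : 0 ≤ R * I := mul_nonneg hR0 hI0
  -- quartic terms
  have q1 : R ^ 4 ≤ 4073 / 10000 * R ^ 2 := by
    have := mul_le_mul_of_nonneg_right hR2 (sq_nonneg R)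
    linarith only [this]
  have q2 : I ^ 4 ≤ 162 / 1000 * I ^ 2 := by
    have := mul_le_mul_of_nonneg_right hI2 (sq_nonneg I)
    linarith only [this]
  have q3 : R * I ^ 3 ≤ 162 / 1000 * (R * I) := by
    have := mul_le_mul_of_nonneg_right hI2 hRI
    linarith only [this]
  have q4 : 2 * (1557 / 10000) * (R * I) - (1557 / 10000) ^ 2 ≤ (R * I) ^ 2 := by
    linarith only [sq_nonneg (R * I - 1557 / 10000)]
  have q5 : (3 * (398 / 1000) ^ 2 * R - 2 * (398 / 1000) ^ 3) * I ≤ R ^ 3 * I := by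
    apply mul_le_mul_of_nonneg_right _ hI0
    linarith only [mul_nonneg (sq_nonneg (R - 398 / 1000)) (by linarith : 0 ≤ R + 2 * (398 / 1000))]
  have e1 : (1 - R ^ 2 / 2 + R ^ 4 / 24) * (1 + I ^ 2 / 2 + I ^ 4 / 23)
      ≤ 1 - R ^ 2 / 2 + R ^ 4 / 24 + I ^ 2 / 2 + I ^ 4 / 23 - 2415 / 10000 * (R * I) ^ 2 := by
    have h1 : R ^ 2 / 2 - R ^ 4 / 24 ≥ 483 / 1000 * R ^ 2 := by linarith only [sq_nonneg R, q1]
    have h2 : 0 ≤ I ^ 2 / 2 + I ^ 4 / 23 := by positivity
    have h3 := mul_le_mul_of_nonneg_right h1.le h2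
    have h4 : 0 ≤ R ^ 2 * I ^ 4 := by positivity
    linarith only [h4, h3]
  have e2 : (R - 163 / 1000 * R ^ 3) * (I + 1681 / 10000 * I ^ 3)
      ≤ R * I + 1681 / 10000 * (R * I ^ 3) - 163 / 1000 * (R ^ 3 * I) := by
    have h4 : 0 ≤ R ^ 3 * I ^ 3 := by positivity
    linarith only [h4]
  have G : 0 ≤ 15207 / 100000 + 12044 / 10000 * R ^ 2 + 7094 / 10000 * I ^ 2
      - 9123 / 10000 * (R * I) - 6051 / 10000 * R - 17185 / 100000 * I := by
    linarith only [sq_nonneg (I - 3735 / 10000), sq_nonneg (R - 37874 / 100000 * I - 2512 / 10000),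
      hRI, hR, hQ]
  norm_num at hQ k1 k2 e1 e2 q4 q5 ⊢
  linarith only [q5, q4, e2, e1, k2, hQ, G, q3, q2, q1, k1, hI2, hI0, hR0]

/-! ### the parabola -/

theorem psi_lt {q Q A D K : ℝ} (hq : 0 < q) (hQ0 : 0 < Q) (hA : 0 ≤ A) (hK : 0 ≤ K)
    (h0 : q * (1 + q) * K = A + q * D) (hQ : A + Q * D < Q * (1 + Q) * K) : q < Q := by
  by_contra hc
  push Not at hc
  have h1 := mul_lt_mul_of_pos_left hQ hq
  have h2 : 0 ≤ (q - Q) * (A + q * Q * K) := mul_nonneg (by linarith only [hc]) (by positivity)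
  have h3 : Q * (q * (1 + q) * K) = Q * (A + q * D) := by rw [h0]
  linarith only [h3, h2, h1]

theorem psi_gt {q Q A D K : ℝ} (hq : 0 < q) (hQ0 : 0 < Q) (hA : 0 ≤ A) (hK : 0 ≤ K)
    (h0 : q * (1 + q) * K = A + q * D) (hQ : Q * (1 + Q) * K < A + Q * D) : Q < q := by
  by_contra hc
  push Not at hc
  have h1 := mul_lt_mul_of_pos_left hQ hq
  have h2 : 0 ≤ (Q - q) * (A + q * Q * K) := mul_nonneg (by linarith only [hc]) (by positivity)
  have h3 : Q * (q * (1 + q) * K) = Q * (A + q * D) := by rw [h0]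
  linarith only [h3, h2, h1]

/-! ### (S1) -/

theorem sh_cosh_le (I : ℝ) : cosh I ≤ 1 + sinh I ^ 2 / 2 := by
  have h := cosh_sq I
  have h2 := cosh_pos I
  (refine le_of_not_gt fun hng => ?_; linarith only [hng, h, sq_nonneg (sinh I ^ 2),
    mul_pos (sub_pos.2 hng) (sub_pos.2 hng), mul_nonneg (sq_nonneg (sinh I)) (sub_nonneg.2 hng.le)])

theorem sh_S1 {R I b1 b2 : ℝ} (hn : Nm R I) (h : 2 * R ≤ I) (hb1 : 4 / 5 ≤ b1)
    (hb1' : b1 ≤ 53 / 50) (hb2 : 0 ≤ b2) (hb2' : b2 ≤ b1 / 5) (hs : b1 / 2 + b2 ≤ 655 / 1000) :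
    (b1 * (sin R * cos R) + b2 * (cosh I * sinh I)) ^ 2 + sinh (2 / 3 * I) ^ 2 *
      ((b1 ^ 2 + b2 ^ 2) * (sin R ^ 2 + sinh I ^ 2) * (1 + sinh I ^ 2 - sin R ^ 2)) <
      sinh (2 / 3 * I) ^ 2 * (1 + sinh (2 / 3 * I) ^ 2) * (1 + sinh I ^ 2 - sin R ^ 2) ^ 2 := by
  have hI0 := hn.I0
  have hR0 := hn.R0
  have hI1 := hn.I1
  obtain ⟨u, hu⟩ : ∃ u, u = I ^ 2 := ⟨_, rfl⟩
  have u0 : 0 < u := by rw [hu]; positivity
  have u1 : u ≤ 162 / 1000 := by rw [hu]; linarith only [hI1,
                                            mul_nonneg (sub_nonneg.2 hI0.le) (sub_nonneg.2 hI1),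
                                            mul_pos (sub_pos.2 hI0) (sub_pos.2 hR0),
                                            mul_nonneg (sub_nonneg.2 h) (sub_nonneg.2 hI0.le)]
  obtain ⟨H1, H2⟩ := sh_sq hI0.le (by rw [← hu]; linarith only [u1, u0])
  obtain ⟨Q1, Q2⟩ := sh_sq (x := 2 / 3 * I) (by positivity) (by linarith only [u1, hu, hI1, hR0, h])
  have e1 : (2 / 3 * I) ^ 2 = 4 / 9 * u := by rw [hu]; ring
  rw [e1] at Q1
  rw [← hu] at H1 H2
  have hhI := sh_sinh3 hI0.le
  have hsR : sin R ≤ R := (sin_lt hR0).le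
  have hs0 := hn.s0
  have hc0 : 0 < cos R := lt_of_lt_of_le (by norm_num) hn.c0
  have hH1 := hn.h1
  have h0 := hn.h0
  have hC := sh_cosh_le I
  have hC0 := cosh_pos I
  have h2R : 2 * (sin R * cos R) ≤ I := by
    have h3 : sin (2 * R) ≤ 2 * R := (sin_lt (by linarith only [hR0])).le
    rw [sin_two_mul] at h3
    linarith only [h3, h]
  obtain ⟨S, hS⟩ : ∃ S, S = sin R ^ 2 := ⟨_, rfl⟩
  obtain ⟨t, ht⟩ : ∃ t, t = sinh I := ⟨_, rfl⟩
  obtain ⟨Q, hQ⟩ : ∃ Q, Q = sinh (2 / 3 * I) ^ 2 := ⟨_, rfl⟩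
  rw [← hQ] at Q1 Q2 ⊢
  rw [← ht] at H1 H2 hhI hH1 h0 hC ⊢
  rw [← hS]
  obtain ⟨sc, hsc⟩ : ∃ sc, sc = sin R * cos R := ⟨_, rfl⟩
  obtain ⟨C, hCd⟩ : ∃ C, C = cosh I := ⟨_, rfl⟩
  rw [← hsc] at h2R ⊢
  rw [← hCd] at hC hC0 ⊢
  have sc0 : 0 ≤ sc := by rw [hsc]; positivity
  obtain ⟨H, hH⟩ : ∃ H, H = t ^ 2 := ⟨_, rfl⟩
  rw [← hH] at H1 H2 hH1 hC ⊢
  have H0 : 0 < H := by rw [hH]; positivity
  -- `S ≤ H / 4`
  have hS0 : 0 ≤ S := by rw [hS]; positivity
  have hSH : S ≤ H / 4 := by
    have h3 : sin R ≤ t / 2 := by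
      have : 0 ≤ I ^ 3 := by positivity
      linarith only [this, hhI, hsR, h]
    have h4 : sin R ^ 2 ≤ (t / 2) ^ 2 := pow_le_pow_left₀ hs0.le h3 2
    rw [hS, hH]; linarith only [h4]
  -- `I ≤ t (1 - H / 8)`
  have hIt : I ≤ t * (1 - H / 8) := by
    have k1 : 1 - (u + u ^ 2 / 3 + u ^ 3 / 20) / 8 ≤ 1 - H / 8 := by linarith only [H2]
    have k2 : 0 ≤ 1 - (u + u ^ 2 / 3 + u ^ 3 / 20) / 8 := by linarith only [H1, hH1, u1, u0,
                                                               mul_nonneg (sq_nonneg (1 * u)) (sub_nonneg.2 u1)]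
    have k3 : I * (1 + u / 6) ≤ t := by rw [hu]; linarith only [hhI]
    have k4 : 1 ≤ (1 + u / 6) * (1 - (u + u ^ 2 / 3 + u ^ 3 / 20) / 8) := by
      linarith only [mul_pos (mul_pos u0 u0) u0, Q1, Q2, hu,
        mul_nonneg (sq_nonneg (1 * (1 * 2 * (1 * I)) ^ 2)) (sub_nonneg.2 u1),
        mul_nonneg (sq_nonneg (1 * (1 * 2 * (1 * I)) ^ 2)) (sub_nonneg.2 hu.le),
        mul_nonneg (sq_nonneg (1 * (1 * 2 * (1 * I)) ^ 2)) (sub_nonneg.2 hu.ge),
        mul_nonneg (sq_nonneg (I)) (sub_nonneg.2 H1), mul_nonneg (sq_nonneg (I)) (sub_nonneg.2 hH1),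
        mul_nonneg (sq_nonneg (I)) (sub_nonneg.2 hu.le),
        mul_nonneg (sq_nonneg (I)) (sub_nonneg.2 hu.ge),
        mul_nonneg (mul_self_nonneg (u)) (sub_nonneg.2 H1),
        mul_nonneg (mul_self_nonneg (u)) (sub_nonneg.2 hH1),
        mul_nonneg (mul_self_nonneg (u)) (sub_nonneg.2 u1),
        mul_nonneg (mul_self_nonneg (u)) (sub_nonneg.2 hu.le),
        mul_nonneg (mul_self_nonneg (u)) (sub_nonneg.2 hu.ge)]
    calc I = I * 1 := by ring
      _ ≤ I * ((1 + u / 6) * (1 - (u + u ^ 2 / 3 + u ^ 3 / 20) / 8)) :=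
          mul_le_mul_of_nonneg_left k4 hI0.le
      _ = (I * (1 + u / 6)) * (1 - (u + u ^ 2 / 3 + u ^ 3 / 20) / 8) := by ring
      _ ≤ t * (1 - H / 8) := mul_le_mul k3 k1 k2 h0.le
  -- `N`
  obtain ⟨N, hN⟩ : ∃ N, N = b1 * sc + b2 * (C * t) := ⟨_, rfl⟩
  rw [← hN]
  have N0 : 0 ≤ N := by rw [hN]; positivity
  have N1 : N ≤ t * (655 / 1000 + 4 / 100 * H) := by
    have k1 : sc ≤ t * (1 / 2 - H / 16) := by linarith only [hIt, h2R]
    have k2 : b1 * sc ≤ b1 * (t * (1 / 2 - H / 16)) := mul_le_mul_of_nonneg_left k1 (by linarith only [hb1])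
    have k3 : b2 * (C * t) ≤ b2 * ((1 + H / 2) * t) :=
      mul_le_mul_of_nonneg_left (mul_le_mul_of_nonneg_right hC h0.le) hb2
    have k4 : b1 * (1 / 2 - H / 16) + b2 * (1 + H / 2) ≤ 655 / 1000 + 4 / 100 * H := by (refine le_of_not_gt fun hng => ?_; linarith only [hH,
                                                                                          hs,
                                                                                          mul_nonneg (sub_nonneg.2 hb2) (sub_nonneg.2 hH.le),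
                                                                                          mul_nonneg (sub_nonneg.2 hb2) (sub_nonneg.2 hH.ge),
                                                                                          mul_nonneg (sub_nonneg.2 hb1) (sub_nonneg.2 hH.le),
                                                                                          mul_nonneg (sub_nonneg.2 hb1) (sub_nonneg.2 hH.ge),
                                                                                          mul_nonneg (sub_nonneg.2 hb1) (sub_nonneg.2 H1),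
                                                                                          mul_nonneg (sub_nonneg.2 hb1) (sub_nonneg.2 hu.le),
                                                                                          mul_nonneg (sub_nonneg.2 hb1) (sub_nonneg.2 hu.ge),
                                                                                          mul_nonneg (sub_nonneg.2 hng.le) (sub_nonneg.2 u1),
                                                                                          mul_pos (sub_pos.2 hng) (sub_pos.2 u0),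
                                                                                          mul_nonneg (sq_nonneg (1 * u)) (sub_nonneg.2 hb1),
                                                                                          mul_nonneg (sq_nonneg (I)) (sub_nonneg.2 hb1),
                                                                                          mul_nonneg (sq_nonneg (t)) (sub_nonneg.2 hs),
                                                                                          mul_nonneg (sq_nonneg (t)) (sub_nonneg.2 hb2')])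
    have k5 := mul_le_mul_of_nonneg_left k4 h0.le
    rw [hN]
    linarith only [k5, k3, k2]
  have N2 : N ^ 2 ≤ H * (4291 / 10000 + 527 / 10000 * H) := by
    have k1 : N ^ 2 ≤ (t * (655 / 1000 + 4 / 100 * H)) ^ 2 := pow_le_pow_left₀ N0 N1 2
    have k2 : (t * (655 / 1000 + 4 / 100 * H)) ^ 2 = H * (655 / 1000 + 4 / 100 * H) ^ 2 := by
      rw [hH]; ring
    rw [k2] at k1
    apply k1.trans
    apply mul_le_mul_of_nonneg_left _ H0.le
    (refine le_of_not_gt fun hng => ?_; linarith only [k2, hH, u1, u0, sq_nonneg (t),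
      mul_nonneg (sub_nonneg.2 hng.le) (sub_nonneg.2 hH.le),
      mul_nonneg (sub_nonneg.2 hng.le) (sub_nonneg.2 hH.ge),
      mul_nonneg (sub_nonneg.2 hng.le) (sub_nonneg.2 u1), mul_pos (sub_pos.2 hng) (sub_pos.2 u0),
      mul_nonneg (sq_nonneg (t)) (sub_nonneg.2 hH1)])
  -- `Q`
  have Q3 : 4 / 9 * H * (1 - 2 / 10 * H) ≤ Q := by
    have k1 : H * (1 - 2 / 10 * H) ≤ (u + u ^ 2 / 3 + u ^ 3 / 20) *
        (1 - 2 / 10 * (u + u ^ 2 / 3 + u ^ 3 / 20)) := by
      have k2 : 0 ≤ (u + u ^ 2 / 3 + u ^ 3 / 20) - H := by linarith only [H2]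
      have k3 : u + u ^ 2 / 3 + u ^ 3 / 20 ≤ 18 / 100 := by linarith only [mul_pos u0 u0, H1, hH1,
                                                              u0,
                                                              mul_nonneg (mul_self_nonneg (u)) (sub_nonneg.2 u1)]
      (refine le_of_not_gt fun hng => ?_; linarith only [H2,
        mul_nonneg (sub_nonneg.2 H2) (sub_nonneg.2 k3),
        mul_nonneg (sub_nonneg.2 hH1) (sub_nonneg.2 H2),
        mul_nonneg (sub_nonneg.2 hng.le) (sub_nonneg.2 u1), mul_pos (sub_pos.2 hng) (sub_pos.2 u0)])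
    have k4 : (u + u ^ 2 / 3 + u ^ 3 / 20) * (1 - 2 / 10 * (u + u ^ 2 / 3 + u ^ 3 / 20)) ≤
        u + 4 / 27 * u ^ 2 := by
      have a1 := mul_pos u0 u0
      have a2 := mul_pos a1 u0
      have a3 := mul_pos a2 u0
      linarith only [mul_pos (mul_pos a3 u0) u0, mul_pos a3 u0, a3, a2, a1]
    linarith only [k4, k1, Q1]
  have Q0 : 0 < Q := by linarith only [Q1, u0, sq_nonneg (1 * u)]
  -- `b²`
  obtain ⟨B, hB⟩ : ∃ B, B = b1 ^ 2 + b2 ^ 2 := ⟨_, rfl⟩
  rw [← hB]
  have B0 : 0 ≤ B := by rw [hB]; positivity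
  have B1 : B ≤ 114 / 100 := by
    have k1 : b2 ≤ 655 / 1000 - b1 / 2 := by linarith only [hs]
    have k2 : b2 ^ 2 ≤ (655 / 1000 - b1 / 2) ^ 2 := pow_le_pow_left₀ hb2 k1 2
    rw [hB]
    (refine le_of_not_gt fun hng => ?_; linarith only [k2, hb1',
      mul_nonneg (sub_nonneg.2 hb1) (sub_nonneg.2 hb1'),
      mul_nonneg (sub_nonneg.2 hng.le) (sub_nonneg.2 u1), mul_pos (sub_pos.2 hng) (sub_pos.2 u0)])
  -- the end
  obtain ⟨k, hk⟩ : ∃ k, k = 1 + H - S := ⟨_, rfl⟩
  rw [← hk]
  have kk : 1 + 3 / 4 * H ≤ k := by rw [hk]; linarith only [hSH]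
  have k0 : 0 < k := by linarith only [hk, hSH, H0]
  have br : 1 - 2465 / 10000 * H ≤ (1 + Q) * k - B * (S + H) := by
    have a1 : Q * 1 ≤ Q * k := mul_le_mul_of_nonneg_left (by linarith only [hk, hSH, H0]) Q0.le
    have a2 : B * (S + H) ≤ 114 / 100 * (S + H) := mul_le_mul_of_nonneg_right B1 (by linarith only [hS0,
                                                                                       H0])
    have a3 : 4288 / 10000 * H ≤ Q := by linarith only [Q0, hH, H1, H2, Q1, Q2, hu,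
                                           mul_nonneg (sq_nonneg (1 * (1 * 2 * (1 * I)) ^ 2)) (sub_nonneg.2 u1),
                                           mul_nonneg (sq_nonneg (1 * (1 * 2 * (1 * I)) ^ 2)) (sub_nonneg.2 hu.le),
                                           mul_nonneg (sq_nonneg (1 * (1 * 2 * (1 * I)) ^ 2)) (sub_nonneg.2 hu.ge),
                                           mul_nonneg (sq_nonneg (1 * u)) (sub_nonneg.2 hu.le),
                                           mul_nonneg (sq_nonneg (1 * u)) (sub_nonneg.2 hu.ge),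
                                           mul_nonneg (sq_nonneg (I)) (sub_nonneg.2 hH.le),
                                           mul_nonneg (sq_nonneg (I)) (sub_nonneg.2 hH.ge),
                                           mul_nonneg (sq_nonneg (I)) (sub_nonneg.2 H1),
                                           mul_nonneg (sq_nonneg (I)) (sub_nonneg.2 hu.le),
                                           mul_nonneg (sq_nonneg (I)) (sub_nonneg.2 hu.ge),
                                           mul_nonneg (sq_nonneg (t)) (sub_nonneg.2 u1),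
                                           mul_nonneg (sq_nonneg (t)) (sub_nonneg.2 hu.le),
                                           mul_nonneg (sq_nonneg (t)) (sub_nonneg.2 hu.ge)]
    linarith only [a3, a2, a1, hk, Q0, hSH]
  have Qk : 4 / 9 * H * (1 - 2 / 10 * H) * (1 + 3 / 4 * H) ≤ Q * k := by
    apply mul_le_mul Q3 kk (by positivity) Q0.le
  have fin : H * (4291 / 10000 + 527 / 10000 * H) < (Q * k) * ((1 + Q) * k - B * (S + H)) := by
    have a1 : (4 / 9 * H * (1 - 2 / 10 * H) * (1 + 3 / 4 * H)) * (1 - 2465 / 10000 * H)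
        ≤ (Q * k) * ((1 + Q) * k - B * (S + H)) :=
      mul_le_mul Qk br (by linarith only [hH1, u1, u0]) (by positivity)
    have a2 : 4291 / 10000 + 527 / 10000 * H <
        4 / 9 * (1 - 2 / 10 * H) * (1 + 3 / 4 * H) * (1 - 2465 / 10000 * H) := by
      linarith only [mul_nonneg H0.le (by linarith : 0 ≤ 174 / 1000 - H), mul_pos H0 H0, hH1,
        mul_nonneg (mul_self_nonneg (H)) (sub_nonneg.2 hC),
        mul_nonneg (mul_self_nonneg (H)) (sub_nonneg.2 hC0.le)]
    have a3 := mul_lt_mul_of_pos_left a2 H0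
    calc _ < _ := a3
      _ = (4 / 9 * H * (1 - 2 / 10 * H) * (1 + 3 / 4 * H)) * (1 - 2465 / 10000 * H) := by ring
      _ ≤ _ := a1
  calc _ ≤ H * (4291 / 10000 + 527 / 10000 * H) + Q * (B * (S + H) * k) := by linarith only [N2]
    _ < (Q * k) * ((1 + Q) * k - B * (S + H)) + Q * (B * (S + H) * k) := by linarith only [fin]
    _ = _ := by ring

/-! ### (S2) -/

private theorem s2_n1 {u : ℝ} (u0 : 0 < u) (u1 : u ≤ 162 / 1000) :
    (1 + 16 / 100 * u * (1 + 537 / 10000 * u)) * (1 + 3 / 4 * u + 365 / 1000 * u ^ 2)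
        - 64 / 100 * (125 / 100 * u + 3125 / 10000 * u ^ 2)
        ≤ 1 + 11 / 100 * u + 306 / 1000 * u ^ 2 := by
  have u2 : 0 < u ^ 2 := by positivity
  have u3 : u ^ 3 ≤ 162 / 1000 * u ^ 2 := by linarith only [mul_nonneg (sq_nonneg (u)) (sub_nonneg.2 u1)]
  have u4 : u ^ 4 ≤ 162 / 1000 * u ^ 2 := by (refine le_of_not_gt fun hng => ?_; linarith only [mul_nonneg (sub_nonneg.2 u0.le) (sub_nonneg.2 u3),
                                               mul_pos (sub_pos.2 u0) (sub_pos.2 u2),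
                                               mul_pos (sub_pos.2 hng) (sub_pos.2 u0),
                                               mul_nonneg (sq_nonneg (u)) (sub_nonneg.2 u3)])
  have e : (1 + 16 / 100 * u * (1 + 537 / 10000 * u)) * (1 + 3 / 4 * u + 365 / 1000 * u ^ 2)
        - 64 / 100 * (125 / 100 * u + 3125 / 10000 * u ^ 2)
      = 1 + 11 / 100 * u + (365 / 1000 + 12 / 100 + 8592 / 1000000 - 2 / 10) * u ^ 2
        + (584 / 10000 + 6444 / 1000000) * u ^ 3 + 313608 / 100000000 * u ^ 4 := by ring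
  rw [e]
  linarith only [u4, u3, u2]

private theorem s2_n2 {u : ℝ} (u0 : 0 < u) (u1 : u ≤ 162 / 1000) :
    16 / 100 * (1 + 537 / 10000 * u) * (1 + 3 / 4 * u + 365 / 1000 * u ^ 2) *
        (1 + 11 / 100 * u + 306 / 1000 * u ^ 2) < 2116 / 10000 * (1 - u / 3) := by
  have b1' : (1 + 537 / 10000 * u) ≤ 1009 / 1000 := by linarith only [u1, u0]
  have u2 : u ^ 2 ≤ 2625 / 100000 := by (refine le_of_not_gt fun hng => ?_; linarith only [mul_nonneg (sub_nonneg.2 u0.le) (sub_nonneg.2 u1),
                                          mul_pos (sub_pos.2 u0) (sub_pos.2 u0),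
                                          mul_pos (sub_pos.2 hng) (sub_pos.2 u0),
                                          mul_nonneg (sq_nonneg (1 * u)) (sub_nonneg.2 u1)])
  have b2' : (1 + 3 / 4 * u + 365 / 1000 * u ^ 2) ≤ 1132 / 1000 := by linarith only [u2, u1, u0]
  have b3' : (1 + 11 / 100 * u + 306 / 1000 * u ^ 2) ≤ 1026 / 1000 := by linarith only [u2, u1, u0]
  have b4' : (1 + 537 / 10000 * u) * (1 + 3 / 4 * u + 365 / 1000 * u ^ 2) ≤
      1009 / 1000 * (1132 / 1000) := mul_le_mul b1' b2' (by positivity) (by norm_num)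
  have b5' : (1 + 537 / 10000 * u) * (1 + 3 / 4 * u + 365 / 1000 * u ^ 2) *
      (1 + 11 / 100 * u + 306 / 1000 * u ^ 2) ≤ 1009 / 1000 * (1132 / 1000) * (1026 / 1000) :=
    mul_le_mul b4' b3' (by positivity) (by norm_num)
  have e : 16 / 100 * (1 + 537 / 10000 * u) * (1 + 3 / 4 * u + 365 / 1000 * u ^ 2) *
        (1 + 11 / 100 * u + 306 / 1000 * u ^ 2) = 16 / 100 * ((1 + 537 / 10000 * u) *
        (1 + 3 / 4 * u + 365 / 1000 * u ^ 2) * (1 + 11 / 100 * u + 306 / 1000 * u ^ 2)) := by ring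
  rw [e]
  linarith only [b5', u1, u0]

theorem sh_S2 {R I b1 b2 : ℝ} (hn : Nm R I) (h : I ≤ 2 * R) (hb1 : 4 / 5 ≤ b1)
    (hb2 : 0 ≤ b2) (hs : 92 / 100 ≤ b1 + 2 * b2) :
    sinh (2 / 5 * I) ^ 2 * (1 + sinh (2 / 5 * I) ^ 2) * (1 + sinh I ^ 2 - sin R ^ 2) ^ 2 <
    (b1 * (sin R * cos R) + b2 * (cosh I * sinh I)) ^ 2 + sinh (2 / 5 * I) ^ 2 *
      ((b1 ^ 2 + b2 ^ 2) * (sin R ^ 2 + sinh I ^ 2) * (1 + sinh I ^ 2 - sin R ^ 2)) := by
  have hI0 := hn.I0
  have hR0 := hn.R0
  have hI1 := hn.I1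
  have hR1 := hn.R1
  have hpi := pi_gt_three
  obtain ⟨u, hu⟩ : ∃ u, u = I ^ 2 := ⟨_, rfl⟩
  have u0 : 0 < u := by rw [hu]; positivity
  have u1 : u ≤ 162 / 1000 := by rw [hu]; linarith only [hI1,
                                            mul_nonneg (sub_nonneg.2 hI0.le) (sub_nonneg.2 hI1)]
  obtain ⟨H1, H2⟩ := sh_sq hI0.le (by rw [← hu]; linarith only [u1, u0])
  obtain ⟨Q1, Q2⟩ := sh_sq (x := 2 / 5 * I) (by positivity) (by linarith only [u1, hu, hI1, hI0])
  have e1 : (2 / 5 * I) ^ 2 = 4 / 25 * u := by rw [hu]; ring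
  rw [e1] at Q1 Q2
  rw [← hu] at H1 H2
  have hhI := sh_sinh3 hI0.le
  have hs0 := hn.s0
  have hc0 : 0 < cos R := lt_of_lt_of_le (by norm_num) hn.c0
  have hS36 := hn.s1
  have h0 := hn.h0
  have hC1 := one_le_cosh I
  -- `sin I ≤ 2 sin R cos R`
  have h2R : sin I ≤ 2 * (sin R * cos R) := by
    have h3 : sin I ≤ sin (2 * R) := by
      apply sin_le_sin_of_le_of_le_pi_div_two (by linarith only [hpi, hI1, hI0]) _ h
      linarith only [hpi, hR1, hI1, hI0]
    rw [sin_two_mul] at h3
    linarith only [h3]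
  have hsI := V4_sin3 hI0.le
  have hsI2 : sin I ≤ I := (sin_lt hI0).le
  -- `sin² (I / 2) ≤ S`
  have hSl : u / 4 * (1 - u / 12) ≤ sin R ^ 2 := by
    have h3 : sin (I / 2) ≤ sin R := by
      apply sin_le_sin_of_le_of_le_pi_div_two (by linarith only [hpi, hI1, hI0]) _ (by linarith only [h])
      linarith only [hpi, hR1, hI1, hI0]
    have h4 := V4_sin3 (x := I / 2) (by positivity)
    have h5 : 0 ≤ I / 2 - (I / 2) ^ 3 / 6 := by (refine le_of_not_gt fun hng => ?_; linarith only [hng,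
                                                  hI0, mul_pos (sub_pos.2 hng) (sub_pos.2 hI0),
                                                  mul_nonneg (sq_nonneg (I)) (sub_nonneg.2 u1),
                                                  mul_nonneg (sq_nonneg (I)) (sub_nonneg.2 hu.le),
                                                  mul_nonneg (sq_nonneg (I)) (sub_nonneg.2 hu.ge),
                                                  mul_nonneg (sq_nonneg (I)) (sub_nonneg.2 hI1)])
    have h6 : (I / 2 - (I / 2) ^ 3 / 6) ^ 2 ≤ sin R ^ 2 := pow_le_pow_left₀ h5 (h4.trans h3) 2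
    have h7 : (I / 2 - (I / 2) ^ 3 / 6) ^ 2 = u / 4 * (1 - u / 24) ^ 2 := by rw [hu]; ring
    rw [h7] at h6
    linarith only [h6, H2, H1]
  obtain ⟨S, hS⟩ : ∃ S, S = sin R ^ 2 := ⟨_, rfl⟩
  obtain ⟨t, ht⟩ : ∃ t, t = sinh I := ⟨_, rfl⟩
  obtain ⟨Q, hQ⟩ : ∃ Q, Q = sinh (2 / 5 * I) ^ 2 := ⟨_, rfl⟩
  rw [← hQ] at Q1 Q2 ⊢
  rw [← ht] at H1 H2 hhI h0 ⊢
  rw [← hS] at hSl hS36 ⊢
  obtain ⟨sc, hsc⟩ : ∃ sc, sc = sin R * cos R := ⟨_, rfl⟩
  obtain ⟨C, hCd⟩ : ∃ C, C = cosh I := ⟨_, rfl⟩
  rw [← hsc] at h2R ⊢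
  rw [← hCd] at hC1 ⊢
  obtain ⟨H, hH⟩ : ∃ H, H = t ^ 2 := ⟨_, rfl⟩
  rw [← hH] at H1 H2 ⊢
  have H0 : 0 < H := by rw [hH]; positivity
  obtain ⟨N, hN⟩ : ∃ N, N = b1 * sc + b2 * (C * t) := ⟨_, rfl⟩
  rw [← hN]
  have I3 : 0 ≤ I ^ 3 := by positivity
  have sI0 : 0 ≤ I - I ^ 3 / 6 := by (refine le_of_not_gt fun hng => ?_; linarith only [hng, hI0,
                                       mul_pos (sub_pos.2 hng) (sub_pos.2 hI0),
                                       mul_nonneg (sq_nonneg (I)) (sub_nonneg.2 u1),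
                                       mul_nonneg (sq_nonneg (I)) (sub_nonneg.2 hu.le),
                                       mul_nonneg (sq_nonneg (I)) (sub_nonneg.2 hu.ge),
                                       mul_nonneg (sq_nonneg (I)) (sub_nonneg.2 hI1)])
  have N1 : 46 / 100 * (I - I ^ 3 / 6) ≤ N := by
    have k1 : b1 * (sin I / 2) ≤ b1 * sc := mul_le_mul_of_nonneg_left (by linarith only [h2R]) (by linarith only [hb1])
    have k2 : sin I ≤ C * t := by
      have : t ≤ C * t := by (refine le_of_not_gt fun hng => ?_; linarith only [mul_pos (sub_pos.2 hng) (sub_pos.2 h0),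
                               mul_nonneg (sq_nonneg (t)) (sub_nonneg.2 hC1)])
      linarith only [this, hhI, hsI2, hsI]
    have k3 : b2 * sin I ≤ b2 * (C * t) := mul_le_mul_of_nonneg_left k2 hb2
    have k4 : 46 / 100 * (I - I ^ 3 / 6) ≤ 46 / 100 * sin I := by linarith only [hsI]
    have k5 : 0 ≤ (b1 + 2 * b2 - 92 / 100) * sin I := mul_nonneg (by linarith only [hs]) (by linarith only [sI0,
                                                                                               hsI])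
    rw [hN]
    linarith only [k5, k3, k1, hsI]
  have N2 : 2116 / 10000 * u * (1 - u / 3) ≤ N ^ 2 := by
    have k1 : (46 / 100 * (I - I ^ 3 / 6)) ^ 2 ≤ N ^ 2 := pow_le_pow_left₀ (by positivity) N1 2
    have k2 : (46 / 100 * (I - I ^ 3 / 6)) ^ 2 = 2116 / 10000 * (u * (1 - u / 6) ^ 2) := by
      rw [hu]; ring
    rw [k2] at k1
    linarith only [k1, Q1, Q2]
  obtain ⟨B, hB⟩ : ∃ B, B = b1 ^ 2 + b2 ^ 2 := ⟨_, rfl⟩
  rw [← hB]
  have B1 : 64 / 100 ≤ B := by rw [hB]; linarith only [hb1, sq_nonneg (b2),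
                                          mul_nonneg (sub_nonneg.2 hb1) (sub_nonneg.2 hb1)]
  obtain ⟨k, hk⟩ : ∃ k, k = 1 + H - S := ⟨_, rfl⟩
  rw [← hk]
  have u2 : 0 < u ^ 2 := by positivity
  have u3 : 0 < u ^ 3 := by positivity
  have kk : k ≤ 1 + 3 / 4 * u + 365 / 1000 * u ^ 2 := by
    rw [hk]
    linarith only [u3, H2, hSl, mul_nonneg (sq_nonneg (u)) (sub_nonneg.2 u1)]
  have k0 : 0 < k := by rw [hk]; linarith only [H0, hS36, u1, u0]
  have Q0 : 0 < Q := by linarith only [u2, Q1, u0]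
  have Q3 : Q ≤ 16 / 100 * u * (1 + 537 / 10000 * u) := by linarith only [u3, Q2,
                                                             mul_nonneg (sq_nonneg (u)) (sub_nonneg.2 u1)]
  have hSH : 125 / 100 * u + 3125 / 10000 * u ^ 2 ≤ S + H := by linarith only [H1, hSl]
  have br : (1 + Q) * k - B * (S + H) ≤ 1 + 11 / 100 * u + 306 / 1000 * u ^ 2 := by
    have a1 : (1 + Q) * k ≤ (1 + 16 / 100 * u * (1 + 537 / 10000 * u)) *
        (1 + 3 / 4 * u + 365 / 1000 * u ^ 2) := mul_le_mul (by linarith only [Q3]) kk k0.le (by positivity)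
    have a2 : 64 / 100 * (125 / 100 * u + 3125 / 10000 * u ^ 2) ≤ B * (S + H) :=
      mul_le_mul B1 hSH (by positivity) (by linarith only [B1, u1, u0])
    have a3 := s2_n1 u0 u1
    linarith only [a3, a2, a1]
  have Qk : Q * k ≤ 16 / 100 * u * (1 + 537 / 10000 * u) * (1 + 3 / 4 * u + 365 / 1000 * u ^ 2) :=
    mul_le_mul Q3 kk k0.le (by positivity)
  have Qk0 : 0 < Q * k := by positivity
  have fin : (Q * k) * ((1 + Q) * k - B * (S + H)) < 2116 / 10000 * u * (1 - u / 3) := by
    have a1 : (Q * k) * ((1 + Q) * k - B * (S + H)) ≤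
        (16 / 100 * u * (1 + 537 / 10000 * u) * (1 + 3 / 4 * u + 365 / 1000 * u ^ 2)) *
        (1 + 11 / 100 * u + 306 / 1000 * u ^ 2) := by
      calc _ ≤ (Q * k) * (1 + 11 / 100 * u + 306 / 1000 * u ^ 2) :=
            mul_le_mul_of_nonneg_left br Qk0.le
        _ ≤ _ := mul_le_mul_of_nonneg_right Qk (by positivity)
    have a2 := s2_n2 u0 u1
    have a3 := mul_lt_mul_of_pos_left a2 u0
    calc _ ≤ _ := a1
      _ = u * (16 / 100 * (1 + 537 / 10000 * u) * (1 + 3 / 4 * u + 365 / 1000 * u ^ 2) *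
        (1 + 11 / 100 * u + 306 / 1000 * u ^ 2)) := by ring
      _ < _ := a3
      _ = _ := by ring
  calc _ = (Q * k) * ((1 + Q) * k - B * (S + H)) + Q * (B * (S + H) * k) := by ring
    _ < 2116 / 10000 * u * (1 - u / 3) + Q * (B * (S + H) * k) := by linarith only [fin]
    _ ≤ _ := by linarith only [N2]

/-! ### (J) -/

private theorem sj_poly {R : ℝ} (h0 : 38 / 100 ≤ R) (h1 : R ≤ 6382 / 10000) :
    92 / 100 ≤ (1 - 2 * (R / 2 - R ^ 3 / 48 + R ^ 5 / 3840) ^ 2)
      + 2 * ((R - R ^ 3 / 6) * (2506 / 10000 * R ^ 2)) := by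
  have R2 : 1444 / 10000 ≤ R ^ 2 := by linarith only [h0,
                                         mul_nonneg (sub_nonneg.2 h0) (sub_nonneg.2 h0)]
  have R2' : R ^ 2 ≤ 4073 / 10000 := by linarith only [h1,
                                          mul_nonneg (sub_nonneg.2 h0) (sub_nonneg.2 h1)]
  obtain ⟨u, hu⟩ : ∃ u, u = R ^ 2 := ⟨_, rfl⟩
  have e1 : (R / 2 - R ^ 3 / 48 + R ^ 5 / 3840) ^ 2 = u / 4 * (1 - u / 24 + u ^ 2 / 1920) ^ 2 := by
    rw [hu]; ring
  have e2 : (R - R ^ 3 / 6) * (2506 / 10000 * R ^ 2) = 2506 / 10000 * (R * (u * (1 - u / 6))) := by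
    rw [hu]; ring
  rw [e1, e2]
  rw [← hu] at R2 R2'
  have k1 : (1 - u / 24 + u ^ 2 / 1920) ^ 2 ≤ 1 - u / 12 + 3 / 1000 * u ^ 2 := by
    (refine le_of_not_gt fun hng => ?_; linarith only [hng, e1, hu, sq_nonneg (u),
      mul_nonneg (sub_nonneg.2 hng.le) (sub_nonneg.2 e1.le),
      mul_nonneg (sub_nonneg.2 hng.le) (sub_nonneg.2 e1.ge),
      mul_nonneg (sub_nonneg.2 hng.le) (sub_nonneg.2 hu.le),
      mul_nonneg (sub_nonneg.2 hng.le) (sub_nonneg.2 hu.ge),
      mul_nonneg (sub_nonneg.2 hng.le) (sub_nonneg.2 R2'),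
      mul_nonneg (sq_nonneg (1920 * 1 - 80 * u + 1 * (1 * u) ^ 2)) (sub_nonneg.2 e1.le),
      mul_nonneg (sq_nonneg (1920 * 1 - 80 * u + 1 * (1 * u) ^ 2)) (sub_nonneg.2 e1.ge),
      mul_nonneg (sq_nonneg (1920 * 1 - 80 * u + 1 * (1 * u) ^ 2)) (sub_nonneg.2 hu.le),
      mul_nonneg (sq_nonneg (1920 * 1 - 80 * u + 1 * (1 * u) ^ 2)) (sub_nonneg.2 hu.ge),
      mul_nonneg (sq_nonneg (1920 * R - 80 * (1 * R) ^ 3 + 1 * (1 * R) ^ 5)) (sub_nonneg.2 R2'),
      mul_nonneg (sq_nonneg (R)) (sub_nonneg.2 R2), mul_nonneg (sq_nonneg (u)) (sub_nonneg.2 e1.le),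
      mul_nonneg (sq_nonneg (u)) (sub_nonneg.2 e1.ge),
      mul_nonneg (sq_nonneg (u)) (sub_nonneg.2 hu.le),
      mul_nonneg (sq_nonneg (u)) (sub_nonneg.2 hu.ge), mul_nonneg (sq_nonneg (u)) (sub_nonneg.2 R2),
      mul_nonneg (sq_nonneg (u)) (sub_nonneg.2 hng.le)])
  have k2 : u / 4 * (1 - u / 24 + u ^ 2 / 1920) ^ 2 ≤ u / 4 * (1 - u / 12 + 3 / 1000 * u ^ 2) :=
    mul_le_mul_of_nonneg_left k1 (by linarith only [R2])
  -- `R ≥` a chord of the square root
  have k3 : 2381 / 10000 + 982 / 1000 * u ≤ R := by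
    rw [hu]; linarith only [mul_nonneg (sub_nonneg.2 h0) (sub_nonneg.2 h1), h0]
  have k4 : 0 ≤ u * (1 - u / 6) := by (refine le_of_not_gt fun hng => ?_; linarith only [hng, k2,
                                        mul_nonneg (sub_nonneg.2 hng.le) (sub_nonneg.2 R2),
                                        mul_nonneg (sq_nonneg (1920 * 1 - 80 * u + 1 * (1 * u) ^ 2)) (sub_nonneg.2 R2),
                                        mul_nonneg (sq_nonneg (1 * u)) (sub_nonneg.2 R2'),
                                        mul_nonneg (sq_nonneg (1 * u)) (sub_nonneg.2 hng.le)])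
  have k5 := mul_le_mul_of_nonneg_right k3 k4
  have k6 : 92 / 100 ≤ 1 - 2 * (u / 4 * (1 - u / 12 + 3 / 1000 * u ^ 2))
      + 2 * (2506 / 10000 * ((2381 / 10000 + 982 / 1000 * u) * (u * (1 - u / 6)))) := by
    have a1 : 0 ≤ (u - 1444 / 10000) := by linarith only [R2]
    have a2 : 0 ≤ (4073 / 10000 - u) := by linarith only [R2']
    linarith only [sq_nonneg (u - 38 / 100), mul_nonneg (mul_nonneg a1 a2) a1, R2']
  linarith only [k6, k5, k2]

/-- the second condition at the neighbour -/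
theorem sh_J {R I a p : ℝ} (hn : Nm R I) (h1 : a * (R ^ 2 + I ^ 2) ≤ π * (R + I / 4))
    (h2 : p ≤ a * I) (h3 : 4 / 5 * (sin R * cos R / (1 + sinh I ^ 2 - sin R ^ 2)) ≤ sinh p) :
    92 / 100 ≤ cos R * cosh I + 2 * (sin R * sinh I) := by
  have hI0 := hn.I0
  have hR0 := hn.R0
  have hI1 := hn.I1
  have hR1 := hn.R1
  have hs0 := hn.s0
  have hc0 : 0 < cos R := lt_of_lt_of_le (by norm_num) hn.c0
  have hC1 := one_le_cosh I
  have hhI : I ≤ sinh I := self_le_sinh_iff.2 hI0.le
  have hpi := pi_lt_d4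
  have hpi3 := pi_gt_three
  have low : cos R + 2 * (sin R * I) ≤ cos R * cosh I + 2 * (sin R * sinh I) := by
    have k1 : cos R * 1 ≤ cos R * cosh I := mul_le_mul_of_nonneg_left hC1 hc0.le
    have k2 : sin R * I ≤ sin R * sinh I := mul_le_mul_of_nonneg_left hhI hs0.le
    linarith only [k2, k1]
  apply le_trans _ low
  rcases le_total R (38 / 100) with hR | hR
  · have k1 := one_sub_sq_div_two_le_cos (x := R)
    have k2 : 0 < sin R * I := mul_pos hs0 hI0
    (refine le_of_not_gt fun hng => ?_; linarith only [k2, k1, hR, hR1,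
      mul_nonneg (sub_nonneg.2 hR0.le) (sub_nonneg.2 hR), mul_pos (sub_pos.2 hng) (sub_pos.2 hpi3),
      mul_pos (sub_pos.2 hng) (sub_pos.2 hpi)])
  -- bounds of `cos`, `sin`
  have hcos : 1 - 2 * (R / 2 - R ^ 3 / 48 + R ^ 5 / 3840) ^ 2 ≤ cos R := by
    have k1 : cos R = 1 - 2 * sin (R / 2) ^ 2 := by
      have := cos_two_mul' (R / 2)
      rw [show 2 * (R / 2) = R by ring] at this
      have h4 := sin_sq_add_cos_sq (R / 2)
      linarith only [h4, this]
    have k2 := V4_sin5 (x := R / 2) (by positivity)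
    have k3 : (R / 2) - (R / 2) ^ 3 / 6 + (R / 2) ^ 5 / 120 = R / 2 - R ^ 3 / 48 + R ^ 5 / 3840 := by
      ring
    rw [k3] at k2
    have k4 : 0 ≤ sin (R / 2) :=
      sin_nonneg_of_nonneg_of_le_pi (by positivity) (by linarith only [hpi3, hR1, hI1, hI0])
    have k5 := pow_le_pow_left₀ k4 k2 2
    rw [k1]; linarith only [k5]
  have hsin := V4_sin3 hR0.le
  rcases le_total (115 / 1000) I with hI | hI
  · -- `I` large
    have k1 : (R - R ^ 3 / 6) * (115 / 1000) ≤ sin R * I :=
      mul_le_mul hsin hI (by norm_num) hs0.le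
    have k2 : (R - R ^ 3 / 6) * (2506 / 10000 * R ^ 2) ≤ (R - R ^ 3 / 6) * (115 / 1000) := by
      apply mul_le_mul_of_nonneg_left
      · linarith only [hR1, hI1, mul_nonneg (sub_nonneg.2 hR0.le) (sub_nonneg.2 hR1),
          mul_pos (sub_pos.2 hI0) (sub_pos.2 hpi3), mul_pos (sub_pos.2 hI0) (sub_pos.2 hpi)]
      · (refine le_of_not_gt fun hng => ?_; linarith only [hR, hI1,
          mul_nonneg (sub_nonneg.2 hR0.le) (sub_nonneg.2 hR1),
          mul_pos (sub_pos.2 hI0) (sub_pos.2 hpi3), mul_pos (sub_pos.2 hI0) (sub_pos.2 hpi),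
          mul_pos (sub_pos.2 hng) (sub_pos.2 hpi3), mul_pos (sub_pos.2 hng) (sub_pos.2 hpi),
          mul_nonneg (sq_nonneg (R)) (sub_nonneg.2 hR1)])
    have k3 := sj_poly hR hR1
    linarith only [k3, k2, k1, hcos]
  · -- `I` small: `I ≥ 2506/10000 R²`
    have hp : 8 / 10 * R ≤ p := by
      rw [← sinh_le_sinh]
      apply le_trans _ h3
      have hk : 0 < 1 + sinh I ^ 2 - sin R ^ 2 := by
        have := sin_sq_le_one R
        have := sq_nonneg (sinh I)
        have := hn.s1
        linarith [this, hI, hI0]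
      rw [← mul_div_assoc, le_div_iff₀ hk]
      have k1 := sh_sinh7 (x := 8 / 10 * R) (by positivity) (by linarith only [hR1, hI1, hI0])
      have k2 : R - 2 / 3 * R ^ 3 ≤ sin R * cos R := by
        have := V4_sin3 (x := 2 * R) (by positivity)
        rw [sin_two_mul] at this
        linarith only [this]
      have k3 : sinh I ^ 2 ≤ 134 / 10000 := by
        have := (sh_sq hI0.le (by (refine le_of_not_gt fun hng => ?_; linarith only [hI0,
                                    mul_nonneg (sub_nonneg.2 hI0.le) (sub_nonneg.2 hI1),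
                                    mul_pos (sub_pos.2 hng) (sub_pos.2 hI0),
                                    mul_nonneg (sq_nonneg (1 * I)) (sub_nonneg.2 hI)]))).2
        have h5 : I ^ 2 ≤ 1323 / 100000 := by (refine le_of_not_gt fun hng => ?_; linarith only [hI,
                                                mul_nonneg (sub_nonneg.2 hI0.le) (sub_nonneg.2 hI),
                                                mul_pos (sub_pos.2 hI0) (sub_pos.2 hI0),
                                                mul_nonneg (sub_nonneg.2 hng.le) (sub_nonneg.2 hI),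
                                                mul_pos (sub_pos.2 hng) (sub_pos.2 hI0)])
        linarith only [h5, this, hI, hI0,
          mul_nonneg (sq_nonneg (1 * (1 * I) ^ 2)) (sub_nonneg.2 h5),
          mul_nonneg (sq_nonneg (I)) (sub_nonneg.2 h5)]
      have k4 : (R - R ^ 3 / 6) ^ 2 ≤ sin R ^ 2 := pow_le_pow_left₀ (by (refine le_of_not_gt fun hng => ?_; linarith only [hI,
                                                                          hR,
                                                                          mul_nonneg (sub_nonneg.2 hR0.le) (sub_nonneg.2 hR1),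
                                                                          mul_nonneg (sub_nonneg.2 hI0.le) (sub_nonneg.2 hI),
                                                                          mul_pos (sub_pos.2 hI0) (sub_pos.2 hI0),
                                                                          mul_nonneg (sub_nonneg.2 hng.le) (sub_nonneg.2 hI),
                                                                          mul_pos (sub_pos.2 hng) (sub_pos.2 hI0),
                                                                          mul_nonneg (sq_nonneg (R)) (sub_nonneg.2 hR1)])) hsin 2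
      obtain ⟨u, hu⟩ : ∃ u, u = R ^ 2 := ⟨_, rfl⟩
      have u1 : 1444 / 10000 ≤ u := by rw [hu]; linarith only [hR,
                                                  mul_nonneg (sub_nonneg.2 hR0.le) (sub_nonneg.2 hR)]
      have u2 : u ≤ 4073 / 10000 := by rw [hu]; (refine le_of_not_gt fun hng => ?_; linarith only [hR1,
                                                  mul_nonneg (sub_nonneg.2 hR0.le) (sub_nonneg.2 hR1),
                                                  mul_nonneg (sub_nonneg.2 hng.le) (sub_nonneg.2 hI),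
                                                  mul_pos (sub_pos.2 hng) (sub_pos.2 hI0)])
      have k5 : sinh (8 / 10 * R) ≤ R * (8 / 10 + 86 / 1000 * u + 3 / 1000 * u ^ 2) := by
        have e : 8 / 10 * R + (8 / 10 * R) ^ 3 / 6 + (8 / 10 * R) ^ 5 / 120 + (8 / 10 * R) ^ 7 / 840
            = R * (8 / 10 + 512 / 6000 * u + 32768 / 12000000 * u ^ 2
              + 2097152 / 8400000000 * u ^ 3) := by rw [hu]; ring
        rw [e] at k1
        apply k1.trans
        apply mul_le_mul_of_nonneg_left _ hR0.le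
        linarith only [u1, hI, hI0, sq_nonneg (u), mul_nonneg (sq_nonneg (u)) (sub_nonneg.2 u2)]
      have k6 : 1 + sinh I ^ 2 - sin R ^ 2 ≤ 1 + 134 / 10000 - u + u ^ 2 / 3 := by
        have e : (R - R ^ 3 / 6) ^ 2 = u - u ^ 2 / 3 + u ^ 3 / 36 := by rw [hu]; ring
        rw [e] at k4
        have : 0 ≤ u ^ 3 := by positivity
        linarith only [this, k4, k3]
      have k7 : (8 / 10 + 86 / 1000 * u + 3 / 1000 * u ^ 2) * (1 + 134 / 10000 - u + u ^ 2 / 3)
          ≤ 4 / 5 * (1 - 2 / 3 * u) := by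
        linarith only [mul_nonneg (by linarith : 0 ≤ u - 1444 / 10000) (by linarith : 0 ≤ 4073 / 10000 - u),
          u1, hI, hI0,
          mul_nonneg (sq_nonneg (u)) (sub_nonneg.2 (mul_nonneg (by linarith : 0 ≤ u - 1444 / 10000) (by linarith : 0 ≤ 4073 / 10000 - u))),
          mul_nonneg (sq_nonneg (u)) (sub_nonneg.2 u2)]
      calc sinh (8 / 10 * R) * (1 + sinh I ^ 2 - sin R ^ 2)
          ≤ (R * (8 / 10 + 86 / 1000 * u + 3 / 1000 * u ^ 2)) *
            (1 + 134 / 10000 - u + u ^ 2 / 3) :=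
            mul_le_mul k5 k6 hk.le (by positivity)
        _ = R * ((8 / 10 + 86 / 1000 * u + 3 / 1000 * u ^ 2) *
            (1 + 134 / 10000 - u + u ^ 2 / 3)) := by ring
        _ ≤ R * (4 / 5 * (1 - 2 / 3 * u)) := mul_le_mul_of_nonneg_left k7 hR0.le
        _ = 4 / 5 * (R - 2 / 3 * R ^ 3) := by rw [hu]; ring
        _ ≤ _ := by linarith only [k2]
    have ha : 8 / 10 * R ≤ a * I := hp.trans h2
    have hI2 : 2506 / 10000 * R ^ 2 ≤ I := by
      -- `8/10 R (R² + I²) ≤ π I (R + I/4)`
      have k1 : 8 / 10 * R * (R ^ 2 + I ^ 2) ≤ a * I * (R ^ 2 + I ^ 2) :=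
        mul_le_mul_of_nonneg_right ha (by positivity)
      have k2 : a * I * (R ^ 2 + I ^ 2) ≤ I * (π * (R + I / 4)) := by
        have := mul_le_mul_of_nonneg_left h1 hI0.le
        linarith only [this]
      have k3 : I * (π * (R + I / 4)) ≤ I * (31416 / 10000 * (R + I / 4)) := by
        apply mul_le_mul_of_nonneg_left _ hI0.le
        exact mul_le_mul_of_nonneg_right (by linarith only [hpi]) (by positivity)
      -- `(R + I/4) R ≤ 1016/1000 (R² + I²)`
      have k4 : (R + I / 4) * R ≤ 1016 / 1000 * (R ^ 2 + I ^ 2) := by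
        linarith only [sq_nonneg (1000 * I - 1 * 123 * (1 * R)), sq_nonneg (I),
          mul_nonneg (sq_nonneg (1000 * I - 1 * 123 * (1 * R))) (sub_nonneg.2 hR1),
          mul_nonneg (sq_nonneg (R)) (sub_nonneg.2 hI1),
          mul_nonneg (sq_nonneg (R)) (sub_nonneg.2 hR0.le),
          mul_nonneg (sq_nonneg (I)) (sub_nonneg.2 hR)]
      have k5 : 8 / 10 * R * (R ^ 2 + I ^ 2) * R ≤
          I * (31416 / 10000 * (1016 / 1000 * (R ^ 2 + I ^ 2))) := by
        have a1 : 8 / 10 * R * (R ^ 2 + I ^ 2) * R ≤ I * (31416 / 10000 * (R + I / 4)) * R :=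
          mul_le_mul_of_nonneg_right (by linarith only [k3, k2, k1]) hR0.le
        have a2 : I * (31416 / 10000 * (R + I / 4)) * R = I * (31416 / 10000) * ((R + I / 4) * R) := by
          ring
        have a3 := mul_le_mul_of_nonneg_left k4 (by positivity : 0 ≤ I * (31416 / 10000))
        linarith only [a3, a1]
      have hp : 0 < R ^ 2 + I ^ 2 := by positivity
      have k6 : 8 / 10 * R * R ≤ I * (31416 / 10000 * (1016 / 1000)) := by
        apply le_of_mul_le_mul_right _ hp
        linarith only [k5]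
      linarith only [k6, hI0]
    have k1 : (R - R ^ 3 / 6) * (2506 / 10000 * R ^ 2) ≤ sin R * I :=
      mul_le_mul hsin hI2 (by positivity) hs0.le
    have k3 := sj_poly hR hR1
    linarith only [k3, k1, hcos]

end Pool.Agent.MX.E
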