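import Pool.Agent.MX.E.Pt
import Pool.Agent.MX.E.ShareP

/-!
# Project MX, block E: the share of a same-sign edge

(S0) the bound of the neighbour's coefficient, (S1) a vertex of the disc with slope `I/R ≥ 2` has all
its same-sign slots below `2/3 I`, (J) the second condition on the coefficient, (S2) the slots are above
`2/5 I`.
-/

set_option autoImplicit false

namespace Pool.Agent.MX.E

open Complex Pool.Agent.S3.E

/-- (S0) -/
theorem Dz.S0 {z : ℂ} (h : Dz z) (h0 : 0 ≤ z.re) (hI : 0 ≤ z.im) :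
    1 / 2 * (Real.cos z.re * Real.cosh z.im) + Real.sin z.re * Real.sinh z.im ≤ 655 / 1000 := by
  apply sh_S0 h0 hI
  unfold Dz at h
  have hp := Real.pi_lt_d4
  have h1 : Real.pi / 5 * (z.re + z.im / 4) ≤ 0.62832 * (z.re + z.im / 4) :=
    mul_le_mul_of_nonneg_right (by linarith) (by positivity)
  linarith

section

variable {y b : ℂ}

theorem Nm.k2 (hn : Nm y.re y.im) : normSq (cos y) =
    1 + Real.sinh y.im ^ 2 - Real.sin y.re ^ 2 := by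
  rw [normSq_cos]
  have := Real.sin_sq_add_cos_sq y.re
  linarith

/-- The equation of `q = sinh² p`. -/
theorem slot_q (hn : Nm y.re y.im) {b1 b2 : ℝ} (e1 : b.re = b1) (e2 : b.im = -b2) (h1 : 0 < b1)
    (h2 : 0 ≤ b2) : 0 < (asr (b * tan y)).re ∧
    Real.sinh (asr (b * tan y)).re ^ 2 * (1 + Real.sinh (asr (b * tan y)).re ^ 2) *
      (1 + Real.sinh y.im ^ 2 - Real.sin y.re ^ 2) ^ 2 =
    (b1 * (Real.sin y.re * Real.cos y.re) + b2 * (Real.cosh y.im * Real.sinh y.im)) ^ 2 +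
      Real.sinh (asr (b * tan y)).re ^ 2 * ((b1 ^ 2 + b2 ^ 2) *
        (Real.sin y.re ^ 2 + Real.sinh y.im ^ 2) *
        (1 + Real.sinh y.im ^ 2 - Real.sin y.re ^ 2)) := by
  have hT1 := hn.tan_re
  have hT2 := hn.tan_im
  have t1 := tan_re' hn.cos_ne
  have t2 := tan_im' hn.cos_ne
  rw [hn.k2] at t1 t2
  have hw : 0 < (b * tan y).re := by
    rw [mul_re, e1, e2]
    have := mul_pos h1 hT1
    have := mul_nonneg h2 hT2.le
    linarith
  refine ⟨asr_re_pos hw, ?_⟩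
  obtain ⟨q1, q2⟩ := asr_eqs hw.le
  rw [mul_re, e1, e2] at q1
  rw [mul_im, e1, e2] at q2
  obtain ⟨p, hp⟩ : ∃ p, p = (asr (b * tan y)).re := ⟨_, rfl⟩
  obtain ⟨r, hr⟩ : ∃ r, r = (asr (b * tan y)).im := ⟨_, rfl⟩
  rw [← hp, ← hr] at q1 q2
  rw [← hp]
  obtain ⟨k, hk⟩ : ∃ k, k = 1 + Real.sinh y.im ^ 2 - Real.sin y.re ^ 2 := ⟨_, rfl⟩
  rw [← hk] at t1 t2 ⊢
  have n1 : (Real.sinh p * Real.cos r) * k = b1 * (Real.sin y.re * Real.cos y.re) +
      b2 * (Real.cosh y.im * Real.sinh y.im) := by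
    rw [q1, ← t1, ← t2]; ring
  have n2 : (Real.cosh p * Real.sin r) * k = b1 * (Real.cosh y.im * Real.sinh y.im) -
      b2 * (Real.sin y.re * Real.cos y.re) := by
    rw [q2, ← t1, ← t2]; ring
  have hS := Real.sin_sq_add_cos_sq y.re
  have hC := Real.cosh_sq y.im
  have e3 : (b1 ^ 2 + b2 ^ 2) * (Real.sin y.re ^ 2 + Real.sinh y.im ^ 2) * k =
      (b1 * (Real.sin y.re * Real.cos y.re) + b2 * (Real.cosh y.im * Real.sinh y.im)) ^ 2 +
      (b1 * (Real.cosh y.im * Real.sinh y.im) - b2 * (Real.sin y.re * Real.cos y.re)) ^ 2 := by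
    have e4 : (b1 * (Real.sin y.re * Real.cos y.re) + b2 * (Real.cosh y.im * Real.sinh y.im)) ^ 2 +
      (b1 * (Real.cosh y.im * Real.sinh y.im) - b2 * (Real.sin y.re * Real.cos y.re)) ^ 2 =
      (b1 ^ 2 + b2 ^ 2) * (Real.sin y.re ^ 2 * Real.cos y.re ^ 2 +
        Real.cosh y.im ^ 2 * Real.sinh y.im ^ 2) := by ring
    rw [e4, hC, show Real.cos y.re ^ 2 = 1 - Real.sin y.re ^ 2 by linarith, hk]
    ring
  rw [e3, ← n1, ← n2]
  have hP := Real.cosh_sq p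
  have hr2 := Real.sin_sq_add_cos_sq r
  calc _ = Real.sinh p ^ 2 * (1 + Real.sinh p ^ 2) * k ^ 2 * 1 := by ring
    _ = Real.sinh p ^ 2 * (1 + Real.sinh p ^ 2) * k ^ 2 * (Real.sin r ^ 2 + Real.cos r ^ 2) := by
        rw [hr2]
    _ = (Real.sinh p ^ 2 * Real.cos r ^ 2 * k ^ 2) + Real.sinh p ^ 2 *
        (Real.sinh p ^ 2 * Real.cos r ^ 2 * k ^ 2 + (Real.sinh p ^ 2 + 1) * Real.sin r ^ 2 * k ^ 2)
        := by ring
    _ = _ := by rw [← hP]; ring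

/-- (S1) -/
theorem slope_lt (hn : Nm y.re y.im) (h : 2 * y.re ≤ y.im) (hb1 : 4 / 5 ≤ b.re)
    (hb1' : b.re ≤ 53 / 50) (hb2 : b.im ≤ 0) (hb3 : -b.im ≤ b.re / 5)
    (hs : b.re / 2 - b.im ≤ 655 / 1000) : 3 / 2 * (asr (b * tan y)).re < y.im := by
  obtain ⟨b2, e2⟩ : ∃ b2 : ℝ, b.im = -b2 := ⟨-b.im, by ring⟩
  have h2 : 0 ≤ b2 := by linarith
  obtain ⟨p0, hq⟩ := slot_q hn rfl e2 (by linarith) h2
  have hm := sh_S1 hn h hb1 hb1' h2 (by linarith) (by linarith)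
  have hI := hn.I0
  have s1 : 0 < Real.sinh (asr (b * tan y)).re := Real.sinh_pos_iff.2 p0
  have s2 : 0 < Real.sinh (2 / 3 * y.im) := Real.sinh_pos_iff.2 (by positivity)
  have hlt := psi_lt (by positivity) (by positivity) (sq_nonneg _) (sq_nonneg _) hq hm
  have h3 := lt_of_pow_lt_pow_left₀ 2 s2.le hlt
  have h4 := Real.sinh_lt_sinh.1 h3
  linarith

/-- (S1) at an empty slot. -/
theorem slope_lt_one (hn : Nm y.re y.im) (h : 2 * y.re ≤ y.im) :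
    3 / 2 * (asr (tan y)).re < y.im := by
  have := slope_lt (b := 1) hn h (by simp; norm_num) (by simp; norm_num) (by simp)
    (by simp) (by simp; norm_num)
  rwa [one_mul] at this

/-- (S2) -/
theorem share_gt (hn : Nm y.re y.im) (h : y.im ≤ 2 * y.re) (hb1 : 4 / 5 ≤ b.re) (hb2 : b.im ≤ 0)
    (hs : 92 / 100 ≤ b.re - 2 * b.im) : 2 / 5 * y.im < (asr (b * tan y)).re := by
  obtain ⟨b2, e2⟩ : ∃ b2 : ℝ, b.im = -b2 := ⟨-b.im, by ring⟩
  have h2 : 0 ≤ b2 := by linarith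
  obtain ⟨p0, hq⟩ := slot_q hn rfl e2 (by linarith) h2
  have hm := sh_S2 hn h hb1 h2 (by linarith)
  have hI := hn.I0
  have s1 : 0 < Real.sinh (asr (b * tan y)).re := Real.sinh_pos_iff.2 p0
  have s2 : 0 < Real.sinh (2 / 5 * y.im) := Real.sinh_pos_iff.2 (by positivity)
  have hlt := psi_gt (by positivity) (by positivity) (sq_nonneg _) (sq_nonneg _) hq hm
  have h3 := lt_of_pow_lt_pow_left₀ 2 s1.le hlt
  exact Real.sinh_lt_sinh.1 h3

/-- (J) -/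
theorem coef_ge {a p : ℝ} (hn : Nm y.re y.im)
    (h1 : a * (y.re ^ 2 + y.im ^ 2) ≤ Real.pi * (y.re + y.im / 4)) (h2 : p ≤ a * y.im)
    (h3 : 4 / 5 * (tan y).re ≤ Real.sinh p) :
    92 / 100 ≤ Real.cos y.re * Real.cosh y.im + 2 * (Real.sin y.re * Real.sinh y.im) := by
  apply sh_J hn h1 h2
  have t1 := tan_re' hn.cos_ne
  have hk : 0 < normSq (cos y) := normSq_pos.2 hn.cos_ne
  rw [hn.k2] at t1 hk
  rw [← t1, mul_div_cancel_right₀ _ hk.ne']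
  exact h3

end

/-! ### The forms used by the existence proof -/

theorem shC {z : ℂ} (h : Dz z) (h0 : 0 ≤ z.re) (hI : 0 < z.im) :
    1 / 2 * (Real.cos z.re * Real.cosh z.im) + Real.sin z.re * Real.sinh z.im ≤ 655 / 1000 :=
  h.S0 h0 hI.le

theorem sh1 {y b : ℂ} (hn : Nm y.re y.im) (hs : 2 * y.re ≤ y.im) (h1 : 4 / 5 ≤ b.re)
    (h2 : b.re ≤ 53 / 50) (h3 : b.im ≤ 0) (h4 : -b.im ≤ b.re / 5)
    (h5 : b.re / 2 - b.im ≤ 655 / 1000) : 3 / 2 * (asr (b * tan y)).re < y.im :=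
  slope_lt hn hs h1 h2 h3 h4 h5

theorem shJ {z : ℂ} {a p : ℝ} (hn : Nm z.re z.im) (_ha : 5 ≤ a)
    (hd : a * (z.re ^ 2 + z.im ^ 2) ≤ Real.pi * (z.re + z.im / 4)) (hp : p ≤ a * z.im)
    (hs : 4 / 5 * (tan z).re ≤ Real.sinh p) :
    92 / 100 ≤ Real.cos z.re * Real.cosh z.im + 2 * (Real.sin z.re * Real.sinh z.im) :=
  coef_ge hn hd hp hs

theorem sh2 {y b : ℂ} (hn : Nm y.re y.im) (hs : y.im ≤ 2 * y.re) (h1 : 4 / 5 ≤ b.re)
    (h3 : b.im ≤ 0) (_h4 : -b.im ≤ b.re / 5) (_h5 : b.re ^ 2 + b.im ^ 2 ≤ 1.1236)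
    (h6 : 92 / 100 ≤ b.re - 2 * b.im) : 2 / 5 * y.im < (asr (b * tan y)).re :=
  share_gt hn hs h1 h3 h6

end Pool.Agent.MX.E
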