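import Pool.Agent.MX.E.VA

/-!
# Project MX, block E: `θ ≤ 1/2` at the vertices with `a ≥ 4`

Suppose `θ > 1/2`. The chord inequality gives `4 (x R + θ I) ≤ π x`, so `R ≤ π/4`,
`sinh x ≤ cos θ ≤ 8777/10000`. If `sinh x ≤ 6/10` then `R ≥ 1/2`, `x ≤ 6/10`, `I ≥ 41/100`; else
`R ≥ 59/100`, `x ≤ 8777/10000`, `I ≥ 36/100`; both contradict the chord inequality.
-/

namespace Pool.Agent.MX.E

open Real Pool.Agent.AT.E
open Pool.Agent.S3.E hiding bo ro be KK

variable {ι : Type*} {a w R I : ℝ} {J : Finset ι} {ρ β p r : ι → ℝ}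

private theorem Th4_tanh {I : ℝ} (hI : 0 < I) : tanh I ≤ I := by
  rw [tanh_eq_sinh_div_cosh, div_le_iff₀ (cosh_pos I)]
  have hd : ∀ v : ℝ, HasDerivAt (fun u : ℝ => u * cosh u - sinh u) (v * sinh v) v := by
    intro v
    have h1 := ((hasDerivAt_id' v).mul (Real.hasDerivAt_cosh v)).sub (Real.hasDerivAt_sinh v)
    refine h1.congr_deriv ?_
    ring
  have hm : MonotoneOn (fun u : ℝ => u * cosh u - sinh u) (Set.Ici 0) := by
    apply monotoneOn_of_deriv_nonneg (convex_Ici 0)
    · exact fun y _ => (hd y).continuousAt.continuousWithinAt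
    · exact fun y _ => (hd y).differentiableAt.differentiableWithinAt
    · intro y hy
      rw [(hd y).deriv]
      have : 0 ≤ y := interior_subset hy
      exact mul_nonneg this (sinh_nonneg_iff.2 this)
  have := hm (Set.mem_Ici.2 le_rfl) (Set.mem_Ici.2 hI.le) hI.le
  simp at this
  linarith

theorem Vx.th_le4 (h : AT2.E.Vx a w R I J ρ β p r) (h4 : 4 ≤ a) (hk : k2 R I ≤ 1)
    (hc : ∀ j ∈ J, th R I * p j ≤ xx R I * r j) : th R I ≤ 1 / 2 := by
  by_contra hn
  push Not at hn
  have h0 := h.R0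
  have h1 := h.R1
  have hI := h.I0
  have hpi := pi_gt_three
  have hpi4 := pi_lt_d4
  have hx := xx_pos h0 h1 hI
  have ht' := th_lt h0 h1 hI
  have hch := Vx.chord h hc
  have e1 := tan_R_eq h0 h1 hI
  have e2 := tanh_I_eq h0 h1 hI
  have e3 := sin_th_le h0 h1 hI hk
  obtain ⟨θ, hθ⟩ : ∃ θ : ℝ, θ = th R I := ⟨_, rfl⟩
  obtain ⟨x, hxe⟩ : ∃ x : ℝ, x = xx R I := ⟨_, rfl⟩
  rw [← hθ, ← hxe] at hch e1 e2 e3
  rw [← hθ] at hn ht'
  rw [← hxe] at hx
  -- the chord inequality with `4`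
  have hch4 : 4 * (x * R + θ * I) ≤ π * x := by
    have h2 : 0 ≤ x * R + θ * I := by
      have := mul_pos hx h0
      have := mul_pos (by linarith : 0 < θ) hI
      linarith
    exact (mul_le_mul_of_nonneg_right h4 h2).trans hch
  -- `sin θ`, `cos θ`
  have hs : 479 / 1000 ≤ sin θ := by
    have h2 : sin (1 / 2) ≤ sin θ :=
      sin_le_sin_of_le_of_le_pi_div_two (by linarith) (by linarith) hn.le
    have h3 := V4_sin3 (x := 1 / 2) (by norm_num)
    norm_num at h3 ⊢
    linarith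
  have hcθ0 : 0 < cos θ := cos_pos_of_mem_Ioo ⟨by linarith, ht'⟩
  have hcθ : cos θ ≤ 8777 / 10000 := by
    have h2 : cos θ ≤ cos (1 / 2) :=
      cos_le_cos_of_nonneg_of_le_pi (by norm_num) (by linarith) hn.le
    have h3 := V4_cos4 (x := 1 / 2) (by norm_num)
    norm_num at h3 ⊢
    linarith
  -- `R ≤ π / 4`
  have hR4 : R ≤ π / 4 := by
    have h2 : 0 < θ * I := mul_pos (by linarith) hI
    have h3 : x * (4 * R) ≤ x * π := by linarith
    have := le_of_mul_le_mul_left h3 hx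
    linarith
  have hcR : 0 < cos R := cos_pos_of_mem_Ioo ⟨by linarith, h1⟩
  have hS1 : sinh x ≤ cos θ := by
    have h2 : tan R ≤ 1 := by
      rw [← tan_pi_div_four]
      rcases eq_or_lt_of_le hR4 with e | e
      · rw [e]
      · exact (tan_lt_tan_of_nonneg_of_lt_pi_div_two h0.le (by linarith) e).le
    rw [e1, div_le_one hcθ0] at h2
    exact h2
  have hxs : x ≤ sinh x := self_le_sinh_iff.2 hx.le
  have hS0 : 0 < sinh x := sinh_pos_iff.2 hx
  have hIt : sin θ / cosh x ≤ I := by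
    rw [← e2]
    exact Th4_tanh hI
  have hC0 := cosh_pos x
  -- `R ≥ 1/2`
  have hR2 : 1 / 2 ≤ R := by
    by_contra hn2
    push Not at hn2
    have h2 := tan_lt_tan_of_nonneg_of_lt_pi_div_two h0.le ht' (by linarith : R < θ)
    rw [e1, tan_eq_sin_div_cos, div_lt_div_iff_of_pos_right hcθ0] at h2
    linarith
  rcases le_or_gt (sinh x) (6 / 10) with hcase | hcase
  · have hC : cosh x ≤ 11663 / 10000 := by
      have h2 : cosh x ^ 2 ≤ (11663 / 10000) ^ 2 := by
        rw [cosh_sq]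
        have : sinh x ^ 2 ≤ (6 / 10) ^ 2 := pow_le_pow_left₀ hS0.le hcase 2
        norm_num at this ⊢
        linarith
      exact abs_le_of_sq_le_sq' h2 (by norm_num) |>.2
    have hI2 : 41 / 100 ≤ I := by
      refine le_trans ?_ hIt
      rw [le_div_iff₀ hC0]
      linarith
    have h2 : x * (1 / 2) ≤ x * R := mul_le_mul_of_nonneg_left hR2 hx.le
    have h3 : 1 / 2 * (41 / 100) ≤ θ * I := mul_le_mul hn.le hI2 (by norm_num) (by linarith)
    have h4 : π * x ≤ 3.1416 * x := mul_le_mul_of_nonneg_right hpi4.le hx.le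
    norm_num at h3 h4
    linarith
  · have hC : cosh x ≤ 1331 / 1000 := by
      have h2 : cosh x ^ 2 ≤ (1331 / 1000) ^ 2 := by
        rw [cosh_sq]
        have : sinh x ^ 2 ≤ (8777 / 10000) ^ 2 :=
          pow_le_pow_left₀ hS0.le (hS1.trans hcθ) 2
        norm_num at this ⊢
        linarith
      exact abs_le_of_sq_le_sq' h2 (by norm_num) |>.2
    have hI2 : 3598 / 10000 ≤ I := by
      refine le_trans ?_ hIt
      rw [le_div_iff₀ hC0]
      linarith
    have hR59 : 59 / 100 ≤ R := by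
      by_contra hn2
      push Not at hn2
      have h2 := tan_lt_tan_of_nonneg_of_lt_pi_div_two h0.le
        (by linarith : (59 / 100 : ℝ) < π / 2) hn2
      have h3 := V4_sin5 (x := 59 / 100) (by norm_num)
      have h4 : 1 - (59 / 100 : ℝ) ^ 2 / 2 ≤ cos (59 / 100) := one_sub_sq_div_two_le_cos
      norm_num at h3 h4
      have h5 : tan (59 / 100) ≤ 68 / 100 := by
        rw [tan_eq_sin_div_cos, div_le_iff₀ (by linarith)]
        linarith
      have h6 : 68 / 100 ≤ tan R := by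
        rw [e1, le_div_iff₀ hcθ0]
        linarith
      linarith
    have h2 : x * (59 / 100) ≤ x * R := mul_le_mul_of_nonneg_left hR59 hx.le
    have h3 : 1 / 2 * (3598 / 10000) ≤ θ * I :=
      mul_le_mul hn.le hI2 (by norm_num) (by linarith)
    have h4 : π * x ≤ 3.1416 * x := mul_le_mul_of_nonneg_right hpi4.le hx.le
    norm_num at h3 h4
    linarith

end Pool.Agent.MX.E
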