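import Pool.Agent.MX.E.VA

/-!
# Project MX, block E: `θ ≥ 7/25` at a vertex with `a = 3`
-/

namespace Pool.Agent.MX.E

open Real Pool.Agent.AT.E
open Pool.Agent.S3.E hiding bo ro be KK
open Pool.Agent.AT2.E (half_slot)

variable {ι : Type*} {a R I : ℝ} {J : Finset ι} {ρ β p r : ι → ℝ}

/-- Two or three slots. -/
theorem Vx.low3_two (h : AT.E.Vx 3 R I J ρ β p r) (hc : 2 ≤ J.card)
    (hρ : ∀ j ∈ J, 1 / 2 ≤ ρ j) (hρ1 : ∀ j ∈ J, ρ j ^ 2 ≤ 1 + 3 / 5 * β j) (hβ : ∀ j ∈ J, β j ≤ 9 / 20) :
    7 / 25 ≤ th R I := by
  by_contra hn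
  push Not at hn
  have h0 := h.R0
  have h1 := h.R1
  have hI := h.I0
  have hpi := Real.pi_gt_d4
  have hx := xx_pos h0 h1 hI
  have hθ0 := th_pos h0 h1 hI
  have hal := al_pos h0 h1 hI
  have hal' := al_lt R I
  have e1 := tan_R_eq h0 h1 hI
  have e2 := tanh_I_eq h0 h1 hI
  have e3 : tan (al R I) * sinh (xx R I) = tan (th R I) * cosh (xx R I) := by
    have e := tan_al_eq h0 h1 hI
    rw [tanh_eq_sinh_div_cosh] at e
    rw [← e]
    have := cosh_pos (xx R I)
    field_simp
  have hsx : 0 < sinh (xx R I) := sinh_pos_iff.2 hx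
  have hcx := cosh_pos (xx R I)
  -- `θ`
  have hsin0 : 0 < sin (th R I) := sin_pos_of_pos_of_lt_pi hθ0 (by linarith only [hpi, h1, h0, hn])
  have hsin : sin (th R I) ≤ 2767 / 10000 := by
    have h2 : sin (th R I) ≤ sin (7 / 25) :=
      sin_le_sin_of_le_of_le_pi_div_two (by linarith only [hθ0, hpi]) (by linarith only [hpi, h1,
                                                                            h0]) hn.le
    have h3 := V4_sin5 (x := 7 / 25) (by norm_num)
    norm_num at h3 ⊢
    linarith only [h3, h2, hθ0, hn]
  have hcos0 : 0 < cos (th R I) := cos_pos_of_mem_Ioo ⟨by linarith only [hθ0, hpi], by linarith only [hpi,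
                                                                                         h1, h0, hn]⟩
  have hcos : 961 / 1000 ≤ cos (th R I) := by
    refine le_of_sq_le_sq ?_ hcos0.le
    have h2 := sin_sq_add_cos_sq (th R I)
    have h3 : sin (th R I) ^ 2 ≤ (27636 / 100000) ^ 2 := by
      apply pow_le_pow_left₀ hsin0.le
      have h2 : sin (th R I) ≤ sin (7 / 25) :=
        sin_le_sin_of_le_of_le_pi_div_two (by linarith only [hθ0, hpi]) (by linarith only [hpi, h1,
                                                                              h0]) hn.le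
      have h3 := V4_sin5 (x := 7 / 25) (by norm_num)
      norm_num at h3 ⊢
      linarith only [h3, h2, hθ0, hn]
    norm_num at h3 ⊢
    linarith only [h3, h2, hθ0, hn]
  have htan : tan (th R I) ≤ 288 / 1000 := by
    rw [tan_eq_sin_div_cos, div_le_iff₀ hcos0]
    linarith only [hcos, hsin, hθ0, hn]
  have htt : tt R I ^ 2 = sinh (xx R I) ^ 2 + sin (th R I) ^ 2 := by
    have f1 := cosh_two_xx h0 h1 hI
    have f2 := cos_two_th h0 h1 hI
    have hk0 := k2_pos (I := I) h0 h1
    rw [tt_sq h0 h1]
    have f3 : s2 R I / k2 R I = (cosh (2 * xx R I) - cos (2 * th R I)) / 2 := by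
      rw [f1, f2]
      field_simp
      ring
    rw [f3, Real.cosh_two_mul, Real.cosh_sq, Real.cos_two_mul, Real.cos_sq']
    ring
  have ht0 := tt_pos (I := I) h0 h1
  have hR := h.hR
  have hIs := h.hI
  have hcard : (J.card : ℝ) ≤ 3 := h.card
  rcases le_or_gt (sinh (xx R I)) (43 / 100) with hS | hS
  · -- the `r_j` are too small
    have hu := half_slot h0 h1 hI
    have u1 := hu.e1
    have u2 := hu.e2
    rw [one_mul, add_zero] at u1 u2
    have hch : cosh (xx R I) ≤ 10886 / 10000 := by
      refine le_of_sq_le_sq ?_ (by norm_num)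
      rw [cosh_sq]
      have h2 : sinh (xx R I) ^ 2 ≤ (43 / 100) ^ 2 := pow_le_pow_left₀ hsx.le hS 2
      norm_num at h2 ⊢
      linarith only [h2, hθ0, hn]
    have hw1 : tt R I * sin (al R I) ≤ 30122 / 100000 := by
      rw [← u2]
      calc cosh (xx R I) * sin (th R I) ≤ 10886 / 10000 * (2767 / 10000) :=
            mul_le_mul hch hsin hsin0.le (by norm_num)
        _ ≤ _ := by norm_num
    have hw1' : 0 ≤ tt R I * sin (al R I) := by
      rw [← u2]; positivity
    have hw2 : tt R I * cos (al R I) ≤ 43 / 100 := by
      rw [← u1]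
      calc sinh (xx R I) * cos (th R I) ≤ 43 / 100 * 1 :=
            mul_le_mul hS (cos_le_one _) hcos0.le (by norm_num)
        _ = _ := mul_one _
    have hr : ∀ j ∈ J, r j ≤ 56 / 100 := by
      intro j hj
      by_contra hcon
      push Not at hcon
      have hs := h.sl j hj
      have hβ0 := hs.β0
      have hb := hβ j hj
      have h3 : sin (56 / 100) ≤ sin (r j) :=
        sin_le_sin_of_le_of_le_pi_div_two (by linarith only [h1, h0]) hs.r1 hcon.le
      have h4 := V4_sin3 (x := 56 / 100) (by norm_num)
      have h6 : (5307 / 10000 : ℝ) ≤ sin (r j) := by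
        norm_num at h4 ⊢
        linarith only [h4, h3, hθ0, hn]
      have hρ2 : ρ j ≤ 1 + 3 / 10 * β j := by
        refine le_of_sq_le_sq ((hρ1 j hj).trans ?_) (by linarith only [hβ0, hθ0, hn])
        linarith only [sq_nonneg (β j)]
      have c1 : cos (β j) ≤ 1 - β j ^ 2 / 2 + β j ^ 4 / 24 := V4_cos4 hβ0
      have c2 : sin (β j) ≤ β j := sin_le hβ0
      have c3 : 0 ≤ sin (β j) := sin_nonneg_of_nonneg_of_le_pi hβ0 (by linarith only [hb, hθ0, hpi,
                                                                         hn])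
      have c4 : 0 ≤ cos (β j) := cos_nonneg_of_mem_Icc ⟨by linarith only [hβ0, hθ0, hpi, hn], by linarith only [hb,
                                                                                                   hθ0,
                                                                                                   hpi,
                                                                                                   hn]⟩
      have c5 : β j ^ 2 ≤ 2025 / 10000 := by
        have := pow_le_pow_left₀ hβ0 hb 2
        norm_num at this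
        linarith only [this]
      have c6 : cos (β j) ≤ 1 - 4915 / 10000 * β j ^ 2 := by
        have : β j ^ 4 ≤ 2025 / 10000 * β j ^ 2 := by
          have := mul_le_mul_of_nonneg_right c5 (sq_nonneg (β j))
          calc β j ^ 4 = β j ^ 2 * β j ^ 2 := by ring
            _ ≤ _ := this
        linarith only [sq_nonneg (β j), this, c1]
      have f2 := hs.e2
      have f3 : ρ j * tt R I * sin (al R I + β j) =
          ρ j * (tt R I * sin (al R I) * cos (β j) + tt R I * cos (al R I) * sin (β j)) := by
        rw [sin_add]; ring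
      have f4 : tt R I * sin (al R I) * cos (β j) + tt R I * cos (al R I) * sin (β j) ≤
          30122 / 100000 * (1 - 4915 / 10000 * β j ^ 2) + 43 / 100 * β j := by
        have a1 : tt R I * sin (al R I) * cos (β j) ≤
            30122 / 100000 * (1 - 4915 / 10000 * β j ^ 2) :=
          mul_le_mul hw1 c6 c4 (by norm_num)
        have a2 : tt R I * cos (al R I) * sin (β j) ≤ 43 / 100 * β j :=
          mul_le_mul hw2 c2 c3 (by norm_num)
        linarith only [a2, a1]
      have f5 : 0 ≤ 30122 / 100000 * (1 - 4915 / 10000 * β j ^ 2) + 43 / 100 * β j := by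
        linarith only [c5, hβ0, hθ0, hn]
      have f6 : ρ j * (tt R I * sin (al R I) * cos (β j) + tt R I * cos (al R I) * sin (β j)) ≤
          (1 + 3 / 10 * β j) *
            (30122 / 100000 * (1 - 4915 / 10000 * β j ^ 2) + 43 / 100 * β j) :=
        (mul_le_mul_of_nonneg_left f4 hs.ρ0).trans (mul_le_mul_of_nonneg_right hρ2 f5)
      have f7 : (1 + 3 / 10 * β j) *
            (30122 / 100000 * (1 - 4915 / 10000 * β j ^ 2) + 43 / 100 * β j) ≤ 529 / 1000 := by
        obtain ⟨t, ht⟩ : ∃ t, t = 9 / 20 - β j := ⟨_, rfl⟩
        have ht0 : 0 ≤ t := by rw [ht]; linarith only [hb]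
        have e : β j = 9 / 20 - t := by rw [ht]; ring
        have ht1 : t ≤ 9 / 20 := by rw [ht]; linarith only [hβ0]
        rw [e]
        have q2 : 0 ≤ t * (9 / 20 - t) := mul_nonneg ht0 (by linarith only [ht, hβ0])
        have q3 : 0 ≤ t * t * (9 / 20 - t) := mul_nonneg (mul_nonneg ht0 ht0) (by linarith only [ht,
                                                                                    hβ0])
        linarith only [q3, ht, hb, hθ0, hn, mul_self_nonneg (1 * t)]
      have f8 : sin (r j) ≤ cosh (p j) * sin (r j) := by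
        have := one_le_cosh (p j)
        have h5 : 0 ≤ sin (r j) := by linarith only [h4, h3, hθ0, hn]
        linarith only [this, mul_nonneg (sub_nonneg.2 h4) (sub_nonneg.2 this),
          mul_nonneg (sub_nonneg.2 h3) (sub_nonneg.2 this)]
      linarith only [f8, f7, f6, f3, f2, h4, h3, hθ0, hn]
    have hsum : ∑ j ∈ J, r j ≤ 3 * (56 / 100) := by
      calc ∑ j ∈ J, r j ≤ ∑ _j ∈ J, (56 / 100 : ℝ) := Finset.sum_le_sum hr
        _ = J.card * (56 / 100) := by rw [Finset.sum_const, nsmul_eq_mul]
        _ ≤ 3 * (56 / 100) := by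
            apply mul_le_mul_of_nonneg_right hcard (by norm_num)
    have hRR : R ≤ 4475 / 10000 := by
      have h2 := (lt_tan h0 h1).le
      refine h2.trans ?_
      rw [e1, div_le_iff₀ hcos0]
      linarith only [hS, hcos, hθ0, hn]
    linarith only [hRR, hsum, hR, hθ0, hpi, hn]
  · rcases le_or_gt (sinh (xx R I)) 1 with hS1 | hS1
    · -- `r_j ≤ t p_j`
      obtain ⟨t, g1, g2, g3⟩ := V6_mid h1 hI hal hal' e1 e2 e3 hsin hcos htan h0 hS.le hS1
      have hr : ∀ j ∈ J, r j ≤ t * p j := fun j hj =>
        V6_r_le (h.sl j hj) h0 h1 (by linarith only [hρ j hj, hθ0, hn]) (hβ j hj) hal g1 g2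
      have hsum : ∑ j ∈ J, r j ≤ t * ∑ j ∈ J, p j := by
        rw [Finset.mul_sum]
        exact Finset.sum_le_sum hr
      rw [← hIs] at hsum
      linarith only [hsum, g3, hR]
    · -- the `p_j` are too large
      have htt2 : 1 ≤ tt R I := by
        refine le_of_sq_le_sq ?_ ht0.le
        rw [htt]
        have h2 : (1 : ℝ) ^ 2 ≤ sinh (xx R I) ^ 2 := pow_le_pow_left₀ (by norm_num) hS1.le 2
        have h3 := sq_nonneg (sin (th R I))
        linarith only [h3, h2]
      have hch : cosh (xx R I) ≤ 14143 / 10000 * sinh (xx R I) := by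
        refine le_of_sq_le_sq ?_ (by positivity)
        rw [mul_pow, cosh_sq]
        have h2 : (1 : ℝ) ≤ sinh (xx R I) ^ 2 := one_le_pow₀ hS1.le
        norm_num
        linarith only [h2, hθ0, hn]
      have hal2 : al R I ≤ 4074 / 10000 := by
        refine (le_tan hal.le hal').trans ?_
        have h2 : tan (al R I) * sinh (xx R I) ≤ 4074 / 10000 * sinh (xx R I) := by
          rw [e3]
          have h3 : tan (th R I) * cosh (xx R I) ≤ 288 / 1000 * cosh (xx R I) :=
            mul_le_mul_of_nonneg_right htan hcx.le
          linarith only [h3, hch, hS1, hθ0, hn]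
        exact le_of_mul_le_mul_right h2 hsx
      have hch2 : 14142 / 10000 ≤ cosh (xx R I) := by
        refine le_of_sq_le_sq ?_ hcx.le
        rw [cosh_sq]
        have h2 : (1 : ℝ) ≤ sinh (xx R I) ^ 2 := one_le_pow₀ hS1.le
        norm_num
        linarith only [h2, hθ0, hn]
      have hI1 : I ≤ 1984 / 10000 := by
        refine V6_artanh_le (y := 1957 / 10000) hI (by norm_num) (by norm_num) ?_ (by norm_num)
        rw [e2, div_le_iff₀ hcx]
        linarith only [hch2, hsin, hθ0, hn]
      have hp : ∀ j ∈ J, 31 / 100 ≤ p j := by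
        intro j hj
        have hs := h.sl j hj
        have hb := hβ j hj
        have hβ0 := hs.β0
        have f1 := hs.e1
        have h2 : 6324 / 10000 ≤ cos (al R I + β j) := by
          have h3 := one_sub_sq_div_two_le_cos (x := al R I + β j)
          have h4 : (al R I + β j) ^ 2 ≤ (8574 / 10000) ^ 2 :=
            pow_le_pow_left₀ (by linarith only [hβ0, hal]) (by linarith only [hb, hal2]) 2
          norm_num at h4 ⊢
          linarith only [h4, h3, hI1, hI]
        have h3 : 3162 / 10000 ≤ ρ j * tt R I * cos (al R I + β j) := by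
          have h4 : 1 / 2 * 1 ≤ ρ j * tt R I :=
            mul_le_mul (hρ j hj) htt2 (by norm_num) hs.ρ0
          calc (3162 / 10000 : ℝ) = 1 / 2 * 1 * (6324 / 10000) := by norm_num
            _ ≤ _ := mul_le_mul h4 h2 (by norm_num) (mul_nonneg hs.ρ0 ht0.le)
        have h4 : sinh (p j) * cos (r j) ≤ sinh (p j) := by
          have h5 : 0 ≤ sinh (p j) := sinh_nonneg_iff.2 hs.p0
          have h6 := cos_le_one (r j)
          calc sinh (p j) * cos (r j) ≤ sinh (p j) * 1 := mul_le_mul_of_nonneg_left h6 h5
            _ = _ := mul_one _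
        have h5 : 3162 / 10000 ≤ sinh (p j) := by linarith only [h4, h3, f1]
        by_contra hcon
        push Not at hcon
        have h6 : sinh (p j) < sinh (31 / 100) := sinh_lt_sinh.2 hcon
        have h7 : sinh (31 / 100) ≤ 3162 / 10000 := by
          have h8 : exp (31 / 100 : ℝ) ≤ 13635 / 10000 := by
            refine (Real.exp_bound' (x := 31 / 100) (by norm_num) (by norm_num) (n := 5)
              (by norm_num)).trans ?_
            simp only [Finset.sum_range_succ, Finset.sum_range_zero, Nat.factorial]
            norm_num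
          have h9 : exp (31 / 100 : ℝ) * exp (-(31 / 100 : ℝ)) = 1 := by
            rw [← Real.exp_add]
            simp
          have h10 : 10000 / 13635 ≤ exp (-(31 / 100 : ℝ)) := by
            rw [div_le_iff₀ (by norm_num)]
            (refine le_of_not_gt fun hng => ?_; linarith only [h9,
              mul_nonneg (sub_nonneg.2 h8) (sub_nonneg.2 (Real.exp_pos (-(31 / 100 : ℝ))).le),
              mul_nonneg (sub_nonneg.2 hng.le) (sub_nonneg.2 hI1),
              mul_pos (sub_pos.2 hng) (sub_pos.2 hI)])
          rw [Real.sinh_eq]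
          linarith only [h10, h8, hI1, hI]
        linarith only [h7, h6, h4, h3, f1]
      have hsum : 2 * (31 / 100) ≤ ∑ j ∈ J, p j := by
        calc (2 * (31 / 100) : ℝ) ≤ J.card * (31 / 100) := by
              apply mul_le_mul_of_nonneg_right _ (by norm_num)
              exact_mod_cast hc
          _ = ∑ _j ∈ J, (31 / 100 : ℝ) := by rw [Finset.sum_const, nsmul_eq_mul]
          _ ≤ _ := Finset.sum_le_sum hp
      linarith only [hsum, hI1, hIs, hI]

end Pool.Agent.MX.E
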