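import Pool.Agent.MX.E.Exist
import Pool.Agent.MX.E.Opp
import Pool.Agent.MX.E.V7
import Pool.Agent.MX.E.Th4
import Pool.Agent.MX.E.Share
import Pool.Agent.MX.E.NB

/-!
# Project MX, block E: the facts at the critical point (`τ = 1`)
-/

namespace Pool.Agent.MX.E

open Complex Pool.Agent.AT.E
open Pool.Agent.S3.E hiding bo ro be KK

variable {ι : Type*}

theorem asr_eq_arsh {w : ℂ} (h : 0 < w.re) : asr w = S3.arsh w :=
  S3.eq_arsh (sinh_asr h.le) (asr_im_lt h)

/-- The slot of an edge with equal signs. -/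
theorem qq_same {z y : ℂ} (h : 0 < z.re ∧ z.re < Real.pi / 2 ∧ 0 < z.im)
    (g : 0 < y.re ∧ y.re < Real.pi / 2 ∧ 0 < y.im) :
    S3.qq (uu z) (uu y) = S3.arsh (cos y * tan z) := by
  have h2 : sinh (uu z) = tan z := sinh_u h.1 h.2.1 h.2.2
  have h3 : cosh (uu y) * cos y = 1 := cosh_u g.1 g.2.1 g.2.2
  have hc : cosh (uu y) ≠ 0 := by
    intro h0
    rw [h0, zero_mul] at h3
    exact zero_ne_one h3
  rw [S3.qq, h2]
  congr 1
  rw [div_eq_iff hc, mul_right_comm, mul_comm (cos y), h3, one_mul]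

theorem gg_eq (R : ℝ) : gg R = 1 - 2 * Real.sin R ^ 2 := by
  unfold gg
  rw [Real.cos_two_mul, Real.cos_sq']
  ring

theorem cc_eq (I : ℝ) : cc I = 1 + 2 * Real.sinh I ^ 2 := by
  unfold cc
  rw [Real.cosh_two_mul, Real.cosh_sq]
  ring

/-- `tan θ = sinh I / cos R`. -/
theorem tan_th_eq {R I : ℝ} (h0 : 0 < R) (h1 : R < Real.pi / 2) (hI : 0 < I) :
    Real.tan (th R I) * Real.cos R = Real.sinh I := by
  have e1 := tan_R_eq h0 h1 hI
  have e2 := tanh_I_eq h0 h1 hI
  have hc : 0 < Real.cos R := Real.cos_pos_of_mem_Ioo ⟨by linarith, h1⟩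
  have ht := th_pos h0 h1 hI
  have ht' := th_lt h0 h1 hI
  have hct : 0 < Real.cos (th R I) := Real.cos_pos_of_mem_Ioo ⟨by linarith, ht'⟩
  have hst : 0 < Real.sin (th R I) := Real.sin_pos_of_pos_of_lt_pi ht (by linarith)
  have hsI : 0 < Real.sinh I := Real.sinh_pos_iff.2 hI
  have hcx := Real.cosh_pos (xx R I)
  -- `tan² R = sinh² x/cos² θ`, `tanh² I = sin² θ/cosh² x`
  have f1 : Real.sin R * Real.cos (th R I) = Real.sinh (xx R I) * Real.cos R := by
    rw [Real.tan_eq_sin_div_cos] at e1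
    field_simp at e1
    linarith
  have f2 : Real.sinh I * Real.cosh (xx R I) = Real.sin (th R I) * Real.cosh I := by
    rw [Real.tanh_eq_sinh_div_cosh] at e2
    have := Real.cosh_pos I
    field_simp at e2
    linarith
  have hS := Real.sin_sq_add_cos_sq R
  have hT := Real.sin_sq_add_cos_sq (th R I)
  have hX := Real.cosh_sq (xx R I)
  have hY := Real.cosh_sq I
  -- squares
  have g1 : (Real.sin (th R I) * Real.cos R) ^ 2 = (Real.sinh I * Real.cos (th R I)) ^ 2 := by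
    have a1 : (Real.sin R * Real.cos (th R I)) ^ 2 = (Real.sinh (xx R I) * Real.cos R) ^ 2 := by
      rw [f1]
    have a2 : (Real.sinh I * Real.cosh (xx R I)) ^ 2 = (Real.sin (th R I) * Real.cosh I) ^ 2 := by
      rw [f2]
    simp only [mul_pow] at a1 a2 ⊢
    rw [hX, hY] at a2
    have b1 : Real.sin R ^ 2 = 1 - Real.cos R ^ 2 := by linarith
    have b2 : Real.sin (th R I) ^ 2 = 1 - Real.cos (th R I) ^ 2 := by linarith
    rw [b1] at a1
    rw [b2] at a2 ⊢
    -- `(1 - C) K = X C`, `H (X + 1) = (1 - K)(H + 1)`; claim `(1 - K) C = H K`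
    linear_combination (-(Real.sinh I ^ 2)) * a1 - Real.cos R ^ 2 * a2
  have g2 := (sq_eq_sq₀ (by positivity) (by positivity)).1 g1
  rw [Real.tan_eq_sin_div_cos]
  field_simp
  linarith

/-- The data of a point of the disc. -/
theorem Nm.th_le {z : ℂ} (hn : Nm z.re z.im) (hD : Dz z) : th z.re z.im ≤ 21 / 50 := by
  have h0 := hn.R0
  have h1 := hn.lt
  have hI := hn.I0
  have hp := Real.pi_lt_d4
  have hp3 := Real.pi_gt_three
  have ht := th_pos h0 h1 hI
  have ht' := th_lt h0 h1 hI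
  have e := tan_th_eq h0 h1 hI
  have hQ : z.re ^ 2 + z.im ^ 2 ≤ 0.62832 * z.re + 0.15708 * z.im := by
    have h2 : z.re ^ 2 + z.im ^ 2 ≤ Real.pi / 5 * (z.re + z.im / 4) := hD
    have h3 : Real.pi / 5 * (z.re + z.im / 4) ≤ 0.62832 * (z.re + z.im / 4) :=
      mul_le_mul_of_nonneg_right (by linarith) (by positivity)
    linarith
  have hh : Real.sinh z.im ≤ 1.0325 * z.im := by
    have h2 := sinh_le hI.le (by linarith [hn.I1])
    have h3 : z.im ^ 2 ≤ 16193 / 100000 := by nlinarith [hn.I1]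
    nlinarith
  have hc : 1 - z.re ^ 2 / 2 ≤ Real.cos z.re := Real.one_sub_sq_div_two_le_cos
  have hle : Real.sinh z.im ≤ 0.446 * Real.cos z.re := by
    have : 1.0325 * z.im + 0.223 * z.re ^ 2 ≤ 0.446 := by
      nlinarith [sq_nonneg (z.re - 0.34), sq_nonneg (z.im - 0.401)]
    norm_num at *
    linarith
  by_contra hc'
  push Not at hc'
  have h5 : Real.tan (21 / 50) < Real.tan (th z.re z.im) :=
    Real.tan_lt_tan_of_nonneg_of_lt_pi_div_two (by norm_num) ht' hc'
  have h6 : 0.4462 ≤ Real.tan (21 / 50) := by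
    have hcc : 0 < Real.cos (21 / 50) := Real.cos_pos_of_mem_Ioo ⟨by linarith, by linarith⟩
    rw [Real.tan_eq_sin_div_cos, le_div_iff₀ hcc]
    have h2 := V4_sin3 (x := 21 / 50) (by norm_num)
    have h3 := V4_cos4 (x := 21 / 50) (by norm_num)
    norm_num at h2 h3 ⊢
    linarith
  have hc0 : 0 < Real.cos z.re := lt_of_lt_of_le (by norm_num) hn.c0
  have h7 : 0.4462 * Real.cos z.re < Real.sinh z.im := by
    rw [← e]
    exact mul_lt_mul_of_pos_right (by linarith) hc0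
  norm_num at *
  linarith

theorem Kb.arg_le {b : ℂ} (h : Kb b) : -(1 / 5) ≤ arg b := by
  have hre : 0 < b.re := lt_of_lt_of_le (by norm_num) h.re
  have h0 : 0 ≤ ((starRingEnd ℂ) b).im := by rw [conj_im]; linarith [h.im]
  have hb0 : b ≠ 0 := by
    intro hb
    rw [hb] at hre
    simp at hre
  have hro : 0 < ‖b‖ := norm_pos_iff.2 hb0
  have ha1 := abs_lt.1 (abs_arg_lt_pi_div_two_iff.mpr (Or.inl hre))
  have e1 : b.re = ‖b‖ * Real.cos (arg b) := by
    rw [Complex.cos_arg hb0]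
    field_simp
  have e2 : b.im = ‖b‖ * Real.sin (arg b) := by
    rw [Complex.sin_arg]
    field_simp
  by_contra hn
  push Not at hn
  have h4 := Real.pi_gt_three
  have h5 : Real.tan (1 / 5) < Real.tan (-arg b) :=
    Real.tan_lt_tan_of_nonneg_of_lt_pi_div_two (by norm_num) (by linarith [ha1.1]) (by linarith)
  have h6 : 1 / 5 < Real.tan (1 / 5) := Real.lt_tan (by norm_num) (by linarith)
  have hc : 0 < Real.cos (arg b) := Real.cos_pos_of_mem_Ioo ha1
  have h7 : Real.cos (arg b) < 5 * -Real.sin (arg b) := by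
    have h8 : 1 / 5 < Real.tan (-arg b) := by linarith
    rw [Real.tan_neg, Real.tan_eq_sin_div_cos, ← neg_div, lt_div_iff₀ hc] at h8
    linarith
  have h8 := mul_lt_mul_of_pos_left h7 hro
  have h9 := h.sl
  rw [e1, e2] at h9
  linarith

theorem arg_cos {z : ℂ} (h0 : 0 < z.re) (h1 : z.re < Real.pi / 2) (hI : 0 < z.im) :
    arg (cos z) = -ph z.re z.im := by
  have hne : cos z ≠ 0 := cos_ne_of h0.le h1
  have hp := ph_pos h0 h1 hI
  have hp' := ph_lt z.re z.im
  rw [cos_polar h0 h1, ← ofReal_neg, Complex.exp_mul_I]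
  exact arg_mul_cos_add_sin_mul_I (norm_pos_iff.2 hne) ⟨by linarith [Real.pi_pos],
    by linarith [Real.pi_pos]⟩

theorem arg_conj_cos {z : ℂ} (h0 : 0 < z.re) (h1 : z.re < Real.pi / 2) (hI : 0 < z.im) :
    arg ((starRingEnd ℂ) (cos z)) = ph z.re z.im := by
  have h2 := arg_cos h0 h1 hI
  rw [arg_conj, h2, if_neg, neg_neg]
  have hp := ph_pos h0 h1 hI
  linarith [Real.pi_pos]

theorem bs_same {σ : ι → Bool} {i j : ι} (h : σ i = σ j) (z : ι → ℂ) :
    bs σ 1 z i j = cos (z j) := by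
  unfold bs
  rw [if_pos h]
  push_cast
  ring

theorem bs_opp {σ : ι → Bool} {i j : ι} (h : σ i ≠ σ j) (z : ι → ℂ) :
    bs σ 1 z i j = (starRingEnd ℂ) (cos (z j)) := by
  unfold bs
  rw [if_neg h]
  push_cast
  ring

set_option linter.unusedSectionVars false

namespace Zr

variable [Finite ι] {a w : ι → ℝ} {N : ι → Finset ι} {σ : ι → Bool} {z : ι → ℂ}

theorem half_ro (h : Zr a w N σ 1 z) (j : ι) : 1 / 2 ≤ ‖cos (z j)‖ := by
  by_cases hj : Bn N σ j
  · have := (h.normB hj).1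
    linarith
  · exact (h.normA hj).1

theorem R_lt (h : Zr a w N σ 1 z) (i : ι) : (z i).re < 8 / 25 * Real.pi := by
  by_cases hi : Bn N σ i
  · have h1 := (h.nm hi).R1
    have h2 := Real.pi_gt_three
    linarith
  · apply (h.vx hi).R_lt
    intro j hj
    have hs : σ i ≠ σ j := fun hs => hi ⟨j, hj, hs⟩
    show 1 / 2 ≤ ‖bs σ 1 z i j‖
    rw [bs_opp hs, norm_conj]
    exact h.half_ro j

theorem ro_ge (h : Zr a w N σ 1 z) (j : ι) : 53 / 100 ≤ ‖cos (z j)‖ := by
  have h1 := norm_cos_sq (z j)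
  have h2 := Pool.Agent.S3.E.Zr.cos_ge (h.pos j).1.le (h.R_lt j).le
  refine le_of_sq_le_sq ?_ (norm_nonneg _)
  have h4 : (53 / 100 : ℝ) ^ 2 ≤ Real.cos (z j).re ^ 2 := pow_le_pow_left₀ (by norm_num) h2 2
  have h5 := sq_nonneg (Real.sinh (z j).im)
  rw [h1, AT2.E.k2_sc]
  linarith

theorem phB (h : Zr a w N σ 1 z) {i : ι} (hi : Bn N σ i) : ph (z i).re (z i).im ≤ 1 / 5 := by
  have h1 := (h.kb hi).arg_le
  rw [arg_cos (h.pos i).1 (h.pos i).2.1 (h.pos i).2.2] at h1
  linarith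

theorem k2B (h : Zr a w N σ 1 z) {i : ι} (hi : Bn N σ i) :
    k2 (z i).re (z i).im ≤ 1.1236 ∧ 64 / 100 ≤ k2 (z i).re (z i).im := by
  have h1 := (h.kb hi).nn
  have h2 := (h.kb hi).re
  have h3 : k2 (z i).re (z i).im = (cos (z i)).re ^ 2 + (cos (z i)).im ^ 2 := by
    rw [← norm_cos_sq, Complex.sq_norm, normSq_apply]
    ring
  rw [h3]
  refine ⟨h1, ?_⟩
  nlinarith [sq_nonneg (cos (z i)).im]

theorem pv (h : Zr a w N σ 1 z) (i : ι) : Pv (z i) := by
  obtain ⟨hR0, hR1, hI⟩ := h.pos i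
  by_cases hi : Bn N σ i
  · have hn := h.nm hi
    have h1 := h.phB hi
    have h2 := h.k2B hi
    have h3 := hn.th_le (h.disc hi)
    refine ⟨h.pos i, by linarith, by linarith [h2.2], ?_, ⟨by linarith, Or.inl (by linarith)⟩,
      Or.inr ⟨h2.1, h1⟩, ?_⟩
    · rw [AT2.E.s2_sc]
      have := hn.s1
      have := hn.h1
      linarith
    · rw [gg_eq, cc_eq]
      have a1 := hn.s1
      have a2 := hn.h1
      have a3 := sq_nonneg (Real.sin (z i).re)
      have a4 := sq_nonneg (Real.sinh (z i).im)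
      set S := Real.sin (z i).re ^ 2
      set H := Real.sinh (z i).im ^ 2
      have e : 2 + 2 * (1 + 2 * H) * (1 - 2 * S) + (1 - 2 * S) ^ 2 - (1 + 2 * H) ^ 2 =
          4 * ((1 - S) ^ 2 - H * (2 * S + H)) := by ring
      rw [e]
      have b1 : (16 / 25 : ℝ) ^ 2 ≤ (1 - S) ^ 2 :=
        pow_le_pow_left₀ (by norm_num) (by linarith) 2
      have b2 : H * (2 * S + H) ≤ 174 / 1000 * (2 * (36 / 100) + 174 / 1000) :=
        mul_le_mul a2 (by linarith) (by linarith) (by norm_num)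
      norm_num at b1 b2
      linarith
  · exact ⟨h.pos i, h.th_leA hi, h.k2_geA hi, Vx.sig3 (h.vx hi) (h.k2_le hi) (h.chord hi),
      h.phi3 hi, Or.inl (h.k2_le hi), V8_D hR0 hR1 hI
        (Vx.pos_lt (h.vx hi) (h.k2_le hi) (h.chord hi))⟩

theorem oe (h : Zr a w N σ 1 z) {i j : ι} (hij : j ∈ N i) (hs : σ i ≠ σ j) :
    OE (z i) (z j) := by
  refine ⟨h.pv i, h.pv j, ?_, ?_⟩
  · have := h.w_pos hij
    rwa [bs_opp hs] at this
  · have := h.w_pos (h.nb.symm i j hij)
    rwa [bs_opp (Ne.symm hs)] at this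

theorem th_le (h : Zr a w N σ 1 z) (i : ι) : th (z i).re (z i).im ≤ 27 / 50 := (h.pv i).t

theorem thB (h : Zr a w N σ 1 z) {i : ι} (hi : Bn N σ i) :
    th (z i).re (z i).im ≤ 21 / 50 := (h.nm hi).th_le (h.disc hi)

theorem th_le4 (h : Zr a w N σ 1 z) {i : ι} (h4 : 4 ≤ a i) :
    th (z i).re (z i).im ≤ 1 / 2 := by
  by_cases hi : Bn N σ i
  · have := h.thB hi
    linarith
  · exact Vx.th_le4 (h.vx hi) h4 (h.k2_le hi) (h.chord hi)

theorem th_ge (h : Zr a w N σ 1 z) {i : ι} (h3 : a i = 3) :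
    7 / 25 ≤ th (z i).re (z i).im := by
  have hi : ¬Bn N σ i := by
    intro hB
    have := (h.nb.pure i hB).1
    rw [h3] at this
    norm_num at this
  have hw : w i = 0 := by
    rcases (h.nb.w0 i).eq_or_lt with h0 | h0
    · exact h0.symm
    · have := (h.nb.big i h0).2
      linarith
  have hv := (h.vx hi).toAT hw
  rw [h3] at hv
  have hop : ∀ j ∈ N i, σ i ≠ σ j := fun j hj hs => hi ⟨j, hj, hs⟩
  have e1 : ∀ j ∈ N i, ‖bs σ 1 z i j‖ = ‖cos (z j)‖ := by
    intro j hj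
    rw [bs_opp (hop j hj), norm_conj]
  have e2 : ∀ j ∈ N i, arg (bs σ 1 z i j) = ph (z j).re (z j).im := by
    intro j hj
    rw [bs_opp (hop j hj), arg_conj_cos (h.pos j).1 (h.pos j).2.1 (h.pos j).2.2]
  have f1 : ∀ j ∈ N i, 53 / 100 ≤ ‖bs σ 1 z i j‖ := fun j hj => by
    rw [e1 j hj]; exact h.ro_ge j
  have f2 : ∀ j ∈ N i, arg (bs σ 1 z i j) ≤ 9 / 20 := fun j hj => by
    rw [e2 j hj]; exact (h.pv j).phi.1
  have f3 : ∀ j ∈ N i, arg (bs σ 1 z i j) ≤ 1 / 3 ∨ 21 / 50 ≤ ‖bs σ 1 z i j‖ ^ 2 :=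
    fun j hj => by
      rw [e2 j hj, e1 j hj, norm_cos_sq]; exact (h.pv j).phi.2
  have hc := Finset.card_pos.2 hv.ne
  rcases Nat.lt_or_ge (N i).card 2 with h1 | h1
  · exact hv.low3_one (by omega) f1 f2 f3
  · refine Vx.low3_two hv h1 (fun j hj => by have := f1 j hj; linarith) (fun j hj => ?_) f2
    by_cases hB : Bn N σ j
    · exact h.rho_B hj (hop j hj) hB
    · have h5 := (h.normA hB).2
      have h6 : 0 ≤ arg (bs σ 1 z i j) := by
        rw [e2 j hj]; exact (h.pv j).phpos.le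
      show ‖bs σ 1 z i j‖ ^ 2 ≤ 1 + 3 / 5 * arg (bs σ 1 z i j)
      rw [e1 j hj]
      have := norm_nonneg (cos (z j))
      nlinarith

/-! ### Edges with equal signs -/

theorem q_same (h : Zr a w N σ 1 z) {i j : ι} (hij : j ∈ N i) (hs : σ i = σ j) :
    S3.qq (uu (z i)) (uu (z j)) = qs σ 1 z i j := by
  have h1 := h.w_pos hij
  rw [qq_same (h.pos i) (h.pos j)]
  unfold qs
  rw [asr_eq_arsh h1, bs_same hs]

theorem q_opp (h : Zr a w N σ 1 z) {i j : ι} (hij : j ∈ N i) (hs : σ i ≠ σ j) :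
    qe (z i) (z j) = qs σ 1 z i j := by
  have h1 := h.w_pos hij
  rw [qe_eq (h.pos i).1 (h.pos i).2.1 (h.pos i).2.2 (h.pos j).1 (h.pos j).2.1 (h.pos j).2.2]
  unfold qs
  rw [asr_eq_arsh h1, bs_opp hs]

theorem kb1 (h : Zr a w N σ 1 z) {i : ι} (hi : Bn N σ i) : Kb (cos (z i)) := h.kb hi

/-- The slope at a vertex of the disc. -/
theorem slope2 (h : Zr a w N σ 1 z) {i : ι} (hi : Bn N σ i) : (z i).im ≤ 2 * (z i).re := by
  by_cases hm : ∃ j ∈ N i, σ i ≠ σ j
  · have h1 := h.slope hi hm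
    have h2 := (h.pos i).1
    linarith
  · push Not at hm
    by_contra hn
    push Not at hn
    have hnm := h.nm hi
    have hI := (h.pos i).2.2
    have key : ∀ j ∈ N i, 3 / 2 * (qs σ 1 z i j).re < (z i).im := by
      intro j hj
      have hs := hm j hj
      have hj' := (h.bn_of hj hs).2
      have hk := h.kbs hj hs
      refine sh1 hnm hn.le hk.re (h.re_same hj hs) hk.im hk.sl ?_
      have h1 := shC (h.disc hj') (h.re0 j) (h.I_pos j)
      rw [bs_same hs, cos_re', cos_im']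
      linarith
    have keyh : 3 / 2 * (asr (tan (z i))).re < (z i).im := by
      have := sh1 (b := 1) hnm hn.le (by norm_num) (by norm_num) (by norm_num) (by norm_num)
        (by norm_num)
      rwa [one_mul] at this
    have e := h.eqI i
    obtain ⟨j, hj, hjs⟩ := hi
    have h1 : ∑ j ∈ N i, 3 / 2 * (qs σ 1 z i j).re < ∑ _j ∈ N i, (z i).im :=
      Finset.sum_lt_sum_of_nonempty ⟨j, hj⟩ key
    rw [Finset.sum_const, nsmul_eq_mul, ← Finset.mul_sum] at h1
    have h2 := mul_le_mul_of_nonneg_left keyh.le (h.nb.w0 i)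
    have h3 := mul_le_mul_of_nonneg_right (h.nb.pure i ⟨j, hj, hjs⟩).2 hI.le
    linarith

/-- `sinh p ≥ (4/5) Re tan z`. -/
theorem sinh_ge (h : Zr a w N σ 1 z) {i j : ι} (hij : j ∈ N i) (hs : σ i = σ j) :
    4 / 5 * (tan (z i)).re ≤ Real.sinh (qs σ 1 z i j).re := by
  have hk := h.kbs hij hs
  have hnm := h.nm (h.bn_of hij hs).1
  have h1 := h.w_pos hij
  obtain ⟨e1, -⟩ := asr_eqs h1.le
  have h2 : (bs σ 1 z i j * tan (z i)).re ≤ Real.sinh (qs σ 1 z i j).re := by
    rw [← e1]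
    have h3 : 0 < Real.sinh (qs σ 1 z i j).re := Real.sinh_pos_iff.2 (asr_re_pos h1)
    calc Real.sinh (qs σ 1 z i j).re * Real.cos (asr (bs σ 1 z i j * tan (z i))).im ≤
        Real.sinh (qs σ 1 z i j).re * 1 := mul_le_mul_of_nonneg_left (Real.cos_le_one _) h3.le
      _ = _ := mul_one _
  refine le_trans ?_ h2
  rw [mul_re]
  have t1 := hnm.tan_re
  have t2 := hnm.tan_im
  have := mul_le_mul_of_nonneg_right hk.re t1.le
  have := mul_nonneg (neg_nonneg.2 hk.im) t2.le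
  linarith

theorem kappa_ge (h : Zr a w N σ 1 z) {j : ι} (hj : Bn N σ j) :
    92 / 100 ≤ (cos (z j)).re - 2 * (cos (z j)).im := by
  obtain ⟨i, hi, hs⟩ := hj
  have hB : Bn N σ j := ⟨i, hi, hs⟩
  have h1 := h.disc_lt hB
  have h5 := (h.nb.pure j hB).1
  -- the vertex equation gives `a |z|² < π (R + I/4)`
  have h2 : a j * ((z j).re ^ 2 + (z j).im ^ 2) ≤ Real.pi * ((z j).re + (z j).im / 4) := by
    exact (h.disc_lt' hB).le
  have h3 : (qs σ 1 z j i).re ≤ a j * (z j).im := by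
    rw [h.eqI j]
    have h4 := Finset.single_le_sum (f := fun k => (qs σ 1 z j k).re)
      (fun k _ => asr_re_nonneg _) hi
    have h6 := mul_nonneg (h.nb.w0 j) (asr_re_nonneg (tan (z j)))
    linarith
  have h4 := shJ (h.nm hB) h5 h2 h3 (h.sinh_ge hi hs)
  rw [cos_re', cos_im']
  linarith

/-- **The shares of an edge with equal signs.** -/
theorem share (h : Zr a w N σ 1 z) {i j : ι} (hij : j ∈ N i) (hs : σ i = σ j) :
    2 / 5 * (z i).im < (qs σ 1 z i j).re := by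
  obtain ⟨hi, hj⟩ := h.bn_of hij hs
  have hk := h.kbs hij hs
  apply sh2 (h.nm hi) (h.slope2 hi) hk.re hk.im hk.sl hk.nn
  rw [bs_same hs]
  exact h.kappa_ge hj

/-- `|Im q| + Re z_j < π/2` at an edge with equal signs. -/
theorem q_add_lt (h : Zr a w N σ 1 z) {i j : ι} (hij : j ∈ N i) (hs : σ i = σ j) :
    |(qs σ 1 z i j).im| + (z j).re < Real.pi / 2 := by
  obtain ⟨hi, hj⟩ := h.bn_of hij hs
  have hk := h.kbs hij hs
  have hnm := h.nm hi
  have hR := (h.nm hj).R1
  have h1 := h.w_pos hij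
  obtain ⟨-, e2⟩ := asr_eqs h1.le
  have t1 := tan_re' hnm.cos_ne
  have t2 := tan_im' hnm.cos_ne
  have hn : normSq (cos (z i)) = Real.cos (z i).re ^ 2 + Real.sinh (z i).im ^ 2 := normSq_cos _
  have hn0 : 0.64 ≤ normSq (cos (z i)) := by
    rw [hn]
    have := pow_le_pow_left₀ (by norm_num) hnm.c0 2
    have := sq_nonneg (Real.sinh (z i).im)
    norm_num at *
    linarith
  have hT1 := hnm.tan_re
  have hT2 := hnm.tan_im
  have hscb : Real.sin (z i).re * Real.cos (z i).re ≤ 0.48 := by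
    apply le_of_sq_le_sq _ (by norm_num)
    have := hnm.s1
    have h3 := Real.sin_sq_add_cos_sq (z i).re
    rw [mul_pow, show Real.cos (z i).re ^ 2 = 1 - Real.sin (z i).re ^ 2 by linarith]
    norm_num
    nlinarith [sq_nonneg (Real.sin (z i).re)]
  have hChb : Real.cosh (z i).im * Real.sinh (z i).im ≤ 0.4521 := by
    apply le_of_sq_le_sq _ (by norm_num)
    have := hnm.h1
    rw [mul_pow, Real.cosh_sq]
    norm_num
    nlinarith [sq_nonneg (Real.sinh (z i).im)]
  have c1 : (tan (z i)).re ≤ 0.75 := by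
    by_contra hc
    push Not at hc
    have : 0.75 * 0.64 < (tan (z i)).re * normSq (cos (z i)) :=
      mul_lt_mul hc hn0 (by norm_num) hT1.le
    norm_num at *
    linarith
  have c2 : (tan (z i)).im ≤ 0.7066 := by
    by_contra hc
    push Not at hc
    have : 0.7066 * 0.64 < (tan (z i)).im * normSq (cos (z i)) :=
      mul_lt_mul hc hn0 (by norm_num) hT2.le
    norm_num at *
    linarith
  have hb1 := h.re_same hij hs
  have hb0 := hk.re
  have hb2 := hk.im
  have hb3 := hk.sl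
  set b := bs σ 1 z i j
  have hW : |(b * tan (z i)).im| ≤ 0.75 := by
    rw [mul_im, abs_le]
    have d1 : b.re * (tan (z i)).im ≤ 53 / 50 * 0.7066 :=
      mul_le_mul hb1 c2 hT2.le (by norm_num)
    have d2 : -b.im * (tan (z i)).re ≤ (53 / 50 / 5) * 0.75 :=
      mul_le_mul (by linarith) c1 hT1.le (by norm_num)
    have d3 := mul_nonneg (by linarith : (0 : ℝ) ≤ b.re) hT2.le
    have d4 := mul_nonneg (neg_nonneg.2 hb2) hT1.le
    norm_num at *
    constructor <;> linarith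
  have hs1 : |Real.sin (qs σ 1 z i j).im| ≤ 0.75 := by
    have hc := Real.one_le_cosh (qs σ 1 z i j).re
    have h3 : |Real.cosh (qs σ 1 z i j).re * Real.sin (qs σ 1 z i j).im| ≤ 0.75 := by
      have : Real.cosh (qs σ 1 z i j).re * Real.sin (qs σ 1 z i j).im =
        (b * tan (z i)).im := e2
      rw [this]
      exact hW
    rw [abs_mul, abs_of_pos (by linarith)] at h3
    have := mul_le_mul_of_nonneg_right hc (abs_nonneg (Real.sin (qs σ 1 z i j).im))
    linarith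
  have hq : |(qs σ 1 z i j).im| < Real.pi / 2 := asr_im_lt h1
  have hq2 : |(qs σ 1 z i j).im| < 9 / 10 := by
    by_contra hc
    push Not at hc
    have h3 : Real.sin (9 / 10) ≤ Real.sin |(qs σ 1 z i j).im| :=
      Real.sin_le_sin_of_le_of_le_pi_div_two (by linarith [Real.pi_pos]) hq.le hc
    have h4 : Real.sin |(qs σ 1 z i j).im| = |Real.sin (qs σ 1 z i j).im| := by
      rw [← Real.abs_sin_eq_sin_abs_of_abs_le_pi]
      linarith [Real.pi_pos]
    have h5 := V4_sin3 (x := 9 / 10) (by norm_num)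
    norm_num at h5
    linarith
  linarith [Real.pi_gt_d4]

end Zr

end Pool.Agent.MX.E
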