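import Pool.Agent.AT2.E.Defs
import Pool.Agent.S3.E.Ash

/-!
# Project MX, block E: the critical point of a tree with arbitrary signs

Notation as in `Pool.Agent.AT2.E`; `σ i` is the sign of the vertex `i`. At an edge with opposite signs
the coefficient of the slot is `conj (cos z_j)`, at an edge with equal signs it is `cos z_j`. The system
at time `τ` has the coefficients `1 + τ (conj (cos z_j) - 1)` and `1 + τ (cos z_j - 1)`.
-/

namespace Pool.Agent.MX.E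

open Real Pool.Agent.S3.E

variable {ι : Type*}

/-- `arsinh` on the closed right half plane. -/
noncomputable def asr (w : ℂ) : ℂ :=
  if 0 ≤ w.im then ash w else (starRingEnd ℂ) (ash ((starRingEnd ℂ) w))

/-- The coefficient of the slot of `i` whose neighbour is `j`. -/
noncomputable def bs (σ : ι → Bool) (τ : ℝ) (z : ι → ℂ) (i j : ι) : ℂ :=
  1 + (τ : ℂ) * ((if σ i = σ j then Complex.cos (z j) else
    (starRingEnd ℂ) (Complex.cos (z j))) - 1)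

/-- The system at time `τ`. -/
noncomputable def GG (a w : ι → ℝ) (N : ι → Finset ι) (σ : ι → Bool) (τ : ℝ) (z : ι → ℂ)
    (i : ι) : ℂ :=
  (a i : ℂ) * z i - (π : ℂ) - Complex.I * (∑ j ∈ N i, asr (bs σ τ z i j * Complex.tan (z i)) +
    (w i : ℂ) * asr (Complex.tan (z i)))

/-- `i` has a neighbour with the same sign. -/
def Bn (N : ι → Finset ι) (σ : ι → Bool) (i : ι) : Prop := ∃ j ∈ N i, σ i = σ j

/-- The disc of the vertices which have a neighbour with the same sign. -/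
def Dz (z : ℂ) : Prop := z.re ^ 2 + z.im ^ 2 ≤ π / 5 * (z.re + z.im / 4)

/-- The compact region. -/
def KK (N : ι → Finset ι) (σ : ι → Bool) : Set (ℝ × (ι → ℂ)) :=
  {x | x.1 ∈ Set.Icc (0 : ℝ) 1 ∧ ∀ i,
    (0 ≤ (x.2 i).re ∧ (x.2 i).re ≤ π / 2 ∧ 0 ≤ (x.2 i).im ∧ (x.2 i).im ≤ 2) ∧
    (0.49 ≤ ‖Complex.cos (x.2 i)‖ ∧ ‖Complex.cos (x.2 i)‖ ≤ 1.1 ∧
      -(Complex.cos (x.2 i)).im ≤ 1.04 * (Complex.cos (x.2 i)).re) ∧
    (∀ j ∈ N i, 0 ≤ (bs σ x.1 x.2 i j * Complex.tan (x.2 i)).re) ∧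
    (Bn N σ i → Dz (x.2 i)) ∧ (¬Bn N σ i → RR (Complex.tan (x.2 i)) ≤ 3 / 5)}

/-- The combinatorics. `(A)`: only opposite neighbours, `deg ≤ a`. `(B)`: a neighbour of the same
sign, `a ≥ 5`; `deg ≤ a` if there is also an opposite neighbour, `2 deg ≤ 3 a` always. -/
structure Nbr (a w : ι → ℝ) (N : ι → Finset ι) (σ : ι → Bool) : Prop where
  a3 : ∀ i, 3 ≤ a i
  w0 : ∀ i, 0 ≤ w i
  ne : ∀ i, (N i).Nonempty ∨ 0 < w i
  big : ∀ i, 0 < w i → 1 / 2 ≤ w i ∧ 7 / 2 ≤ a i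
  card : ∀ i, (¬Bn N σ i ∨ ∃ j ∈ N i, σ i ≠ σ j) →
    ((N i).card : ℝ) + w i ≤ a i ∧ (0 < w i → ((N i).card : ℝ) + w i < a i)
  pure : ∀ i, Bn N σ i → 5 ≤ a i ∧ 2 * (((N i).card : ℝ) + w i) ≤ 3 * a i
  symm : ∀ i j, j ∈ N i → i ∈ N j

end Pool.Agent.MX.E
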