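import Pool.Agent.MX.E.Asr

/-!
# Project MX, block E: the derivative of the system

For `w = b tan z`: `d (asr w) = dw/cosh q`, `dw = tan z db + b dz/cos² z`; and
`db = τ d (cos z_j) = - τ sin z_j dz_j` at an edge with equal signs, its conjugate at an edge with
opposite signs (for fixed `τ`).
-/

namespace Pool.Agent.MX.E

open Complex Pool.Agent.S3.E

variable {ι : Type*}

/-- `d b` in the direction `v`. -/
noncomputable def lam (σ : ι → Bool) (τ : ℝ) (z v : ι → ℂ) (i j : ι) : ℂ :=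
  (τ : ℂ) * (if σ i = σ j then -(sin (z j) * v j) else (starRingEnd ℂ) (-(sin (z j) * v j)))

private theorem der_comp {E : Type*} [NormedAddCommGroup E] [NormedSpace ℝ E] {g : E → ℂ}
    {g' : E →L[ℝ] ℂ} {x : E} (hg : HasStrictFDerivAt g g' x) {f : ℂ → ℂ} {f' : ℂ}
    (hf : HasStrictDerivAt f f' (g x)) : HasStrictFDerivAt (fun y => f (g y)) (f' • g') x := by
  have h := (hf.complexToReal_fderiv).comp x hg
  refine h.congr_fderiv ?_
  ext v
  simp

private theorem der_z [Fintype ι] (τ : ℝ) (z : ι → ℂ) (k : ι) :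
    HasStrictFDerivAt (fun x : ℝ × (ι → ℂ) => x.2 k)
      ((ContinuousLinearMap.proj k).comp (ContinuousLinearMap.snd ℝ ℝ (ι → ℂ))) (τ, z) :=
  (ContinuousLinearMap.hasStrictFDerivAt
    ((ContinuousLinearMap.proj (R := ℝ) (φ := fun _ : ι => ℂ) k).comp
      (ContinuousLinearMap.snd ℝ ℝ (ι → ℂ))))

private theorem der_tan [Fintype ι] (τ : ℝ) {z : ι → ℂ} {i : ι} (hc : cos (z i) ≠ 0) :
    ∃ L : (ℝ × (ι → ℂ)) →L[ℝ] ℂ,
      HasStrictFDerivAt (fun x : ℝ × (ι → ℂ) => tan (x.2 i)) L (τ, z) ∧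
      ∀ v, L (0, v) = v i / cos (z i) ^ 2 := by
  refine ⟨_, der_comp (der_z τ z i) (hasStrictDerivAt_tan hc), ?_⟩
  intro v
  simp only [_root_.smul_apply, ContinuousLinearMap.comp_apply, ContinuousLinearMap.coe_snd',
    ContinuousLinearMap.proj_apply, smul_eq_mul]
  ring

private theorem der_bs [Fintype ι] (σ : ι → Bool) (τ : ℝ) (z : ι → ℂ) (i j : ι) :
    ∃ L : (ℝ × (ι → ℂ)) →L[ℝ] ℂ,
      HasStrictFDerivAt (fun x : ℝ × (ι → ℂ) => bs σ x.1 x.2 i j) L (τ, z) ∧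
      ∀ v, L (0, v) = lam σ τ z v i j := by
  have hτ : HasStrictFDerivAt (fun x : ℝ × (ι → ℂ) => (x.1 : ℂ))
      (ofRealCLM.comp (ContinuousLinearMap.fst ℝ ℝ (ι → ℂ))) (τ, z) :=
    ofRealCLM.hasStrictFDerivAt.comp (τ, z) hasStrictFDerivAt_fst
  have hcos := der_comp (der_z τ z j) (hasStrictDerivAt_cos (z j))
  unfold bs lam
  split_ifs with h
  · have h1 := (hτ.mul (hcos.sub_const 1)).const_add 1
    refine ⟨_, h1, ?_⟩
    intro v
    simp
  · have hconj := (conjCLE.toContinuousLinearMap.hasStrictFDerivAt).comp (τ, z) hcos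
    have h1 := (hτ.mul (hconj.sub_const 1)).const_add 1
    refine ⟨_, h1, ?_⟩
    intro v
    simp

private theorem der_slot [Fintype ι] (σ : ι → Bool) {τ : ℝ} {z : ι → ℂ} (i j : ι)
    (hc : cos (z i) ≠ 0) (h1 : 0 < (bs σ τ z i j * tan (z i)).re) :
    ∃ L : (ℝ × (ι → ℂ)) →L[ℝ] ℂ,
      HasStrictFDerivAt (fun x : ℝ × (ι → ℂ) => asr (bs σ x.1 x.2 i j * tan (x.2 i))) L (τ, z) ∧
      ∀ v, L (0, v) = (tan (z i) * lam σ τ z v i j + bs σ τ z i j * (v i / cos (z i) ^ 2)) /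
        cosh (asr (bs σ τ z i j * tan (z i))) := by
  obtain ⟨L1, hL1, hv1⟩ := der_tan τ hc
  obtain ⟨L2, hL2, hv2⟩ := der_bs σ τ z i j
  have hw := hL2.mul hL1
  have hash := der_comp hw (hasStrictDerivAt_asr (w := bs σ τ z i j * tan (z i)) h1)
  refine ⟨_, hash, ?_⟩
  intro v
  simp only [_root_.smul_apply, _root_.add_apply, smul_eq_mul, hv1 v, hv2 v]
  ring

private theorem der_half [Fintype ι] {τ : ℝ} {z : ι → ℂ} (i : ι)
    (hc : cos (z i) ≠ 0) (h1 : 0 < (tan (z i)).re) :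
    ∃ L : (ℝ × (ι → ℂ)) →L[ℝ] ℂ,
      HasStrictFDerivAt (fun x : ℝ × (ι → ℂ) => asr (tan (x.2 i))) L (τ, z) ∧
      ∀ v, L (0, v) = v i / cos (z i) ^ 2 / cosh (asr (tan (z i))) := by
  obtain ⟨L1, hL1, hv1⟩ := der_tan τ hc
  have hash := der_comp hL1 (hasStrictDerivAt_asr (w := tan (z i)) h1)
  refine ⟨_, hash, ?_⟩
  intro v
  simp only [_root_.smul_apply, smul_eq_mul, hv1 v]
  ring

theorem GG_deriv [Fintype ι] (a w : ι → ℝ) (N : ι → Finset ι) (σ : ι → Bool) {τ : ℝ}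
    {z : ι → ℂ} (hc : ∀ i, cos (z i) ≠ 0)
    (hw : ∀ i, ∀ j ∈ N i, 0 < (bs σ τ z i j * tan (z i)).re)
    (ht : ∀ i, 0 < (tan (z i)).re) :
    ∃ F' : (ℝ × (ι → ℂ)) →L[ℝ] (ι → ℂ),
      HasStrictFDerivAt (fun x : ℝ × (ι → ℂ) => GG a w N σ x.1 x.2) F' (τ, z) ∧
      ∀ v i, F' (0, v) i = (a i : ℂ) * v i - I * (∑ j ∈ N i,
        (tan (z i) * lam σ τ z v i j + bs σ τ z i j * (v i / cos (z i) ^ 2)) /
          cosh (asr (bs σ τ z i j * tan (z i))) +
        (w i : ℂ) * (v i / cos (z i) ^ 2 / cosh (asr (tan (z i))))) := by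
  classical
  choose L hL hLv using fun (i : ι) (j : N i) =>
    der_slot σ i j.1 (hc i) (hw i j.1 j.2)
  choose M hM hMv using fun (i : ι) => der_half (τ := τ) i (hc i) (ht i)
  have hG : ∀ i : ι, HasStrictFDerivAt (fun x : ℝ × (ι → ℂ) => GG a w N σ x.1 x.2 i)
      ((a i : ℂ) • ((ContinuousLinearMap.proj i).comp (ContinuousLinearMap.snd ℝ ℝ (ι → ℂ))) -
        I • (∑ j ∈ (N i).attach, L i j + (w i : ℂ) • M i)) (τ, z) := by
    intro i
    have h1 := (der_z τ z i).const_smul (a i : ℂ)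
    have h2 := ((HasStrictFDerivAt.fun_sum (u := (N i).attach) (fun j _ => hL i j)).add
      ((hM i).const_smul (w i : ℂ))).const_smul I
    have h3 := (h1.sub_const (Real.pi : ℂ)).sub h2
    have h4 : (fun x : ℝ × (ι → ℂ) => GG a w N σ x.1 x.2 i) = fun x : ℝ × (ι → ℂ) =>
        (a i : ℂ) • x.2 i - (Real.pi : ℂ) -
          I • (∑ j ∈ (N i).attach, asr (bs σ x.1 x.2 i j.1 * tan (x.2 i)) +
            (w i : ℂ) • asr (tan (x.2 i))) := by
      funext x
      unfold GG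
      rw [Finset.sum_attach (N i) fun j => asr (bs σ x.1 x.2 i j * tan (x.2 i))]
      rfl
    rw [h4]
    exact h3
  refine ⟨ContinuousLinearMap.pi fun i => _, hasStrictFDerivAt_pi.2 hG, ?_⟩
  intro v i
  simp only [ContinuousLinearMap.pi_apply, _root_.sub_apply, _root_.smul_apply,
    _root_.add_apply,
    ContinuousLinearMap.comp_apply, ContinuousLinearMap.coe_snd', ContinuousLinearMap.proj_apply,
    smul_eq_mul, _root_.sum_apply, hLv i _ v, hMv i v]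
  rw [Finset.sum_attach (N i) fun j =>
    (tan (z i) * lam σ τ z v i j + bs σ τ z i j * (v i / cos (z i) ^ 2)) /
      cosh (asr (bs σ τ z i j * tan (z i)))]

end Pool.Agent.MX.E
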