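import Pool.Agent.MX.E.VA
import Pool.Agent.AT2.E.VB

/-!
# Project MX, block E: diagonal dominance at the vertices with opposite neighbours only
-/

namespace Pool.Agent.MX.E

open Real Pool.Agent.AT.E
open Pool.Agent.AT2.E (half_slot)
open Pool.Agent.S3.E hiding bo ro be KK

variable {ι : Type*} {a w R I : ℝ} {J : Finset ι} {ρ β p r : ι → ℝ}

/-- Diagonal dominance. -/
theorem Vx.dom3 (h : AT2.E.Vx a w R I J ρ β p r) (hk : k2 R I ≤ 1)
    (hch : ∀ j ∈ J, th R I * p j ≤ xx R I * r j) {z : ℂ}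
    (hz : z.re = R) (hz' : z.im = I) (hpos : ∀ j ∈ J, 0 < cosh (2 * p j) + cos (2 * r j)) :
    s2 R I * ∑ j ∈ J, ‖Complex.tanh ((p j : ℂ) + (r j : ℂ) * Complex.I)‖ <
      ‖(a : ℂ) * (Complex.cos z * Complex.sin z) -
        Complex.I * (∑ j ∈ J, Complex.tanh ((p j : ℂ) + (r j : ℂ) * Complex.I) +
          (w : ℂ) * Complex.tanh ((xx R I : ℂ) + (th R I : ℂ) * Complex.I))‖ := by
  have hR0 := h.R0
  have hR1 := h.R1
  have hI0 := h.I0
  have ha := h.a3
  have hp3 : (3.1415 : ℝ) < π := pi_gt_d4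
  have hp4 : π < (3.1416 : ℝ) := pi_lt_d4
  have h3R : 3 * R ≤ a * R := mul_le_mul_of_nonneg_right ha hR0.le
  have hrr : ∑ j ∈ J, r j ≤ π - 3 * R := by linarith [h.sum_r_le]
  have hw0 := h.h0
  have hr0 : ∀ j ∈ J, 0 ≤ r j := fun j hj => (h.sl j hj).r0
  have hrj : ∀ j ∈ J, r j ≤ π - 3 * R := fun j hj =>
    (Finset.single_le_sum (f := r) hr0 hj).trans hrr
  obtain ⟨T, hT⟩ : ∃ T : ι → ℂ, T = fun j => Complex.tanh ((p j : ℂ) + (r j : ℂ) * Complex.I) :=
    ⟨_, rfl⟩
  have hTj : ∀ j, Complex.tanh ((p j : ℂ) + (r j : ℂ) * Complex.I) = T j := fun j => by rw [hT]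
  simp only [hTj]
  have hsl := half_slot hR0 hR1 hI0
  obtain ⟨U, hU⟩ : ∃ U : ℂ, U = Complex.tanh ((xx R I : ℂ) + (th R I : ℂ) * Complex.I) := ⟨_, rfl⟩
  rw [← hU]
  have hUq := tanh_quadrant hsl.p0 hsl.r0 hsl.r1
  rw [← hU] at hUq
  have hq : ∀ j ∈ J, ‖T j‖ ≤ (T j).re + (T j).im := by
    intro j hj
    have hq1 := tanh_quadrant (h.sl j hj).p0 (h.sl j hj).r0 (h.sl j hj).r1
    rw [hTj] at hq1
    have := Complex.norm_le_abs_re_add_abs_im (T j)
    rwa [abs_of_nonneg hq1.1, abs_of_nonneg hq1.2] at this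
  have hqU : ‖U‖ ≤ U.re + U.im := by
    have := Complex.norm_le_abs_re_add_abs_im U
    rwa [abs_of_nonneg hUq.1, abs_of_nonneg hUq.2] at this
  have hproj := proj_cs z (∑ j ∈ J, T j + (w : ℂ) * U) a
  rw [hz, hz', Complex.add_re, Complex.add_im, Complex.re_ofReal_mul, Complex.im_ofReal_mul,
    Complex.re_sum, Complex.im_sum] at hproj
  refine lt_of_lt_of_le ?_ hproj
  rw [lt_div_iff₀ (by positivity)]
  have hX := pos_cs hR0 hR1 hI0 hk
  have hsig := Vx.sig3 h hk hch
  have hU1 : ‖U‖ ≤ 1 := by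
    have h1 := sinh_u (z := ⟨R, I⟩) hR0 hR1 hI0
    have h2 := cosh_u (z := ⟨R, I⟩) hR0 hR1 hI0
    simp only at h1 h2
    have hc : Complex.cos ⟨R, I⟩ ≠ 0 := by
      intro h0
      rw [h0, mul_zero] at h2
      exact zero_ne_one h2
    have hch : Complex.cosh ((xx R I : ℂ) + (th R I : ℂ) * Complex.I) ≠ 0 := by
      intro h0
      rw [h0, zero_mul] at h2
      exact zero_ne_one h2
    have h3 : U = Complex.sin ⟨R, I⟩ := by
      rw [hU, Complex.tanh_eq_sinh_div_cosh, h1, Complex.tan_eq_sin_div_cos, div_div,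
        mul_comm (Complex.cos _), h2, div_one]
    have h4 := norm_sin_sq ⟨R, I⟩
    simp only at h4
    rw [h3]
    have h5 := norm_nonneg (Complex.sin ⟨R, I⟩)
    nlinarith
  have hcg : cc I + gg R ≤ 2 := by
    unfold k2 at hk
    linarith
  have hcg' : cc I - gg R ≤ 2 := by
    unfold s2 at hsig
    linarith
  have hN : ∑ j ∈ J, ‖T j‖ ≤ ∑ j ∈ J, (T j).re + ∑ j ∈ J, (T j).im := by
    rw [← Finset.sum_add_distrib]
    exact Finset.sum_le_sum hq
  have hN0 : 0 ≤ ∑ j ∈ J, ‖T j‖ := Finset.sum_nonneg fun j _ => norm_nonneg _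
  have hNU : w * ‖U‖ ≤ w * U.re + w * U.im := by
    rw [← mul_add]
    exact mul_le_mul_of_nonneg_left hqU hw0
  have hNU1 : w * ‖U‖ ≤ w := by
    calc w * ‖U‖ ≤ w * 1 := mul_le_mul_of_nonneg_left hU1 hw0
      _ = w := mul_one w
  have hNU0 : 0 ≤ w * ‖U‖ := mul_nonneg hw0 (norm_nonneg _)
  -- the sum
  have hsumB : ∀ B : ℝ, 1 ≤ B → (∀ j ∈ J, ‖T j‖ ≤ B) → ∑ j ∈ J, r j < π / 2 →
      (∀ j ∈ J, r j ≤ π / 4 → ‖T j‖ ≤ 1) → ∑ j ∈ J, ‖T j‖ + w * ‖U‖ ≤ a - 1 + B := by
    intro B hB hb hs hone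
    rcases J.eq_empty_or_nonempty with hJ | hJ
    · have h1 := h.card
      rw [hJ, Finset.card_empty] at h1
      rw [hJ, Finset.sum_empty]
      push_cast at h1
      linarith
    · have := V3_sum hB hb hone hr0 hs hJ
      have := h.card
      linarith
  have hone : ∀ j ∈ J, r j ≤ π / 4 → ‖T j‖ ≤ 1 := by
    intro j hj hr
    rw [← hTj]
    apply V3_norm (u := 0) (hpos j hj) le_rfl (by norm_num) _ (by norm_num) (by norm_num)
    rw [neg_zero]
    exact cos_nonneg_of_mem_Icc ⟨by linarith [hr0 j hj], by linarith⟩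
  have hcard := h.card
  have hmain : (cc I - gg R) / 2 * (∑ j ∈ J, ‖T j‖ + w * ‖U‖) * √2 <
      a / 2 * (cc I * sin (2 * R) - gg R * sinh (2 * I)) + (∑ j ∈ J, ‖T j‖ + w * ‖U‖) := by
    apply V3_num (add_nonneg hN0 hNU0) (sin_two_pos hR0 hR1) (sin_two_sq R) (sinh_two_pos hI0).le
      (sinh_two_sq I) hcg hcg' hX (one_le_cc I) ha
    · intro hg
      refine ⟨h.gg_ge, ?_⟩
      have hR4 : π / 4 ≤ R := by
        by_contra hcon
        push Not at hcon
        have : 0 < gg R := by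
          unfold gg
          exact cos_pos_of_mem_Ioo ⟨by linarith, by linarith⟩
        linarith
      have h1 : ∑ j ∈ J, ‖T j‖ ≤ ∑ _j ∈ J, (1 : ℝ) :=
        Finset.sum_le_sum fun j hj => hone j hj (by linarith [hrj j hj])
      rw [Finset.sum_const, nsmul_eq_mul, mul_one] at h1
      linarith
    · intro hg hg2
      have hR7 : 0.7 ≤ R := by
        by_contra hcon
        push Not at hcon
        have h5 : sin (π / 2 - 2 * R) = gg R := by
          unfold gg
          exact sin_pi_div_two_sub _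
        have h6 : sin 0.17 ≤ sin (π / 2 - 2 * R) :=
          sin_le_sin_of_le_of_le_pi_div_two (by linarith) (by linarith) (by linarith)
        have h7 := sin_gt_sub_cube (x := 0.17) (by norm_num)
        norm_num at h7 h6
        linarith
      have hb : ∀ j ∈ J, ‖T j‖ ≤ 1.7321 := by
        intro j hj
        rw [← hTj]
        refine V3_norm (u := 1 / 2) (hpos j hj) (by norm_num) (by norm_num) ?_
          (by norm_num) (by norm_num)
        have h5 : cos (2 * π / 3) ≤ cos (2 * r j) :=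
          cos_le_cos_of_nonneg_of_le_pi (by linarith [hr0 j hj]) (by linarith)
            (by linarith [hrj j hj])
        have h6 : cos (2 * π / 3) = -(1 / 2) := by
          have : 2 * π / 3 = π - π / 3 := by ring
          rw [this, cos_pi_sub, cos_pi_div_three]
        linarith
      exact hsumB _ (by norm_num) hb (by linarith) hone
    · intro hg hg2
      have hR7 : 0.63 ≤ R := by
        by_contra hcon
        push Not at hcon
        have h5 : sin (π / 2 - 2 * R) = gg R := by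
          unfold gg
          exact sin_pi_div_two_sub _
        have h6 : sin 0.31 ≤ sin (π / 2 - 2 * R) :=
          sin_le_sin_of_le_of_le_pi_div_two (by linarith) (by linarith) (by linarith)
        have h7 := sin_gt_sub_cube (x := 0.31) (by norm_num)
        norm_num at h7 h6 hg2
        linarith
      have hb : ∀ j ∈ J, ‖T j‖ ≤ 3.09 := by
        intro j hj
        rw [← hTj]
        refine V3_norm (u := 0.81) (hpos j hj) (by norm_num) (by norm_num) ?_
          (by norm_num) (by norm_num)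
        have h5 : cos (π - 2 * r j) ≤ cos 0.638 :=
          cos_le_cos_of_nonneg_of_le_pi (by norm_num) (by linarith [hr0 j hj])
            (by linarith [hrj j hj])
        rw [cos_pi_sub] at h5
        have h6 := cos_bound (x := 0.638) (by norm_num [abs_le])
        have h7 := (abs_le.1 h6).2
        have h8 : |(0.638 : ℝ)| = 0.638 := abs_of_pos (by norm_num)
        rw [h8] at h7
        norm_num at h7 h5 ⊢
        linarith
      exact hsumB _ (by norm_num) hb (by linarith) hone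
  have hs2 : (cc I - gg R) / 2 * (∑ j ∈ J, ‖T j‖) * √2 ≤
      (cc I - gg R) / 2 * (∑ j ∈ J, ‖T j‖ + w * ‖U‖) * √2 := by
    apply mul_le_mul_of_nonneg_right _ (sqrt_nonneg 2)
    apply mul_le_mul_of_nonneg_left (by linarith)
    have := s2_pos (I := I) hR0 hR1
    unfold s2 at this
    exact this.le
  unfold s2
  linarith


end Pool.Agent.MX.E
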