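import Pool.Agent.MX.E.Pt
import Pool.Agent.MX.E.Der

/-!
# Project MX, block E: the row dominance of the vertices with a neighbour of the same sign

`Ev b y = b / (κ v) = M conj v / (|κ|² |v|²)`, `κ = cos y`, `M = b conj κ`, `v² = 1 + (b² - 1) sin² y`.
With `v = p + i q`: `p² - q² = D₁ ≥ 12/25`, `2 p q = D₂`, `|D₂| ≤ D₁`, hence `|q| ≤ p / 2`, and
`|Im M| ≤ (4/5) Re M`; so `Re Ev > 0`.
-/

namespace Pool.Agent.MX.E

open Complex Pool.Agent.S3.E

/-- The coefficients of the slots. -/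
structure SlB (b : ℂ) : Prop where
  n : b.re ^ 2 + b.im ^ 2 ≤ 1.1236
  c : (4 / 5 ≤ b.re ∧ b.im ≤ 0 ∧ -b.im ≤ b.re / 5) ∨ (0 < b.re ∧ 0 ≤ b.im ∧ 2 * b.im ≤ b.re)

theorem SlB.one : SlB 1 := by
  refine ⟨?_, Or.inl ⟨?_, ?_, ?_⟩⟩
  · rw [one_re, one_im]; norm_num
  · rw [one_re]; norm_num
  · rw [one_im]
  · rw [one_re, one_im]; norm_num

/-- The number `Re v² ≥ 12/25` and `|Im v²| ≤ Re v²`, same sign. -/
private theorem numS {b1 b2 s1 s2 : ℝ} (h1 : 4 / 5 ≤ b1) (h2 : 0 ≤ b2) (h3 : b2 ≤ b1 / 5)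
    (hb : b1 ^ 2 + b2 ^ 2 ≤ 1.1236) (l1 : -(174 / 1000) ≤ s1) (u1 : s1 ≤ 36 / 100)
    (l2 : 0 < s2) (u2 : s2 ≤ 44 / 100) :
    12 / 25 ≤ 1 + (b1 ^ 2 - b2 ^ 2 - 1) * s1 + 2 * b1 * b2 * s2 ∧
      |(b1 ^ 2 - b2 ^ 2 - 1) * s2 - 2 * b1 * b2 * s1| ≤
        1 + (b1 ^ 2 - b2 ^ 2 - 1) * s1 + 2 * b1 * b2 * s2 := by
  have hB : 0 ≤ 2 * b1 * b2 := by positivity
  have hB2 : 2 * b1 * b2 ≤ 0.4323 := by nlinarith
  have hB1 : 0.6144 ≤ b1 ^ 2 - b2 ^ 2 := by nlinarith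
  have hB1' : b1 ^ 2 - b2 ^ 2 ≤ 1.1236 := by nlinarith [sq_nonneg b2]
  obtain ⟨B, hBe⟩ : ∃ B : ℝ, B = b1 ^ 2 - b2 ^ 2 - 1 := ⟨_, rfl⟩
  obtain ⟨C, hCe⟩ : ∃ C : ℝ, C = 2 * b1 * b2 := ⟨_, rfl⟩
  rw [← hBe, ← hCe]
  rw [← hCe] at hB hB2
  have hBl : -0.3856 ≤ B := by rw [hBe]; norm_num at hB1 ⊢; linarith
  have hBu : B ≤ 0.1236 := by rw [hBe]; norm_num at hB1' ⊢; linarith
  -- products
  have p1 : -0.1389 ≤ B * s1 := by
    rcases le_total 0 s1 with h0 | h0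
    · have := mul_nonneg (sub_nonneg.2 hBl) h0
      norm_num at this ⊢
      nlinarith
    · have := mul_nonneg (sub_nonneg.2 hBu) (neg_nonneg.2 h0)
      norm_num at this ⊢
      nlinarith
  have p2 : 0 ≤ C * s2 := mul_nonneg hB l2.le
  have p3 : -0.1697 ≤ B * s2 := by
    have := mul_nonneg (sub_nonneg.2 hBl) l2.le
    norm_num at this ⊢
    nlinarith
  have p4 : B * s2 ≤ 0.0544 := by
    have := mul_nonneg (sub_nonneg.2 hBu) l2.le
    norm_num at this ⊢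
    nlinarith
  have p5 : -0.0753 ≤ C * s1 := by
    have := mul_nonneg hB (by linarith : (0 : ℝ) ≤ s1 + 174 / 1000)
    norm_num at this hB2 ⊢
    nlinarith
  have p6 : C * s1 ≤ 0.1557 := by
    have := mul_nonneg hB (by linarith : (0 : ℝ) ≤ 36 / 100 - s1)
    norm_num at this hB2 ⊢
    nlinarith
  norm_num at p1 p3 p4 p5 p6
  refine ⟨by linarith, ?_⟩
  rw [abs_le]
  constructor <;> linarith

/-- The number `Re v² ≥ 12/25` and `|Im v²| ≤ Re v²`, opposite signs. -/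
private theorem numO {b1 b2 s1 s2 : ℝ} (h1 : 0 < b1) (h2 : 0 ≤ b2) (h3 : 2 * b2 ≤ b1)
    (hb : b1 ^ 2 + b2 ^ 2 ≤ 1.1236) (l1 : -(174 / 1000) ≤ s1) (u1 : s1 ≤ 36 / 100)
    (l2 : 0 < s2) (u2 : s2 ≤ 44 / 100) :
    12 / 25 ≤ 1 + (b1 ^ 2 - b2 ^ 2 - 1) * s1 - 2 * b1 * b2 * s2 ∧
      |(b1 ^ 2 - b2 ^ 2 - 1) * s2 + 2 * b1 * b2 * s1| ≤
        1 + (b1 ^ 2 - b2 ^ 2 - 1) * s1 - 2 * b1 * b2 * s2 := by
  have hB : 0 ≤ 2 * b1 * b2 := by positivity
  have hB2 : 2 * b1 * b2 ≤ 0.9 := by nlinarith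
  have hB1 : 3 / 4 * (2 * b1 * b2) ≤ b1 ^ 2 - b2 ^ 2 := by nlinarith
  have hB1' : b1 ^ 2 - b2 ^ 2 ≤ 1.1236 := by nlinarith [sq_nonneg b2]
  obtain ⟨B, hBe⟩ : ∃ B : ℝ, B = b1 ^ 2 - b2 ^ 2 := ⟨_, rfl⟩
  obtain ⟨C, hCe⟩ : ∃ C : ℝ, C = 2 * b1 * b2 := ⟨_, rfl⟩
  rw [← hBe, ← hCe]
  rw [← hCe] at hB hB2 hB1
  rw [← hBe] at hB1 hB1'
  norm_num at hB2 hB1'
  -- the two linear functions of `B`, at the ends
  have e1 : ∀ t : ℝ, -(174 / 1000) ≤ t → (B - 1) * t ≥ -(1 - 3 / 4 * C) * max t 0 - 3 / 125 := by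
    intro t ht
    rcases le_total 0 t with h0 | h0
    · rw [max_eq_left h0]
      have := mul_nonneg (sub_nonneg.2 hB1) h0
      nlinarith
    · rw [max_eq_right h0]
      have k1 := mul_nonneg (by linarith : (0 : ℝ) ≤ 309 / 2500 - (B - 1)) (neg_nonneg.2 h0)
      nlinarith
  have hC1 : 0 ≤ 1 - 3 / 4 * C := by linarith
  have k1 := e1 s1 l1
  have q2 : C * s2 ≤ C * (44 / 100) := mul_le_mul_of_nonneg_left u2 hB
  have m1 : max s1 0 ≤ 36 / 100 := max_le u1 (by norm_num)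
  have hD : 12 / 25 ≤ 1 + (B - 1) * s1 - C * s2 := by
    rcases le_total 0 s1 with h0 | h0
    · have h4 := mul_nonneg (sub_nonneg.2 hB1) h0
      have h5 := mul_nonneg hC1 (sub_nonneg.2 u1)
      nlinarith
    · have h4 := mul_nonneg (by linarith : (0 : ℝ) ≤ 309 / 2500 - (B - 1)) (neg_nonneg.2 h0)
      nlinarith
  refine ⟨hD, ?_⟩
  rw [abs_le]
  constructor
  · -- `D1 + D2 ≥ 0`
    have hC2 := mul_nonneg hB (by linarith : (0 : ℝ) ≤ s1 + 174 / 1000)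
    rcases le_total 0 (s1 + s2) with h0 | h0
    · have h4 := mul_nonneg (sub_nonneg.2 hB1) h0
      have h5 := mul_nonneg hB h0
      nlinarith
    · have h4 := mul_nonneg (by linarith : (0 : ℝ) ≤ 309 / 2500 - (B - 1)) (neg_nonneg.2 h0)
      nlinarith
  · -- `D1 - D2 ≥ 0`
    rcases le_total s2 s1 with h0 | h0
    · have h4 := mul_nonneg (sub_nonneg.2 hB1) (sub_nonneg.2 h0)
      have h5 := mul_nonneg hB (sub_nonneg.2 u1)
      nlinarith
    · have h4 := mul_nonneg (by linarith : (0 : ℝ) ≤ 309 / 2500 - (B - 1)) (sub_nonneg.2 h0)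
      have h5 := mul_nonneg hB (sub_nonneg.2 u1)
      nlinarith

private theorem re_div_pos {m n : ℂ} (hn : n ≠ 0) (h : 0 < (m * (starRingEnd ℂ) n).re) :
    0 < (m / n).re := by
  have h1 : m / n = (m * (starRingEnd ℂ) n) * (((normSq n)⁻¹ : ℝ) : ℂ) := by
    rw [div_eq_mul_inv, Complex.inv_def]
    push_cast
    ring
  rw [h1, mul_re, ofReal_re, ofReal_im, mul_zero, sub_zero]
  exact mul_pos h (inv_pos.2 (normSq_pos.2 hn))

/-- The parts of `v`. -/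
private theorem v_parts {b y : ℂ} (hn : Nm y.re y.im) (hw : 0 < (b * tan y).re)
    (hr : -(b * tan y).re ≤ (b * tan y).im) :
    ∃ s1 s2 : ℝ, -(174 / 1000) ≤ s1 ∧ s1 ≤ 36 / 100 ∧ 0 < s2 ∧ s2 ≤ 44 / 100 ∧
      0 < (cos y * cosh (asr (b * tan y))).re ∧
      (cos y * cosh (asr (b * tan y))).re ^ 2 - (cos y * cosh (asr (b * tan y))).im ^ 2 =
        1 + (b.re ^ 2 - b.im ^ 2 - 1) * s1 - 2 * b.re * b.im * s2 ∧
      2 * (cos y * cosh (asr (b * tan y))).re * (cos y * cosh (asr (b * tan y))).im =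
        (b.re ^ 2 - b.im ^ 2 - 1) * s2 + 2 * b.re * b.im * s1 := by
  have hv := v_re_pos hn.R0 hn.lt hn.I0 hw hr hn.sc
  have hv2 := v_sq (b := b) hn.cos_ne hw.le
  obtain ⟨s1, h1⟩ : ∃ s1 : ℝ, s1 = Real.sin y.re ^ 2 - Real.sinh y.im ^ 2 +
    2 * Real.sin y.re ^ 2 * Real.sinh y.im ^ 2 := ⟨_, rfl⟩
  obtain ⟨s2, h2⟩ : ∃ s2 : ℝ, s2 = 2 * Real.sin y.re * Real.cos y.re * Real.cosh y.im *
    Real.sinh y.im := ⟨_, rfl⟩
  obtain ⟨l1, u1⟩ := hn.s1_bd h1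
  obtain ⟨l2, u2⟩ := hn.s2_bd h2
  refine ⟨s1, s2, l1, u1, l2, u2, hv, ?_⟩
  set v := cos y * cosh (asr (b * tan y)) with hvdef
  have hC := Real.cosh_sq y.im
  have hS := Real.sin_sq_add_cos_sq y.re
  have hs2 : sin y ^ 2 = (s1 : ℂ) + (s2 : ℂ) * I := by
    apply Complex.ext
    · rw [sq, mul_re, sin_re', sin_im', add_re, ofReal_re, mul_re, ofReal_re, ofReal_im, I_re, I_im,
        h1]
      have : Real.sin y.re * Real.cosh y.im * (Real.sin y.re * Real.cosh y.im) -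
        Real.cos y.re * Real.sinh y.im * (Real.cos y.re * Real.sinh y.im) =
        Real.sin y.re ^ 2 * Real.cosh y.im ^ 2 - Real.cos y.re ^ 2 * Real.sinh y.im ^ 2 := by ring
      rw [this, hC, show Real.cos y.re ^ 2 = 1 - Real.sin y.re ^ 2 by linarith]
      ring
    · rw [sq, mul_im, sin_re', sin_im', add_im, ofReal_im, mul_im, ofReal_re, ofReal_im, I_re, I_im,
        h2]
      ring
  have hc2 : cos y ^ 2 = 1 - sin y ^ 2 := by
    have := sin_sq_add_cos_sq y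
    rw [← this]; ring
  have hb2 : b ^ 2 = ((b.re ^ 2 - b.im ^ 2 : ℝ) : ℂ) + ((2 * b.re * b.im : ℝ) : ℂ) * I := by
    apply Complex.ext
    · rw [sq, mul_re, add_re, ofReal_re, mul_re, ofReal_re, ofReal_im, I_re, I_im]
      ring
    · rw [sq, mul_im, add_im, ofReal_im, mul_im, ofReal_re, ofReal_im, I_re, I_im]
      ring
  obtain ⟨B1, hB1⟩ : ∃ B1 : ℝ, B1 = b.re ^ 2 - b.im ^ 2 := ⟨_, rfl⟩
  obtain ⟨B2, hB2⟩ : ∃ B2 : ℝ, B2 = 2 * b.re * b.im := ⟨_, rfl⟩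
  rw [← hB1, ← hB2] at hb2 ⊢
  rw [hc2, hs2, hb2] at hv2
  have r1 := congrArg re hv2
  have r2 := congrArg im hv2
  rw [sq, mul_re] at r1
  rw [sq, mul_im] at r2
  simp at r1 r2
  constructor <;> linarith

private theorem half_le {p q D1 D2 : ℝ} (hp : 0 < p) (h1 : p ^ 2 - q ^ 2 = D1)
    (h2 : 2 * p * q = D2) (h : |D2| ≤ D1) : |q| ≤ p / 2 := by
  rw [← h2, ← h1, abs_mul, abs_of_pos (by linarith : (0 : ℝ) < 2 * p)] at h
  have h3 : 2 * p * |q| ≤ p * p := by nlinarith [sq_nonneg q]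
  have h4 : p * (2 * |q|) ≤ p * p := by linarith
  have := le_of_mul_le_mul_left h4 hp
  linarith

private theorem seven {E : ℂ} (h1 : 0 < E.re) (h2 : 0 < E.im + E.re / 4) :
    7 / 10 * ‖E‖ ≤ E.re + E.im := by
  have h3 : ‖E‖ ^ 2 = E.re ^ 2 + E.im ^ 2 := by
    rw [Complex.sq_norm, normSq_apply]
    ring
  have h4 : 0 < E.re + E.im := by linarith
  have h5 : (7 / 10 * ‖E‖) ^ 2 ≤ (E.re + E.im) ^ 2 := by
    rw [mul_pow, h3]
    rcases le_total 0 E.im with h0 | h0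
    · have := mul_nonneg h1.le h0
      nlinarith [sq_nonneg E.re, sq_nonneg E.im]
    · nlinarith [sq_nonneg E.im, mul_nonneg h1.le h2.le]
  exact abs_le_of_sq_le_sq' h5 h4.le |>.2

/-- **The derivative of a slot in the disc.** -/
theorem EvB {b y : ℂ} (hn : Nm y.re y.im) (hb : SlB b) (hw : 0 < (b * tan y).re) :
    ‖Ev b y‖ ≤ 2 ∧ 0 < (Ev b y).re ∧ 7 / 10 * ‖Ev b y‖ ≤ (Ev b y).re + (Ev b y).im := by
  have hT1 := hn.tan_re
  have hT2 := hn.tan_im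
  have hr : -(b * tan y).re ≤ (b * tan y).im := by
    rw [mul_re, mul_im]
    rcases hb.c with ⟨c1, c2, c3⟩ | ⟨c1, c2, c3⟩
    · have := mul_nonneg (by linarith : (0 : ℝ) ≤ b.re + b.im) hT1.le
      have := mul_nonneg (by linarith : (0 : ℝ) ≤ b.re - b.im) hT2.le
      linarith
    · have := mul_nonneg (by linarith : (0 : ℝ) ≤ b.re + b.im) hT1.le
      have := mul_nonneg (by linarith : (0 : ℝ) ≤ b.re - b.im) hT2.le
      linarith
  obtain ⟨s1, s2, l1, u1, l2, u2, hp, hD1, hD2⟩ := v_parts hn hw hr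
  have hEv := Ev_eq (b := b) (y := y)
  set v := cos y * cosh (asr (b * tan y)) with hvdef
  obtain ⟨c, hc⟩ : ∃ c : ℝ, Real.cos y.re * Real.cosh y.im = c := ⟨_, rfl⟩
  obtain ⟨s, hs⟩ : ∃ s : ℝ, Real.sin y.re * Real.sinh y.im = s := ⟨_, rfl⟩
  have hc0 : 0 < c := by
    rw [← hc]; exact mul_pos (lt_of_lt_of_le (by norm_num) hn.c0) (Real.cosh_pos _)
  have hs0 : 0 < s := by
    rw [← hs]; exact mul_pos hn.s0 hn.h0
  have hsc : 5 * s ≤ c := by rw [← hs, ← hc]; exact hn.t1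
  have hM1 : (b * (starRingEnd ℂ) (cos y)).re = b.re * c - b.im * s := by
    rw [mul_re, conj_re, conj_im, cos_re', cos_im', hc, hs]
    ring
  have hM2 : (b * (starRingEnd ℂ) (cos y)).im = b.re * s + b.im * c := by
    rw [mul_im, conj_re, conj_im, cos_re', cos_im', hc, hs]
    ring
  obtain ⟨M1, eM1⟩ : ∃ M1 : ℝ, M1 = b.re * c - b.im * s := ⟨_, rfl⟩
  obtain ⟨M2, eM2⟩ : ∃ M2 : ℝ, M2 = b.re * s + b.im * c := ⟨_, rfl⟩
  rw [← eM1] at hM1
  rw [← eM2] at hM2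
  -- the two cases
  have hcase : 12 / 25 ≤ v.re ^ 2 - v.im ^ 2 ∧ |v.im| ≤ v.re / 2 ∧ 0 < M1 ∧
      |M2| ≤ 4 / 5 * M1 ∧ 0 < (Ev b y).im + (Ev b y).re / 4 := by
    rcases hb.c with ⟨c1, c2, c3⟩ | ⟨c1, c2, c3⟩
    · have hN := numS (b1 := b.re) (b2 := -b.im) c1 (by linarith) (by linarith)
        (by rw [neg_sq]; exact hb.n) l1 u1 l2 u2
      rw [neg_sq] at hN
      have e1 : 1 + (b.re ^ 2 - b.im ^ 2 - 1) * s1 + 2 * b.re * -b.im * s2 =
          v.re ^ 2 - v.im ^ 2 := by rw [hD1]; ring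
      have e2 : (b.re ^ 2 - b.im ^ 2 - 1) * s2 - 2 * b.re * -b.im * s1 =
          2 * v.re * v.im := by rw [hD2]; ring
      rw [e1, e2] at hN
      refine ⟨hN.1, half_le hp rfl rfl hN.2, ?_, ?_, ?_⟩
      · rw [eM1]
        have := mul_pos (by linarith : 0 < b.re) hc0
        have := mul_nonneg (by linarith : 0 ≤ -b.im) hs0.le
        linarith
      · rw [eM1, eM2, abs_le]
        have k1 := mul_pos (by linarith : 0 < b.re) hs0
        have k2 := mul_nonneg (by linarith : 0 ≤ -b.im) hs0.le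
        have k3 := mul_nonneg (by linarith : 0 ≤ b.re / 5 + b.im) hc0.le
        have k4 := mul_nonneg (by linarith : 0 ≤ b.re) (by linarith : 0 ≤ c - 5 * s)
        have k5 := mul_nonneg (by linarith : 0 ≤ -b.im) hc0.le
        have k6 := mul_pos (by linarith : 0 < b.re) hc0
        constructor <;> nlinarith
      · have h5 := (ptS hn c1 c2 c3 hb.n).2
        have e5 : ((1 + I / 4) * Ev b y).im = (Ev b y).im + (Ev b y).re / 4 := by
          rw [mul_im]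
          simp
          ring
        rw [e5] at h5
        exact h5
    · have hN := numO (b1 := b.re) (b2 := b.im) c1 c2 c3 hb.n l1 u1 l2 u2
      rw [← hD1, ← hD2] at hN
      refine ⟨hN.1, half_le hp rfl rfl hN.2, ?_, ?_, ?_⟩
      · rw [eM1]
        have k1 := mul_nonneg (by linarith : 0 ≤ b.re - 2 * b.im) hs0.le
        have k4 := mul_nonneg c1.le (by linarith : 0 ≤ c - 5 * s)
        have k6 := mul_pos c1 hc0
        nlinarith
      · rw [eM1, eM2, abs_le]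
        have k1 := mul_nonneg (by linarith : 0 ≤ b.re - 2 * b.im) hs0.le
        have k2 := mul_nonneg (by linarith : 0 ≤ b.re - 2 * b.im) hc0.le
        have k4 := mul_nonneg c1.le (by linarith : 0 ≤ c - 5 * s)
        have k5 := mul_nonneg c2 hc0.le
        have k6 := mul_pos c1 hc0
        have k7 := mul_pos c1 hs0
        constructor <;> nlinarith
      · have h5 := ptO hn c1 c2 (by
          have : b.re ≤ 1.04 * b.re * 2 := by norm_num; linarith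
          norm_num at this ⊢
          linarith) (hb.n.trans (by norm_num)) hw
        have h6 : 0 < (Ev b y).re := by
          have hne : v ≠ 0 := by
            intro h0
            rw [h0, zero_re] at hp
            exact lt_irrefl _ hp
          rw [hEv]
          apply re_div_pos (mul_ne_zero hn.cos_ne hne)
          have e2 : b * (starRingEnd ℂ) (cos y * v) =
              (b * (starRingEnd ℂ) (cos y)) * (starRingEnd ℂ) v := by
            rw [map_mul]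
            ring
          rw [e2, mul_re, conj_re, conj_im, hM1, hM2]
          have q1 := half_le hp rfl rfl hN.2
          have k1 := mul_nonneg (by linarith : 0 ≤ b.re - 2 * b.im) hs0.le
          have k4 := mul_nonneg c1.le (by linarith : 0 ≤ c - 5 * s)
          have k5 := mul_nonneg c2 hc0.le
          have k6 := mul_pos c1 hc0
          have k7 := mul_pos c1 hs0
          have k2 := mul_nonneg (by linarith : 0 ≤ b.re - 2 * b.im) hc0.le
          have hM1p : 0 < M1 := by rw [eM1]; nlinarith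
          have hM2p : 0 ≤ M2 := by rw [eM2]; linarith
          have hM2l : M2 ≤ 4 / 5 * M1 := by rw [eM1, eM2]; nlinarith
          have r1 := (abs_le.1 q1).1
          have r2 := mul_nonneg hM2p (by linarith : 0 ≤ v.im + v.re / 2)
          have r3 := mul_nonneg (sub_nonneg.2 hM2l) hp.le
          have r4 := mul_pos hM1p hp
          nlinarith
        linarith
  obtain ⟨g1, g2, g3, g4, g5⟩ := hcase
  have hne : v ≠ 0 := by
    intro h0
    rw [h0, zero_re] at hp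
    exact lt_irrefl _ hp
  have hre : 0 < (Ev b y).re := by
    rw [hEv]
    apply re_div_pos (mul_ne_zero hn.cos_ne hne)
    have e2 : b * (starRingEnd ℂ) (cos y * v) =
        (b * (starRingEnd ℂ) (cos y)) * (starRingEnd ℂ) v := by
      rw [map_mul]
      ring
    rw [e2, mul_re, conj_re, conj_im, hM1, hM2]
    have r1 : |M2 * v.im| ≤ 4 / 5 * M1 * (v.re / 2) := by
      rw [abs_mul]
      exact mul_le_mul g4 g2 (abs_nonneg _) (by positivity)
    have r2 := (abs_le.1 r1).1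
    have r3 := mul_pos g3 hp
    nlinarith
  refine ⟨?_, hre, seven hre g5⟩
  -- the norm
  have h1 : normSq (Ev b y) ≤ 4 := by
    rw [hEv, map_div₀, map_mul]
    have hk : 16 / 25 ≤ normSq (cos y) := by
      rw [normSq_cos]
      have := hn.c0
      nlinarith [sq_nonneg (Real.sinh y.im)]
    have hv : 12 / 25 ≤ normSq v := by
      rw [normSq_apply]
      nlinarith [sq_nonneg v.im]
    have hbn : normSq b ≤ 1.1236 := by
      rw [normSq_apply]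
      have := hb.n
      nlinarith
    have hkv : 16 / 25 * (12 / 25) ≤ normSq (cos y) * normSq v :=
      mul_le_mul hk hv (by norm_num) (by linarith)
    rw [div_le_iff₀ (by linarith)]
    norm_num at hbn hkv ⊢
    linarith
  have h2 : ‖Ev b y‖ ^ 2 ≤ 2 ^ 2 := by
    rw [Complex.sq_norm]
    norm_num
    exact h1
  exact abs_le_of_sq_le_sq' h2 (by norm_num) |>.2

private theorem two_le {x : ℂ} : (x.re - x.im) ^ 2 ≤ 2 * ‖x‖ ^ 2 := by
  rw [Complex.sq_norm, normSq_apply]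
  nlinarith [sq_nonneg (x.re + x.im)]

/-- **Row dominance at the vertices of the disc.** -/
theorem domB {ι : Type*} {z : ℂ} {a w : ℝ} {J : Finset ι} {b : ι → ℂ} (hn : Nm z.re z.im)
    (ha : 5 ≤ a) (hw : 0 ≤ w) (hc : 2 * ((J.card : ℝ) + w) ≤ 3 * a) (hb : ∀ j ∈ J, SlB (b j))
    (hre : ∀ j ∈ J, 0 < (b j * tan z).re) :
    ‖sin z‖ ^ 2 * ∑ j ∈ J, ‖Ev (b j) z‖ <
      ‖(a : ℂ) - I * (∑ j ∈ J, Ev (b j) z + (w : ℂ) * Ev 1 z)‖ := by
  obtain ⟨f1, _, f3⟩ := EvB hn SlB.one (by rw [one_mul]; exact hn.tan_re)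
  have hE : ∀ j ∈ J, ‖Ev (b j) z‖ ≤ 2 ∧ 0 < (Ev (b j) z).re ∧
      7 / 10 * ‖Ev (b j) z‖ ≤ (Ev (b j) z).re + (Ev (b j) z).im := fun j hj =>
    EvB hn (hb j hj) (hre j hj)
  obtain ⟨Y, hY⟩ : ∃ Y : ℝ, Y = ∑ j ∈ J, ‖Ev (b j) z‖ := ⟨_, rfl⟩
  obtain ⟨S, hS⟩ : ∃ S : ℂ, S = ∑ j ∈ J, Ev (b j) z + (w : ℂ) * Ev 1 z := ⟨_, rfl⟩
  rw [← hY, ← hS]
  have hY0 : 0 ≤ Y := by rw [hY]; exact Finset.sum_nonneg fun j _ => norm_nonneg _
  have hY2 : Y ≤ 2 * (J.card : ℝ) := by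
    rw [hY]
    calc ∑ j ∈ J, ‖Ev (b j) z‖ ≤ ∑ _j ∈ J, (2 : ℝ) := Finset.sum_le_sum fun j hj => (hE j hj).1
      _ = 2 * (J.card : ℝ) := by rw [Finset.sum_const, nsmul_eq_mul]; ring
  have hSre : S.re = ∑ j ∈ J, (Ev (b j) z).re + w * (Ev 1 z).re := by
    rw [hS, add_re, re_sum, mul_re, ofReal_re, ofReal_im, zero_mul, sub_zero]
  have hSim : S.im = ∑ j ∈ J, (Ev (b j) z).im + w * (Ev 1 z).im := by
    rw [hS, add_im, im_sum, mul_im, ofReal_re, ofReal_im, zero_mul, add_zero]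
  have hsum : 7 / 10 * (Y + w * ‖Ev 1 z‖) ≤ S.re + S.im := by
    rw [hSre, hSim, hY]
    have h1 : ∑ j ∈ J, 7 / 10 * ‖Ev (b j) z‖ ≤
        ∑ j ∈ J, ((Ev (b j) z).re + (Ev (b j) z).im) :=
      Finset.sum_le_sum fun j hj => (hE j hj).2.2
    rw [← Finset.mul_sum, Finset.sum_add_distrib] at h1
    have h2 := mul_le_mul_of_nonneg_left f3 hw
    linarith
  have hX0 : 0 ≤ w * ‖Ev 1 z‖ := mul_nonneg hw (norm_nonneg _)
  have hs : ‖sin z‖ ^ 2 ≤ 534 / 1000 := by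
    rw [Complex.sq_norm, normSq_apply, sin_re', sin_im']
    have h1 := Real.cosh_sq z.im
    have h2 := Real.sin_sq_add_cos_sq z.re
    have e : Real.sin z.re * Real.cosh z.im * (Real.sin z.re * Real.cosh z.im) +
        Real.cos z.re * Real.sinh z.im * (Real.cos z.re * Real.sinh z.im) =
        Real.sin z.re ^ 2 * Real.cosh z.im ^ 2 + Real.cos z.re ^ 2 * Real.sinh z.im ^ 2 := by ring
    rw [e, h1, show Real.cos z.re ^ 2 = 1 - Real.sin z.re ^ 2 by linarith]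
    have h3 := hn.s1
    have h4 := hn.h1
    have e2 : Real.sin z.re ^ 2 * (Real.sinh z.im ^ 2 + 1) +
        (1 - Real.sin z.re ^ 2) * Real.sinh z.im ^ 2 = Real.sin z.re ^ 2 + Real.sinh z.im ^ 2 := by
      ring
    rw [e2]
    linarith
  have hq := two_le (x := (a : ℂ) - I * S)
  have hre' : ((a : ℂ) - I * S).re = a + S.im := by
    rw [sub_re, ofReal_re, mul_re, I_re, I_im]
    ring
  have him' : ((a : ℂ) - I * S).im = -S.re := by
    rw [sub_im, ofReal_im, mul_im, I_re, I_im]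
    ring
  rw [hre', him'] at hq
  have hl : a + 7 / 10 * Y ≤ a + S.im - -S.re := by linarith
  have hYa : Y ≤ 3 * a := by linarith
  -- `(√2 * .534 Y)² < (a + .7 Y)²`
  have hfin : 2 * (534 / 1000 * Y) ^ 2 < (a + 7 / 10 * Y) ^ 2 := by
    nlinarith [mul_nonneg hY0 (sub_nonneg.2 hYa)]
  have hsq : (a + 7 / 10 * Y) ^ 2 ≤ (a + S.im - -S.re) ^ 2 :=
    pow_le_pow_left₀ (by positivity) hl 2
  have h5 : (534 / 1000 * Y) ^ 2 < ‖(a : ℂ) - I * S‖ ^ 2 := by linarith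
  have h6 : 534 / 1000 * Y < ‖(a : ℂ) - I * S‖ := lt_of_pow_lt_pow_left₀ 2 (norm_nonneg _) h5
  exact lt_of_le_of_lt (mul_le_mul_of_nonneg_right hs hY0) h6

/-- `τ |κ| ≤ |b|` -/
theorem norm_bs {ι : Type*} (σ : ι → Bool) {τ : ℝ} (h0 : 0 ≤ τ) (h1 : τ ≤ 1) {z : ι → ℂ} {j : ι}
    (hc : 0 < (cos (z j)).re) (i : ι) : τ * ‖cos (z j)‖ ≤ ‖bs σ τ z i j‖ := by
  obtain ⟨k, hk⟩ : ∃ k : ℂ, k = if σ i = σ j then cos (z j) else (starRingEnd ℂ) (cos (z j)) :=
    ⟨_, rfl⟩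
  have h2 : ‖k‖ = ‖cos (z j)‖ := by
    rw [hk]
    split_ifs
    · rfl
    · rw [norm_conj]
  have h3 : 0 < k.re := by
    rw [hk]
    split_ifs
    · exact hc
    · rw [conj_re]
      exact hc
  have h4 : bs σ τ z i j = 1 + (τ : ℂ) * (k - 1) := by
    unfold bs
    rw [hk]
  rw [← h2, h4]
  have h5 : (τ * ‖k‖) ^ 2 ≤ ‖1 + (τ : ℂ) * (k - 1)‖ ^ 2 := by
    rw [mul_pow, Complex.sq_norm, Complex.sq_norm, normSq_apply, normSq_apply]
    have e1 : (1 + (τ : ℂ) * (k - 1)).re = (1 - τ) + τ * k.re := by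
      simp
      ring
    have e2 : (1 + (τ : ℂ) * (k - 1)).im = τ * k.im := by
      simp
    rw [e1, e2]
    have h6 := mul_nonneg (mul_nonneg (sub_nonneg.2 h1) h0) h3.le
    nlinarith [sq_nonneg (1 - τ)]
  exact abs_le_of_sq_le_sq' h5 (norm_nonneg _) |>.2

theorem norm_lam {ι : Type*} (σ : ι → Bool) {τ : ℝ} (h0 : 0 ≤ τ) (h1 : τ ≤ 1) {z v : ι → ℂ}
    {j : ι} (hc : 0 < (cos (z j)).re) (i : ι) :
    ‖lam σ τ z v i j‖ ≤ ‖bs σ τ z i j‖ * ‖tan (z j) * v j‖ := by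
  have hne : cos (z j) ≠ 0 := by
    intro h
    rw [h, zero_re] at hc
    exact lt_irrefl _ hc
  have h2 : ‖lam σ τ z v i j‖ = τ * ‖sin (z j) * v j‖ := by
    unfold lam
    rw [norm_mul, norm_real, Real.norm_eq_abs, abs_of_nonneg h0]
    split_ifs
    · rw [norm_neg]
    · rw [norm_conj, norm_neg]
  have h3 : sin (z j) * v j = cos (z j) * (tan (z j) * v j) := by
    rw [tan_eq_sin_div_cos]
    field_simp
  rw [h2, h3, norm_mul, ← mul_assoc]
  exact mul_le_mul_of_nonneg_right (norm_bs σ h0 h1 hc i) (norm_nonneg _)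

/-- **The derivative is injective.** -/
theorem inj {ι : Type*} [Finite ι] {a w : ι → ℝ} {N : ι → Finset ι} {σ : ι → Bool} {τ : ℝ}
    {z : ι → ℂ} (h0 : 0 ≤ τ) (h1 : τ ≤ 1) (hc : ∀ j, 0 < (cos (z j)).re)
    (hs : ∀ j, sin (z j) ≠ 0) (hre : ∀ i, ∀ j ∈ N i, 0 < (bs σ τ z i j * tan (z i)).re)
    (dom : ∀ i, ‖sin (z i)‖ ^ 2 * ∑ j ∈ N i, ‖Ev (bs σ τ z i j) (z i)‖ <
      ‖(a i : ℂ) - I * (∑ j ∈ N i, Ev (bs σ τ z i j) (z i) + (w i : ℂ) * Ev 1 (z i))‖)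
    (v : ι → ℂ)
    (hv : ∀ i, (a i : ℂ) * v i - I * (∑ j ∈ N i,
      (tan (z i) * lam σ τ z v i j + bs σ τ z i j * (v i / cos (z i) ^ 2)) /
        cosh (asr (bs σ τ z i j * tan (z i))) +
      (w i : ℂ) * (v i / cos (z i) ^ 2 / cosh (asr (tan (z i))))) = 0) : v = 0 := by
  by_contra hv0
  obtain ⟨k, hk⟩ : ∃ k, v k ≠ 0 := by
    by_contra hn
    push Not at hn
    exact hv0 (funext hn)
  have hcn : ∀ j, cos (z j) ≠ 0 := by
    intro j h
    have := hc j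
    rw [h, zero_re] at this
    exact lt_irrefl _ this
  have htn : ∀ j, tan (z j) ≠ 0 := by
    intro j
    rw [tan_eq_sin_div_cos]
    exact div_ne_zero (hs j) (hcn j)
  have : Nonempty ι := ⟨k⟩
  obtain ⟨m, hm⟩ := Finite.exists_max (fun j => ‖tan (z j) * v j‖)
  have hmpos : 0 < ‖tan (z m) * v m‖ :=
    lt_of_lt_of_le (norm_pos_iff.2 (mul_ne_zero (htn k) hk)) (hm k)
  have hvm : v m ≠ 0 := by
    intro h
    rw [h, mul_zero, norm_zero] at hmpos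
    exact lt_irrefl _ hmpos
  -- the equation at `m`
  have e1 : ∀ j ∈ N m, (tan (z m) * lam σ τ z v m j + bs σ τ z m j * (v m / cos (z m) ^ 2)) /
      cosh (asr (bs σ τ z m j * tan (z m))) =
      v m * Ev (bs σ τ z m j) (z m) +
        tan (z m) * lam σ τ z v m j / cosh (asr (bs σ τ z m j * tan (z m))) := by
    intro j _
    unfold Ev
    rw [add_div, div_eq_mul_inv (bs σ τ z m j) (cos (z m) ^ 2 * _), mul_inv]
    ring
  have e2 : v m / cos (z m) ^ 2 / cosh (asr (tan (z m))) = v m * Ev 1 (z m) := by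
    unfold Ev
    rw [one_mul, one_div, mul_inv]
    ring
  have e3 := hv m
  rw [Finset.sum_congr rfl e1, e2, Finset.sum_add_distrib, ← Finset.mul_sum] at e3
  have e4 : v m * ((a m : ℂ) - I * (∑ j ∈ N m, Ev (bs σ τ z m j) (z m) +
      (w m : ℂ) * Ev 1 (z m))) =
      I * ∑ j ∈ N m, tan (z m) * lam σ τ z v m j / cosh (asr (bs σ τ z m j * tan (z m))) := by
    have e5 : ∀ A S T W : ℂ, A * v m - I * (v m * S + T + W * (v m * Ev 1 (z m))) = 0 →
        v m * (A - I * (S + W * Ev 1 (z m))) = I * T := by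
      intro A S T W h
      linear_combination h
    exact e5 _ _ _ _ e3
  have e6 : ‖v m‖ * ‖(a m : ℂ) - I * (∑ j ∈ N m, Ev (bs σ τ z m j) (z m) +
      (w m : ℂ) * Ev 1 (z m))‖ ≤
      ∑ j ∈ N m, ‖tan (z m) * lam σ τ z v m j / cosh (asr (bs σ τ z m j * tan (z m)))‖ := by
    rw [← norm_mul, e4, norm_mul, norm_I, one_mul]
    exact norm_sum_le _ _
  have e7 : ∀ j ∈ N m, ‖tan (z m) * lam σ τ z v m j /
      cosh (asr (bs σ τ z m j * tan (z m)))‖ ≤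
      ‖sin (z m)‖ ^ 2 * ‖v m‖ * ‖Ev (bs σ τ z m j) (z m)‖ := by
    intro j hj
    have hbn : bs σ τ z m j ≠ 0 := by
      intro h
      have := hre m j hj
      rw [h, zero_mul, zero_re] at this
      exact lt_irrefl _ this
    have hq := cosh_asr_ne (hre m j hj)
    have f1 : tan (z m) * lam σ τ z v m j / cosh (asr (bs σ τ z m j * tan (z m))) =
        sin (z m) * cos (z m) * Ev (bs σ τ z m j) (z m) *
          (lam σ τ z v m j / bs σ τ z m j) := by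
      unfold Ev
      generalize cosh (asr (bs σ τ z m j * tan (z m))) = q at hq ⊢
      rw [tan_eq_sin_div_cos]
      have := hcn m
      field_simp
    have f2 : ‖lam σ τ z v m j / bs σ τ z m j‖ ≤ ‖tan (z m) * v m‖ := by
      rw [norm_div, div_le_iff₀ (norm_pos_iff.2 hbn), mul_comm]
      exact (norm_lam σ h0 h1 (hc j) m).trans
        (mul_le_mul_of_nonneg_left (hm j) (norm_nonneg _))
    have f3 : ‖sin (z m)‖ * ‖cos (z m)‖ * ‖tan (z m) * v m‖ = ‖sin (z m)‖ ^ 2 * ‖v m‖ := by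
      rw [tan_eq_sin_div_cos, norm_mul, norm_div]
      have := norm_pos_iff.2 (hcn m)
      field_simp
    rw [f1, norm_mul, norm_mul, norm_mul]
    calc ‖sin (z m)‖ * ‖cos (z m)‖ * ‖Ev (bs σ τ z m j) (z m)‖ *
          ‖lam σ τ z v m j / bs σ τ z m j‖ ≤
        ‖sin (z m)‖ * ‖cos (z m)‖ * ‖Ev (bs σ τ z m j) (z m)‖ * ‖tan (z m) * v m‖ :=
          mul_le_mul_of_nonneg_left f2 (by positivity)
      _ = ‖sin (z m)‖ * ‖cos (z m)‖ * ‖tan (z m) * v m‖ * ‖Ev (bs σ τ z m j) (z m)‖ := by ring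
      _ = ‖sin (z m)‖ ^ 2 * ‖v m‖ * ‖Ev (bs σ τ z m j) (z m)‖ := by rw [f3]
  have e8 := e6.trans (Finset.sum_le_sum e7)
  rw [← Finset.mul_sum] at e8
  have e9 := mul_lt_mul_of_pos_left (dom m) (norm_pos_iff.2 hvm)
  nlinarith

end Pool.Agent.MX.E
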