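import Pool.Agent.MX.E.Asr
import Pool.Agent.S3.E.Geo

/-!
# Project MX, block E: the decoupled vertices (`b = 1`, total weight `k`)
-/

namespace Pool.Agent.MX.E

open Complex
open Pool.Agent.S3.E hiding bo ro be KK

variable {ι : Type*}

/-- The point `z` with `cos z.re = cos θ/N`, `sinh z.im = sin θ/N`. -/
theorem start_aux {x θ : ℝ} (hx : 0 < x) (hθ : 0 < θ) (hθ' : θ < Real.pi / 2) :
    ∃ z : ℂ, z.re = Real.arccos (Real.cos θ / √(Real.sinh x ^ 2 + Real.cos θ ^ 2)) ∧
      0 < z.re ∧ z.re < Real.pi / 2 ∧ 0 < z.im ∧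
      Real.tan z.re = Real.sinh x / Real.cos θ ∧ Real.tanh z.im = Real.sin θ / Real.cosh x ∧
      tan z = sinh ((x : ℂ) + (θ : ℂ) * I) ∧
      (cos z).re = Real.cos θ * Real.cosh x / (Real.sinh x ^ 2 + Real.cos θ ^ 2) ∧
      (cos z).im = -(Real.sinh x * Real.sin θ / (Real.sinh x ^ 2 + Real.cos θ ^ 2)) := by
  have hs : 0 < Real.sinh x := Real.sinh_pos_iff.2 hx
  have hc : 0 < Real.cos θ := Real.cos_pos_of_mem_Ioo ⟨by linarith only [hθ', hθ], hθ'⟩
  have hsn : 0 < Real.sin θ := Real.sin_pos_of_pos_of_lt_pi hθ (by linarith only [hθ', hθ])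
  have hch : 0 < Real.cosh x := Real.cosh_pos x
  have hN2 : 0 < Real.sinh x ^ 2 + Real.cos θ ^ 2 := by positivity
  set N : ℝ := √(Real.sinh x ^ 2 + Real.cos θ ^ 2) with hN
  have hNp : 0 < N := Real.sqrt_pos.2 hN2
  have hNs : N ^ 2 = Real.sinh x ^ 2 + Real.cos θ ^ 2 := Real.sq_sqrt hN2.le
  have hNc : N ^ 2 = Real.cosh x ^ 2 - Real.sin θ ^ 2 := by
    have h1 := Real.cosh_sq x
    have h2 := Real.sin_sq_add_cos_sq θ
    linarith only [h2, h1, hNs]
  have hlt : Real.cos θ / N < 1 := by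
    rw [div_lt_one hNp]
    refine lt_of_pow_lt_pow_left₀ 2 hNp.le ?_
    rw [hNs]
    have : 0 < Real.sinh x ^ 2 := by positivity
    linarith only [this]
  have hpos : 0 < Real.cos θ / N := by positivity
  set R : ℝ := Real.arccos (Real.cos θ / N) with hR
  set J : ℝ := Real.arsinh (Real.sin θ / N) with hJ
  have hcR : Real.cos R = Real.cos θ / N := Real.cos_arccos (by linarith only [hpos]) hlt.le
  have hR0 : 0 < R := Real.arccos_pos.2 hlt
  have hR1 : R < Real.pi / 2 := Real.arccos_lt_pi_div_two.2 hpos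
  have hsR : Real.sin R = Real.sinh x / N := by
    have h0 : 0 ≤ Real.sin R := Real.sin_nonneg_of_nonneg_of_le_pi hR0.le (by linarith only [hR1,
                                                                                hθ', hθ])
    have h1 : Real.sin R ^ 2 = (Real.sinh x / N) ^ 2 := by
      have := Real.sin_sq_add_cos_sq R
      rw [hcR] at this
      have h2 : (Real.sinh x / N) ^ 2 + (Real.cos θ / N) ^ 2 = 1 := by
        rw [div_pow, div_pow, ← add_div, hNs]
        exact div_self hN2.ne'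
      linarith only [h2, this]
    exact (pow_left_inj₀ h0 (by positivity) two_ne_zero).1 h1
  have hsJ : Real.sinh J = Real.sin θ / N := Real.sinh_arsinh _
  have hcJ : Real.cosh J = Real.cosh x / N := by
    have h1 : Real.cosh J ^ 2 = (Real.cosh x / N) ^ 2 := by
      rw [Real.cosh_sq, hsJ, div_pow, div_pow]
      have : Real.cosh x ^ 2 = N ^ 2 + Real.sin θ ^ 2 := by linarith only [hNc]
      rw [this, add_div, div_self (by positivity : N ^ 2 ≠ 0)]
      ring
    exact (pow_left_inj₀ (Real.cosh_pos _).le (by positivity) two_ne_zero).1 h1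
  have hJ0 : 0 < J := by
    rw [hJ]
    exact Real.arsinh_pos_iff.2 (by positivity)
  have hz : (⟨R, J⟩ : ℂ) = (R : ℂ) + (J : ℂ) * I := by
    apply Complex.ext <;> simp
  have hcz : cos ((R : ℂ) + (J : ℂ) * I) =
      (((Real.cos θ / N * (Real.cosh x / N) : ℝ)) : ℂ) -
        (((Real.sinh x / N * (Real.sin θ / N) : ℝ)) : ℂ) * I := by
    rw [cos_add_mul_I, ← ofReal_cos, ← ofReal_cosh, ← ofReal_sin, ← ofReal_sinh, hcR, hsR, hsJ,
      hcJ]
    push_cast
    ring
  refine ⟨⟨R, J⟩, rfl, hR0, hR1, hJ0, ?_, ?_, ?_, ?_, ?_⟩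
  · change Real.tan R = _
    rw [Real.tan_eq_sin_div_cos, hsR, hcR]
    field_simp
  · change Real.tanh J = _
    rw [Real.tanh_eq_sinh_div_cosh, hsJ, hcJ]
    field_simp
  · rw [hz]
    have hsz : sin ((R : ℂ) + (J : ℂ) * I) =
        (((Real.sinh x / N * (Real.cosh x / N) : ℝ)) : ℂ) +
          (((Real.cos θ / N * (Real.sin θ / N) : ℝ)) : ℂ) * I := by
      rw [sin_add_mul_I, ← ofReal_cos, ← ofReal_cosh, ← ofReal_sin, ← ofReal_sinh, hcR, hsR, hsJ,
        hcJ]
      push_cast
      ring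
    have hsh : sinh ((x : ℂ) + (θ : ℂ) * I) =
        (((Real.sinh x * Real.cos θ : ℝ)) : ℂ) + (((Real.cosh x * Real.sin θ : ℝ)) : ℂ) * I := by
      rw [sinh_add, cosh_mul_I, sinh_mul_I, ← ofReal_cos, ← ofReal_cosh, ← ofReal_sin,
        ← ofReal_sinh]
      push_cast
      ring
    have hne : cos ((R : ℂ) + (J : ℂ) * I) ≠ 0 := by
      rw [hcz]
      intro h
      have := congrArg Complex.re h
      simp at this
      rcases this with (h | h) | (h | h)
      · exact absurd h hc.ne'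
      · exact absurd h hNp.ne'
      · exact absurd h hch.ne'
      · exact absurd h hNp.ne'
    rw [tan_eq_sin_div_cos, div_eq_iff hne, hsh, hsz, hcz]
    have h1 := Real.cosh_sq x
    have h2 := Real.sin_sq_add_cos_sq θ
    have hN0 : N ≠ 0 := hNp.ne'
    apply Complex.ext
    · simp only [add_re, sub_re, mul_re, mul_im, add_im, sub_im, ofReal_re, ofReal_im, I_re, I_im,
        mul_zero, mul_one, add_zero, sub_zero, zero_add, zero_sub]
      field_simp
      linear_combination -h2
    · simp only [add_re, sub_re, mul_re, mul_im, add_im, sub_im, ofReal_re, ofReal_im, I_re, I_im,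
        mul_zero, mul_one, add_zero, sub_zero, zero_add, zero_sub]
      field_simp
      linear_combination -h1
  · rw [hz, hcz, ← hNs]
    simp only [sub_re, mul_re, ofReal_re, ofReal_im, I_re, I_im, mul_zero, mul_one, sub_zero,
      zero_mul]
    field_simp
  · rw [hz, hcz, ← hNs]
    simp only [sub_im, mul_im, ofReal_re, ofReal_im, I_re, I_im, mul_zero, mul_one, add_zero,
      zero_sub]
    field_simp

theorem start_tanh_pos {x : ℝ} (hx : 0 < x) : 0 < Real.tanh x := by
  rw [Real.tanh_eq_sinh_div_cosh]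
  exact div_pos (Real.sinh_pos_iff.2 hx) (Real.cosh_pos x)

theorem start_tanh_mono {x y : ℝ} (h : x ≤ y) : Real.tanh x ≤ Real.tanh y := by
  rw [Real.tanh_eq_sinh_div_cosh, Real.tanh_eq_sinh_div_cosh,
    div_le_div_iff₀ (Real.cosh_pos x) (Real.cosh_pos y)]
  have h1 : 0 ≤ Real.sinh (y - x) := Real.sinh_nonneg_iff.2 (by linarith only [h])
  rw [Real.sinh_sub] at h1
  linarith only [h1]

theorem start_tanh_half : 1 < Real.cosh 3 * Real.tanh (1 / 2) := by
  have h1 : (5 : ℝ) ≤ Real.cosh 3 := by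
    have h2 : Real.cosh 3 = 1 + 2 * Real.sinh (3 / 2) ^ 2 := by
      have := Real.cosh_two_mul (3 / 2)
      rw [show (2 : ℝ) * (3 / 2) = 3 by norm_num] at this
      have h2 := Real.cosh_sq (3 / 2)
      linarith only [h2, this]
    have h3 : (3 / 2 : ℝ) ≤ Real.sinh (3 / 2) := Real.self_le_sinh_iff.2 (by norm_num)
    linarith only [h3, h2, mul_nonneg (sub_nonneg.2 h3) (sub_nonneg.2 h3)]
  have hs : (1 / 2 : ℝ) ≤ Real.sinh (1 / 2) := Real.self_le_sinh_iff.2 (by norm_num)
  have hc : Real.cosh (1 / 2) ≤ 2 := by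
    have h2 : Real.cosh (1 / 2) ≤ Real.exp ((1 / 2) ^ 2 / 2) := Real.cosh_le_exp_half_sq _
    have h3 : Real.exp ((1 / 2 : ℝ) ^ 2 / 2) ≤ Real.exp (1 / 2) :=
      Real.exp_le_exp.2 (by norm_num)
    have h4 : Real.exp (1 / 2) ^ 2 = Real.exp 1 := by
      rw [← Real.exp_nat_mul]
      norm_num
    have h5 := Real.exp_one_lt_d9
    (refine le_of_not_gt fun hng => ?_; linarith only [hng, h5, h4, h3, h2,
      mul_nonneg (sub_nonneg.2 h3) (sub_nonneg.2 h3),
      mul_nonneg (sub_nonneg.2 h2) (sub_nonneg.2 h3),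
      mul_nonneg (sub_nonneg.2 h2) (sub_nonneg.2 h2),
      mul_nonneg (sub_nonneg.2 hng.le) (sub_nonneg.2 h3),
      mul_nonneg (sub_nonneg.2 hng.le) (sub_nonneg.2 h2), mul_pos (sub_pos.2 hng) (sub_pos.2 hng)])
  have hc0 := Real.cosh_pos (1 / 2)
  rw [Real.tanh_eq_sinh_div_cosh, mul_div_assoc', lt_div_iff₀ hc0, one_mul]
  linarith only [hc, hs, h1, mul_nonneg (sub_nonneg.2 h1) (sub_nonneg.2 hs)]


/-- The solution of the equation of one vertex: `z = R + i k x / a`. -/
theorem start_core {a k : ℝ} (ha : 3 ≤ a) (hk1 : 1 / 2 ≤ k) :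
    ∃ (z : ℂ) (x θ : ℝ), 0 < x ∧ 0 < θ ∧ θ < Real.pi / 2 ∧ 0 < z.re ∧ z.re < Real.pi / 2 ∧
      0 < z.im ∧ z.im = k * x / a ∧ Real.sin θ = Real.cosh x * Real.tanh (k * x / a) ∧
      Real.tan z.re = Real.sinh x / Real.cos θ ∧ a * z.re + k * θ = Real.pi ∧
      (cos z).re = Real.cos θ * Real.cosh x / (Real.sinh x ^ 2 + Real.cos θ ^ 2) ∧
      (cos z).im = -(Real.sinh x * Real.sin θ / (Real.sinh x ^ 2 + Real.cos θ ^ 2)) ∧
      0 < (tan z).re ∧ 0 < (tan z).im ∧ RR (tan z) = θ ∧
      (a : ℂ) * z = (Real.pi : ℂ) + I * ((k : ℂ) * asr (tan z)) := by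
  have ha0 : 0 < a := by linarith
  set S : ℝ → ℝ := fun x => Real.cosh x * Real.tanh (k * x / a) with hS
  set T : ℝ → ℝ := fun x => Real.arcsin (S x) with hT
  set R : ℝ → ℝ := fun x =>
    Real.arccos (Real.cos (T x) / √(Real.sinh x ^ 2 + Real.cos (T x) ^ 2)) with hR
  set f : ℝ → ℝ := fun x => a * R x + k * T x - Real.pi with hf
  have hSc : Continuous S := by
    have h1 : Continuous (fun x : ℝ => Real.tanh (k * x / a)) := by
      have : (fun x : ℝ => Real.tanh (k * x / a)) =
          fun x : ℝ => Real.sinh (k * x / a) / Real.cosh (k * x / a) := by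
        funext x
        exact Real.tanh_eq_sinh_div_cosh _
      rw [this]
      refine Continuous.div (Real.continuous_sinh.comp (by fun_prop))
        (Real.continuous_cosh.comp (by fun_prop)) (fun x => (Real.cosh_pos _).ne')
    exact Real.continuous_cosh.mul h1
  have hTc : Continuous T := Real.continuous_arcsin.comp hSc
  have hT0 : T 0 = 0 := by simp [hT, hS]
  have hden : ∀ x, √(Real.sinh x ^ 2 + Real.cos (T x) ^ 2) ≠ 0 := by
    intro x h
    have hnn : 0 ≤ Real.sinh x ^ 2 + Real.cos (T x) ^ 2 := by positivity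
    rw [Real.sqrt_eq_zero hnn] at h
    have h1 : Real.sinh x = 0 := by nlinarith [sq_nonneg (Real.sinh x), sq_nonneg (Real.cos (T x))]
    have h2 : x = 0 := Real.sinh_eq_zero.1 h1
    subst h2
    rw [hT0] at h
    simp at h
  have hRc : Continuous R := by
    refine Real.continuous_arccos.comp (Continuous.div (Real.continuous_cos.comp hTc)
      (Real.continuous_sqrt.comp ?_) hden)
    exact ((Real.continuous_sinh.pow 2).add ((Real.continuous_cos.comp hTc).pow 2))
  have hfc : Continuous f := by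
    exact ((continuous_const.mul hRc).add (continuous_const.mul hTc)).sub continuous_const
  have hf0 : f 0 < 0 := by
    have h1 : R 0 = 0 := by
      simp [hR, hT0]
    simp only [hf, h1, hT0]
    linarith only [Real.pi_pos]
  -- the value when `T x = π/2`
  have hbig : ∀ x, 0 < x → T x = Real.pi / 2 → 0 < f x := by
    intro x hx h
    have h1 : R x = Real.pi / 2 := by
      simp [hR, h]
    simp only [hf, h1, h]
    linarith only [Real.pi_pos, mul_nonneg (sub_nonneg.2 hk1) (sub_nonneg.2 Real.pi_pos.le),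
      mul_nonneg (sub_nonneg.2 ha) (sub_nonneg.2 Real.pi_pos.le)]
  have hTa : T a = Real.pi / 2 := by
    have h1 : 1 ≤ S a := by
      have h2 : Real.cosh 3 ≤ Real.cosh a := by
        rw [Real.cosh_le_cosh, abs_of_pos (by norm_num : (0 : ℝ) < 3), abs_of_pos ha0]
        linarith only [ha]
      have h3 : Real.tanh (1 / 2) ≤ Real.tanh k := start_tanh_mono hk1
      have h4 : 0 < Real.tanh (1 / 2) := start_tanh_pos (by norm_num)
      have h5 : k * a / a = k := by field_simp
      simp only [hS, h5]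
      have h6 := start_tanh_half
      have h7 : 0 < Real.cosh 3 := Real.cosh_pos 3
      calc (1 : ℝ) ≤ Real.cosh 3 * Real.tanh (1 / 2) := h6.le
        _ ≤ Real.cosh a * Real.tanh k := by
          apply mul_le_mul h2 h3 h4.le (Real.cosh_pos _).le
    exact Real.arcsin_of_one_le h1
  have hfa : 0 < f a := hbig a ha0 hTa
  obtain ⟨x, ⟨hx0, hxa⟩, hfx⟩ := intermediate_value_Icc (le_of_lt ha0) hfc.continuousOn
    (⟨hf0.le, hfa.le⟩ : (0 : ℝ) ∈ Set.Icc (f 0) (f a))
  have hxp : 0 < x := by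
    rcases hx0.lt_or_eq with h | h
    · exact h
    · rw [← h] at hfx; linarith only [hfx, hf0]
  have hSp : 0 < S x := by
    have : 0 < Real.tanh (k * x / a) := start_tanh_pos (by positivity)
    exact mul_pos (Real.cosh_pos _) this
  have hS1 : S x < 1 := by
    by_contra h
    push Not at h
    have := hbig x hxp (Real.arcsin_of_one_le h)
    linarith only [this, hfx]
  have hθ0 : 0 < T x := Real.arcsin_pos.2 hSp
  have hθ1 : T x < Real.pi / 2 := Real.arcsin_lt_pi_div_two.2 hS1
  have hsT : Real.sin (T x) = S x := Real.sin_arcsin (by linarith only [hSp]) hS1.le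
  obtain ⟨z, hz1, hz2, hz3, hz4, hz5, hz6, hz7, hz8, hz9⟩ := start_aux hxp hθ0 hθ1
  have him : z.im = k * x / a := by
    have h1 : Real.tanh z.im = Real.tanh (k * x / a) := by
      rw [hz6, hsT]
      simp only [hS]
      have := (Real.cosh_pos x).ne'
      field_simp
    exact Real.tanh_injective h1
  have hsh : sinh ((x : ℂ) + (T x : ℂ) * I) =
      (((Real.sinh x * Real.cos (T x) : ℝ)) : ℂ) + (((Real.cosh x * Real.sin (T x) : ℝ)) : ℂ) * I := by
    rw [sinh_add, cosh_mul_I, sinh_mul_I, ← ofReal_cos, ← ofReal_cosh, ← ofReal_sin,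
      ← ofReal_sinh]
    push_cast
    ring
  have hc : 0 < Real.cos (T x) := Real.cos_pos_of_mem_Ioo ⟨by linarith only [hθ1, hθ0], hθ1⟩
  have heq : a * z.re + k * T x = Real.pi := by
    rw [hz1]
    have : f x = 0 := hfx
    simp only [hf] at this
    linarith only [hfx]
  have htre : 0 < (tan z).re := by
    rw [hz7, hsh]
    simp only [add_re, mul_re, ofReal_re, ofReal_im, I_re, I_im, mul_zero, zero_mul, sub_zero,
      add_zero]
    exact mul_pos (Real.sinh_pos_iff.2 hxp) hc
  have htim : 0 < (tan z).im := by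
    rw [hz7, hsh]
    simp only [add_im, mul_im, ofReal_re, ofReal_im, I_re, I_im, mul_one, mul_zero, add_zero,
      zero_add]
    exact mul_pos (Real.cosh_pos x) (by rw [hsT]; exact hSp)
  refine ⟨z, x, T x, hxp, hθ0, hθ1, hz2, hz3, hz4, him, hsT, hz5, heq, hz8, hz9, htre, htim,
    ?_, ?_⟩
  · rw [← ash_im, hz7, ash_sinh hxp.le hθ0.le hθ1.le]
    simp
  · rw [asr_of_nonneg htim.le, hz7, ash_sinh hxp.le hθ0.le hθ1.le]
    apply Complex.ext
    · simp
      linarith only [heq]
    · simp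
      rw [him]
      field_simp

theorem start_tanh_le {y : ℝ} (h : 0 ≤ y) : Real.tanh y ≤ y := by
  have m : MonotoneOn (fun y : ℝ => y * Real.cosh y - Real.sinh y) (Set.Ici 0) := by
    have hd : ∀ x : ℝ, HasDerivAt (fun y : ℝ => y * Real.cosh y - Real.sinh y)
        (1 * Real.cosh x + x * Real.sinh x - Real.cosh x) x := fun x =>
      ((hasDerivAt_id x).mul (Real.hasDerivAt_cosh x)).sub (Real.hasDerivAt_sinh x)
    apply monotoneOn_of_deriv_nonneg (convex_Ici 0)
    · exact (continuous_iff_continuousAt.2 fun x => (hd x).continuousAt).continuousOn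
    · intro x _
      exact (hd x).differentiableAt.differentiableWithinAt
    · intro x hx
      rw [interior_Ici] at hx
      rw [(hd x).deriv]
      have h1 : 0 < x := hx
      have h2 : 0 < Real.sinh x := Real.sinh_pos_iff.2 h1
      have h3 := mul_pos h1 h2
      linarith only [h3]
  have h1 := m (Set.mem_Ici.2 le_rfl) (Set.mem_Ici.2 h) h
  simp only [Real.sinh_zero, zero_mul, sub_zero] at h1
  rw [Real.tanh_eq_sinh_div_cosh, div_le_iff₀ (Real.cosh_pos y)]
  linarith only [h1]

theorem start_le_tanh {y : ℝ} (h : 0 ≤ y) : y * (1 - y ^ 2 / 2) ≤ Real.tanh y := by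
  have h1 : Real.cosh y ≤ Real.exp (y ^ 2 / 2) := Real.cosh_le_exp_half_sq _
  have h2 : 1 - y ^ 2 / 2 ≤ Real.exp (-(y ^ 2 / 2)) := by
    have := Real.add_one_le_exp (-(y ^ 2 / 2))
    linarith only [this]
  have h3 : y ≤ Real.sinh y := Real.self_le_sinh_iff.2 h
  have hc := Real.cosh_pos y
  rw [Real.tanh_eq_sinh_div_cosh, le_div_iff₀ hc]
  have h4 : (1 - y ^ 2 / 2) * Real.cosh y ≤ 1 := by
    rcases le_total 0 (1 - y ^ 2 / 2) with h5 | h5
    · calc (1 - y ^ 2 / 2) * Real.cosh y ≤ Real.exp (-(y ^ 2 / 2)) * Real.exp (y ^ 2 / 2) :=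
            mul_le_mul h2 h1 hc.le (Real.exp_pos _).le
        _ = 1 := by rw [← Real.exp_add]; simp
    · have := mul_nonpos_of_nonpos_of_nonneg h5 hc.le
      linarith only [this]
  calc y * (1 - y ^ 2 / 2) * Real.cosh y = y * ((1 - y ^ 2 / 2) * Real.cosh y) := by ring
    _ ≤ y * 1 := mul_le_mul_of_nonneg_left h4 h
    _ ≤ Real.sinh y := by linarith only [h3]

/-- If `3 / 5 < θ`, then `R` is not small. -/
theorem start_small {x θ R ρ R0 ρ0 t0 : ℝ} (hx : 0 < x) (hθ : 3 / 5 < θ) (hθ' : θ < Real.pi / 2)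
    (hR : 0 < R) (hRR : R ≤ R0) (hR0 : R0 ≤ 1) (ht00 : 0 ≤ t0)
    (ht0 : R0 - R0 ^ 3 / 6 + R0 ^ 5 / 100 ≤ t0 * (1 - R0 ^ 2 / 2 - R0 ^ 4 * (5 / 96)))
    (hρ : 0 ≤ ρ) (hρ0 : ρ ≤ ρ0) (hs : Real.sin θ = Real.cosh x * Real.tanh (ρ * x))
    (ht : Real.tan R = Real.sinh x / Real.cos θ)
    (hnum : ρ0 ^ 2 * ((171 / 250) * t0 ^ 2) * (1 + (171 / 250) * t0 ^ 2) < 79 / 250) : False := by
  have hpi := Real.pi_gt_d4
  have hR00 : 0 < R0 := by linarith only [hRR, hR]
  have habs : |R0| ≤ 1 := by rw [abs_of_pos hR00]; exact hR0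
  have b1 := (abs_le.1 (Real.sin_bound habs)).2
  have b2 := (abs_le.1 (Real.cos_bound habs)).1
  rw [abs_of_pos hR00] at b1 b2
  have b3 : Real.sin R ≤ Real.sin R0 :=
    Real.sin_le_sin_of_le_of_le_pi_div_two (by linarith only [hR, hθ', hθ]) (by linarith only [hpi,
                                                                                  hR0, hθ', hθ]) hRR
  have b4 : Real.cos R0 ≤ Real.cos R :=
    Real.cos_le_cos_of_nonneg_of_le_pi hR.le (by linarith only [hR0, hθ', hθ]) hRR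
  have hcR : 0 < Real.cos R := Real.cos_pos_of_mem_Ioo ⟨by linarith only [hR, hθ', hθ], by linarith only [hpi,
                                                                                             hR0,
                                                                                             hRR,
                                                                                             hθ',
                                                                                             hθ]⟩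
  have b5 : Real.sin R ≤ t0 * Real.cos R := by
    have h1 : t0 * (1 - R0 ^ 2 / 2 - R0 ^ 4 * (5 / 96)) ≤ t0 * Real.cos R0 :=
      mul_le_mul_of_nonneg_left (by linarith only [b2]) ht00
    have h2 : t0 * Real.cos R0 ≤ t0 * Real.cos R := mul_le_mul_of_nonneg_left b4 ht00
    linarith only [h2, h1, b3, b1, ht0]
  have hc : 0 < Real.cos θ := Real.cos_pos_of_mem_Ioo ⟨by linarith only [hθ', hθ], hθ'⟩
  have hsx : Real.sinh x ≤ t0 * Real.cos θ := by
    have h1 : Real.tan R ≤ t0 := by
      rw [Real.tan_eq_sin_div_cos, div_le_iff₀ hcR]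
      exact b5
    rw [ht, div_le_iff₀ hc] at h1
    exact h1
  have hsx0 : 0 < Real.sinh x := Real.sinh_pos_iff.2 hx
  have hc2 : Real.cos θ ^ 2 ≤ 171 / 250 := by
    have h1 : Real.cos θ ≤ Real.cos (3 / 5) :=
      Real.cos_le_cos_of_nonneg_of_le_pi (by norm_num) (by linarith only [hθ', hθ]) hθ.le
    have h2 := (abs_le.1 (Real.cos_bound (x := 3 / 5) (by norm_num [abs_of_pos]))).2
    rw [abs_of_pos (by norm_num : (0 : ℝ) < 3 / 5)] at h2
    have h3 : Real.cos θ ≤ 0.82675 := by
      norm_num at h2 ⊢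
      linarith only [h2, h1]
    have h4 := pow_le_pow_left₀ hc.le h3 2
    norm_num at h4 ⊢
    linarith only [h4, h2, h1, hc]
  have hs2 : Real.sinh x ^ 2 ≤ 171 / 250 * t0 ^ 2 := by
    have h1 := pow_le_pow_left₀ hsx0.le hsx 2
    rw [mul_pow] at h1
    have h2 : t0 ^ 2 * Real.cos θ ^ 2 ≤ t0 ^ 2 * (171 / 250) :=
      mul_le_mul_of_nonneg_left hc2 (sq_nonneg _)
    linarith only [h2, h1]
  have hch := Real.cosh_sq x
  have hch0 := Real.cosh_pos x
  have hth : Real.tanh (ρ * x) ≤ ρ0 * Real.sinh x := by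
    have h1 : Real.tanh (ρ * x) ≤ ρ * x := start_tanh_le (by positivity)
    have h2 : x ≤ Real.sinh x := Real.self_le_sinh_iff.2 hx.le
    have h3 : ρ * x ≤ ρ0 * Real.sinh x := mul_le_mul hρ0 h2 hx.le (by linarith only [hρ0, hρ])
    linarith only [h3, h1]
  have hsn0 : 0 ≤ Real.sin θ := Real.sin_nonneg_of_nonneg_of_le_pi (by linarith only [hθ]) (by linarith only [hθ',
                                                                                                 hθ])
  have hsn : Real.sin θ ≤ Real.cosh x * (ρ0 * Real.sinh x) := by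
    rw [hs]
    exact mul_le_mul_of_nonneg_left hth hch0.le
  have hsn2 := pow_le_pow_left₀ hsn0 hsn 2
  have hsc := Real.sin_sq_add_cos_sq θ
  have hfin : (Real.cosh x * (ρ0 * Real.sinh x)) ^ 2 ≤
      ρ0 ^ 2 * ((171 / 250) * t0 ^ 2) * (1 + (171 / 250) * t0 ^ 2) := by
    have h1 : (Real.cosh x * (ρ0 * Real.sinh x)) ^ 2 =
        ρ0 ^ 2 * (Real.sinh x ^ 2 * (1 + Real.sinh x ^ 2)) := by
      rw [mul_pow, mul_pow, hch]
      ring
    rw [h1, mul_assoc]
    apply mul_le_mul_of_nonneg_left _ (sq_nonneg _)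
    apply mul_le_mul hs2 (by linarith only [hs2]) (by positivity) (by positivity)
  linarith only [hfin, hsc, hsn2, hc2, hnum]

/-- Norm and angle of `cos z`. -/
theorem start_cos {z : ℂ} {x θ c : ℝ} (hx : 0 < x) (hθ : 0 < θ) (hθ4 : θ ≤ Real.pi / 4)
    (hR : 0 < z.re) (hR3 : z.re ≤ Real.pi / 3) (hc0 : 0 < c)
    (ht : Real.tan z.re = Real.sinh x / Real.cos θ)
    (h8 : (cos z).re = Real.cos θ * Real.cosh x / (Real.sinh x ^ 2 + Real.cos θ ^ 2))
    (h9 : (cos z).im = -(Real.sinh x * Real.sin θ / (Real.sinh x ^ 2 + Real.cos θ ^ 2)))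
    (hD : 1 / c ^ 2 ≤ Real.sinh x ^ 2 + Real.cos θ ^ 2) :
    1 / 2 ≤ ‖cos z‖ ∧ ‖cos z‖ ≤ c ∧ -(cos z).im ≤ (cos z).re := by
  have hpi := Real.pi_pos
  have hc : 0 < Real.cos θ := Real.cos_pos_of_mem_Ioo ⟨by linarith only [hθ4, hθ], by linarith only [hθ4,
                                                                                        hθ]⟩
  have hs : 0 < Real.sinh x := Real.sinh_pos_iff.2 hx
  have hch : 0 < Real.cosh x := Real.cosh_pos x
  have hsn : 0 < Real.sin θ := Real.sin_pos_of_pos_of_lt_pi hθ (by linarith only [hθ4, hθ])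
  have hN0 : 0 < Real.sinh x ^ 2 + Real.cos θ ^ 2 := by positivity
  have hsq := Real.cosh_sq x
  have hsc := Real.sin_sq_add_cos_sq θ
  have htan3 : Real.tan z.re ≤ √3 := by
    rw [← Real.tan_pi_div_three]
    rcases hR3.lt_or_eq with h | h
    · exact (Real.tan_lt_tan_of_lt_of_lt_pi_div_two (by linarith only [hR, hθ4, hθ]) (by linarith only [hθ4,
                                                                                           hθ]) h).le
    · rw [h]
  have hsh3 : Real.sinh x ≤ √3 * Real.cos θ := by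
    rw [ht, div_le_iff₀ hc] at htan3
    exact htan3
  have h33 : √3 ^ 2 = 3 := Real.sq_sqrt (by norm_num)
  have h30 : 0 ≤ √3 := Real.sqrt_nonneg 3
  have hN4 : Real.sinh x ^ 2 + Real.cos θ ^ 2 ≤ 4 := by
    have h1 : Real.sinh x ^ 2 ≤ (√3 * Real.cos θ) ^ 2 := pow_le_pow_left₀ hs.le hsh3 2
    rw [mul_pow, h33] at h1
    linarith only [h1, hsc, sq_nonneg (Real.sin θ)]
  have hsc4 : Real.sin θ ≤ Real.cos θ := by
    rw [← Real.sin_pi_div_two_sub]
    apply Real.sin_le_sin_of_le_of_le_pi_div_two <;> linarith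
  have hnorm : ‖cos z‖ ^ 2 = 1 / (Real.sinh x ^ 2 + Real.cos θ ^ 2) := by
    rw [← Complex.normSq_eq_norm_sq, Complex.normSq_apply, h8, h9]
    field_simp
    rw [hsq]
    linarith only [mul_nonneg (sq_nonneg (Real.sinh x)) (sub_nonneg.2 hsc.le),
      mul_nonneg (sq_nonneg (Real.sinh x)) (sub_nonneg.2 hsc.ge)]
  refine ⟨?_, ?_, ?_⟩
  · have h1 : (1 / 2 : ℝ) ^ 2 ≤ ‖cos z‖ ^ 2 := by
      rw [hnorm, le_div_iff₀ hN0]
      linarith only [hN4]
    exact (pow_le_pow_iff_left₀ (by norm_num) (norm_nonneg _) two_ne_zero).1 h1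
  · have h1 : ‖cos z‖ ^ 2 ≤ c ^ 2 := by
      rw [hnorm, div_le_iff₀ hN0]
      have h2 : c ^ 2 * (1 / c ^ 2) ≤ c ^ 2 * (Real.sinh x ^ 2 + Real.cos θ ^ 2) :=
        mul_le_mul_of_nonneg_left hD (by positivity)
      have h3 : c ^ 2 * (1 / c ^ 2) = 1 := by field_simp
      linarith only [h3, h2]
    exact (pow_le_pow_iff_left₀ (norm_nonneg _) hc0.le two_ne_zero).1 h1
  · rw [h8, h9, neg_neg, div_le_div_iff_of_pos_right hN0]
    have h1 : Real.sinh x ≤ Real.cosh x := (Real.sinh_lt_cosh x).le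
    calc Real.sinh x * Real.sin θ ≤ Real.cosh x * Real.cos θ :=
          mul_le_mul h1 hsc4 hsn.le hch.le
      _ = Real.cos θ * Real.cosh x := mul_comm _ _

/-- `k ≤ a`: `sin θ ≤ sinh x`, hence `θ ≤ R`. -/
theorem start_le {a k x θ R : ℝ} (ha : 0 < a) (hka : k ≤ a) (hx : 0 < x)
    (hθ' : θ < Real.pi / 2) (hθ : 0 < θ) (hR : 0 < R)
    (hs : Real.sin θ = Real.cosh x * Real.tanh (k * x / a))
    (ht : Real.tan R = Real.sinh x / Real.cos θ) : Real.sin θ ≤ Real.sinh x ∧ θ ≤ R := by
  have hpi := Real.pi_pos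
  have hch : 0 < Real.cosh x := Real.cosh_pos x
  have hc : 0 < Real.cos θ := Real.cos_pos_of_mem_Ioo ⟨by linarith only [hθ, hθ'], hθ'⟩
  have hle : Real.sin θ ≤ Real.sinh x := by
    rw [hs]
    have h1 : Real.tanh (k * x / a) ≤ Real.tanh x := by
      apply start_tanh_mono
      rw [div_le_iff₀ ha, mul_comm x a]
      exact mul_le_mul_of_nonneg_right hka hx.le
    calc Real.cosh x * Real.tanh (k * x / a) ≤ Real.cosh x * Real.tanh x :=
          mul_le_mul_of_nonneg_left h1 hch.le
      _ = Real.sinh x := by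
          rw [Real.tanh_eq_sinh_div_cosh]
          field_simp
  refine ⟨hle, ?_⟩
  by_contra hcon
  push Not at hcon
  have h1 := Real.tan_lt_tan_of_lt_of_lt_pi_div_two (x := R) (y := θ) (by linarith only [hR, hθ,
                                                                            hθ']) hθ' hcon
  rw [ht, Real.tan_eq_sin_div_cos, div_lt_div_iff_of_pos_right hc] at h1
  linarith only [h1, hle]

theorem start_im_le {a k x : ℝ} (ha : 0 < a) (hk : 0 ≤ k) (hka : 2 * k ≤ 3 * a)
    (hx1 : x ≤ 4 / 3) : k * x / a ≤ 2 := by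
  rw [div_le_iff₀ ha]
  have h1 : k * x ≤ k * (4 / 3) := mul_le_mul_of_nonneg_left hx1 hk
  linarith only [h1, hka]

/-- Vertices of type (A). -/
theorem start_A {a k : ℝ} (ha : 3 ≤ a) (hk1 : 1 / 2 ≤ k) (hka : k ≤ a) (h4 : 4 ≤ a + k)
    (h5 : 21 / 4 ≤ a + k ∨ k = 1 ∨ k = 2 ∨ 7 / 2 ≤ a) :
    ∃ z : ℂ, (0 < z.re ∧ z.re < Real.pi / 2 ∧ 0 < z.im ∧ z.im ≤ 2) ∧ 0 < (tan z).re ∧
      1 / 2 ≤ ‖cos z‖ ∧ ‖cos z‖ ≤ 1 ∧ -(cos z).im ≤ (cos z).re ∧ RR (tan z) ≤ 3 / 5 ∧
      (a : ℂ) * z = (Real.pi : ℂ) + I * ((k : ℂ) * asr (tan z)) := by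
  have ha0 : 0 < a := by linarith only [ha]
  have hpi := Real.pi_lt_d4
  have hpi' := Real.pi_gt_d4
  obtain ⟨z, x, θ, hx, hθ, hθ', hR, hR', hI, hIx, hs, ht, heq, h8, h9, htr, hti, hRR, hz⟩ :=
    start_core ha hk1
  have hc : 0 < Real.cos θ := Real.cos_pos_of_mem_Ioo ⟨by linarith only [hθ, hpi', hpi], hθ'⟩
  obtain ⟨hle, hθR⟩ := start_le ha0 hka hx hθ' hθ hR hs ht
  have hsn : 0 < Real.sin θ := Real.sin_pos_of_pos_of_lt_pi hθ (by linarith only [hθ', hpi', hpi])
  have hR3 : z.re ≤ Real.pi / 3 := by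
    have h1 : 0 < k * θ := mul_pos (by linarith only [hk1]) hθ
    have h2 : 3 * z.re ≤ a * z.re := mul_le_mul_of_nonneg_right ha hR.le
    linarith only [h2, h1, heq]
  have hθ4 : θ ≤ Real.pi / 4 := by
    have h1 : a * θ ≤ a * z.re := mul_le_mul_of_nonneg_left hθR ha0.le
    have h2 : 4 * θ ≤ (a + k) * θ := mul_le_mul_of_nonneg_right h4 hθ.le
    linarith only [h2, h1, heq]
  have hD : 1 / (1 : ℝ) ^ 2 ≤ Real.sinh x ^ 2 + Real.cos θ ^ 2 := by
    have := Real.sin_sq_add_cos_sq θ
    have h1 : Real.sin θ ^ 2 ≤ Real.sinh x ^ 2 := pow_le_pow_left₀ hsn.le hle 2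
    norm_num
    linarith only [h1, this]
  obtain ⟨c1, c2, c3⟩ := start_cos hx hθ hθ4 hR hR3 one_pos ht h8 h9 hD
  have hx1 : x ≤ 2 := by
    have htan3 : Real.tan z.re ≤ √3 := by
      rw [← Real.tan_pi_div_three]
      rcases hR3.lt_or_eq with h | h
      · exact (Real.tan_lt_tan_of_lt_of_lt_pi_div_two (by linarith only [hR, hpi', hpi]) (by linarith only [hpi']) h).le
      · rw [h]
    rw [ht, div_le_iff₀ hc] at htan3
    have h1 : √3 ≤ 2 := by
      rw [Real.sqrt_le_left (by norm_num)]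
      norm_num
    have h2 : √3 * Real.cos θ ≤ 2 * 1 := mul_le_mul h1 (Real.cos_le_one _) hc.le (by norm_num)
    have h3 : x < Real.sinh x := Real.self_lt_sinh_iff.2 hx
    linarith only [h3, h2, htan3]
  refine ⟨z, ⟨hR, hR', hI, ?_⟩, htr, c1, c2, c3, ?_, hz⟩
  · rw [hIx, div_le_iff₀ ha0]
    have h1 : k * x ≤ a * x := mul_le_mul_of_nonneg_right hka hx.le
    have h2 : a * x ≤ a * 2 := mul_le_mul_of_nonneg_left hx1 ha0.le
    linarith only [h2, h1]
  · rw [hRR]
    by_contra hcon
    push Not at hcon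
    have hk0 : 0 < k := by linarith only [hk1]
    have hs' : Real.sin θ = Real.cosh x * Real.tanh (k / a * x) := by
      rw [hs]
      congr 2
      ring
    have hρ : 0 ≤ k / a := by positivity
    by_cases h6 : 21 / 4 ≤ a + k
    · have h1 : a * θ ≤ a * z.re := mul_le_mul_of_nonneg_left hθR ha0.le
      have h2 : 21 / 4 * θ ≤ (a + k) * θ := mul_le_mul_of_nonneg_right h6 hθ.le
      linarith only [h2, h1, hcon, heq, hpi', hpi]
    push Not at h6
    rcases h5 with h5 | h5 | h5 | h5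
    · linarith only [h5, h6]
    · -- `k = 1`
      have hR0 : z.re ≤ 17 / 20 := by
        have h2 : 3 * z.re ≤ a * z.re := mul_le_mul_of_nonneg_right ha hR.le
        rw [h5] at heq
        linarith only [h2, hcon, heq, hpi', hpi]
      refine start_small (R0 := 17 / 20) (ρ0 := 1 / 3) (t0 := 5 / 4) hx hcon hθ' hR hR0
        (by norm_num) (by norm_num) (by norm_num) hρ ?_ hs' ht (by norm_num)
      rw [h5]
      apply one_div_le_one_div_of_le (by norm_num) ha
    · have hR0 : z.re ≤ 13 / 20 := by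
        have h2 : 3 * z.re ≤ a * z.re := mul_le_mul_of_nonneg_right ha hR.le
        rw [h5] at heq
        linarith only [h2, hcon, heq, hpi', hpi]
      refine start_small (R0 := 13 / 20) (ρ0 := 2 / 3) (t0 := 4 / 5) hx hcon hθ' hR hR0
        (by norm_num) (by norm_num) (by norm_num) hρ ?_ hs' ht (by norm_num)
      rw [h5, div_le_div_iff₀ ha0 (by norm_num)]
      linarith only [ha]
    · have h2 : 7 / 2 * z.re ≤ a * z.re := mul_le_mul_of_nonneg_right h5 hR.le
      rcases le_total k (13 / 10) with h7 | h7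
      · have hR0 : z.re ≤ 13 / 16 := by
          have h1 : 1 / 2 * (3 / 5) ≤ k * θ := mul_le_mul hk1 hcon.le (by norm_num) hk0.le
          linarith only [h1, h2, heq, hpi', hpi]
        refine start_small (R0 := 13 / 16) (ρ0 := 13 / 35) (t0 := 9 / 8) hx hcon hθ' hR hR0
          (by norm_num) (by norm_num) (by norm_num) hρ ?_ hs' ht (by norm_num)
        rw [div_le_div_iff₀ ha0 (by norm_num)]
        linarith only [h7, h5]
      · have hR0 : z.re ≤ 27 / 40 := by
          have h1 : 13 / 10 * (3 / 5) ≤ k * θ := mul_le_mul h7 hcon.le (by norm_num) hk0.le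
          linarith only [h1, h2, heq, hpi', hpi]
        refine start_small (R0 := 27 / 40) (ρ0 := 1 / 2) (t0 := 5 / 6) hx hcon hθ' hR hR0
          (by norm_num) (by norm_num) (by norm_num) hρ ?_ hs' ht (by norm_num)
        rw [div_le_div_iff₀ ha0 (by norm_num)]
        linarith only [h5, h6]

/-- `sinh x ≤ r / (1 - r² / 2)` if `R ≤ r`, and `R ≥ (1 - r² / 2) x`. -/
theorem start_sinh {x θ R r : ℝ} (hx : 0 < x) (hθ : 0 < θ) (hθ' : θ < Real.pi / 2) (hR : 0 < R)
    (hRr : R ≤ r) (hr : r ≤ 1) (ht : Real.tan R = Real.sinh x / Real.cos θ) :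
    Real.sinh x * (1 - r ^ 2 / 2) ≤ R := by
  have hpi := Real.pi_gt_d4
  have hc : 0 < Real.cos θ := Real.cos_pos_of_mem_Ioo ⟨by linarith only [hθ', hθ], hθ'⟩
  have hcR : 0 < Real.cos R := Real.cos_pos_of_mem_Ioo ⟨by linarith only [hR, hθ', hθ], by linarith only [hpi,
                                                                                             hr,
                                                                                             hRr,
                                                                                             hθ',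
                                                                                             hθ]⟩
  have h1 : Real.sinh x * Real.cos R = Real.sin R * Real.cos θ := by
    rw [Real.tan_eq_sin_div_cos, div_eq_div_iff hcR.ne' hc.ne'] at ht
    linarith only [ht]
  have h2 : Real.sin R ≤ R := Real.sin_le hR.le
  have h3 : 1 - R ^ 2 / 2 ≤ Real.cos R := Real.one_sub_sq_div_two_le_cos
  have h4 : Real.cos θ ≤ 1 := Real.cos_le_one _
  have h5 : 0 < Real.sinh x := Real.sinh_pos_iff.2 hx
  have h6 : R ^ 2 ≤ r ^ 2 := pow_le_pow_left₀ hR.le hRr 2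
  calc Real.sinh x * (1 - r ^ 2 / 2) ≤ Real.sinh x * Real.cos R :=
        mul_le_mul_of_nonneg_left (by linarith only [h6, h3]) h5.le
    _ = Real.sin R * Real.cos θ := h1
    _ ≤ R * 1 := mul_le_mul h2 h4 hc.le hR.le
    _ = R := mul_one R

/-- `θ ≥ ρ x (1 + x² / 2) (1 - ρ² x² / 2)`. -/
theorem start_theta_ge {x θ ρ : ℝ} (hx : 0 < x) (hθ : 0 < θ) (hρ : 0 < ρ)
    (hρx : (ρ * x) ^ 2 ≤ 2)
    (hs : Real.sin θ = Real.cosh x * Real.tanh (ρ * x)) :
    (1 + x ^ 2 / 2) * (ρ * x * (1 - (ρ * x) ^ 2 / 2)) ≤ θ := by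
  have h1 : Real.sin θ ≤ θ := Real.sin_le hθ.le
  have h2 : 1 + x ^ 2 / 2 ≤ Real.cosh x := by
    have h3 : Real.cosh x = 1 + 2 * Real.sinh (x / 2) ^ 2 := by
      have := Real.cosh_two_mul (x / 2)
      rw [show (2 : ℝ) * (x / 2) = x by ring] at this
      have h2 := Real.cosh_sq (x / 2)
      linarith only [h2, this]
    have h4 : x / 2 ≤ Real.sinh (x / 2) := Real.self_le_sinh_iff.2 (by linarith only [hx])
    have h5 := pow_le_pow_left₀ (by linarith only [hx]) h4 2
    rw [h3]
    linarith only [h5]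
  have h3 := start_le_tanh (y := ρ * x) (by positivity)
  have h4 : 0 ≤ ρ * x * (1 - (ρ * x) ^ 2 / 2) :=
    mul_nonneg (by positivity) (by linarith only [hρx])
  calc (1 + x ^ 2 / 2) * (ρ * x * (1 - (ρ * x) ^ 2 / 2)) ≤ Real.cosh x * Real.tanh (ρ * x) :=
        mul_le_mul h2 h3 h4 (Real.cosh_pos _).le
    _ = Real.sin θ := hs.symm
    _ ≤ θ := h1

/-- The algebra of the disc. -/
theorem start_disc {a k x θ R c t : ℝ} (ha : 5 ≤ a) (hk : 0 < k) (hx : 0 < x)
    (hR : 0 < R) (hθ : 0 < θ) (heq : a * R + k * θ = Real.pi) (hc : 0 ≤ c)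
    (hRx : c * x ≤ R) (hθx : t * (k / a * x) ≤ θ)
    (hnum : k / a ≤ c / 4 + t * c * (k / a) + t * (k / a) ^ 2 / 4) :
    R ^ 2 + (k * x / a) ^ 2 ≤ Real.pi / 5 * (R + k * x / a / 4) := by
  have ha0 : 0 < a := by linarith only [ha]
  obtain ⟨ρ, hρ⟩ : ∃ ρ, ρ = k / a := ⟨_, rfl⟩
  have hρ0 : 0 < ρ := by rw [hρ]; positivity
  have hI : k * x / a = ρ * x := by rw [hρ]; ring
  rw [← hρ] at hθx hnum
  rw [hI]
  have h1 : R + ρ * θ ≤ Real.pi / 5 := by
    have h2 : a * (R + ρ * θ) = Real.pi := by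
      rw [← heq, hρ]
      field_simp
    have h3 : 5 * (R + ρ * θ) ≤ a * (R + ρ * θ) :=
      mul_le_mul_of_nonneg_right ha (by positivity)
    linarith only [h3, h2]
  have h2 : (R + ρ * θ) * (R + ρ * x / 4) ≤ Real.pi / 5 * (R + ρ * x / 4) :=
    mul_le_mul_of_nonneg_right h1 (by positivity)
  refine le_trans ?_ h2
  -- `ρ x² ≤ R x / 4 + θ R + ρ θ x / 4`
  have h3 : c * x * x ≤ R * x := mul_le_mul_of_nonneg_right hRx hx.le
  have h4 : t * (ρ * x) * (c * x) ≤ θ * R :=
    mul_le_mul hθx hRx (by positivity) hθ.le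
  have h5 : t * (ρ * x) * (ρ * x) ≤ θ * (ρ * x) :=
    mul_le_mul_of_nonneg_right hθx (by positivity)
  have h6 : ρ * x ^ 2 ≤ (c / 4 + t * c * ρ + t * ρ ^ 2 / 4) * x ^ 2 :=
    mul_le_mul_of_nonneg_right hnum (sq_nonneg x)
  have h7 : ρ * x ^ 2 ≤ R * x / 4 + θ * R + θ * (ρ * x) / 4 := by
    linarith only [h6, h5, h4, h3]
  have h8 : ρ * (ρ * x ^ 2) ≤ ρ * (R * x / 4 + θ * R + θ * (ρ * x) / 4) :=
    mul_le_mul_of_nonneg_left h7 hρ0.le
  linarith only [h8]

/-- Vertices of type (B). -/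
theorem start_B {a k : ℝ} (ha : 5 ≤ a) (hk1 : 1 ≤ k) (hka : 2 * k ≤ 3 * a) :
    ∃ z : ℂ, (0 < z.re ∧ z.re < Real.pi / 2 ∧ 0 < z.im ∧ z.im ≤ 2) ∧ 0 < (tan z).re ∧
      1 / 2 ≤ ‖cos z‖ ∧ ‖cos z‖ ≤ 11 / 10 ∧ -(cos z).im ≤ (cos z).re ∧ Dz z ∧
      (a : ℂ) * z = (Real.pi : ℂ) + I * ((k : ℂ) * asr (tan z)) := by
  have ha0 : 0 < a := by linarith only [ha]
  have hk0 : 0 < k := by linarith only [hk1]
  have hpi := Real.pi_lt_d4
  have hpi' := Real.pi_gt_d4
  obtain ⟨z, x, θ, hx, hθ, hθ', hR, hR', hI, hIx, hs, ht, heq, h8, h9, htr, hti, hRR, hz⟩ :=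
    start_core (by linarith only [ha] : (3 : ℝ) ≤ a) (by linarith only [hk1] : 1 / 2 ≤ k)
  have hc : 0 < Real.cos θ := Real.cos_pos_of_mem_Ioo ⟨by linarith only [hθ, hpi', hpi], hθ'⟩
  have hsn : 0 < Real.sin θ := Real.sin_pos_of_pos_of_lt_pi hθ (by linarith only [hθ', hpi', hpi])
  have hsx : x < Real.sinh x := Real.self_lt_sinh_iff.2 hx
  have hsc := Real.sin_sq_add_cos_sq θ
  have hR5 : z.re ≤ Real.pi / 5 := by
    have h1 : 0 < k * θ := mul_pos hk0 hθ
    have h2 : 5 * z.re ≤ a * z.re := mul_le_mul_of_nonneg_right ha hR.le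
    linarith only [h2, h1, heq]
  have hs' : Real.sin θ = Real.cosh x * Real.tanh (k / a * x) := by
    rw [hs]
    congr 2
    ring
  have hρ : 0 < k / a := by positivity
  have hρ2 : k / a ≤ 3 / 2 := by
    rw [div_le_div_iff₀ ha0 (by norm_num)]
    linarith only [hka]
  have hmain : θ ≤ Real.pi / 4 ∧ 1 / (11 / 10 : ℝ) ^ 2 ≤ Real.sinh x ^ 2 + Real.cos θ ^ 2 ∧
      x ≤ 4 / 3 ∧
      z.re ^ 2 + (k * x / a) ^ 2 ≤ Real.pi / 5 * (z.re + k * x / a / 4) := by
    rcases le_total k a with hka' | hka'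
    · obtain ⟨hle, hθR⟩ := start_le ha0 hka' hx hθ' hθ hR hs ht
      have h1 := start_sinh (r := 63 / 100) hx hθ hθ' hR (by linarith only [hR5, hpi', hpi]) (by norm_num) ht
      norm_num at h1
      have hx1 : x ≤ 784 / 1000 := by linarith only [h1, hR5, hsx, hpi', hpi]
      have hx2 : x ^ 2 ≤ (784 / 1000) ^ 2 := pow_le_pow_left₀ hx.le hx1 2
      have hρ1 : k / a ≤ 1 := by
        rw [div_le_one ha0]
        exact hka'
      have hρx : (k / a * x) ^ 2 ≤ x ^ 2 := by
        apply pow_le_pow_left₀ (by positivity)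
        calc k / a * x ≤ 1 * x := mul_le_mul_of_nonneg_right hρ1 hx.le
          _ = x := one_mul x
      have h2 := start_theta_ge hx hθ hρ (by norm_num at hx2; linarith only [hx2, hρx, hpi', hpi]) hs'
      refine ⟨?_, ?_, by linarith only [h1, hR5, hsx, hpi', hpi], ?_⟩
      · have h3 : a * θ ≤ a * z.re := mul_le_mul_of_nonneg_left hθR ha0.le
        have h4 : 6 * θ ≤ (a + k) * θ := mul_le_mul_of_nonneg_right (by linarith only [hk1, ha]) hθ.le
        linarith only [hθR, hR5, hpi', hpi]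
      · have h3 : Real.sin θ ^ 2 ≤ Real.sinh x ^ 2 := pow_le_pow_left₀ hsn.le hle 2
        norm_num
        linarith only [h3, hsc, hpi', hpi]
      · refine start_disc (c := 4 / 5) (t := 9 / 10) ha hk0 hx hR hθ heq (by norm_num)
          (by linarith only [h1, hsx, hR]) ?_ ?_
        · refine le_trans ?_ h2
          have h3 : 9 / 10 ≤ (1 + x ^ 2 / 2) * (1 - (k / a * x) ^ 2 / 2) := by
            have h4 : (1 + x ^ 2 / 2) * (1 - x ^ 2 / 2) ≤
                (1 + x ^ 2 / 2) * (1 - (k / a * x) ^ 2 / 2) :=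
              mul_le_mul_of_nonneg_left (by linarith only [hρx]) (by positivity)
            have h5 : (x ^ 2) ^ 2 ≤ ((784 / 1000) ^ 2) ^ 2 :=
              pow_le_pow_left₀ (sq_nonneg x) hx2 2
            norm_num at h5
            linarith only [h5, h4, hpi', hpi]
          have h6 : 9 / 10 * (k / a * x) ≤
              (1 + x ^ 2 / 2) * (1 - (k / a * x) ^ 2 / 2) * (k / a * x) :=
            mul_le_mul_of_nonneg_right h3 (by positivity)
          linarith only [h6]
        · linarith only [sq_nonneg (k / a - 28 / 45), hpi', hpi]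
    · -- `a ≤ k`
      have hch : 0 < Real.cosh x := Real.cosh_pos x
      have hge : Real.sinh x ≤ Real.sin θ := by
        rw [hs]
        have h1 : Real.tanh x ≤ Real.tanh (k * x / a) := by
          apply start_tanh_mono
          rw [le_div_iff₀ ha0, mul_comm x a]
          exact mul_le_mul_of_nonneg_right hka' hx.le
        calc Real.sinh x = Real.cosh x * Real.tanh x := by
              rw [Real.tanh_eq_sinh_div_cosh]
              field_simp
          _ ≤ _ := mul_le_mul_of_nonneg_left h1 hch.le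
      have hRθ : z.re ≤ θ := by
        by_contra hcon
        push Not at hcon
        have h1 := Real.tan_lt_tan_of_lt_of_lt_pi_div_two (x := θ) (y := z.re) (by linarith only [hθ,
                                                                                     hpi', hpi])
          hR' hcon
        rw [ht, Real.tan_eq_sin_div_cos, div_lt_div_iff_of_pos_right hc] at h1
        linarith only [h1, hge]
      have hR10 : z.re ≤ Real.pi / 10 := by
        have h1 : 5 * z.re ≤ a * z.re := mul_le_mul_of_nonneg_right ha hR.le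
        have h2 : 5 * θ ≤ k * θ := mul_le_mul_of_nonneg_right (by linarith only [hka', ha]) hθ.le
        linarith only [h2, h1, hRθ, heq]
      have h1 := start_sinh (r := 315 / 1000) hx hθ hθ' hR (by linarith only [hR10, hpi', hpi]) (by norm_num) ht
      norm_num at h1
      have hsx1 : Real.sinh x ≤ 331 / 1000 := by linarith only [h1, hR10, hpi', hpi]
      have hsx2 : Real.sinh x ^ 2 ≤ (331 / 1000) ^ 2 :=
        pow_le_pow_left₀ (by linarith only [hsx, hx]) hsx1 2
      have hx2 : x ^ 2 ≤ Real.sinh x ^ 2 := pow_le_pow_left₀ hx.le hsx.le 2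
      have hρx : (k / a * x) ^ 2 ≤ 9 / 4 * x ^ 2 := by
        have h3 : k / a * x ≤ 3 / 2 * x := mul_le_mul_of_nonneg_right hρ2 hx.le
        have h4 := pow_le_pow_left₀ (by positivity) h3 2
        rw [mul_pow (3 / 2 : ℝ)] at h4
        norm_num at h4 ⊢
        exact h4
      norm_num at hsx2
      have h2 := start_theta_ge hx hθ hρ (by linarith only [hsx2, hρx, hx2, hpi', hpi]) hs'
      refine ⟨?_, ?_, by linarith only [h1, hR5, hsx, hpi', hpi], ?_⟩
      · have h2 : 5 * θ ≤ k * θ := mul_le_mul_of_nonneg_right (by linarith only [hka', ha]) hθ.le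
        have h3 : 0 < a * z.re := mul_pos ha0 hR
        linarith only [h3, h2, heq, hpi', hpi]
      · have h3 : Real.tanh (k / a * x) ≤ 3 / 2 * Real.sinh x := by
          have h4 : Real.tanh (k / a * x) ≤ k / a * x := start_tanh_le (by positivity)
          have h5 : k / a * x ≤ 3 / 2 * Real.sinh x :=
            mul_le_mul hρ2 hsx.le hx.le (by norm_num)
          linarith only [h5, h4]
        have h4 : Real.sin θ ≤ Real.cosh x * (3 / 2 * Real.sinh x) := by
          rw [hs']
          exact mul_le_mul_of_nonneg_left h3 hch.le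
        have h5 := pow_le_pow_left₀ hsn.le h4 2
        have h6 : (Real.cosh x * (3 / 2 * Real.sinh x)) ^ 2 =
            9 / 4 * (Real.sinh x ^ 2 * (1 + Real.sinh x ^ 2)) := by
          rw [mul_pow, mul_pow, Real.cosh_sq]
          ring
        rw [h6] at h5
        have h7 : Real.sinh x ^ 2 * Real.sinh x ^ 2 ≤ 109561 / 1000000 * Real.sinh x ^ 2 :=
          mul_le_mul_of_nonneg_right hsx2 (sq_nonneg _)
        norm_num
        linarith only [h7, h5, hsx2, hsc, hpi', hpi]
      · refine start_disc (c := 19 / 20) (t := 87 / 100) ha hk0 hx hR hθ heq (by norm_num)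
          (by linarith only [h1, hsx, hR]) ?_ ?_
        · refine le_trans ?_ h2
          have h3 : 87 / 100 ≤ (1 + x ^ 2 / 2) * (1 - (k / a * x) ^ 2 / 2) := by
            have h4 : 1 * (87 / 100 : ℝ) ≤ (1 + x ^ 2 / 2) * (1 - (k / a * x) ^ 2 / 2) := by
              apply mul_le_mul _ (by linarith only [hsx2, hρx, hx2, hpi', hpi]) (by norm_num) (by positivity)
              have := sq_nonneg x
              linarith only [this]
            linarith only [h4]
          have h6 : 87 / 100 * (k / a * x) ≤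
              (1 + x ^ 2 / 2) * (1 - (k / a * x) ^ 2 / 2) * (k / a * x) :=
            mul_le_mul_of_nonneg_right h3 (by positivity)
          linarith only [h6]
        · linarith only [sq_nonneg (k / a - 2 / 5), hρ, hpi', hpi]
  obtain ⟨m1, m2, m3, m4⟩ := hmain
  obtain ⟨c1, c2, c3⟩ := start_cos hx hθ m1 hR (by linarith only [hR5, hpi', hpi]) (by norm_num) ht h8 h9 m2
  refine ⟨z, ⟨hR, hR', hI, ?_⟩, htr, c1, c2, c3, ?_, hz⟩
  · rw [hIx]
    exact start_im_le ha0 hk0.le hka m3
  · unfold Dz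
    rw [hIx]
    exact m4

/-- **The start of the continuity method.** -/
theorem start_mem {a w : ι → ℝ} {N : ι → Finset ι} {σ : ι → Bool} (hN : Nbr a w N σ) :
    ∃ z : ι → ℂ, (((0 : ℝ), z) : ℝ × (ι → ℂ)) ∈ KK N σ ∧ GG a w N σ 0 z = 0 := by
  have hex : ∀ i, ∃ z : ℂ, (0 < z.re ∧ z.re < Real.pi / 2 ∧ 0 < z.im ∧ z.im ≤ 2) ∧
      0 < (tan z).re ∧ 1 / 2 ≤ ‖cos z‖ ∧ ‖cos z‖ ≤ 11 / 10 ∧ -(cos z).im ≤ (cos z).re ∧
      (Bn N σ i → Dz z) ∧ (¬Bn N σ i → RR (tan z) ≤ 3 / 5) ∧
      (a i : ℂ) * z = (Real.pi : ℂ) +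
        I * (((((N i).card : ℝ) + w i : ℝ) : ℂ) * asr (tan z)) := by
    intro i
    have h3 := hN.a3 i
    have hw := hN.w0 i
    by_cases hB : Bn N σ i
    · obtain ⟨h5, h6⟩ := hN.pure i hB
      have h1 : (1 : ℝ) ≤ ((N i).card : ℝ) := by
        obtain ⟨j, hj, _⟩ := hB
        exact_mod_cast Finset.card_pos.2 ⟨j, hj⟩
      obtain ⟨z, e1, e2, e3, e4, e5, e6, e7⟩ := start_B h5 (by linarith only [h1, hw]) h6
      exact ⟨z, e1, e2, e3, e4, e5, fun _ => e6, fun h => absurd hB h, e7⟩
    · have hcard := (hN.card i (Or.inl hB)).1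
      have key : 1 / 2 ≤ ((N i).card : ℝ) + w i ∧ 4 ≤ a i + (((N i).card : ℝ) + w i) ∧
          (21 / 4 ≤ a i + (((N i).card : ℝ) + w i) ∨ ((N i).card : ℝ) + w i = 1 ∨
            ((N i).card : ℝ) + w i = 2 ∨ 7 / 2 ≤ a i) := by
        have h4 : (0 : ℝ) ≤ ((N i).card : ℝ) := Nat.cast_nonneg _
        rcases hw.eq_or_lt with h0 | h0
        · have h1 : 1 ≤ (N i).card := by
            rcases hN.ne i with h2 | h2
            · exact h2.card_pos
            · rw [← h0] at h2
              exact absurd h2 (lt_irrefl _)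
          have h2 : (1 : ℝ) ≤ ((N i).card : ℝ) := by exact_mod_cast h1
          rw [← h0, add_zero]
          refine ⟨by linarith only [h2], by linarith only [h2, h3], ?_⟩
          rcases (by omega : (N i).card = 1 ∨ (N i).card = 2 ∨ 3 ≤ (N i).card) with h | h | h
          · right; left
            rw [h]; norm_num
          · right; right; left
            rw [h]; norm_num
          · left
            have : (3 : ℝ) ≤ ((N i).card : ℝ) := by exact_mod_cast h
            linarith only [this, h3]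
        · obtain ⟨h1, h2⟩ := hN.big i h0
          exact ⟨by linarith only [h1], by linarith only [h2, h1], Or.inr (Or.inr (Or.inr h2))⟩
      obtain ⟨k1, k2, k3⟩ := key
      obtain ⟨z, e1, e2, e3, e4, e5, e6, e7⟩ := start_A h3 k1 hcard k2 k3
      exact ⟨z, e1, e2, e3, by linarith only [e4], e5, fun h => absurd h hB, fun _ => e6, e7⟩
  choose z h1 h2 h3 h4 h5 h6 h7 h8 using hex
  have hb : ∀ i j, bs σ 0 z i j = 1 := by
    intro i j
    unfold bs
    simp
  refine ⟨z, ⟨⟨le_rfl, zero_le_one⟩, fun i => ⟨⟨(h1 i).1.le, (h1 i).2.1.le, (h1 i).2.2.1.le,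
    (h1 i).2.2.2⟩, ⟨?_, ?_, ?_⟩, fun j _ => ?_, h6 i, h7 i⟩⟩, ?_⟩
  · have := h3 i
    norm_num at this ⊢
    linarith only [this]
  · have := h4 i
    norm_num at this ⊢
    linarith only [this]
  · have h11 : 0 ≤ (cos (z i)).re := by
      rw [GeoC_cos_re]
      exact mul_nonneg (Real.cos_nonneg_of_mem_Icc
        ⟨by linarith only [(h1 i).1, Real.pi_pos], (h1 i).2.1.le⟩) (Real.cosh_pos _).le
    have h12 := h5 i
    norm_num
    linarith only [h12, h11]
  · show 0 ≤ (bs σ 0 z i j * tan (z i)).re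
    rw [hb, one_mul]
    exact (h2 i).le
  · funext i
    show (a i : ℂ) * z i - (Real.pi : ℂ) - I * (∑ j ∈ N i, asr (bs σ 0 z i j * tan (z i)) +
      (w i : ℂ) * asr (tan (z i))) = 0
    simp only [hb, one_mul, Finset.sum_const, nsmul_eq_mul]
    rw [h8 i]
    push_cast
    ring

end Pool.Agent.MX.E
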