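import Pool.Agent.MX.E.Asr
import Pool.Agent.S3.E.Top

/-!
# Project MX, block E: compactness, continuity, interior

As in `Pool.Agent.AT.E.Top`; the coefficients `bs` are continuous everywhere.
-/

namespace Pool.Agent.MX.E

open Complex Topology Set Pool.Agent.S3.E

variable {ι : Type*}

private theorem Top_z (i : ι) : Continuous (fun y : ℝ × (ι → ℂ) => y.2 i) := by fun_prop

private theorem Top_cos (i : ι) : Continuous (fun y : ℝ × (ι → ℂ) => cos (y.2 i)) :=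
  Complex.continuous_cos.comp (Top_z i)

private theorem Top_tan {x : ℝ × (ι → ℂ)} (i : ι) (h : 0 < (cos (x.2 i)).re) :
    ContinuousAt (fun y : ℝ × (ι → ℂ) => tan (y.2 i)) x := by
  have hne : cos (x.2 i) ≠ 0 := by
    intro h0
    rw [h0] at h
    simp at h
  exact ContinuousAt.comp (f := fun y : ℝ × (ι → ℂ) => y.2 i) (g := tan)
    (Complex.continuousAt_tan.mpr hne) (Top_z i).continuousAt

private theorem Top_bs (σ : ι → Bool) (i j : ι) :
    Continuous (fun y : ℝ × (ι → ℂ) => bs σ y.1 y.2 i j) := by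
  have h1 : Continuous (fun y : ℝ × (ι → ℂ) =>
      (if σ i = σ j then cos (y.2 j) else (starRingEnd ℂ) (cos (y.2 j)))) := by
    split_ifs
    · exact Top_cos j
    · exact Complex.continuous_conj.comp (Top_cos j)
  have h3 : Continuous (fun y : ℝ × (ι → ℂ) => (y.1 : ℂ)) :=
    Complex.continuous_ofReal.comp continuous_fst
  exact continuous_const.add (h3.mul (h1.sub continuous_const))

private theorem Top_mul {x : ℝ × (ι → ℂ)} (σ : ι → Bool) (i j : ι)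
    (h : 0 < (cos (x.2 i)).re) :
    ContinuousAt (fun y : ℝ × (ι → ℂ) => bs σ y.1 y.2 i j * tan (y.2 i)) x :=
  (Top_bs σ i j).continuousAt.mul (Top_tan (x := x) i h)

private theorem Top_re {x : ℝ × (ι → ℂ)} (σ : ι → Bool) (i j : ι) (h : 0 < (cos (x.2 i)).re) :
    ContinuousAt (fun y : ℝ × (ι → ℂ) => (bs σ y.1 y.2 i j * tan (y.2 i)).re) x :=
  Complex.continuous_re.continuousAt.comp (Top_mul σ i j h)

private theorem Top_RR : Continuous RR := by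
  have h : RR = fun w => (ash w).im := by
    funext w
    rw [ash_im]
  rw [h]
  exact Complex.continuous_im.comp continuous_ash

private theorem Top_RRtan {x : ℝ × (ι → ℂ)} (i : ι) (h : 0 < (cos (x.2 i)).re) :
    ContinuousAt (fun y : ℝ × (ι → ℂ) => RR (tan (y.2 i))) x :=
  Top_RR.continuousAt.comp (Top_tan (x := x) i h)

/-- The closed set given by the first two groups of conditions. -/
private def TopA (ι : Type*) : Set (ℝ × (ι → ℂ)) :=
  {x | x.1 ∈ Set.Icc (0 : ℝ) 1 ∧ ∀ i,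
    (0 ≤ (x.2 i).re ∧ (x.2 i).re ≤ Real.pi / 2 ∧ 0 ≤ (x.2 i).im ∧ (x.2 i).im ≤ 2) ∧
    (0.49 ≤ ‖Complex.cos (x.2 i)‖ ∧ ‖Complex.cos (x.2 i)‖ ≤ 1.1 ∧
      -(Complex.cos (x.2 i)).im ≤ 1.04 * (Complex.cos (x.2 i)).re)}

private theorem TopA_closed : IsClosed (TopA ι) := by
  have hc (i : ι) : Continuous (fun x : ℝ × (ι → ℂ) => cos (x.2 i)) := Top_cos i
  have hi (i : ι) : Continuous (fun x : ℝ × (ι → ℂ) => x.2 i) := Top_z i
  have e : TopA ι = {x : ℝ × (ι → ℂ) | x.1 ∈ Set.Icc (0 : ℝ) 1} ∩ ⋂ i,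
      ({x | 0 ≤ (x.2 i).re} ∩ {x | (x.2 i).re ≤ Real.pi / 2} ∩ {x | 0 ≤ (x.2 i).im} ∩
        {x | (x.2 i).im ≤ 2} ∩ {x | 0.49 ≤ ‖Complex.cos (x.2 i)‖} ∩
        {x | ‖Complex.cos (x.2 i)‖ ≤ 1.1} ∩
        {x | -(Complex.cos (x.2 i)).im ≤ 1.04 * (Complex.cos (x.2 i)).re}) := by
    ext x
    simp only [TopA, mem_ofPred_eq, mem_inter_iff, mem_iInter]
    constructor
    · rintro ⟨h, h'⟩
      refine ⟨h, fun i => ?_⟩
      obtain ⟨⟨a, b, c, d⟩, e, f, g⟩ := h' i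
      exact ⟨⟨⟨⟨⟨⟨a, b⟩, c⟩, d⟩, e⟩, f⟩, g⟩
    · rintro ⟨h, h'⟩
      refine ⟨h, fun i => ?_⟩
      obtain ⟨⟨⟨⟨⟨⟨a, b⟩, c⟩, d⟩, e⟩, f⟩, g⟩ := h' i
      exact ⟨⟨a, b, c, d⟩, e, f, g⟩
  rw [e]
  refine IsClosed.inter (isClosed_Icc.preimage continuous_fst) (isClosed_iInter fun i => ?_)
  have hre : Continuous (fun x : ℝ × (ι → ℂ) => (x.2 i).re) := Complex.continuous_re.comp (hi i)
  have him : Continuous (fun x : ℝ × (ι → ℂ) => (x.2 i).im) := Complex.continuous_im.comp (hi i)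
  have hcre : Continuous (fun x : ℝ × (ι → ℂ) => (cos (x.2 i)).re) :=
    Complex.continuous_re.comp (hc i)
  have hcim : Continuous (fun x : ℝ × (ι → ℂ) => (cos (x.2 i)).im) :=
    Complex.continuous_im.comp (hc i)
  refine ((((((isClosed_le continuous_const hre).inter (isClosed_le hre continuous_const)).inter
    (isClosed_le continuous_const him)).inter (isClosed_le him continuous_const)).inter
    (isClosed_le continuous_const (hc i).norm)).inter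
    (isClosed_le (hc i).norm continuous_const)).inter
    (isClosed_le hcim.neg (continuous_const.mul hcre))

private theorem TopA_pos {x : ℝ × (ι → ℂ)} (hx : x ∈ TopA ι) (i : ι) : 0 < (cos (x.2 i)).re := by
  obtain ⟨⟨a, b, c, _⟩, e, _, g⟩ := hx.2 i
  exact re_cos_pos a b c e g

private theorem TopA_mem {N : ι → Finset ι} {σ : ι → Bool} {x : ℝ × (ι → ℂ)}
    (hx : x ∈ KK N σ) : x ∈ TopA ι := ⟨hx.1, fun i => ⟨(hx.2 i).1, (hx.2 i).2.1⟩⟩

private theorem Top_Dz (i : ι) : IsClosed {x : ℝ × (ι → ℂ) | Dz (x.2 i)} := by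
  have hre : Continuous (fun x : ℝ × (ι → ℂ) => (x.2 i).re) :=
    Complex.continuous_re.comp (Top_z i)
  have him : Continuous (fun x : ℝ × (ι → ℂ) => (x.2 i).im) :=
    Complex.continuous_im.comp (Top_z i)
  exact isClosed_le ((hre.pow 2).add (him.pow 2))
    (continuous_const.mul (hre.add (him.div_const 4)))

private theorem Top_closed (N : ι → Finset ι) (σ : ι → Bool) : IsClosed (KK N σ) := by
  have e : KK N σ = ((⋂ i, ⋂ j ∈ N i,
      (TopA ι ∩ (fun x : ℝ × (ι → ℂ) => (bs σ x.1 x.2 i j * tan (x.2 i)).re) ⁻¹' Ici 0)) ∩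
      ((⋂ i, ⋂ _ : Bn N σ i, {x : ℝ × (ι → ℂ) | Dz (x.2 i)}) ∩
      (⋂ i, ⋂ _ : ¬Bn N σ i,
        (TopA ι ∩ (fun x : ℝ × (ι → ℂ) => RR (tan (x.2 i))) ⁻¹' Iic (3 / 5))))) ∩
      TopA ι := by
    ext x
    simp only [mem_inter_iff, mem_iInter, mem_preimage, mem_Ici, mem_Iic, mem_ofPred_eq]
    constructor
    · intro h
      exact ⟨⟨fun i j hj => ⟨TopA_mem h, (h.2 i).2.2.1 j hj⟩,
        fun i hi => (h.2 i).2.2.2.1 hi, fun i hi => ⟨TopA_mem h, (h.2 i).2.2.2.2 hi⟩⟩,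
        TopA_mem h⟩
    · rintro ⟨⟨h1, h2, h3⟩, h4⟩
      exact ⟨h4.1, fun i => ⟨(h4.2 i).1, (h4.2 i).2, fun j hj => (h1 i j hj).2, h2 i,
        fun hi => (h3 i hi).2⟩⟩
  rw [e]
  refine IsClosed.inter (IsClosed.inter (isClosed_iInter fun i => isClosed_iInter fun j =>
    isClosed_iInter fun _ => ?_) (IsClosed.inter (isClosed_iInter fun i =>
    isClosed_iInter fun _ => Top_Dz i) (isClosed_iInter fun i =>
    isClosed_iInter fun _ => ?_))) TopA_closed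
  · exact ContinuousOn.preimage_isClosed_of_isClosed
      (fun x hx => (Top_re σ i j (TopA_pos hx i)).continuousWithinAt) TopA_closed isClosed_Ici
  · exact ContinuousOn.preimage_isClosed_of_isClosed
      (fun x hx => (Top_RRtan i (TopA_pos hx i)).continuousWithinAt) TopA_closed isClosed_Iic

theorem KK_compact [Fintype ι] (N : ι → Finset ι) (σ : ι → Bool) : IsCompact (KK N σ) := by
  have hb : IsCompact (Icc (0 : ℝ) 1 ×ˢ (Set.pi univ fun _ : ι =>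
      (Icc (0 : ℝ) (Real.pi / 2) ×ℂ Icc (0 : ℝ) 2))) :=
    isCompact_Icc.prod (isCompact_univ_pi fun _ => isCompact_Icc.reProdIm isCompact_Icc)
  refine hb.of_isClosed_subset (Top_closed N σ) ?_
  intro x hx
  refine ⟨hx.1, fun i _ => ?_⟩
  obtain ⟨a, b, c, d⟩ := (hx.2 i).1
  exact ⟨⟨a, b⟩, ⟨c, d⟩⟩

theorem GG_continuousOn [Fintype ι] (a w : ι → ℝ) (N : ι → Finset ι) (σ : ι → Bool) :
    ContinuousOn (fun x : ℝ × (ι → ℂ) => GG a w N σ x.1 x.2) (KK N σ) := by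
  rw [continuousOn_pi]
  intro i x hx
  apply ContinuousAt.continuousWithinAt
  have hp : 0 < (cos (x.2 i)).re := TopA_pos (TopA_mem hx) i
  have ht := Top_tan (x := x) i hp
  have h1 : ∀ j ∈ N i, ContinuousAt
      (fun y : ℝ × (ι → ℂ) => asr (bs σ y.1 y.2 i j * tan (y.2 i))) x := fun j _ =>
    continuous_asr.continuousAt.comp (Top_mul σ i j hp)
  have h0 : ContinuousAt (fun y : ℝ × (ι → ℂ) => (a i : ℂ) * y.2 i - (Real.pi : ℂ)) x := by
    fun_prop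
  have h2 : ContinuousAt (fun y : ℝ × (ι → ℂ) =>
      ∑ j ∈ N i, asr (bs σ y.1 y.2 i j * tan (y.2 i))) x := tendsto_finsetSum _ h1
  have h3 : ContinuousAt (fun y : ℝ × (ι → ℂ) => (w i : ℂ) * asr (tan (y.2 i))) x :=
    continuousAt_const.mul (continuous_asr.continuousAt.comp ht)
  exact h0.sub (continuousAt_const.mul (h2.add h3))

/-- A point of `KK` at which all inequalities are strict is an interior point (relative to
`τ ∈ [0,1]`). -/
theorem KK_interior [Fintype ι] (N : ι → Finset ι) (σ : ι → Bool) {τ : ℝ} {z : ι → ℂ}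
    (h1 : ∀ i, 0 < (z i).re ∧ (z i).re < Real.pi / 2 ∧ 0 < (z i).im ∧ (z i).im < 2)
    (h2 : ∀ i, 0.49 < ‖cos (z i)‖ ∧ ‖cos (z i)‖ < 1.1 ∧
      -(cos (z i)).im < 1.04 * (cos (z i)).re)
    (h3 : ∀ i, ∀ j ∈ N i, 0 < (bs σ τ z i j * tan (z i)).re)
    (h4 : ∀ i, Bn N σ i → (z i).re ^ 2 + (z i).im ^ 2 <
      Real.pi / 5 * ((z i).re + (z i).im / 4))
    (h5 : ∀ i, ¬Bn N σ i → RR (tan (z i)) < 3 / 5) :
    ∀ᶠ y in 𝓝 ((τ, z) : ℝ × (ι → ℂ)), y.1 ∈ Icc (0 : ℝ) 1 → y ∈ KK N σ := by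
  have hp : ∀ i, 0 < (cos (z i)).re := by
    intro i
    rw [GeoC_cos_re]
    exact mul_pos (Real.cos_pos_of_mem_Ioo ⟨by linarith [Real.pi_pos, (h1 i).1], (h1 i).2.1⟩)
      (Real.cosh_pos _)
  have hi (i : ι) : ContinuousAt (fun x : ℝ × (ι → ℂ) => x.2 i) ((τ, z) : ℝ × (ι → ℂ)) :=
    (Top_z i).continuousAt
  have hc (i : ι) : ContinuousAt (fun x : ℝ × (ι → ℂ) => cos (x.2 i)) ((τ, z) : ℝ × (ι → ℂ)) :=
    (Top_cos i).continuousAt
  have hre (i : ι) : ContinuousAt (fun x : ℝ × (ι → ℂ) => (x.2 i).re)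
      ((τ, z) : ℝ × (ι → ℂ)) := Complex.continuous_re.continuousAt.comp (hi i)
  have him (i : ι) : ContinuousAt (fun x : ℝ × (ι → ℂ) => (x.2 i).im)
      ((τ, z) : ℝ × (ι → ℂ)) := Complex.continuous_im.continuousAt.comp (hi i)
  have hcre (i : ι) : ContinuousAt (fun x : ℝ × (ι → ℂ) => (cos (x.2 i)).re)
      ((τ, z) : ℝ × (ι → ℂ)) := Complex.continuous_re.continuousAt.comp (hc i)
  have hcim (i : ι) : ContinuousAt (fun x : ℝ × (ι → ℂ) => (cos (x.2 i)).im)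
      ((τ, z) : ℝ × (ι → ℂ)) := Complex.continuous_im.continuousAt.comp (hc i)
  have hn (i : ι) : ContinuousAt (fun x : ℝ × (ι → ℂ) => ‖cos (x.2 i)‖)
      ((τ, z) : ℝ × (ι → ℂ)) := (hc i).norm
  have hbo (i : ι) : ∀ᶠ y in 𝓝 ((τ, z) : ℝ × (ι → ℂ)),
      ∀ j ∈ N i, 0 ≤ (bs σ y.1 y.2 i j * tan (y.2 i)).re := by
    rw [Filter.eventually_all_finset]
    intro j hj
    have hcont := Top_re (x := ((τ, z) : ℝ × (ι → ℂ))) σ i j (hp i)
    filter_upwards [(tendsto_order.1 hcont.tendsto).1 0 (h3 i j hj)] with y hy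
    exact hy.le
  have hD (i : ι) : ∀ᶠ y in 𝓝 ((τ, z) : ℝ × (ι → ℂ)), Bn N σ i → Dz (y.2 i) := by
    by_cases hB : Bn N σ i
    · have hd : ContinuousAt (fun x : ℝ × (ι → ℂ) =>
          Real.pi / 5 * ((x.2 i).re + (x.2 i).im / 4) - ((x.2 i).re ^ 2 + (x.2 i).im ^ 2))
          ((τ, z) : ℝ × (ι → ℂ)) :=
        (continuousAt_const.mul ((hre i).add ((him i).div_const 4))).sub
          (((hre i).pow 2).add ((him i).pow 2))
      filter_upwards [(tendsto_order.1 hd.tendsto).1 0 (by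
        have := h4 i hB
        show 0 < Real.pi / 5 * ((z i).re + (z i).im / 4) - ((z i).re ^ 2 + (z i).im ^ 2)
        linarith)] with y hy _
      show (y.2 i).re ^ 2 + (y.2 i).im ^ 2 ≤ Real.pi / 5 * ((y.2 i).re + (y.2 i).im / 4)
      linarith
    · exact Filter.Eventually.of_forall fun y h => absurd h hB
  have hR (i : ι) : ∀ᶠ y in 𝓝 ((τ, z) : ℝ × (ι → ℂ)),
      ¬Bn N σ i → RR (tan (y.2 i)) ≤ 3 / 5 := by
    by_cases hB : Bn N σ i
    · exact Filter.Eventually.of_forall fun y h => absurd hB h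
    · have hd := Top_RRtan (x := ((τ, z) : ℝ × (ι → ℂ))) i (hp i)
      filter_upwards [(tendsto_order.1 hd.tendsto).2 (3 / 5) (h5 i hB)] with y hy _
      exact hy.le
  have key : ∀ᶠ y in 𝓝 ((τ, z) : ℝ × (ι → ℂ)), ∀ i,
      (0 ≤ (y.2 i).re ∧ (y.2 i).re ≤ Real.pi / 2 ∧ 0 ≤ (y.2 i).im ∧ (y.2 i).im ≤ 2) ∧
      (0.49 ≤ ‖Complex.cos (y.2 i)‖ ∧ ‖Complex.cos (y.2 i)‖ ≤ 1.1 ∧
        -(Complex.cos (y.2 i)).im ≤ 1.04 * (Complex.cos (y.2 i)).re) ∧
      (∀ j ∈ N i, 0 ≤ (bs σ y.1 y.2 i j * Complex.tan (y.2 i)).re) ∧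
      (Bn N σ i → Dz (y.2 i)) ∧ (¬Bn N σ i → RR (Complex.tan (y.2 i)) ≤ 3 / 5) := by
    rw [Filter.eventually_all]
    intro i
    have e1 := (tendsto_order.1 (hre i).tendsto).1 0 (h1 i).1
    have e2 := (tendsto_order.1 (hre i).tendsto).2 (Real.pi / 2) (h1 i).2.1
    have e3 := (tendsto_order.1 (him i).tendsto).1 0 (h1 i).2.2.1
    have e4 := (tendsto_order.1 (him i).tendsto).2 2 (h1 i).2.2.2
    have e5 := (tendsto_order.1 (hn i).tendsto).1 0.49 (h2 i).1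
    have e6 := (tendsto_order.1 (hn i).tendsto).2 1.1 (h2 i).2.1
    have hd : ContinuousAt (fun x : ℝ × (ι → ℂ) => 1.04 * (cos (x.2 i)).re + (cos (x.2 i)).im)
        ((τ, z) : ℝ × (ι → ℂ)) := (continuousAt_const.mul (hcre i)).add (hcim i)
    have e7 := (tendsto_order.1 hd.tendsto).1 0 (by
      have := (h2 i).2.2
      show 0 < 1.04 * (cos (z i)).re + (cos (z i)).im
      linarith)
    filter_upwards [e1, e2, e3, e4, e5, e6, e7, hbo i, hD i, hR i] with y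
      f1 f2 f3 f4 f5 f6 f7 f8 f9 f10
    refine ⟨⟨f1.le, f2.le, f3.le, f4.le⟩, ⟨f5.le, f6.le, ?_⟩, f8, f9, f10⟩
    linarith
  filter_upwards [key] with y hy h01
  exact ⟨h01, hy⟩

end Pool.Agent.MX.E
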