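import Pool.Agent.MX.E.Bnd
import Pool.Agent.MX.E.Dom3
import Pool.Agent.MX.E.DomB
import Pool.Agent.MX.E.Top
import Pool.Agent.MX.E.Der
import Pool.Agent.MX.E.Start
import Pool.Agent.S3.E.Cont

/-!
# Project MX, block E: existence of the critical point
-/

namespace Pool.Agent.MX.E

open Complex Topology Pool.Agent.AT.E
open Pool.Agent.S3.E hiding bo ro be KK

variable {ι : Type*}

theorem Ev_tanh {b z : ℂ} (hc : cos z ≠ 0) (hs : sin z ≠ 0) (hw : 0 ≤ (b * tan z).re) :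
    Ev b z * (sin z * cos z) = tanh (asr (b * tan z)) := by
  unfold Ev
  rw [tanh_eq_sinh_div_cosh, sinh_asr hw, tan_eq_sin_div_cos]
  field_simp

namespace Zr

variable {a w : ι → ℝ} {N : ι → Finset ι} {σ : ι → Bool} {τ : ℝ} {z : ι → ℂ}

theorem cos_ne (h : Zr a w N σ τ z) (i : ι) : cos (z i) ≠ 0 :=
  cos_ne_of (h.pos i).1.le (h.pos i).2.1

theorem s2pos (h : Zr a w N σ τ z) (i : ι) : 0 < s2 (z i).re (z i).im :=
  s2_pos (h.pos i).1 (h.pos i).2.1

theorem sin_ne (h : Zr a w N σ τ z) (i : ι) : sin (z i) ≠ 0 := by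
  intro h0
  have h1 := norm_sin_sq (z i)
  rw [h0, norm_zero] at h1
  have h2 := h.s2pos i
  norm_num at h1
  linarith

theorem k2_geA (h : Zr a w N σ τ z) {i : ι} (hi : ¬Bn N σ i) :
    1 / 4 ≤ k2 (z i).re (z i).im := (h.vx hi).lemL3

theorem normA [Finite ι] (h : Zr a w N σ τ z) {i : ι} (hi : ¬Bn N σ i) :
    1 / 2 ≤ ‖cos (z i)‖ ∧ ‖cos (z i)‖ ≤ 1 := by
  have h1 := norm_cos_sq (z i)
  have h2 := h.k2_geA hi
  have h3 := h.k2_le hi
  have h4 := norm_nonneg (cos (z i))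
  constructor <;> nlinarith

theorem normB (h : Zr a w N σ τ z) {i : ι} (hi : Bn N σ i) :
    4 / 5 ≤ ‖cos (z i)‖ ∧ ‖cos (z i)‖ ≤ 1.06 := by
  have hk := h.kb hi
  constructor
  · exact hk.re.trans (Complex.re_le_norm _)
  · apply le_of_sq_le_sq _ (by norm_num)
    have := hk.nn
    rw [Complex.sq_norm, normSq_apply]
    norm_num at this ⊢
    linarith

theorem im_lt [Finite ι] (h : Zr a w N σ τ z) (i : ι) : (z i).im < 2 := by
  by_cases hi : Bn N σ i
  · have := (h.nm hi).I1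
    linarith
  · have h1 := h.k2_le hi
    have h2 := neg_one_lt_gg (h.pos i).1 (h.pos i).2.1
    have h3 : cc (z i).im < 3 := by unfold k2 at h1; linarith
    by_contra hc
    push Not at hc
    have h4 : 1 + (2 * (z i).im) ^ 2 / 2 ≤ Real.cosh (2 * (z i).im) := by
      have h5 : Real.cosh (2 * (z i).im) = 1 + 2 * Real.sinh (z i).im ^ 2 := by
        rw [Real.cosh_two_mul, Real.cosh_sq]; ring
      have h6 : (z i).im ≤ Real.sinh (z i).im := Real.self_le_sinh_iff.2 (h.pos i).2.2.le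
      have h7 := (h.pos i).2.2
      nlinarith
    unfold cc at h3
    nlinarith

/-- The coefficients at a vertex of the disc. -/
theorem slB [Finite ι] (h : Zr a w N σ τ z) {i j : ι} (hij : j ∈ N i) :
    SlB (bs σ τ z i j) := by
  by_cases hs : σ i = σ j
  · have hk := h.kbs hij hs
    exact ⟨hk.nn, Or.inl ⟨hk.re, hk.im, hk.sl⟩⟩
  · refine ⟨?_, Or.inr ⟨h.bre i j, h.bim hs, h.half hs⟩⟩
    have h1 : ‖bs σ τ z i j‖ ≤ 1.06 := by
      apply h.norm_le_max i j (by norm_num)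
      by_cases hj : Bn N σ j
      · exact (h.normB hj).2
      · have := (h.normA hj).2
        norm_num
        linarith
    have h2 := pow_le_pow_left₀ (norm_nonneg _) h1 2
    rw [Complex.sq_norm, normSq_apply] at h2
    norm_num at h2 ⊢
    linarith

theorem dom [Finite ι] (h : Zr a w N σ τ z) (i : ι) :
    ‖sin (z i)‖ ^ 2 * ∑ j ∈ N i, ‖Ev (bs σ τ z i j) (z i)‖ <
      ‖(a i : ℂ) - I * (∑ j ∈ N i, Ev (bs σ τ z i j) (z i) + (w i : ℂ) * Ev 1 (z i))‖ := by
  obtain ⟨hR0, hR1, hI⟩ := h.pos i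
  by_cases hi : Bn N σ i
  · exact domB (h.nm hi) (h.nb.pure i hi).1 (h.nb.w0 i) (h.nb.pure i hi).2
      (fun j hj => h.slB hj) (fun j hj => h.w_pos hj)
  · have hop : ∀ j ∈ N i, σ i ≠ σ j := fun j hj hs => hi ⟨j, hj, hs⟩
    have hd := Vx.dom3 (h.vx hi) (h.k2_le hi) (h.chord hi) (z := z i) rfl rfl (by
      intro j hj
      have h1 : 0 < (qs σ τ z i j).re := asr_re_pos (h.w_pos hj)
      have h2 : (qs σ τ z i j).re ≠ 0 := h1.ne'
      have h3 : 1 < Real.cosh (2 * (qs σ τ z i j).re) := Real.one_lt_cosh.2 (by simpa using h2)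
      linarith [Real.neg_one_le_cos (2 * (qs σ τ z i j).im)])
    have hS := h.sin_ne i
    have hC := h.cos_ne i
    have hSC : sin (z i) * cos (z i) ≠ 0 := mul_ne_zero hS hC
    have hp : 0 < ‖sin (z i) * cos (z i)‖ := norm_pos_iff.2 hSC
    have e1 : ∀ j ∈ N i, tanh (((qs σ τ z i j).re : ℂ) + ((qs σ τ z i j).im : ℂ) * I) =
        Ev (bs σ τ z i j) (z i) * (sin (z i) * cos (z i)) := by
      intro j hj
      rw [re_add_im, Ev_tanh hC hS (h.wre hj)]
      rfl
    have e2 : tanh (((xx (z i).re (z i).im : ℝ) : ℂ) + ((th (z i).re (z i).im : ℝ) : ℂ) * I) =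
        Ev 1 (z i) * (sin (z i) * cos (z i)) := by
      rw [← asr_tan hR0 hR1 hI, Ev_tanh hC hS (by
        rw [one_mul]; exact (tan_pos' hR0 hR1 hI).1.le), one_mul]
    rw [e2, Finset.sum_congr rfl fun j hj => by rw [e1 j hj, norm_mul], ← Finset.sum_mul,
      Finset.sum_congr rfl e1, ← Finset.sum_mul] at hd
    have e3 : (a i : ℂ) * (cos (z i) * sin (z i)) -
        I * ((∑ j ∈ N i, Ev (bs σ τ z i j) (z i)) * (sin (z i) * cos (z i)) +
          (w i : ℂ) * (Ev 1 (z i) * (sin (z i) * cos (z i)))) =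
        ((a i : ℂ) - I * (∑ j ∈ N i, Ev (bs σ τ z i j) (z i) + (w i : ℂ) * Ev 1 (z i))) *
          (sin (z i) * cos (z i)) := by ring
    rw [e3, norm_mul (_ - _) (sin (z i) * cos (z i)), ← mul_assoc] at hd
    have := lt_of_mul_lt_mul_right hd hp.le
    rwa [norm_sin_sq]

theorem interior [Fintype ι] (h : Zr a w N σ τ z) :
    ∀ᶠ y in 𝓝 ((τ, z) : ℝ × (ι → ℂ)), y.1 ∈ Set.Icc (0 : ℝ) 1 → y ∈ KK N σ := by
  apply KK_interior
  · intro i
    exact ⟨(h.pos i).1, (h.pos i).2.1, (h.pos i).2.2, h.im_lt i⟩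
  · intro i
    have h1 := h.sl_all i
    have h2 := h.kre i
    have h3 := h.kim i
    refine ⟨?_, ?_, ?_⟩
    · by_cases hi : Bn N σ i
      · have := (h.normB hi).1
        norm_num
        linarith
      · have := (h.normA hi).1
        norm_num
        linarith
    · by_cases hi : Bn N σ i
      · have := (h.normB hi).2
        norm_num at this ⊢
        linarith
      · have := (h.normA hi).2
        norm_num
        linarith
    · norm_num
      linarith
  · intro i j hj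
    exact h.w_pos hj
  · intro i hi
    exact h.disc_lt hi
  · intro i hi
    rw [AT2.E.RR_tan (h.pos i).1 (h.pos i).2.1 (h.pos i).2.2]
    have := h.th_leA hi
    linarith

end Zr

/-- **Existence of the critical point.** -/
theorem exists_zero [Fintype ι] {a w : ι → ℝ} {N : ι → Finset ι} {σ : ι → Bool}
    (hN : Nbr a w N σ) : ∃ z : ι → ℂ, Zr a w N σ 1 z := by
  obtain ⟨z, hz, hz'⟩ := cont_method (fun x : ℝ × (ι → ℂ) => GG a w N σ x.1 x.2) (KK N σ)
    (KK_compact N σ) (fun x hx => hx.1) (GG_continuousOn a w N σ) (by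
      rintro ⟨τ, z⟩ hx h0
      have h : Zr a w N σ τ z := ⟨hN, hx, h0⟩
      refine ⟨h.interior, ?_⟩
      obtain ⟨F', hF, hF'⟩ := GG_deriv a w N σ (τ := τ) (z := z) h.cos_ne
        (fun i j hj => h.w_pos hj)
        (fun i => (tan_pos' (h.pos i).1 (h.pos i).2.1 (h.pos i).2.2).1)
      refine ⟨F', hF, fun v hv => inj h.τ0 h.τ1 h.kre h.sin_ne
        (fun i j hj => h.w_pos hj) h.dom v fun i => ?_⟩
      rw [← hF' v i, hv]
      rfl) (start_mem hN)
  exact ⟨z, hN, hz, hz'⟩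

end Pool.Agent.MX.E
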