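import Pool.Agent.AT2.E.VA
import Pool.Agent.H63.VC.Asym
import Pool.Agent.H63.VC.EndB
import Pool.Agent.H63.VC.Riem
import Pool.Agent.H63.VC.SlowL
import Pool.Agent.H63.VC.SlowU
import Pool.Agent.H63.VC3.CritB
import Pool.Agent.H63.VC3.Upper
import Pool.Agent.H63.VC4.KBN
import Pool.Agent.H63.VC4.UpperN
import Pool.Agent.H63.VC5.Defs
import Pool.Agent.H63.VC5.FFdilog
import Pool.Agent.H63.VC6.LocU
import Pool.Agent.H63.VC6.SlotU
import Pool.Agent.H63.VC7.Link
import Pool.Agent.H63.VC7.QcLL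
import Pool.Agent.S3.Gr2

/-!
# Project MX, block E: slots whose coefficient may be larger than one

`ρ² ≤ 1 + 3/5 β`, `β ≤ 1/2`. Let `u = x + i θ`, `sinh u = tan z`, `T = |tan z|`, `q = p + i r`. If
`p > x`, then `ρ T² sin β = Im (sinh q conj (sinh u)) ≤ sinh p cosh x sin (r - θ)`, hence
`T sin β ≤ cosh x sin (r - θ)`, and
`sinh² p - sinh² x = (ρ² - 1) T² - sin (r - θ) sin (r + θ)`.
-/

namespace Pool.Agent.MX.E

open Real Pool.Agent.S3.E
open Pool.Agent.AT.E (V4_sin3 V4_sin5 V4_cos4 sin_th_le)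

variable {R I ρ β p r : ℝ}

theorem tt_sq_xx (h : 0 < R) (h' : R < π / 2) (hI : 0 < I) :
    tt R I ^ 2 = sinh (xx R I) ^ 2 + sin (th R I) ^ 2 := by
  have f1 := cosh_two_xx h h' hI
  have f2 := cos_two_th h h' hI
  have hk0 := k2_pos (I := I) h h'
  rw [tt_sq h h']
  have f3 : s2 R I / k2 R I = (cosh (2 * xx R I) - cos (2 * th R I)) / 2 := by
    rw [f1, f2]
    field_simp
    ring
  rw [f3, Real.cosh_two_mul, Real.cosh_sq, Real.cos_two_mul, Real.cos_sq']
  ring

/-- `sinh² x - sin² θ = (1 - |κ|²) / |κ|²`. -/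
theorem sinh_sq_sub (h : 0 < R) (h' : R < π / 2) (hI : 0 < I) :
    k2 R I * (sinh (xx R I) ^ 2 - sin (th R I) ^ 2) = 1 - k2 R I := by
  have f1 := cosh_two_xx h h' hI
  have f2 := cos_two_th h h' hI
  have hk0 := k2_pos (I := I) h h'
  rw [Real.cosh_two_mul, Real.cosh_sq, eq_div_iff hk0.ne'] at f1
  rw [Real.cos_two_mul, Real.cos_sq', eq_div_iff hk0.ne'] at f2
  nlinarith

theorem sinh_le_sin (h : 0 < R) (h' : R < π / 2) (hI : 0 < I) (hk : 1 ≤ k2 R I) :
    sinh (xx R I) ≤ sin (th R I) := by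
  have e := sinh_sq_sub h h' hI
  have hx := xx_pos h h' hI
  have ht := th_pos h h' hI
  have ht' := th_lt h h' hI
  have hs : 0 < sin (th R I) := sin_pos_of_pos_of_lt_pi ht (by linarith)
  refine le_of_sq_le_sq ?_ hs.le
  by_contra hn
  push Not at hn
  have : 0 < k2 R I * (sinh (xx R I) ^ 2 - sin (th R I) ^ 2) :=
    mul_pos (by linarith) (by linarith)
  linarith

theorem Slot.sq_eq (hs : Slot R I ρ β p r) : (ρ * tt R I) ^ 2 = sinh p ^ 2 + sin r ^ 2 := by
  have hc := Real.cos_sq_add_sin_sq r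
  have hch := Real.cosh_sq p
  have hg := Real.cos_sq_add_sin_sq (al R I + β)
  have e1 : (ρ * tt R I) ^ 2 * cos (al R I + β) ^ 2 = sinh p ^ 2 * (1 - sin r ^ 2) := by
    have := congrArg (fun x => x ^ 2) hs.e1
    simp only [mul_pow] at this
    have a : cos r ^ 2 = 1 - sin r ^ 2 := by linarith
    rw [← a, this, mul_pow]
  have e2 : (ρ * tt R I) ^ 2 * sin (al R I + β) ^ 2 = (1 + sinh p ^ 2) * sin r ^ 2 := by
    have := congrArg (fun x => x ^ 2) hs.e2
    simp only [mul_pow] at this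
    have a : cosh p ^ 2 = 1 + sinh p ^ 2 := by linarith
    rw [← a, this, mul_pow]
  calc (ρ * tt R I) ^ 2 = (ρ * tt R I) ^ 2 * (cos (al R I + β) ^ 2 + sin (al R I + β) ^ 2) := by
        rw [hg, mul_one]
    _ = (ρ * tt R I) ^ 2 * cos (al R I + β) ^ 2 + (ρ * tt R I) ^ 2 * sin (al R I + β) ^ 2 := by
        ring
    _ = _ := by rw [e1, e2]; ring

/-- `Im (sinh q conj (sinh u)) = ρ T² sin β`. -/
theorem Slot.im_eq (hs : Slot R I ρ β p r) (h : 0 < R) (h' : R < π / 2) (hI : 0 < I) :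
    ρ * tt R I ^ 2 * sin β = cosh p * sin r * (sinh (xx R I) * cos (th R I)) -
      sinh p * cos r * (cosh (xx R I) * sin (th R I)) := by
  have hu := AT2.E.half_slot h h' hI
  have u1 := hu.e1
  have u2 := hu.e2
  rw [one_mul, add_zero] at u1 u2
  rw [hs.e1, hs.e2, u1, u2]
  have e : sin β = sin (al R I + β) * cos (al R I) - cos (al R I + β) * sin (al R I) := by
    rw [← sin_sub, add_sub_cancel_left]
  rw [e]
  ring

theorem sin_ratio {β : ℝ} (h0 : 0 ≤ β) (h1 : β ≤ 1 / 2) : 23 / 24 * β ≤ sin β := by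
  have h := V4_sin3 h0
  have h2 : β ^ 3 ≤ β * (1 / 4) := by
    have : β ^ 2 ≤ (1 / 2) ^ 2 := pow_le_pow_left₀ h0 h1 2
    calc β ^ 3 = β * β ^ 2 := by ring
      _ ≤ β * (1 / 4) := mul_le_mul_of_nonneg_left (by linarith) h0
  linarith

/-- If `p > x`, then `r ≥ θ`, `T sin β ≤ cosh x sin (r - θ)` and the difference of the `sinh²` is
bounded. -/
theorem Slot.gt (hs : Slot R I ρ β p r) (h : 0 < R) (h' : R < π / 2) (hI : 0 < I)
    (hρ : ρ ^ 2 ≤ 1 + 3 / 5 * β) (hβ : β ≤ 1 / 2) (hp : xx R I < p) :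
    th R I ≤ r ∧ sinh p ^ 2 - sinh (xx R I) ^ 2 ≤
      72 / 115 * tt R I * cosh (xx R I) * sin (r - th R I) -
        sin (r - th R I) * sin (r + th R I) := by
  have hx := xx_pos h h' hI
  have ht := th_pos h h' hI
  have ht' := th_lt h h' hI
  have hT := tt_pos (I := I) h h'
  have hsx : 0 < sinh (xx R I) := sinh_pos_iff.2 hx
  have hcx := cosh_pos (xx R I)
  have hsp : 0 < sinh p := sinh_pos_iff.2 (hx.trans hp)
  have hcp := cosh_pos p
  have hsr : 0 ≤ sin r := sin_nonneg_of_nonneg_of_le_pi hs.r0 (by linarith [hs.r1, pi_pos])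
  have hct : 0 < cos (th R I) := cos_pos_of_mem_Ioo ⟨by linarith, ht'⟩
  have hsb : 0 ≤ sin β := sin_nonneg_of_nonneg_of_le_pi hs.β0 (by linarith [pi_gt_three])
  have hsq := Slot.sq_eq hs
  have him := Slot.im_eq hs h h' hI
  -- `ρ > 0`
  have hρ0 : 0 < ρ := by
    rcases hs.ρ0.eq_or_lt with e | e
    · exfalso
      rw [← e, zero_mul] at hsq
      have : 0 < sinh p ^ 2 := by positivity
      have := sq_nonneg (sin r)
      linarith
    · exact e
  have hle : sinh p ≤ ρ * tt R I := by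
    refine le_of_sq_le_sq ?_ (by positivity)
    rw [hsq]
    linarith [sq_nonneg (sin r)]
  -- `cosh p sinh x ≤ sinh p cosh x`
  have h1 : cosh p * sinh (xx R I) ≤ sinh p * cosh (xx R I) := by
    have : 0 ≤ sinh (p - xx R I) := sinh_nonneg_iff.2 (by linarith)
    rw [sinh_sub] at this
    linarith
  have h2 : ρ * tt R I ^ 2 * sin β ≤ sinh p * cosh (xx R I) * sin (r - th R I) := by
    rw [him, sin_sub]
    have := mul_le_mul_of_nonneg_right h1 (mul_nonneg hsr hct.le)
    linarith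
  have hδ : 0 ≤ sin (r - th R I) := by
    have h3 : 0 ≤ ρ * tt R I ^ 2 * sin β := by positivity
    by_contra hn
    push Not at hn
    have : sinh p * cosh (xx R I) * sin (r - th R I) < 0 :=
      mul_neg_of_pos_of_neg (by positivity) hn
    linarith
  have hr : th R I ≤ r := by
    by_contra hn
    push Not at hn
    have : sin (r - th R I) < 0 :=
      sin_neg_of_neg_of_neg_pi_lt (by linarith) (by linarith [hs.r0, pi_pos])
    linarith
  refine ⟨hr, ?_⟩
  -- `T sin β ≤ cosh x sin δ`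
  have h3 : tt R I * sin β ≤ cosh (xx R I) * sin (r - th R I) := by
    have h4 : sinh p * cosh (xx R I) * sin (r - th R I) ≤
        ρ * tt R I * (cosh (xx R I) * sin (r - th R I)) := by
      have := mul_le_mul_of_nonneg_right hle (mul_nonneg hcx.le hδ)
      linarith
    have h5 : ρ * tt R I * (tt R I * sin β) ≤
        ρ * tt R I * (cosh (xx R I) * sin (r - th R I)) := by
      have e : ρ * tt R I * (tt R I * sin β) = ρ * tt R I ^ 2 * sin β := by ring
      rw [e]
      exact h2.trans h4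
    exact le_of_mul_le_mul_left h5 (by positivity)
  have e1 : sinh p ^ 2 - sinh (xx R I) ^ 2 = (ρ ^ 2 - 1) * tt R I ^ 2 -
      sin (r - th R I) * sin (r + th R I) := by
    have e2 : sin (r - th R I) * sin (r + th R I) = sin r ^ 2 - sin (th R I) ^ 2 := by
      rw [sin_sub, sin_add]
      have c1 := sin_sq_add_cos_sq r
      have c2 := sin_sq_add_cos_sq (th R I)
      have c1' : cos r ^ 2 = 1 - sin r ^ 2 := by linarith
      have c2' : cos (th R I) ^ 2 = 1 - sin (th R I) ^ 2 := by linarith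
      calc (sin r * cos (th R I) - cos r * sin (th R I)) *
            (sin r * cos (th R I) + cos r * sin (th R I)) =
            sin r ^ 2 * cos (th R I) ^ 2 - cos r ^ 2 * sin (th R I) ^ 2 := by ring
        _ = _ := by rw [c1', c2']; ring
    have e3 := tt_sq_xx h h' hI
    rw [mul_pow] at hsq
    rw [e2]
    linarith
  rw [e1]
  have h6 : (ρ ^ 2 - 1) * tt R I ^ 2 ≤ 3 / 5 * β * tt R I ^ 2 :=
    mul_le_mul_of_nonneg_right (by linarith) (sq_nonneg _)
  have h7 : 3 / 5 * β * tt R I ^ 2 ≤ 72 / 115 * tt R I * (tt R I * sin β) := by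
    have h8 := sin_ratio hs.β0 hβ
    have h9 := mul_le_mul_of_nonneg_right h8 (sq_nonneg (tt R I))
    linarith
  have h8 : 72 / 115 * tt R I * (tt R I * sin β) ≤
      72 / 115 * tt R I * (cosh (xx R I) * sin (r - th R I)) :=
    mul_le_mul_of_nonneg_left h3 (by positivity)
  linarith

/-- (V1) -/
theorem Slot.le_xx_of (hs : Slot R I ρ β p r) (h : 0 < R) (h' : R < π / 2) (hI : 0 < I)
    (hρ : ρ ^ 2 ≤ 1 + 3 / 5 * β) (hβ : β ≤ 1 / 2) (hk : 1 ≤ k2 R I) (hθ : th R I ≤ 3 / 5) :
    p ≤ xx R I := by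
  by_contra hp
  push Not at hp
  obtain ⟨hr, h1⟩ := Slot.gt hs h h' hI hρ hβ hp
  have hx := xx_pos h h' hI
  have ht := th_pos h h' hI
  have hT := tt_pos (I := I) h h'
  have hpi := pi_gt_three
  have hsx : 0 < sinh (xx R I) := sinh_pos_iff.2 hx
  have hcx := cosh_pos (xx R I)
  have hle := sinh_le_sin h h' hI hk
  have hs0 : 0 < sin (th R I) := by linarith
  -- numbers
  have hs1 : sin (th R I) ≤ 565 / 1000 := by
    have h2 : sin (th R I) ≤ sin (3 / 5) :=
      sin_le_sin_of_le_of_le_pi_div_two (by linarith) (by linarith) hθ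
    have h3 := V4_sin5 (x := 3 / 5) (by norm_num)
    norm_num at h3 ⊢
    linarith
  have hc1 : 825 / 1000 ≤ cos (th R I) := by
    have hc0 : 0 < cos (th R I) := cos_pos_of_mem_Ioo ⟨by linarith, by linarith⟩
    refine le_of_sq_le_sq ?_ hc0.le
    have h2 := sin_sq_add_cos_sq (th R I)
    have h3 : sin (th R I) ^ 2 ≤ (565 / 1000) ^ 2 := pow_le_pow_left₀ hs0.le hs1 2
    norm_num at h3 ⊢
    linarith
  have hcx1 : cosh (xx R I) ≤ 115 / 100 := by
    refine le_of_sq_le_sq ?_ (by norm_num)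
    rw [cosh_sq]
    have h3 : sinh (xx R I) ^ 2 ≤ (565 / 1000) ^ 2 := pow_le_pow_left₀ hsx.le (by linarith) 2
    norm_num at h3 ⊢
    linarith
  have hT1 : tt R I ≤ 14143 / 10000 * sin (th R I) := by
    refine le_of_sq_le_sq ?_ (by positivity)
    rw [tt_sq_xx h h' hI, mul_pow]
    have h3 : sinh (xx R I) ^ 2 ≤ sin (th R I) ^ 2 := pow_le_pow_left₀ hsx.le hle 2
    have h4 := sq_nonneg (sin (th R I))
    norm_num
    linarith
  -- the difference is positive
  have hpos : 0 < sinh p ^ 2 - sinh (xx R I) ^ 2 := by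
    have : sinh (xx R I) < sinh p := sinh_lt_sinh.2 hp
    have := pow_lt_pow_left₀ this hsx.le two_ne_zero
    linarith
  have hδ : 0 ≤ sin (r - th R I) :=
    sin_nonneg_of_nonneg_of_le_pi (by linarith) (by linarith [hs.r1])
  have h2 : sin (r + th R I) < 72 / 115 * tt R I * cosh (xx R I) := by
    by_contra hn
    push Not at hn
    have := mul_le_mul_of_nonneg_left hn hδ
    nlinarith
  have h3 : 72 / 115 * tt R I * cosh (xx R I) ≤ 72 / 115 * (14143 / 10000 * sin (th R I)) *
      (115 / 100) := by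
    apply mul_le_mul _ hcx1 hcx.le (by positivity)
    linarith
  have hcr : 0 ≤ cos r := cos_nonneg_of_mem_Icc ⟨by linarith, hs.r1⟩
  have hsr : sin (th R I) ≤ sin r :=
    sin_le_sin_of_le_of_le_pi_div_two (by linarith) hs.r1 hr
  rw [sin_add] at h2
  rcases le_or_gt (1 / 5) (cos r) with h4 | h4
  · have a1 : sin (th R I) * (825 / 1000) ≤ sin r * cos (th R I) :=
      mul_le_mul hsr hc1 (by norm_num) (by linarith)
    have a2 : 1 / 5 * sin (th R I) ≤ cos r * sin (th R I) :=
      mul_le_mul_of_nonneg_right h4 hs0.le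
    linarith
  · have a1 : 97 / 100 ≤ sin r := by
      refine le_of_sq_le_sq ?_ (by linarith)
      have h5 := sin_sq_add_cos_sq r
      have h6 : cos r ^ 2 ≤ (1 / 5) ^ 2 := pow_le_pow_left₀ hcr h4.le 2
      norm_num at h6 ⊢
      linarith
    have a2 : 97 / 100 * (825 / 1000) ≤ sin r * cos (th R I) :=
      mul_le_mul a1 hc1 (by norm_num) (by linarith)
    have a3 : 0 ≤ cos r * sin (th R I) := mul_nonneg hcr hs0.le
    linarith

/-- (V2) -/
theorem Slot.chord_of (hs : Slot R I ρ β p r) (h : 0 < R) (h' : R < π / 2) (hI : 0 < I)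
    (hρ : ρ ^ 2 ≤ 1 + 3 / 5 * β) (hβ : β ≤ 1 / 2) (hk : k2 R I ≤ 1) :
    th R I * p ≤ xx R I * r := by
  have hx := xx_pos h h' hI
  have ht := th_pos h h' hI
  have ht' := th_lt h h' hI
  have hal := al_pos h h' hI
  rcases le_or_gt p (xx R I) with hp | hp
  · have hT : 0 ≤ tan (al R I) := tan_nonneg_of_nonneg_of_le_pi_div_two hal.le (al_lt R I).le
    have h1 := arctan_tanh_chord hT hs.p0 hp hx
    rw [tan_al_eq h h' hI, arctan_tan (by linarith) (th_lt h h' hI)] at h1
    have h2 := mul_le_mul_of_nonneg_left (hs.arctan_le h h' hI) hx.le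
    linarith [mul_comm p (th R I)]
  · obtain ⟨hr, h1⟩ := Slot.gt hs h h' hI hρ hβ hp
    have hT := tt_pos (I := I) h h'
    have hpi := pi_gt_three
    have hsx : 0 < sinh (xx R I) := sinh_pos_iff.2 hx
    have hcx := cosh_pos (xx R I)
    have hle := sin_th_le h h' hI hk
    have hs0 : 0 < sin (th R I) := sin_pos_of_pos_of_lt_pi ht (by linarith)
    have hT1 : tt R I ≤ 14143 / 10000 * sinh (xx R I) := by
      refine le_of_sq_le_sq ?_ (by positivity)
      rw [tt_sq_xx h h' hI, mul_pow]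
      have h3 : sin (th R I) ^ 2 ≤ sinh (xx R I) ^ 2 := pow_le_pow_left₀ hs0.le hle 2
      have h4 := sq_nonneg (sinh (xx R I))
      norm_num
      linarith
    have hδ0 : 0 ≤ r - th R I := by linarith
    have hδ : 0 ≤ sin (r - th R I) :=
      sin_nonneg_of_nonneg_of_le_pi hδ0 (by linarith [hs.r1])
    have hδ1 : sin (r - th R I) ≤ r - th R I := sin_le hδ0
    have h2 : 0 ≤ sin (r - th R I) * sin (r + th R I) :=
      mul_nonneg hδ (sin_nonneg_of_nonneg_of_le_pi (by linarith) (by linarith [hs.r1]))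
    have h3 : 72 / 115 * tt R I * cosh (xx R I) * sin (r - th R I) ≤
        886 / 1000 * (sinh (xx R I) * cosh (xx R I)) * (r - th R I) := by
      have a1 : 72 / 115 * tt R I * cosh (xx R I) ≤
          886 / 1000 * (sinh (xx R I) * cosh (xx R I)) := by
        have := mul_le_mul_of_nonneg_right hT1 hcx.le
        have : 0 < sinh (xx R I) * cosh (xx R I) := by positivity
        linarith
      exact mul_le_mul a1 hδ1 hδ (by positivity)
    have h4 : (p - xx R I) * (2 * (sinh (xx R I) * cosh (xx R I))) ≤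
        sinh p ^ 2 - sinh (xx R I) ^ 2 := by
      have e : sinh p ^ 2 - sinh (xx R I) ^ 2 = sinh (p - xx R I) * sinh (p + xx R I) := by
        rw [sinh_sub, sinh_add]
        have c1 := cosh_sq p
        have c2 := cosh_sq (xx R I)
        calc sinh p ^ 2 - sinh (xx R I) ^ 2 =
              sinh p ^ 2 * (sinh (xx R I) ^ 2 + 1) - (sinh p ^ 2 + 1) * sinh (xx R I) ^ 2 := by ring
          _ = sinh p ^ 2 * cosh (xx R I) ^ 2 - cosh p ^ 2 * sinh (xx R I) ^ 2 := by rw [c1, c2]
          _ = _ := by ring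
      rw [e]
      have a1 : p - xx R I ≤ sinh (p - xx R I) := self_le_sinh_iff.2 (by linarith)
      have a2 : 2 * (sinh (xx R I) * cosh (xx R I)) ≤ sinh (p + xx R I) := by
        rw [← mul_assoc, ← sinh_two_mul]
        exact sinh_le_sinh.2 (by linarith)
      exact mul_le_mul a1 a2 (by positivity) (sinh_nonneg_iff.2 (by linarith))
    have h5 : p - xx R I ≤ 443 / 1000 * (r - th R I) := by
      have hP : 0 < sinh (xx R I) * cosh (xx R I) := by positivity
      by_contra hn
      push Not at hn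
      have := mul_lt_mul_of_pos_right hn hP
      linarith
    -- `x ≥ .443 θ`
    have h6 : 443 / 1000 * th R I ≤ xx R I := by
      by_contra hn
      push Not at hn
      have hpi' := pi_lt_d4
      have hx1 : xx R I ≤ 7 / 10 := by linarith
      have h7 : sinh (xx R I) ≤ xx R I * (1325 / 1000) := by
        refine (Pool.Agent.S3.sinh_le_mul_cosh hx.le).trans
          (mul_le_mul_of_nonneg_left ?_ hx.le)
        have a1 := Real.cosh_le_exp_half_sq (xx R I)
        have a2 : xx R I ^ 2 ≤ (7 / 10) ^ 2 := pow_le_pow_left₀ hx.le hx1 2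
        have a3 : 1 - 245 / 1000 ≤ exp (-(xx R I ^ 2 / 2)) := by
          have := Real.add_one_le_exp (-(xx R I ^ 2 / 2))
          norm_num at a2
          linarith
        have a4 : exp (xx R I ^ 2 / 2) * exp (-(xx R I ^ 2 / 2)) = 1 := by
          rw [← Real.exp_add, add_neg_cancel, Real.exp_zero]
        have a5 := Real.exp_pos (xx R I ^ 2 / 2)
        nlinarith
      have h8 : 2 / π * th R I ≤ sin (th R I) := mul_le_sin ht.le ht'.le
      have h9 : 6 / 10 * th R I ≤ 2 / π * th R I := by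
        apply mul_le_mul_of_nonneg_right _ ht.le
        rw [le_div_iff₀ pi_pos]
        linarith
      linarith
    nlinarith

end Pool.Agent.MX.E
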