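import Pool.Agent.MX.E.VA
import Pool.Agent.MX.E.SlotR

/-!
# Project MX, block E: the slots of a node with `a = 7/2`, `w = 1/2` or `a = 4`, `w = 1`

Suppose that `3/32 p_j > tan θ I`. As `p_j ≤ a I - w x` and `p_j ≤ 1.114 x`, we get
`tan θ < 0.227` and `x < 0.5743 cos R`. All `r_j` are less than `3/5`, so `R ≥ 0.52` by the vertex
equation, and `sinh x = tan R cos θ` is too large.
-/

namespace Pool.Agent.MX.E

open Real Pool.Agent.AT.E
open Pool.Agent.S3.E hiding bo ro be KK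

variable {ι : Type*} {a w R I : ℝ} {J : Finset ι} {ρ β p r : ι → ℝ}

private theorem HG3_sinh {x p : ℝ} (hx : 0 < x) (h : x ≤ p) : p * sinh x ≤ x * sinh p := by
  have hp : 0 < p := lt_of_lt_of_le hx h
  have hl0 : 0 ≤ x / p := (div_pos hx hp).le
  have hl1 : x / p ≤ 1 := (div_le_one hp).2 h
  have hd : ∀ v : ℝ, HasDerivAt (fun u : ℝ => x / p * sinh u - sinh (x / p * u))
      (x / p * cosh v - cosh (x / p * v) * (x / p)) v := by
    intro v
    have h2 : HasDerivAt (fun u : ℝ => x / p * u) (x / p) v := by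
      simpa using (hasDerivAt_id' v).const_mul (x / p)
    have h3 := ((Real.hasDerivAt_sinh v).const_mul (x / p)).sub
      ((Real.hasDerivAt_sinh (x / p * v)).comp v h2)
    exact h3
  have hm : MonotoneOn (fun u : ℝ => x / p * sinh u - sinh (x / p * u)) (Set.Ici 0) := by
    apply monotoneOn_of_deriv_nonneg (convex_Ici 0)
    · exact fun y _ => (hd y).continuousAt.continuousWithinAt
    · exact fun y _ => (hd y).differentiableAt.differentiableWithinAt
    · intro y hy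
      rw [(hd y).deriv]
      have hy0 : 0 ≤ y := interior_subset hy
      have h4 : cosh (x / p * y) ≤ cosh y := by
        rw [cosh_le_cosh, abs_of_nonneg (mul_nonneg hl0 hy0), abs_of_nonneg hy0]
        exact mul_le_of_le_one_left hy0 hl1
      nlinarith
  have h5 := hm (Set.mem_Ici.2 le_rfl) (Set.mem_Ici.2 hp.le) hp.le
  simp only [sinh_zero, mul_zero, sub_zero] at h5
  rw [div_mul_cancel₀ _ hp.ne'] at h5
  have h6 : sinh x ≤ x / p * sinh p := by linarith
  rw [div_mul_eq_mul_div, le_div_iff₀ hp] at h6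
  linarith

private theorem HG3_mono {f f' : ℝ → ℝ} (hd : ∀ x, HasDerivAt f (f' x) x) (h0 : f 0 = 0)
    (hp : ∀ x, 0 ≤ x → 0 ≤ f' x) {x : ℝ} (hx : 0 ≤ x) : 0 ≤ f x := by
  have hm : MonotoneOn f (Set.Ici 0) := by
    apply monotoneOn_of_deriv_nonneg (convex_Ici 0)
    · exact fun y _ => (hd y).continuousAt.continuousWithinAt
    · exact fun y _ => (hd y).differentiableAt.differentiableWithinAt
    · intro y hy
      rw [(hd y).deriv]
      exact hp y (interior_subset hy)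
  have := hm (Set.mem_Ici.2 le_rfl) (Set.mem_Ici.2 hx) hx
  rwa [h0] at this

private theorem HG3_tan_sq {R I : ℝ} (h : 0 < R) (h' : R < π / 2) (hI : 0 < I) :
    tan (th R I) ^ 2 * cos R ^ 2 = sinh I ^ 2 := by
  have hK := k2_pos (I := I) h h'
  have h1 := cos_two_th h h' hI
  have h2 : 0 < cos (th R I) :=
    cos_pos_of_mem_Ioo ⟨by linarith [th_pos h h' hI, pi_pos], th_lt h h' hI⟩
  have h3 : cos (2 * th R I) * k2 R I = 1 - s2 R I := by rw [h1]; field_simp
  rw [cos_two_mul] at h3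
  have h4 := AT2.E.k2_sc R I
  have h5 := AT2.E.s2_sc R I
  have h6 := sin_sq_add_cos_sq R
  have h7 : cos (th R I) ^ 2 * k2 R I = cos R ^ 2 := by
    rw [h5] at h3
    linarith
  have h8 : sin (th R I) ^ 2 * k2 R I = sinh I ^ 2 := by
    rw [sin_sq, sub_mul, h7, h4]
    ring
  rw [tan_eq_sin_div_cos, div_pow, ← h7, ← h8]
  field_simp

private theorem HG3_cos6 {x : ℝ} (hx : 0 ≤ x) : 1 - x ^ 2 / 2 + x ^ 4 / 24 - x ^ 6 / 720 ≤ cos x := by
  have h := HG3_mono (f := fun x => cos x - (1 - x ^ 2 / 2 + x ^ 4 / 24 - x ^ 6 / 720))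
    (f' := fun x => x - x ^ 3 / 6 + x ^ 5 / 120 - sin x)
    (fun x => by
      have h1 := (Real.hasDerivAt_cos x).sub ((((hasDerivAt_const x (1 : ℝ)).sub
        ((hasDerivAt_pow 2 x).div_const 2)).add ((hasDerivAt_pow 4 x).div_const 24)).sub
        ((hasDerivAt_pow 6 x).div_const 720))
      refine h1.congr_deriv ?_
      norm_num
      try ring)
    (by simp) (fun x hx => by
      have := V4_sin5 hx
      linarith) hx
  linarith

/-- A slot is at most `1.114 x`. -/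
theorem Slot.hg_p {R I ρ β p r : ℝ} (hs : Slot R I ρ β p r) (h0 : 0 < R) (h1 : R < π / 2)
    (hI : 0 < I) (hk : k2 R I ≤ 1)
    (hJ : (ρ ≤ 1 ∧ β ≤ 9 / 20) ∨ (ρ ^ 2 ≤ 1 + 3 / 5 * β ∧ β ≤ 1 / 5)) (hp : xx R I < p) :
    β ≤ 1 / 5 ∧ sinh p ≤ 1114 / 1000 * sinh (xx R I) := by
  have hx := xx_pos h0 h1 hI
  have ht := th_pos h0 h1 hI
  have ht' := th_lt h0 h1 hI
  have hβ0 := hs.β0
  have hsx : 0 < sinh (xx R I) := sinh_pos_iff.2 hx
  have hsp : sinh (xx R I) < sinh p := sinh_lt_sinh.2 hp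
  have hle := sin_th_le h0 h1 hI hk
  have hs0 : 0 < sin (th R I) := sin_pos_of_pos_of_lt_pi ht (by linarith)
  have hpi := pi_gt_three
  have hρ1 : ρ ^ 2 ≤ 1 + 3 / 5 * β := by
    rcases hJ with ⟨h2, _⟩ | ⟨h2, _⟩
    · have := pow_le_pow_left₀ hs.ρ0 h2 2
      rw [one_pow] at this
      linarith
    · exact h2
  have hβ : β ≤ 1 / 2 := by
    rcases hJ with ⟨_, h2⟩ | ⟨_, h2⟩ <;> linarith
  obtain ⟨hr, -⟩ := Slot.gt hs h0 h1 hI hρ1 hβ hp
  have hsr : sin (th R I) ≤ sin r :=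
    sin_le_sin_of_le_of_le_pi_div_two (by linarith) hs.r1 hr
  have hsr2 : sin (th R I) ^ 2 ≤ sin r ^ 2 := pow_le_pow_left₀ hs0.le hsr 2
  have e := Slot.sq_eq hs
  rw [mul_pow, tt_sq_xx h0 h1 hI] at e
  have hsq : sin (th R I) ^ 2 ≤ sinh (xx R I) ^ 2 := pow_le_pow_left₀ hs0.le hle 2
  have hsp2 : sinh (xx R I) ^ 2 < sinh p ^ 2 := pow_lt_pow_left₀ hsp hsx.le two_ne_zero
  have hT0 : 0 ≤ sinh (xx R I) ^ 2 + sin (th R I) ^ 2 := by positivity
  rcases hJ with ⟨h2, _⟩ | ⟨h2, h3⟩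
  · exfalso
    have h4 : ρ ^ 2 ≤ 1 := by
      have := pow_le_pow_left₀ hs.ρ0 h2 2
      rw [one_pow] at this
      exact this
    have h5 := mul_le_mul_of_nonneg_right h4 hT0
    linarith
  · refine ⟨h3, le_of_sq_le_sq ?_ (by positivity)⟩
    have h4 : ρ ^ 2 ≤ 112 / 100 := by linarith
    have h5 := mul_le_mul_of_nonneg_right h4 hT0
    rw [mul_pow]
    norm_num
    nlinarith

/-- The angle of a slot. -/
theorem Slot.hg_r {R I ρ β p r : ℝ} (hs : Slot R I ρ β p r) (h0 : 0 < R) (h1 : R < π / 2)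
    (hI : 0 < I) (hk : k2 R I ≤ 1)
    (hJ : (ρ ≤ 1 ∧ β ≤ 9 / 20) ∨ (ρ ^ 2 ≤ 1 + 3 / 5 * β ∧ β ≤ 1 / 5))
    (hx2 : tanh (xx R I) ≤ 52 / 100) (hθ : tan (th R I) ≤ 227 / 1000) : r < 3 / 5 := by
  have hx := xx_pos h0 h1 hI
  have ht := th_pos h0 h1 hI
  have ht' := th_lt h0 h1 hI
  have hpi := pi_gt_three
  have hβ0 := hs.β0
  have hsx : 0 < sinh (xx R I) := sinh_pos_iff.2 hx
  have hcx := cosh_pos (xx R I)
  have hcp := cosh_pos p
  have hle := sin_th_le h0 h1 hI hk
  have hs0 : 0 < sin (th R I) := sin_pos_of_pos_of_lt_pi ht (by linarith)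
  have hc0 : 0 < cos (th R I) := cos_pos_of_mem_Ioo ⟨by linarith, ht'⟩
  have hal := al_pos h0 h1 hI
  have hal' := al_lt R I
  have hca : 0 < cos (al R I) := cos_pos_of_mem_Ioo ⟨by linarith, hal'⟩
  have hβ1 : β ≤ 9 / 20 := by
    rcases hJ with ⟨_, h2⟩ | ⟨_, h2⟩ <;> linarith
  have hcb : 0 < cos β := cos_pos_of_mem_Ioo ⟨by linarith, by linarith⟩
  have e := tan_al_eq h0 h1 hI
  -- `A = tan α`, `t = tanh x`, `B = tan β`
  obtain ⟨A, hA⟩ : ∃ A : ℝ, A = tan (al R I) := ⟨_, rfl⟩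
  obtain ⟨t, htt⟩ : ∃ t : ℝ, t = tanh (xx R I) := ⟨_, rfl⟩
  obtain ⟨B, hB⟩ : ∃ B : ℝ, B = tan β := ⟨_, rfl⟩
  have hA0 : 0 < A := by
    rw [hA]
    exact tan_pos_of_pos_of_lt_pi_div_two hal hal'
  have ht0 : 0 < t := by
    rw [htt, tanh_eq_sinh_div_cosh]
    exact div_pos hsx hcx
  have hB0 : 0 ≤ B := by
    rw [hB]
    exact tan_nonneg_of_nonneg_of_le_pi_div_two hβ0 (by linarith)
  rw [← hA, ← htt] at e
  rw [← htt] at hx2
  have hAt : A * t ≤ 227 / 1000 := by rw [e]; exact hθ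
  -- `sin θ ≤ 0.2215`
  have hsθ : sin (th R I) ≤ 227 / 1000 * cos (th R I) := by
    rw [tan_eq_sin_div_cos, div_le_iff₀ hc0] at hθ
    exact hθ
  have hsθ2 : sin (th R I) ^ 2 ≤ 4901 / 100000 := by
    have h2 := pow_le_pow_left₀ hs0.le hsθ 2
    rw [mul_pow] at h2
    have h3 := sin_sq_add_cos_sq (th R I)
    norm_num at h2
    linarith
  -- `A ≤ 1.051`
  have hA1 : A ≤ 1051 / 1000 := by
    have h2 : A * (sinh (xx R I) * cos (th R I)) = sin (th R I) * cosh (xx R I) := by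
      have h3 := e
      rw [htt, tanh_eq_sinh_div_cosh, tan_eq_sin_div_cos] at h3
      field_simp at h3
      linarith
    have h3 : sin (th R I) * cosh (xx R I) ≤ 1051 / 1000 * (sinh (xx R I) * cos (th R I)) := by
      refine le_of_sq_le_sq ?_ (by positivity)
      rw [mul_pow, mul_pow, mul_pow, cosh_sq]
      have h4 : sin (th R I) ^ 2 ≤ sinh (xx R I) ^ 2 := pow_le_pow_left₀ hs0.le hle 2
      have h5 := sin_sq_add_cos_sq (th R I)
      have h6 : cos (th R I) ^ 2 = 1 - sin (th R I) ^ 2 := by linarith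
      rw [h6]
      have h7 : 0 < sinh (xx R I) ^ 2 := by positivity
      have h8 : sinh (xx R I) ^ 2 * (1 + sin (th R I) ^ 2) ≤
          sinh (xx R I) ^ 2 * ((1051 / 1000) ^ 2 * (1 - sin (th R I) ^ 2)) := by
        refine mul_le_mul_of_nonneg_left ?_ h7.le
        norm_num
        linarith
      nlinarith
    rw [← h2] at h3
    have h4 : 0 < sinh (xx R I) * cos (th R I) := by positivity
    exact le_of_mul_le_mul_right h3 h4
  -- `B`
  have htan : ∀ y : ℝ, β ≤ y → y ≤ 1 / 2 → B ≤ tan y := by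
    intro y hy hy2
    rw [hB]
    rcases eq_or_lt_of_le hy with h | h
    · rw [h]
    · exact (tan_lt_tan_of_nonneg_of_lt_pi_div_two hβ0 (by linarith) h).le
  have hB1 : B ≤ 4831 / 10000 := by
    refine (htan (9 / 20) hβ1 (by norm_num)).trans ?_
    have hc : 0 < cos (9 / 20) := cos_pos_of_mem_Ioo ⟨by linarith, by linarith⟩
    rw [tan_eq_sin_div_cos, div_le_iff₀ hc]
    have h2 := V4_sin5 (x := 9 / 20) (by norm_num)
    have h3 := HG3_cos6 (x := 9 / 20) (by norm_num)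
    norm_num at h2 h3 ⊢
    linarith
  -- the equation of the slot
  have hsa : sin (al R I) = A * cos (al R I) := by
    rw [hA, tan_eq_sin_div_cos, div_mul_cancel₀ _ hca.ne']
  have hsb : sin β = B * cos β := by
    rw [hB, tan_eq_sin_div_cos, div_mul_cancel₀ _ hcb.ne']
  have hsg : sin (al R I + β) = cos (al R I) * cos β * (A + B) := by
    rw [sin_add, hsa, hsb]
    ring
  have hcg : cos (al R I + β) = cos (al R I) * cos β * (1 - A * B) := by
    rw [cos_add, hsa, hsb]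
    ring
  have hAB : A * B ≤ 1051 / 1000 * (4831 / 10000) := mul_le_mul hA1 hB1 hB0 (by norm_num)
  have hAB1 : 0 < 1 - A * B := by
    norm_num at hAB
    linarith
  have hslot : cosh p * sin r * (1 - A * B) = sinh p * cos r * (A + B) := by
    have h2 : cosh p * sin r * cos (al R I + β) = sinh p * cos r * sin (al R I + β) := by
      rw [hs.e1, hs.e2]
      ring
    rw [hsg, hcg] at h2
    have h3 : 0 < cos (al R I) * cos β := mul_pos hca hcb
    have h4 : cos (al R I) * cos β * (cosh p * sin r * (1 - A * B)) =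
        cos (al R I) * cos β * (sinh p * cos r * (A + B)) := by linarith
    exact mul_left_cancel₀ h3.ne' h4
  -- the bound of the right hand side
  have hcr : 0 ≤ cos r := cos_nonneg_of_mem_Icc ⟨by linarith [hs.r0], hs.r1⟩
  have key : sinh p * (A + B) ≤ 68 / 100 * (cosh p * (1 - A * B)) := by
    rcases le_or_gt p (xx R I) with hp | hp
    · have h2 : sinh p ≤ t * cosh p := by
        rw [htt, tanh_eq_sinh_div_cosh, div_mul_eq_mul_div, le_div_iff₀ hcx]
        have h3 : 0 ≤ sinh (xx R I - p) := sinh_nonneg_iff.2 (by linarith)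
        rw [sinh_sub] at h3
        linarith
      have h3 : t * (A + B) ≤ 68 / 100 * (1 - A * B) := by
        have h4 : 0 ≤ (1051 / 1000 - A) * (52 / 100 - t) :=
          mul_nonneg (by linarith) (by linarith)
        have h5 : t * B ≤ t * (4831 / 10000) := mul_le_mul_of_nonneg_left hB1 ht0.le
        have h6 : A * B ≤ A * (4831 / 10000) := mul_le_mul_of_nonneg_left hB1 hA0.le
        nlinarith
      calc sinh p * (A + B) ≤ t * cosh p * (A + B) :=
            mul_le_mul_of_nonneg_right h2 (by positivity)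
        _ = cosh p * (t * (A + B)) := by ring
        _ ≤ cosh p * (68 / 100 * (1 - A * B)) := mul_le_mul_of_nonneg_left h3 hcp.le
        _ = _ := by ring
    · obtain ⟨hβ5, hsp⟩ := Slot.hg_p hs h0 h1 hI hk hJ hp
      have hB2 : B ≤ 2028 / 10000 := by
        refine (htan (1 / 5) hβ5 (by norm_num)).trans ?_
        have hc : 0 < cos (1 / 5) := cos_pos_of_mem_Ioo ⟨by linarith, by linarith⟩
        rw [tan_eq_sin_div_cos, div_le_iff₀ hc]
        have h2 := V4_sin5 (x := 1 / 5) (by norm_num)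
        have h3 := HG3_cos6 (x := 1 / 5) (by norm_num)
        norm_num at h2 h3 ⊢
        linarith
      have h2 : sinh p ≤ 1114 / 1000 * t * cosh p := by
        have h3 : sinh (xx R I) = t * cosh (xx R I) := by
          rw [htt, tanh_eq_sinh_div_cosh, div_mul_cancel₀ _ hcx.ne']
        have h4 : cosh (xx R I) ≤ cosh p := by
          rw [cosh_le_cosh, abs_of_pos hx, abs_of_nonneg (by linarith)]
          exact hp.le
        have h5 : t * cosh (xx R I) ≤ t * cosh p := mul_le_mul_of_nonneg_left h4 ht0.le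
        linarith
      have h3 : 1114 / 1000 * t * (A + B) ≤ 68 / 100 * (1 - A * B) := by
        have h5 : t * B ≤ 52 / 100 * (2028 / 10000) := mul_le_mul hx2 hB2 hB0 (by norm_num)
        have h6 : A * B ≤ 1051 / 1000 * (2028 / 10000) := mul_le_mul hA1 hB2 hB0 (by norm_num)
        norm_num at h5 h6
        linarith
      calc sinh p * (A + B) ≤ 1114 / 1000 * t * cosh p * (A + B) :=
            mul_le_mul_of_nonneg_right h2 (by positivity)
        _ = cosh p * (1114 / 1000 * t * (A + B)) := by ring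
        _ ≤ cosh p * (68 / 100 * (1 - A * B)) := mul_le_mul_of_nonneg_left h3 hcp.le
        _ = _ := by ring
  have hmain : sin r ≤ 68 / 100 * cos r := by
    have h2 := mul_le_mul_of_nonneg_right key hcr
    have h3 : (cosh p * (1 - A * B)) * sin r ≤ (cosh p * (1 - A * B)) * (68 / 100 * cos r) := by
      linarith
    exact le_of_mul_le_mul_left h3 (mul_pos hcp hAB1)
  by_contra hn
  push Not at hn
  have h2 : sin (3 / 5) ≤ sin r :=
    sin_le_sin_of_le_of_le_pi_div_two (by linarith) hs.r1 hn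
  have h3 : cos r ≤ cos (3 / 5) := cos_le_cos_of_nonneg_of_le_pi (by norm_num)
    (by linarith [hs.r1]) hn
  have h4 := V4_sin3 (x := 3 / 5) (by norm_num)
  have h5 := V4_cos4 (x := 3 / 5) (by norm_num)
  norm_num at h4 h5
  linarith

private theorem HG3_exp1 : exp (5743 / 10000) ≤ 1777 / 1000 := by
  have h := Real.exp_bound' (x := 5743 / 10000) (by norm_num) (by norm_num) (n := 5) (by norm_num)
  refine h.trans ?_
  norm_num [Finset.sum_range_succ, Nat.factorial]

private theorem HG3_exp2 : exp (1 / 2) ≤ 1649 / 1000 := by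
  have h := Real.exp_bound' (x := 1 / 2) (by norm_num) (by norm_num) (n := 5) (by norm_num)
  refine h.trans ?_
  norm_num [Finset.sum_range_succ, Nat.factorial]

private theorem HG3_tanh {x : ℝ} (h : x ≤ 5743 / 10000) : tanh x ≤ 52 / 100 := by
  rw [tanh_eq_sinh_div_cosh, div_le_iff₀ (cosh_pos x), sinh_eq, cosh_eq, exp_neg]
  have h1 : exp x ≤ 1777 / 1000 := (exp_le_exp.2 h).trans HG3_exp1
  have h2 := exp_pos x
  have h3 : exp x ^ 2 ≤ (1777 / 1000) ^ 2 := pow_le_pow_left₀ h2.le h1 2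
  have h4 : 0 < (exp x)⁻¹ := inv_pos.2 h2
  have h5 : exp x = exp x ^ 2 * (exp x)⁻¹ := by
    field_simp
  have h6 : exp x ^ 2 * (exp x)⁻¹ ≤ (1777 / 1000) ^ 2 * (exp x)⁻¹ :=
    mul_le_mul_of_nonneg_right h3 h4.le
  rw [← h5] at h6
  norm_num at h6
  linarith

private theorem HG3_sinh2 {x : ℝ} (h : x ≤ 1 / 2) : sinh x ≤ 53 / 100 := by
  have h0 : sinh x ≤ sinh (1 / 2) := sinh_le_sinh.2 h
  refine h0.trans ?_
  rw [sinh_eq, exp_neg]
  have h1 := HG3_exp2
  have h2 := exp_pos (1 / 2 : ℝ)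
  have h3 : (1649 / 1000 : ℝ)⁻¹ ≤ (exp (1 / 2))⁻¹ := inv_anti₀ h2 h1
  norm_num at h3
  linarith

/-- **[HG3]**, without the hypotheses which are not needed. -/
theorem Vx.hg3' (h : AT2.E.Vx a w R I J ρ β p r)
    (hw : (a = 7 / 2 ∧ w = 1 / 2 ∧ J.card ≤ 2) ∨ (a = 4 ∧ w = 1 ∧ J.card = 1))
    (hk : k2 R I ≤ 1)
    (hJ : ∀ j ∈ J, (ρ j ≤ 1 ∧ β j ≤ 9 / 20) ∨ (ρ j ^ 2 ≤ 1 + 3 / 5 * β j ∧ β j ≤ 1 / 5)) :
    ∀ j ∈ J, 3 / 32 * p j ≤ tan (th R I) * I := by
  intro j hj
  by_contra hn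
  push Not at hn
  have h0 := h.R0
  have h1 := h.R1
  have hI := h.I0
  have hx := xx_pos h0 h1 hI
  have ht := th_pos h0 h1 hI
  have ht' := th_lt h0 h1 hI
  have hpi := pi_gt_three
  have hpi2 := pi_gt_d4
  have hcR : 0 < cos R := cos_pos_of_mem_Ioo ⟨by linarith, h1⟩
  have hcR1 := cos_le_one R
  have hc0 : 0 < cos (th R I) := cos_pos_of_mem_Ioo ⟨by linarith, ht'⟩
  have hT : 0 < tan (th R I) := tan_pos_of_pos_of_lt_pi_div_two ht ht'
  have e1 := tan_R_eq h0 h1 hI
  obtain ⟨θ, hθ⟩ : ∃ θ : ℝ, θ = th R I := ⟨_, rfl⟩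
  obtain ⟨x, hxe⟩ : ∃ x : ℝ, x = xx R I := ⟨_, rfl⟩
  have hsl := h.sl j hj
  -- `p ≤ 1.114 x`
  have hp0 : 0 ≤ p j := hsl.p0
  have hpx : p j ≤ 1114 / 1000 * xx R I := by
    rcases le_or_gt (p j) (xx R I) with hp | hp
    · linarith
    · obtain ⟨-, h2⟩ := Slot.hg_p hsl h0 h1 hI hk (hJ j hj) hp
      have h3 := HG3_sinh hx hp.le
      have h4 : 0 < sinh (xx R I) := sinh_pos_iff.2 hx
      have h5 : p j * sinh (xx R I) ≤ 1114 / 1000 * xx R I * sinh (xx R I) := by
        have := mul_le_mul_of_nonneg_left h2 hx.le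
        linarith
      exact le_of_mul_le_mul_right h5 h4
  -- `p ≤ a I - w x`
  have hpI : p j + w * xx R I ≤ a * I := by
    rw [h.hI]
    have h2 : p j ≤ ∑ i ∈ J, p i :=
      Finset.single_le_sum (f := p) (fun i hi => (h.sl i hi).p0) hj
    linarith
  have hTI : tan (th R I) * cos R = sinh I := by
    have h2 := HG3_tan_sq h0 h1 hI
    rw [← mul_pow] at h2
    have h3 : 0 ≤ sinh I := sinh_nonneg_iff.2 hI.le
    exact (pow_left_inj₀ (by positivity) h3 two_ne_zero).1 h2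
  have hII : I ≤ tan (th R I) * cos R := by
    rw [hTI]
    exact self_le_sinh_iff.2 hI.le
  -- `tan θ ≤ 0.227`
  have hT1 : tan (th R I) ≤ 227 / 1000 := by
    by_contra hc
    push Not at hc
    have h2 : 227 / 1000 * I < tan (th R I) * I := mul_lt_mul_of_pos_right hc hI
    rcases hw with ⟨ha, hw', _⟩ | ⟨ha, hw', _⟩
    · rw [ha, hw'] at hpI
      linarith
    · rw [ha, hw'] at hpI
      linarith
  -- `x < 0.5743 cos R`
  have hxc : xx R I < 5743 / 10000 * cos R := by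
    have h2 : xx R I * (tan (th R I) * I) < xx R I * (3 / 32 * p j) :=
      mul_lt_mul_of_pos_left hn hx
    have h3 : xx R I * (3 / 32 * p j) ≤ 3 / 32 * (xx R I * (a * I - w * xx R I)) := by
      have := mul_le_mul_of_nonneg_left (by linarith : p j ≤ a * I - w * xx R I) hx.le
      linarith
    have h4 : 4 * w * (xx R I * (a * I - w * xx R I)) ≤ a ^ 2 * I ^ 2 := by
      nlinarith [sq_nonneg (a * I - 2 * w * xx R I)]
    have h5 : 0 < w := by
      rcases hw with ⟨_, hw', _⟩ | ⟨_, hw', _⟩ <;> rw [hw'] <;> norm_num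
    have h6 : 4 * w * (xx R I * (tan (th R I) * I)) < 3 / 32 * (a ^ 2 * I ^ 2) := by
      have h7 := mul_lt_mul_of_pos_left (lt_of_lt_of_le h2 h3) (by positivity : 0 < 4 * w)
      have h8 := mul_le_mul_of_nonneg_left h4 (by norm_num : (0 : ℝ) ≤ 3 / 32)
      linarith
    have h9 : 4 * w * (xx R I * tan (th R I)) < 3 / 32 * (a ^ 2 * I) := by
      have : I * (4 * w * (xx R I * tan (th R I))) < I * (3 / 32 * (a ^ 2 * I)) := by
        calc _ = 4 * w * (xx R I * (tan (th R I) * I)) := by ring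
          _ < 3 / 32 * (a ^ 2 * I ^ 2) := h6
          _ = _ := by ring
      exact lt_of_mul_lt_mul_left this hI.le
    have h10 : 3 / 32 * (a ^ 2 * I) ≤ 3 / 32 * (a ^ 2 * (tan (th R I) * cos R)) := by
      have := mul_le_mul_of_nonneg_left hII (sq_nonneg a)
      linarith
    have h11 : 4 * w * xx R I < 3 / 32 * a ^ 2 * cos R := by
      have : tan (th R I) * (4 * w * xx R I) < tan (th R I) * (3 / 32 * a ^ 2 * cos R) := by
        calc _ = 4 * w * (xx R I * tan (th R I)) := by ring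
          _ < _ := lt_of_lt_of_le h9 h10
          _ = _ := by ring
      exact lt_of_mul_lt_mul_left this hT.le
    rcases hw with ⟨ha, hw', _⟩ | ⟨ha, hw', _⟩
    · rw [ha, hw'] at h11
      norm_num at h11
      linarith
    · rw [ha, hw'] at h11
      norm_num at h11
      linarith
  have hx1 : xx R I ≤ 5743 / 10000 := by linarith
  have hr : ∀ i ∈ J, r i ≤ 3 / 5 := fun i hi =>
    (Slot.hg_r (h.sl i hi) h0 h1 hI hk (hJ i hi) (HG3_tanh hx1) hT1).le
  have hθ1 : th R I ≤ 227 / 1000 := (lt_tan ht ht').le.trans hT1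
  have hsum : ∑ i ∈ J, r i ≤ J.card * (3 / 5) := by
    have := Finset.sum_le_card_nsmul J r (3 / 5) hr
    rwa [nsmul_eq_mul] at this
  have hR : 52 / 100 ≤ R := by
    have h2 := h.hR
    rcases hw with ⟨ha, hw', hc⟩ | ⟨ha, hw', hc⟩
    · have h3 : (J.card : ℝ) ≤ 2 := by exact_mod_cast hc
      rw [ha, hw'] at h2
      linarith
    · rw [ha, hw'] at h2
      rw [hc] at hsum
      norm_num at hsum
      linarith
  -- the contradiction
  have hcR2 : cos R ≤ 868 / 1000 := by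
    have h2 : cos R ≤ cos (52 / 100) :=
      cos_le_cos_of_nonneg_of_le_pi (by norm_num) (by linarith) hR
    have h3 := V4_cos4 (x := 52 / 100) (by norm_num)
    norm_num at h3
    linarith
  have hsR : 496 / 1000 ≤ sin R := by
    have h2 : sin (52 / 100) ≤ sin R :=
      sin_le_sin_of_le_of_le_pi_div_two (by linarith) (by linarith) hR
    have h3 := V4_sin3 (x := 52 / 100) (by norm_num)
    norm_num at h3
    linarith
  have hcθ : 97 / 100 ≤ cos (th R I) := by
    have h2 := one_sub_sq_div_two_le_cos (x := th R I)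
    have h3 : th R I ^ 2 ≤ (227 / 1000) ^ 2 := pow_le_pow_left₀ ht.le hθ1 2
    norm_num at h3
    linarith
  have hsx : sinh (xx R I) ≤ 53 / 100 := HG3_sinh2 (by linarith)
  rw [tan_eq_sin_div_cos, div_eq_div_iff hcR.ne' hc0.ne'] at e1
  have h2 : 496 / 1000 * (97 / 100) ≤ sin R * cos (th R I) :=
    mul_le_mul hsR hcθ (by norm_num) (by linarith)
  have h3 : sinh (xx R I) * cos R ≤ 53 / 100 * (868 / 1000) :=
    mul_le_mul hsx hcR2 hcR.le (by norm_num)
  norm_num at h2 h3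
  linarith

/-- **[HG3]** -/
theorem Vx.hg3 (h : AT2.E.Vx a w R I J ρ β p r)
    (hw : (a = 7 / 2 ∧ w = 1 / 2 ∧ J.card ≤ 2) ∨ (a = 4 ∧ w = 1 ∧ J.card = 1))
    (hk : k2 R I ≤ 1) (_ : I < xx R I)
    (hJ : ∀ j ∈ J, (ρ j ≤ 1 ∧ β j ≤ 9 / 20) ∨ (ρ j ^ 2 ≤ 1 + 3 / 5 * β j ∧ β j ≤ 1 / 5))
    (_ : ∀ j ∈ J, th R I * p j ≤ xx R I * r j) :
    ∀ j ∈ J, 3 / 32 * p j ≤ tan (th R I) * I := Vx.hg3' h hw hk hJ

end Pool.Agent.MX.E
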