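import Mathlib

/-!
# Project MX, block E: the second derivative in the edge variable, partner with `k' > 1`

`cos θ ≥ 1 - θ²/2 ≥ 155/1000` for `θ = 2 φ + 2 φ' ≤ 13/10`, `tan φ ≤ 51/100`, so
`cos θ - tan φ sin θ ≥ -355/1000` and `2 k k' - (355/1000) k'² > 0` because `k ≥ 1/4`,
`k' ≤ 1.1236`.
-/

namespace Pool.Agent.MX.E

open Real

theorem k4_threeB {φ φ' k k' : ℝ} (hφ : 0 ≤ φ) (h1 : φ ≤ 9 / 20) (hk : 1 / 4 ≤ k) (hkk : k ≤ k')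
    (hk' : k' ≤ 1.1236) (hφ' : 0 ≤ φ') (hφ'' : φ' ≤ 1 / 5) :
    0 < 2 * k * k' + (k' ^ 2 + k ^ 2) * cos (2 * φ + 2 * φ') -
      tan φ * (k' ^ 2 - k ^ 2) * sin (2 * φ + 2 * φ') := by
  have hpi := pi_gt_three
  obtain ⟨θ, hθ⟩ : ∃ θ : ℝ, θ = 2 * φ + 2 * φ' := ⟨_, rfl⟩
  rw [← hθ]
  have t0 : 0 ≤ θ := by linarith
  have t1 : θ ≤ 13 / 10 := by linarith
  have hc : 155 / 1000 ≤ cos θ := by
    have h2 : 1 - θ ^ 2 / 2 ≤ cos θ := one_sub_sq_div_two_le_cos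
    nlinarith
  have hs0 : 0 ≤ sin θ := sin_nonneg_of_nonneg_of_le_pi t0 (by linarith)
  have hs1 : sin θ ≤ 1 := sin_le_one θ
  have hcφ : 1 - φ ^ 2 / 2 ≤ cos φ := one_sub_sq_div_two_le_cos
  have hcφ' : 898 / 1000 ≤ cos φ := by nlinarith
  have htan : tan φ ≤ 51 / 100 := by
    rw [tan_eq_sin_div_cos, div_le_iff₀ (by linarith)]
    have h2 := sin_le hφ
    linarith
  have ht0 : 0 ≤ tan φ := tan_nonneg_of_nonneg_of_le_pi_div_two hφ (by linarith)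
  have hd : 0 ≤ k' ^ 2 - k ^ 2 := by nlinarith
  have h3 : tan φ * (k' ^ 2 - k ^ 2) * sin θ ≤ 51 / 100 * (k' ^ 2 - k ^ 2) := by
    have h4 : tan φ * (k' ^ 2 - k ^ 2) ≤ 51 / 100 * (k' ^ 2 - k ^ 2) :=
      mul_le_mul_of_nonneg_right htan hd
    have h5 : tan φ * (k' ^ 2 - k ^ 2) * sin θ ≤ tan φ * (k' ^ 2 - k ^ 2) * 1 :=
      mul_le_mul_of_nonneg_left hs1 (mul_nonneg ht0 hd)
    linarith
  have h6 : (k' ^ 2 + k ^ 2) * (155 / 1000) ≤ (k' ^ 2 + k ^ 2) * cos θ :=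
    mul_le_mul_of_nonneg_left hc (by positivity)
  have h7 : 0 < k' := by linarith
  have h8 : 355 / 1000 * k' < 2 * k := by
    norm_num at hk'
    linarith
  have h9 := mul_lt_mul_of_pos_right h8 h7
  nlinarith [sq_nonneg k]

end Pool.Agent.MX.E
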