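import Pool.Agent.MX.E.Defs
import Pool.Agent.AT.E.V4

/-!
# Project MX, block E: numbers in the disc `R² + I² ≤ (π/5) (R + I/4)`
-/

namespace Pool.Agent.MX.E

open Real Pool.Agent.AT.E

theorem cosh_le {x : ℝ} (h0 : 0 ≤ x) (h1 : x ≤ 1 / 2) : cosh x ≤ 1 + 3 * x ^ 2 / 5 := by
  have h2 : cosh x ≤ exp (x ^ 2 / 2) := cosh_le_exp_half_sq x
  have hx2 : x ^ 2 ≤ 1 / 4 := by nlinarith
  have h3 : exp (x ^ 2 / 2) ≤ 1 + x ^ 2 / 2 + (x ^ 2 / 2) ^ 2 := by
    have h4 := Real.abs_exp_sub_one_sub_id_le (x := x ^ 2 / 2) (by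
      rw [abs_of_nonneg (by positivity)]; linarith)
    have h5 := (abs_le.1 h4).2
    linarith
  nlinarith [sq_nonneg x]

theorem sinh_le {x : ℝ} (h0 : 0 ≤ x) (h1 : x ≤ 1 / 2) : sinh x ≤ x + x ^ 3 / 5 := by
  have hd : ∀ v : ℝ, HasDerivAt (fun u : ℝ => u + u ^ 3 / 5 - sinh u) (1 + 3 * v ^ 2 / 5 - cosh v) v := by
    intro v
    have h2 := ((hasDerivAt_id' v).add (((hasDerivAt_pow 3 v)).div_const 5)).sub
      (Real.hasDerivAt_sinh v)
    refine h2.congr_deriv ?_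
    norm_num
  have hm : MonotoneOn (fun u : ℝ => u + u ^ 3 / 5 - sinh u) (Set.Icc 0 (1 / 2)) := by
    apply monotoneOn_of_deriv_nonneg (convex_Icc _ _)
    · exact fun y _ => (hd y).continuousAt.continuousWithinAt
    · exact fun y _ => (hd y).differentiableAt.differentiableWithinAt
    · intro y hy
      rw [(hd y).deriv]
      rw [interior_Icc] at hy
      have := cosh_le hy.1.le hy.2.le
      linarith
  have := hm (Set.left_mem_Icc.2 (by norm_num)) (Set.mem_Icc.2 ⟨h0, h1⟩) h0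
  simp at this
  linarith

theorem num_t {R I : ℝ} (hQ : R ^ 2 + I ^ 2 ≤ 0.62832 * R + 0.15708 * I) :
    5.165 * (R * I) ≤ 0.98 - R ^ 2 / 2 + I ^ 2 / 2 := by
  nlinarith [sq_nonneg (R - 0.57389 * I - 0.34907), sq_nonneg (I - 0.3221)]

theorem num_k {R I : ℝ} (hQ : R ^ 2 + I ^ 2 ≤ 0.62832 * R + 0.15708 * I) :
    1.0661 * I ^ 2 - 0.8649 * R ^ 2 ≤ 0.1236 := by
  nlinarith [sq_nonneg (R - 0.19148), sq_nonneg (I - 0.37347)]

theorem num_d {R I : ℝ} (hQ : R ^ 2 + I ^ 2 ≤ 0.62832 * R + 0.15708 * I) :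
    1.63 * R ^ 2 - 0.3 * I ^ 2 + 2.742 * (R * I) < 0.99 := by
  nlinarith [sq_nonneg (R - 0.57181 * I - 0.53023), sq_nonneg (I - 0.29296)]

theorem num_R {R I : ℝ} (hQ : R ^ 2 + I ^ 2 ≤ 0.62832 * R + 0.15708 * I) : R ≤ 6382 / 10000 := by
  by_contra hn
  push Not at hn
  nlinarith [sq_nonneg (I - 0.07854)]

theorem num_I {R I : ℝ} (hQ : R ^ 2 + I ^ 2 ≤ 0.62832 * R + 0.15708 * I) : I ≤ 4024 / 10000 := by
  by_contra hn
  push Not at hn
  nlinarith [sq_nonneg (R - 0.31416)]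

/-- The numbers of a point of the disc. -/
structure Nm (R I : ℝ) : Prop where
  R0 : 0 < R
  I0 : 0 < I
  R1 : R ≤ 6382 / 10000
  I1 : I ≤ 4024 / 10000
  s0 : 0 < sin R
  s1 : sin R ^ 2 ≤ 36 / 100
  c0 : 4 / 5 ≤ cos R
  h0 : 0 < sinh I
  h1 : sinh I ^ 2 ≤ 174 / 1000
  t1 : 5 * (sin R * sinh I) ≤ cos R * cosh I
  k1 : cos R ^ 2 + sinh I ^ 2 ≤ 1.1236
  d1 : 1.63 * (sin R ^ 2 - sinh I ^ 2 + 2 * sin R ^ 2 * sinh I ^ 2) +
    1.21 * (2 * sin R * cos R * cosh I * sinh I) < 1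

theorem Dz.nm {z : ℂ} (h : Dz z) (h0 : 0 < z.re) (hI : 0 < z.im) : Nm z.re z.im := by
  unfold Dz at h
  obtain ⟨R, I⟩ := z
  simp only at h h0 hI ⊢
  have hp := pi_lt_d4
  have hp' := pi_gt_d4
  have hQ : R ^ 2 + I ^ 2 ≤ 0.62832 * R + 0.15708 * I := by
    have h1 : π / 5 * (R + I / 4) ≤ 0.62832 * (R + I / 4) :=
      mul_le_mul_of_nonneg_right (by linarith) (by positivity)
    linarith
  have hR1 := num_R hQ
  have hI1 := num_I hQ
  have hs0 : 0 < sin R := sin_pos_of_pos_of_lt_pi h0 (by linarith)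
  have hsR : sin R ≤ R := (sin_lt h0).le
  have hs5 := V4_sin5 h0.le
  have hs : sin R ≤ 5958 / 10000 := by
    have h2 : sin R ≤ sin (6382 / 10000) :=
      sin_le_sin_of_le_of_le_pi_div_two (by linarith) (by linarith) hR1
    have h3 := V4_sin5 (x := 6382 / 10000) (by norm_num)
    norm_num at h3
    linarith
  have hs2 : sin R ^ 2 ≤ 36 / 100 := by
    have : sin R ^ 2 ≤ (5958 / 10000) ^ 2 := pow_le_pow_left₀ hs0.le hs 2
    norm_num at this
    linarith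
  have hcs := sin_sq_add_cos_sq R
  have hc0 : 0 < cos R := cos_pos_of_mem_Ioo ⟨by linarith, by linarith⟩
  have hc : 4 / 5 ≤ cos R := by nlinarith
  have hc1 : cos R ≤ 1 := cos_le_one R
  have hc2 : 1 - R ^ 2 / 2 ≤ cos R := one_sub_sq_div_two_le_cos
  have hh0 : 0 < sinh I := sinh_pos_iff.2 hI
  have hI2 : I ^ 2 ≤ 16193 / 100000 := by nlinarith
  have hh : sinh I ≤ 1.0325 * I := by
    have h2 := sinh_le hI.le (by linarith)
    nlinarith
  have hh2 : sinh I ^ 2 ≤ 1.0661 * I ^ 2 := by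
    have : sinh I ^ 2 ≤ (1.0325 * I) ^ 2 := pow_le_pow_left₀ hh0.le hh 2
    norm_num at this ⊢
    nlinarith
  have hhI : I ≤ sinh I := self_le_sinh_iff.2 hI.le
  have hhI2 : I ^ 2 ≤ sinh I ^ 2 := pow_le_pow_left₀ hI.le hhI 2
  have hh1 : sinh I ^ 2 ≤ 174 / 1000 := by
    norm_num at hh2 ⊢
    linarith
  have hC := cosh_le hI.le (by linarith)
  have hC0 : 1 + I ^ 2 / 2 ≤ cosh I := by
    have h1 : cosh I = 1 + 2 * sinh (I / 2) ^ 2 := by
      have h2 := cosh_two_mul (I / 2)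
      rw [show 2 * (I / 2) = I by ring] at h2
      have h3 := cosh_sq (I / 2)
      linarith
    have h2 : I / 2 ≤ sinh (I / 2) := self_le_sinh_iff.2 (by linarith)
    have h3 : (I / 2) ^ 2 ≤ sinh (I / 2) ^ 2 := pow_le_pow_left₀ (by linarith) h2 2
    nlinarith
  have hRI : 0 < R * I := mul_pos h0 hI
  have hR2 : R ^ 2 ≤ 0.4073 := by nlinarith
  refine ⟨h0, hI, hR1, hI1, hs0, hs2, hc, hh0, hh1, ?_, ?_, ?_⟩
  · -- `5 R I ≤ ...`
    have h1 : sin R * sinh I ≤ R * (1.0325 * I) := mul_le_mul hsR hh hh0.le h0.le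
    have h2 : (1 - R ^ 2 / 2) * (1 + I ^ 2 / 2) ≤ cos R * cosh I :=
      mul_le_mul hc2 hC0 (by positivity) hc0.le
    have h3 := num_t hQ
    have h4 : R ^ 2 * I ^ 2 ≤ 0.4073 * 0.16193 := by
      apply mul_le_mul hR2 (by linarith) (sq_nonneg _) (by norm_num)
    have e1 : (1 - R ^ 2 / 2) * (1 + I ^ 2 / 2) = 1 - R ^ 2 / 2 + I ^ 2 / 2 - R ^ 2 * I ^ 2 / 4 := by
      ring
    have e2 : 5 * (R * (1.0325 * I)) = 5.1625 * (R * I) := by ring
    rw [e1] at h2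
    norm_num at h3 h4 e2 ⊢
    linarith
  · -- `s² ≥ 0.8649 R²`
    have h1 : R - R ^ 3 / 6 ≤ sin R := V4_sin3 h0.le
    have h2 : 0.93 * R ≤ sin R := by
      have e : R ^ 3 = R ^ 2 * R := by ring
      have h3 : R ^ 2 * R ≤ 0.4073 * R := mul_le_mul_of_nonneg_right hR2 h0.le
      norm_num at h3 ⊢
      linarith
    have h3 : 0.8649 * R ^ 2 ≤ sin R ^ 2 := by
      have : (0.93 * R) ^ 2 ≤ sin R ^ 2 := pow_le_pow_left₀ (by positivity) h2 2
      rw [mul_pow] at this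
      norm_num at this ⊢
      linarith
    have h4 := num_k hQ
    norm_num at h3 h4 hh2 ⊢
    linarith
  · have h1 : sin R ^ 2 ≤ R ^ 2 := pow_le_pow_left₀ hs0.le hsR 2
    have h2 : cosh I * sinh I ≤ 1.133 * I := by
      have h3 : cosh I ≤ 1.0972 := by
        norm_num
        linarith
      have h4 : cosh I * sinh I ≤ 1.0972 * (1.0325 * I) :=
        mul_le_mul h3 hh hh0.le (by norm_num)
      norm_num at h4 ⊢
      linarith
    have h3 : 2 * sin R * cos R * cosh I * sinh I ≤ 2.266 * (R * I) := by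
      have h5 : sin R * cos R ≤ R := by
        calc sin R * cos R ≤ R * 1 := mul_le_mul hsR hc1 hc0.le h0.le
          _ = R := mul_one R
      have h6 : sin R * cos R * (cosh I * sinh I) ≤ R * (1.133 * I) :=
        mul_le_mul h5 h2 (mul_pos (cosh_pos I) hh0).le h0.le
      have e1 : 2 * sin R * cos R * cosh I * sinh I = 2 * (sin R * cos R * (cosh I * sinh I)) := by
        ring
      have e2 : R * (1.133 * I) = 1.133 * (R * I) := by ring
      rw [e1]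
      rw [e2] at h6
      norm_num at h6 ⊢
      linarith
    have h4 : sin R ^ 2 - sinh I ^ 2 + 2 * sin R ^ 2 * sinh I ^ 2 ≤
        R ^ 2 - I ^ 2 + 2 * R ^ 2 * I ^ 2 := by
      have h5 : 0 ≤ (1 + 2 * sinh I ^ 2) * (R ^ 2 - sin R ^ 2) :=
        mul_nonneg (by positivity) (by linarith)
      have h6 : 0 ≤ (1 - 2 * R ^ 2) * (sinh I ^ 2 - I ^ 2) :=
        mul_nonneg (by linarith) (by linarith)
      have e : R ^ 2 - I ^ 2 + 2 * R ^ 2 * I ^ 2 - (sin R ^ 2 - sinh I ^ 2 +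
          2 * sin R ^ 2 * sinh I ^ 2) = (1 + 2 * sinh I ^ 2) * (R ^ 2 - sin R ^ 2) +
          (1 - 2 * R ^ 2) * (sinh I ^ 2 - I ^ 2) := by ring
      linarith
    have h5 := num_d hQ
    have h6 : R ^ 2 * I ^ 2 ≤ 0.4073 * I ^ 2 := mul_le_mul_of_nonneg_right hR2 (sq_nonneg _)
    norm_num at h3 h4 h5 h6 ⊢
    linarith

end Pool.Agent.MX.E
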