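import Pool.Agent.MX.E.Seg
import Pool.Agent.MX.E.Num

/-!
# Project MX, block E: the pointwise inequalities

`Im ((1 + i/4) Ev b y) > 0` for the same-sign coefficients `b = b₁ - i b₂` and `Im (Ev b y) > 0` for
the opposite ones `b = b₁ + i b₂`.
-/

namespace Pool.Agent.MX.E

open Complex Pool.Agent.S3.E

/-- `Im (M conj v) > 0` from `v² = Δ`. -/
theorem half_pos {M1 M2 p q D1 D2 : ℝ} (hp : 0 < p) (h1 : p ^ 2 - q ^ 2 = D1)
    (h2 : 2 * p * q = D2) (hM : 0 < M2) (h : M1 * D2 < 2 * M2 * D1) : 0 < M2 * p - M1 * q := by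
  have h3 : M1 * D2 < 2 * M2 * p ^ 2 := by
    have : 2 * M2 * D1 ≤ 2 * M2 * p ^ 2 := by
      apply mul_le_mul_of_nonneg_left _ (by positivity)
      linarith only [sq_nonneg q, h1]
    linarith only [this, h]
  by_contra hn
  push Not at hn
  have h4 := mul_nonneg (mul_nonneg zero_le_two hp.le) (sub_nonneg.2 hn)
  rw [← h2] at h3
  have e : 2 * p * (0 - (M2 * p - M1 * q)) = M1 * (2 * p * q) - 2 * M2 * p ^ 2 := by ring
  rw [e] at h4
  linarith only [h4, h3]

theorem im_div_pos {m n : ℂ} (hn : n ≠ 0) (h : 0 < (m * (starRingEnd ℂ) n).im) : 0 < (m / n).im := by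
  have h1 : m / n = (m * (starRingEnd ℂ) n) * (((normSq n)⁻¹ : ℝ) : ℂ) := by
    rw [div_eq_mul_inv, Complex.inv_def]
    push_cast
    ring
  rw [h1, mul_im, ofReal_re, ofReal_im, mul_zero, zero_add]
  exact mul_pos h (inv_pos.2 (normSq_pos.2 hn))

theorem sin_re' (z : ℂ) : (sin z).re = Real.sin z.re * Real.cosh z.im := GeoC_sin_re z

theorem sin_im' (z : ℂ) : (sin z).im = Real.cos z.re * Real.sinh z.im := GeoC_sin_im z

theorem tan_re' {z : ℂ} (hc : cos z ≠ 0) : (tan z).re * normSq (cos z) =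
    Real.sin z.re * Real.cos z.re := by
  have h1 : tan z * ((normSq (cos z) : ℝ) : ℂ) = sin z * (starRingEnd ℂ) (cos z) := by
    rw [← mul_conj, tan_eq_sin_div_cos]
    field_simp
  have h2 := congrArg re h1
  rw [mul_re, ofReal_re, ofReal_im, mul_zero, sub_zero, mul_re, conj_re, conj_im, cos_re', cos_im',
    sin_re', sin_im'] at h2
  rw [h2]
  have h3 := Real.cosh_sq z.im
  have : Real.sin z.re * Real.cosh z.im * (Real.cos z.re * Real.cosh z.im) -
    Real.cos z.re * Real.sinh z.im * - -(Real.sin z.re * Real.sinh z.im) =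
    Real.sin z.re * Real.cos z.re * (Real.cosh z.im ^ 2 - Real.sinh z.im ^ 2) := by ring
  rw [this, h3]
  ring

theorem tan_im' {z : ℂ} (hc : cos z ≠ 0) : (tan z).im * normSq (cos z) =
    Real.cosh z.im * Real.sinh z.im := by
  have h1 : tan z * ((normSq (cos z) : ℝ) : ℂ) = sin z * (starRingEnd ℂ) (cos z) := by
    rw [← mul_conj, tan_eq_sin_div_cos]
    field_simp
  have h2 := congrArg im h1
  rw [mul_im, ofReal_re, ofReal_im, mul_zero, zero_add, mul_im, conj_re, conj_im, cos_re', cos_im',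
    sin_re', sin_im'] at h2
  rw [h2]
  have h3 := Real.sin_sq_add_cos_sq z.re
  have : Real.sin z.re * Real.cosh z.im * - -(Real.sin z.re * Real.sinh z.im) +
    Real.cos z.re * Real.sinh z.im * (Real.cos z.re * Real.cosh z.im) =
    Real.cosh z.im * Real.sinh z.im * (Real.sin z.re ^ 2 + Real.cos z.re ^ 2) := by ring
  rw [this, h3]
  ring

theorem normSq_cos (z : ℂ) : normSq (cos z) = Real.cos z.re ^ 2 + Real.sinh z.im ^ 2 := by
  rw [normSq_apply, cos_re', cos_im']
  have h3 := Real.cosh_sq z.im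
  have h4 := Real.sin_sq_add_cos_sq z.re
  have : Real.cos z.re * Real.cosh z.im * (Real.cos z.re * Real.cosh z.im) +
    -(Real.sin z.re * Real.sinh z.im) * -(Real.sin z.re * Real.sinh z.im) =
    Real.cos z.re ^ 2 * Real.cosh z.im ^ 2 + Real.sin z.re ^ 2 * Real.sinh z.im ^ 2 := by ring
  rw [this, h3, show Real.sin z.re ^ 2 = 1 - Real.cos z.re ^ 2 by linarith only [h4]]
  ring

section

variable {y b : ℂ}

theorem Nm.lt (hn : Nm y.re y.im) : y.re < Real.pi / 2 := by
  have := hn.R1
  linarith only [Real.pi_gt_three, this]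

theorem Nm.cos_ne (hn : Nm y.re y.im) : cos y ≠ 0 := cos_ne_of hn.R0.le hn.lt

theorem Nm.tan_re (hn : Nm y.re y.im) : 0 < (tan y).re := by
  have h1 := tan_re' hn.cos_ne
  have h2 : 0 < normSq (cos y) := normSq_pos.2 hn.cos_ne
  have h3 : 0 < Real.sin y.re * Real.cos y.re := mul_pos hn.s0 (lt_of_lt_of_le (by norm_num) hn.c0)
  rw [← h1] at h3
  exact (pos_iff_pos_of_mul_pos h3).2 h2

theorem Nm.tan_im (hn : Nm y.re y.im) : 0 < (tan y).im := by
  have h1 := tan_im' hn.cos_ne
  have h2 : 0 < normSq (cos y) := normSq_pos.2 hn.cos_ne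
  have h3 : 0 < Real.cosh y.im * Real.sinh y.im := mul_pos (Real.cosh_pos _) hn.h0
  rw [← h1] at h3
  exact (pos_iff_pos_of_mul_pos h3).2 h2

theorem Nm.sc (hn : Nm y.re y.im) :
    Real.sin y.re * Real.sinh y.im ≤ Real.cos y.re * Real.cosh y.im := by
  have h1 := hn.t1
  have h2 : 0 < Real.sin y.re * Real.sinh y.im := mul_pos hn.s0 hn.h0
  linarith only [h2, h1]

/-- the sign of `Im (ω Ev b y)` -/
theorem Ev_im {ω : ℂ} (hn : Nm y.re y.im) (hw : 0 < (b * tan y).re)
    (hr : -(b * tan y).re ≤ (b * tan y).im) {B1 B2 : ℝ} (hB1 : b.re ^ 2 - b.im ^ 2 = B1)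
    (hB2 : 2 * b.re * b.im = B2) {s1 s2 : ℝ}
    (h1 : s1 = Real.sin y.re ^ 2 - Real.sinh y.im ^ 2 + 2 * Real.sin y.re ^ 2 * Real.sinh y.im ^ 2)
    (h2 : s2 = 2 * Real.sin y.re * Real.cos y.re * Real.cosh y.im * Real.sinh y.im)
    (hM : 0 < (ω * b * (starRingEnd ℂ) (cos y)).im)
    (h : (ω * b * (starRingEnd ℂ) (cos y)).re * ((B1 - 1) * s2 + B2 * s1) <
      2 * (ω * b * (starRingEnd ℂ) (cos y)).im * (1 + (B1 - 1) * s1 - B2 * s2)) :
    0 < (ω * Ev b y).im := by
  have hv := v_re_pos hn.R0 hn.lt hn.I0 hw hr hn.sc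
  have hv2 := v_sq (b := b) hn.cos_ne hw.le
  have hne : cos y * cosh (asr (b * tan y)) ≠ 0 := by
    intro h0
    rw [h0, zero_re] at hv
    exact lt_irrefl _ hv
  have e : ω * Ev b y = (ω * b) / (cos y * (cos y * cosh (asr (b * tan y)))) := by
    rw [Ev_eq]
    ring
  rw [e]
  apply im_div_pos (mul_ne_zero hn.cos_ne hne)
  set v := cos y * cosh (asr (b * tan y)) with hvdef
  have e2 : ω * b * (starRingEnd ℂ) (cos y * v) =
      (ω * b * (starRingEnd ℂ) (cos y)) * (starRingEnd ℂ) v := by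
    rw [map_mul]
    ring
  rw [e2, mul_im, conj_re, conj_im]
  set M := ω * b * (starRingEnd ℂ) (cos y)
  have hC := Real.cosh_sq y.im
  have hS := Real.sin_sq_add_cos_sq y.re
  have hs2 : sin y ^ 2 = (s1 : ℂ) + (s2 : ℂ) * I := by
    apply Complex.ext
    · rw [sq, mul_re, sin_re', sin_im', add_re, ofReal_re, mul_re, ofReal_re, ofReal_im, I_re, I_im,
        h1]
      have : Real.sin y.re * Real.cosh y.im * (Real.sin y.re * Real.cosh y.im) -
        Real.cos y.re * Real.sinh y.im * (Real.cos y.re * Real.sinh y.im) =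
        Real.sin y.re ^ 2 * Real.cosh y.im ^ 2 - Real.cos y.re ^ 2 * Real.sinh y.im ^ 2 := by ring
      rw [this, hC, show Real.cos y.re ^ 2 = 1 - Real.sin y.re ^ 2 by linarith only [hS]]
      ring
    · rw [sq, mul_im, sin_re', sin_im', add_im, ofReal_im, mul_im, ofReal_re, ofReal_im, I_re, I_im,
        h2]
      ring
  have hc2 : cos y ^ 2 = 1 - sin y ^ 2 := by
    have := sin_sq_add_cos_sq y
    rw [← this]; ring
  have hb2 : b ^ 2 = (B1 : ℂ) + (B2 : ℂ) * I := by
    apply Complex.ext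
    · rw [sq, mul_re, add_re, ofReal_re, mul_re, ofReal_re, ofReal_im, I_re, I_im, ← hB1]
      ring
    · rw [sq, mul_im, add_im, ofReal_im, mul_im, ofReal_re, ofReal_im, I_re, I_im, ← hB2]
      ring
  rw [hc2, hs2, hb2] at hv2
  have r1 := congrArg re hv2
  have r2 := congrArg im hv2
  rw [sq, mul_re] at r1
  rw [sq, mul_im] at r2
  simp at r1 r2
  have := half_pos (M1 := M.re) (M2 := M.im) (D1 := 1 + (B1 - 1) * s1 - B2 * s2)
    (D2 := (B1 - 1) * s2 + B2 * s1) hv (q := v.im) (by linarith only [r1]) (by linarith only [r2]) hM h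
  linarith only [this]

theorem Nm.s1_bd (hn : Nm y.re y.im) {s1 : ℝ}
    (h1 : s1 = Real.sin y.re ^ 2 - Real.sinh y.im ^ 2 + 2 * Real.sin y.re ^ 2 * Real.sinh y.im ^ 2) :
    -(174 / 1000) ≤ s1 ∧ s1 ≤ 36 / 100 := by
  have a1 := hn.s1
  have a2 := hn.h1
  have a3 : 0 ≤ Real.sin y.re ^ 2 := sq_nonneg _
  have a4 : 0 ≤ Real.sinh y.im ^ 2 := sq_nonneg _
  have a5 : 0 ≤ Real.sin y.re ^ 2 * Real.sinh y.im ^ 2 := mul_nonneg a3 a4
  have a6 : Real.sin y.re ^ 2 * Real.sinh y.im ^ 2 ≤ 36 / 100 * Real.sinh y.im ^ 2 :=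
    mul_le_mul_of_nonneg_right a1 a4
  constructor <;> rw [h1] <;> linarith

theorem Nm.s2_bd (hn : Nm y.re y.im) {s2 : ℝ}
    (h2 : s2 = 2 * Real.sin y.re * Real.cos y.re * Real.cosh y.im * Real.sinh y.im) :
    0 < s2 ∧ s2 ≤ 44 / 100 := by
  have a1 := hn.s1
  have a2 := hn.h1
  have a3 : 0 ≤ Real.sin y.re ^ 2 := sq_nonneg _
  have a4 : 0 ≤ Real.sinh y.im ^ 2 := sq_nonneg _
  have hC := Real.cosh_sq y.im
  have hS := Real.sin_sq_add_cos_sq y.re
  have hc0 : 0 < Real.cos y.re := lt_of_lt_of_le (by norm_num) hn.c0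
  have hpos : 0 < s2 := by
    rw [h2]
    have := hn.s0
    have := hn.h0
    have := Real.cosh_pos y.im
    positivity
  refine ⟨hpos, ?_⟩
  have e : s2 ^ 2 = 4 * (Real.sin y.re ^ 2 * (1 - Real.sin y.re ^ 2)) *
      (Real.sinh y.im ^ 2 * (1 + Real.sinh y.im ^ 2)) := by
    rw [h2, show (1 : ℝ) - Real.sin y.re ^ 2 = Real.cos y.re ^ 2 by linarith only [hS],
      show (1 : ℝ) + Real.sinh y.im ^ 2 = Real.cosh y.im ^ 2 by linarith only [hC]]
    ring
  have b1 : Real.sin y.re ^ 2 * (1 - Real.sin y.re ^ 2) ≤ 2304 / 10000 := by linarith only [a1,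
                                                                               mul_nonneg (sub_nonneg.2 a1) (sub_nonneg.2 a1)]
  have b2 : Real.sinh y.im ^ 2 * (1 + Real.sinh y.im ^ 2) ≤ 2043 / 10000 := by linarith only [a2,
                                                                                 mul_nonneg (sq_nonneg (Real.sinh y.im)) (sub_nonneg.2 a2)]
  have b3 : s2 ^ 2 ≤ (44 / 100) ^ 2 := by
    rw [e]
    have c1 : (Real.sin y.re ^ 2 * (1 - Real.sin y.re ^ 2)) *
      (Real.sinh y.im ^ 2 * (1 + Real.sinh y.im ^ 2)) ≤ 2304 / 10000 * (2043 / 10000) :=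
      mul_le_mul b1 b2 (by positivity) (by norm_num)
    norm_num at c1 ⊢
    linarith only [c1]
  exact le_of_sq_le_sq b3 (by norm_num)

/-- The pointwise inequality for the coefficients of a same-sign slot. -/
theorem ptS (hn : Nm y.re y.im) (hb1 : 4 / 5 ≤ b.re) (hb2 : b.im ≤ 0) (hb3 : -b.im ≤ b.re / 5)
    (hb : b.re ^ 2 + b.im ^ 2 ≤ 1.1236) : 0 < (b * tan y).re ∧ 0 < ((1 + I / 4) * Ev b y).im := by
  have hT1 := hn.tan_re
  have hT2 := hn.tan_im
  obtain ⟨b1, b2, e1, e2⟩ : ∃ b1 b2 : ℝ, b.re = b1 ∧ b.im = -b2 := ⟨b.re, -b.im, rfl, by ring⟩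
  rw [e1, e2] at hb
  rw [e1] at hb1
  rw [e2] at hb2
  rw [e1, e2] at hb3
  rw [neg_neg] at hb3
  have hb2' : 0 ≤ b2 := by linarith only [hb2]
  have hw : 0 < (b * tan y).re := by
    rw [mul_re, e1, e2]
    have := mul_pos (lt_of_lt_of_le (by norm_num : (0 : ℝ) < 4 / 5) hb1) hT1
    have := mul_nonneg hb2' hT2.le
    linarith [this]
  have hr : -(b * tan y).re ≤ (b * tan y).im := by
    rw [mul_re, mul_im, e1, e2]
    have := mul_nonneg (sub_nonneg.2 (by linarith only [hb3, hb1] : b2 ≤ b1)) hT1.le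
    have := mul_nonneg (by linarith only [hb2, hb1] : (0 : ℝ) ≤ b1 + b2) hT2.le
    linarith [this]
  refine ⟨hw, ?_⟩
  obtain ⟨c, hc⟩ : ∃ c : ℝ, Real.cos y.re * Real.cosh y.im = c := ⟨_, rfl⟩
  obtain ⟨s, hs⟩ : ∃ s : ℝ, Real.sin y.re * Real.sinh y.im = s := ⟨_, rfl⟩
  have hc0 : 0 < c := by
    rw [← hc]; exact mul_pos (lt_of_lt_of_le (by norm_num) hn.c0) (Real.cosh_pos _)
  have hs0 : 0 < s := by
    rw [← hs]; exact mul_pos hn.s0 hn.h0
  have hM1 : ((1 + I / 4) * b * (starRingEnd ℂ) (cos y)).re =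
      (b1 + b2 / 4) * c - (b1 / 4 - b2) * s := by
    rw [mul_re, mul_re, mul_im, conj_re, conj_im, cos_re', cos_im', hc, hs, e1, e2]
    simp
    ring
  have hM2 : ((1 + I / 4) * b * (starRingEnd ℂ) (cos y)).im =
      (b1 + b2 / 4) * s + (b1 / 4 - b2) * c := by
    rw [mul_im, mul_re, mul_im, conj_re, conj_im, cos_re', cos_im', hc, hs, e1, e2]
    simp
    ring
  obtain ⟨s1, h1⟩ : ∃ s1 : ℝ, s1 = Real.sin y.re ^ 2 - Real.sinh y.im ^ 2 +
    2 * Real.sin y.re ^ 2 * Real.sinh y.im ^ 2 := ⟨_, rfl⟩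
  obtain ⟨s2, h2⟩ : ∃ s2 : ℝ, s2 = 2 * Real.sin y.re * Real.cos y.re * Real.cosh y.im *
    Real.sinh y.im := ⟨_, rfl⟩
  have hcs : s2 = 2 * (s * c) := by
    rw [h2, ← hs, ← hc]
    ring
  have hd : 0 < b1 / 4 - b2 := by linarith only [hb3, hb1]
  apply Ev_im hn hw hr (B1 := b1 ^ 2 - b2 ^ 2) (B2 := -(2 * b1 * b2)) (by rw [e1, e2]; ring)
    (by rw [e1, e2]; ring) h1 h2
  · rw [hM2]
    have := mul_pos (by linarith only [hb2, hb1] : (0 : ℝ) < b1 + b2 / 4) hs0
    have := mul_pos hd hc0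
    linarith [this]
  · rw [hM1, hM2]
    obtain ⟨l1, u1⟩ := hn.s1_bd h1
    obtain ⟨l2, u2⟩ := hn.s2_bd h2
    -- the numbers
    have hB : 0 ≤ b1 * b2 := mul_nonneg (by linarith only [hb1]) hb2'
    have hB2 : 2 * b1 * b2 ≤ 0.4323 := by (refine le_of_not_gt fun hng => ?_; linarith only [hng,
                                            hd, hb, mul_nonneg (sub_nonneg.2 hb1) (sub_nonneg.2 hb),
                                            mul_nonneg (sub_nonneg.2 hb1) (sub_nonneg.2 hb3),
                                            mul_nonneg (sub_nonneg.2 hng.le) (sub_nonneg.2 hb2),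
                                            mul_nonneg (sub_nonneg.2 hng.le) (sub_nonneg.2 hb1),
                                            mul_pos (sub_pos.2 hng) (sub_pos.2 hng),
                                            mul_nonneg (sq_nonneg (-(1 * b2))) (sub_nonneg.2 hb),
                                            mul_nonneg (sq_nonneg (-(1 * b2))) (sq_nonneg (-(1 * b2))),
                                            mul_nonneg (sq_nonneg (1 * b1)) (sub_nonneg.2 hb3),
                                            mul_nonneg (sq_nonneg (1 * b1)) (sub_nonneg.2 hb1)])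
    have hB1 : 0.6144 ≤ b1 ^ 2 - b2 ^ 2 := by (refine le_of_not_gt fun hng => ?_; linarith only [hb3,
                                                hb1,
                                                mul_nonneg (sub_nonneg.2 hb3) (sub_nonneg.2 hb2),
                                                mul_nonneg (sub_nonneg.2 hb1) (sub_nonneg.2 hb3),
                                                mul_nonneg (sub_nonneg.2 hb1) (sub_nonneg.2 hb1),
                                                mul_nonneg (sub_nonneg.2 hng.le) (sub_nonneg.2 u2),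
                                                mul_pos (sub_pos.2 hng) (sub_pos.2 l2)])
    have hB1' : b1 ^ 2 - b2 ^ 2 ≤ 1.1236 := by linarith only [sq_nonneg b2, hb]
    have hD : 4 / 5 ≤ 1 + (b1 ^ 2 - b2 ^ 2 - 1) * s1 := by linarith only [hB1, u2, l2, hb,
                                                             mul_nonneg (sub_nonneg.2 hb) (sub_nonneg.2 u1),
                                                             mul_nonneg (sq_nonneg (1 * b2)) (sub_nonneg.2 u1),
                                                             mul_nonneg (sq_nonneg (1 * b1)) (sub_nonneg.2 l1)]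
    have hh := hn.h1
    have hs1 : -s1 ≤ 174 / 1000 := by linarith only [l1]
    have hc2 : c ^ 2 ≤ 1.174 := by
      rw [← hc, mul_pow, Real.cosh_sq]
      have := Real.sin_sq_add_cos_sq y.re
      have := sq_nonneg (Real.sin y.re)
      have := sq_nonneg (Real.sinh y.im)
      have h5 : Real.cos y.re ^ 2 * (Real.sinh y.im ^ 2 + 1) ≤ 1 * (1.174) :=
        mul_le_mul (by linarith) (by norm_num at hh ⊢; linarith only [hh]) (by positivity) (by norm_num)
      linarith only [h5]
    -- left side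
    have hL : ((b1 + b2 / 4) * c - (b1 / 4 - b2) * s) *
        ((b1 ^ 2 - b2 ^ 2 - 1) * s2 + -(2 * b1 * b2) * s1) ≤
        (b1 + b2 / 4) * c * (0.1236 * s2 + 2 * b1 * b2 * 0.174) := by
      have hX : (b1 ^ 2 - b2 ^ 2 - 1) * s2 + -(2 * b1 * b2) * s1 ≤
          0.1236 * s2 + 2 * b1 * b2 * 0.174 := by
        have k1 := mul_nonneg (sub_nonneg.2 hB1') l2.le
        have k2 := mul_nonneg (by positivity : (0:ℝ) ≤ 2 * (b1 * b2))
          (by linarith only [l1] : (0:ℝ) ≤ 174 / 1000 + s1)
        norm_num at k1 k2 ⊢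
        linarith only [k2, k1]
      have hsc : s ≤ c := by rw [← hs, ← hc]; exact hn.sc
      have hM : 0 ≤ (b1 + b2 / 4) * c - (b1 / 4 - b2) * s := by
        have := mul_le_mul_of_nonneg_left hsc hd.le
        linarith only [this, hc0, mul_nonneg (sub_nonneg.2 hb2) (sub_nonneg.2 hc0.le),
          mul_nonneg (sub_nonneg.2 hb1) (sub_nonneg.2 hc0.le)]
      have hM' : (b1 + b2 / 4) * c - (b1 / 4 - b2) * s ≤ (b1 + b2 / 4) * c := by
        have := mul_nonneg hd.le hs0.le
        linarith only [this]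
      have hX0 : 0 ≤ 0.1236 * s2 + 2 * b1 * b2 * 0.174 := by positivity
      calc _ ≤ ((b1 + b2 / 4) * c - (b1 / 4 - b2) * s) * (0.1236 * s2 + 2 * b1 * b2 * 0.174) :=
            mul_le_mul_of_nonneg_left hX hM
        _ ≤ _ := mul_le_mul_of_nonneg_right hM' hX0
    -- right side
    have hR : 2 * ((b1 + b2 / 4) * s + (b1 / 20) * c) * (4 / 5) ≤
        2 * ((b1 + b2 / 4) * s + (b1 / 4 - b2) * c) *
          (1 + (b1 ^ 2 - b2 ^ 2 - 1) * s1 - -(2 * b1 * b2) * s2) := by
      have k1 : (b1 / 20) * c ≤ (b1 / 4 - b2) * c :=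
        mul_le_mul_of_nonneg_right (by linarith only [hb3]) hc0.le
      have k2 : 0 ≤ 2 * b1 * b2 * s2 := by positivity
      have k3 : 0 ≤ (b1 + b2 / 4) * s := by positivity
      have k4 : 0 ≤ (b1 / 20) * c := by positivity
      apply mul_le_mul (by linarith only [k1]) (by linarith only [k2, hD]) (by norm_num) (by positivity)
    -- the two parts
    have p1 : (b1 + b2 / 4) * c * (0.1236 * s2) ≤ (b1 + b2 / 4) * s * 0.2903 := by
      rw [hcs]
      have e : (b1 + b2 / 4) * c * (0.1236 * (2 * (s * c))) =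
        (b1 + b2 / 4) * s * (0.2472 * c ^ 2) := by ring
      rw [e]
      apply mul_le_mul_of_nonneg_left _ (by positivity)
      norm_num at hc2 ⊢
      linarith only [hc2]
    have p2 : (b1 + b2 / 4) * c * (2 * b1 * b2 * 0.174) ≤ 2 * ((b1 / 20) * c) * (4 / 5) := by
      have e : (b1 + b2 / 4) * (2 * b1 * b2 * 0.174) ≤ 2 * (b1 / 20) * (4 / 5) := by
        have k1 : b1 + b2 / 4 ≤ 1.05 * b1 := by
          norm_num
          linarith only [hb3]
        have k2 : (b1 + b2 / 4) * (2 * b1 * b2 * 0.174) ≤ 1.05 * b1 * (0.4323 * 0.174) := by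
          apply mul_le_mul k1 _ (by positivity) (by positivity)
          exact mul_le_mul_of_nonneg_right hB2 (by norm_num)
        norm_num at k2 ⊢
        linarith only [k2, hb1]
      have := mul_le_mul_of_nonneg_right e hc0.le
      linarith only [this]
    have p3 : 0 < (b1 + b2 / 4) * s := by positivity
    norm_num at hL hR p1 p2 ⊢
    linarith only [p2, p1, hR, hL, p3]

/-- The pointwise inequality for the coefficients of an opposite slot. -/
theorem ptO (hn : Nm y.re y.im) (hb1 : 0 < b.re) (hb2 : 0 ≤ b.im) (hb3 : b.im ≤ 1.04 * b.re)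
    (hb : b.re ^ 2 + b.im ^ 2 ≤ 1.21) (hw : 0 < (b * tan y).re) : 0 < (Ev b y).im := by
  have hT1 := hn.tan_re
  have hT2 := hn.tan_im
  have hr : -(b * tan y).re ≤ (b * tan y).im := by
    rw [mul_im]
    have := mul_nonneg hb1.le hT2.le
    have := mul_nonneg hb2 hT1.le
    linarith [this, hw]
  obtain ⟨c, hc⟩ : ∃ c : ℝ, Real.cos y.re * Real.cosh y.im = c := ⟨_, rfl⟩
  obtain ⟨s, hs⟩ : ∃ s : ℝ, Real.sin y.re * Real.sinh y.im = s := ⟨_, rfl⟩
  have hc0 : 0 < c := by
    rw [← hc]; exact mul_pos (lt_of_lt_of_le (by norm_num) hn.c0) (Real.cosh_pos _)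
  have hs0 : 0 < s := by
    rw [← hs]; exact mul_pos hn.s0 hn.h0
  have hsc : 5 * s ≤ c := by rw [← hs, ← hc]; exact hn.t1
  obtain ⟨b1, e1⟩ : ∃ b1 : ℝ, b.re = b1 := ⟨_, rfl⟩
  obtain ⟨b2, e2⟩ : ∃ b2 : ℝ, b.im = b2 := ⟨_, rfl⟩
  rw [e1] at hb1
  rw [e2] at hb2
  rw [e1, e2] at hb hb3
  have hM1 : ((1 : ℂ) * b * (starRingEnd ℂ) (cos y)).re = b1 * c - b2 * s := by
    rw [one_mul, mul_re, conj_re, conj_im, cos_re', cos_im', hc, hs, e1, e2]
    ring
  have hM2 : ((1 : ℂ) * b * (starRingEnd ℂ) (cos y)).im = b1 * s + b2 * c := by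
    rw [one_mul, mul_im, conj_re, conj_im, cos_re', cos_im', hc, hs, e1, e2]
    ring
  obtain ⟨s1, h1⟩ : ∃ s1 : ℝ, s1 = Real.sin y.re ^ 2 - Real.sinh y.im ^ 2 +
    2 * Real.sin y.re ^ 2 * Real.sinh y.im ^ 2 := ⟨_, rfl⟩
  obtain ⟨s2, h2⟩ : ∃ s2 : ℝ, s2 = 2 * Real.sin y.re * Real.cos y.re * Real.cosh y.im *
    Real.sinh y.im := ⟨_, rfl⟩
  have hcs : s2 = 2 * (s * c) := by
    rw [h2, ← hs, ← hc]
    ring
  have hd1 := hn.d1
  rw [← h1, ← h2] at hd1
  obtain ⟨l1, u1⟩ := hn.s1_bd h1
  obtain ⟨l2, u2⟩ := hn.s2_bd h2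
  have hM2p : 0 < b1 * s + b2 * c := by
    have := mul_pos hb1 hs0
    have := mul_nonneg hb2 hc0.le
    linarith [this]
  have hfin : 0 < (1 * Ev b y).im := by
    apply Ev_im hn hw hr (B1 := b1 ^ 2 - b2 ^ 2) (B2 := 2 * b1 * b2) (by rw [e1, e2])
      (by rw [e1, e2]) h1 h2
    · rw [hM2]
      exact hM2p
    · rw [hM1, hM2]
      have hh := hn.h1
      have hc2 : c ^ 2 ≤ 1.174 := by
        rw [← hc, mul_pow, Real.cosh_sq]
        have := Real.sin_sq_add_cos_sq y.re
        have := sq_nonneg (Real.sin y.re)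
        have := sq_nonneg (Real.sinh y.im)
        have h5 : Real.cos y.re ^ 2 * (Real.sinh y.im ^ 2 + 1) ≤ 1 * (1.174) :=
          mul_le_mul (by linarith) (by norm_num at hh ⊢; linarith only [hh]) (by positivity) (by norm_num)
        linarith only [h5]
      have hb12 : 0 ≤ b1 * b2 := mul_nonneg hb1.le hb2
      have hb22 : b2 ^ 2 ≤ 0.63 := by
        have : b2 ^ 2 ≤ (1.04 * b1) ^ 2 := pow_le_pow_left₀ hb2 hb3 2
        norm_num at this hb ⊢
        linarith only [hb, this, u2, l2]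
      have hB1l : -(0.0817) * b1 ^ 2 ≤ b1 ^ 2 - b2 ^ 2 := by
        have : b2 ^ 2 ≤ (1.04 * b1) ^ 2 := pow_le_pow_left₀ hb2 hb3 2
        norm_num at this ⊢
        linarith only [this, sq_nonneg (1 * b1)]
      have hM1p : 0 < b1 * c - b2 * s := by
        have k1 : b2 * s ≤ 1.04 * b1 * s := mul_le_mul_of_nonneg_right hb3 hs0.le
        have k2 : b1 * (5 * s) ≤ b1 * c := mul_le_mul_of_nonneg_left hsc hb1.le
        have k3 : 0 < b1 * s := mul_pos hb1 hs0
        norm_num at k1
        linarith only [k1, k3, k2]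
      have hB2 : 2 * b1 * b2 ≤ 1.21 := by linarith only [sq_nonneg (b1 - b2), hb]
      -- the two bounds
      set D := 1 + (b1 ^ 2 - b2 ^ 2 - 1) * s1 - 2 * b1 * b2 * s2 with hD
      set m := max s1 0 with hm
      have hm0 : 0 ≤ m := le_max_right _ _
      have hms : s1 ≤ m := le_max_left _ _
      have k1 : b1 ^ 2 * m ≤ D := by
        rcases le_total 0 s1 with h0 | h0
        · rw [hm, max_eq_left h0, hD]
          have q1 := mul_nonneg (sub_nonneg.2 hb22) h0
          have q2 := mul_nonneg (sub_nonneg.2 hB2) l2.le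
          norm_num at q1 q2 hd1 ⊢
          linarith only [hd1, q2, q1]
        · rw [hm, max_eq_right h0, hD, mul_zero]
          have q2 := mul_nonneg (sub_nonneg.2 hB2) l2.le
          have q3 : b1 ^ 2 - b2 ^ 2 - 1 ≤ 0.21 := by
            have := sq_nonneg b2
            norm_num at hb ⊢
            linarith only [hb, this]
          have q4 := mul_nonneg (sub_nonneg.2 q3) (neg_nonneg.2 h0)
          norm_num at q2 q4 ⊢
          linarith only [q4, q2, u2, l2, l1]
      set n := max (b1 ^ 2 - b2 ^ 2 - 1) 0 with hn'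
      have hn0 : 0 ≤ n := le_max_right _ _
      have hns : b1 ^ 2 - b2 ^ 2 - 1 ≤ n := le_max_left _ _
      have k2 : n * c ^ 2 < D := by
        rcases le_total 0 (b1 ^ 2 - b2 ^ 2 - 1) with h0 | h0
        · rw [hn', max_eq_left h0, hD]
          have q3 : b1 ^ 2 - b2 ^ 2 - 1 ≤ 0.21 := by
            have := sq_nonneg b2
            norm_num at hb ⊢
            linarith only [hb, this]
          have q4 : (b1 ^ 2 - b2 ^ 2 - 1) * c ^ 2 ≤ 0.21 * 1.174 :=
            mul_le_mul q3 hc2 (sq_nonneg _) (by norm_num)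
          have q5 : (2 * b1 * b2) ^ 2 ≤ 0.4642 := by
            have e : (2 * b1 * b2) ^ 2 = (b1 ^ 2 + b2 ^ 2) ^ 2 - (b1 ^ 2 - b2 ^ 2) ^ 2 := by ring
            have f1 : (b1 ^ 2 + b2 ^ 2) ^ 2 ≤ 1.21 ^ 2 := pow_le_pow_left₀ (by positivity) hb 2
            have f2 : 1 ≤ (b1 ^ 2 - b2 ^ 2) ^ 2 := by (refine le_of_not_gt fun hng => ?_; linarith only [mul_nonneg (sub_nonneg.2 hb22) (sub_nonneg.2 h0),
                                                        mul_nonneg (sub_nonneg.2 hb) (sub_nonneg.2 h0),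
                                                        mul_nonneg (sub_nonneg.2 hng.le) (sub_nonneg.2 u2),
                                                        mul_pos (sub_pos.2 hng) (sub_pos.2 l2),
                                                        mul_nonneg (sq_nonneg (b1)) (sub_nonneg.2 h0)])
            rw [e]
            norm_num at f1 ⊢
            linarith only [f1, f2, u2, l2]
          have q6 : 2 * b1 * b2 ≤ 0.7 := by
            apply le_of_sq_le_sq _ (by norm_num)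
            norm_num at q5 ⊢
            linarith only [q5, u2, l2]
          have q7 : 2 * b1 * b2 * s2 ≤ 0.7 * (44 / 100) :=
            mul_le_mul q6 u2 l2.le (by norm_num)
          have q8 : -(0.21 * 0.174) ≤ (b1 ^ 2 - b2 ^ 2 - 1) * s1 := by
            have := mul_nonneg h0 (by linarith only [l1] : (0 : ℝ) ≤ s1 + 174 / 1000)
            norm_num at q3 ⊢
            linarith only [q3, this]
          norm_num at q4 q7 q8 ⊢
          linarith only [q8, q7, q4, u2, l2]
        · rw [hn', max_eq_right h0, zero_mul, hD]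
          rcases le_total 0 s1 with h3 | h3
          · have q1 : 0 ≤ (b1 ^ 2 - b2 ^ 2 + 0.63) * s1 := by
              apply mul_nonneg _ h3
              norm_num
              norm_num at hb22
              have := sq_nonneg b1
              linarith only [hB1l, u2, l2, hb]
            have q2 := mul_nonneg (sub_nonneg.2 hB2) l2.le
            norm_num at q1 q2 hd1 ⊢
            linarith only [hd1, q2, q1]
          · have q1 := mul_nonneg (neg_nonneg.2 h0) (neg_nonneg.2 h3)
            have q2 : 2 * b1 * b2 * s2 ≤ 1.21 * (44 / 100) :=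
              mul_le_mul hB2 u2 l2.le (by norm_num)
            norm_num at q1 q2 ⊢
            linarith only [q2, q1, u2, l2]
      -- conclusion
      have c1 : (b1 * c - b2 * s) * ((b1 ^ 2 - b2 ^ 2 - 1) * s2 + 2 * b1 * b2 * s1) ≤
          b1 * c * (n * s2 + 2 * b1 * b2 * m) := by
        have e3 : (b1 ^ 2 - b2 ^ 2 - 1) * s2 + 2 * b1 * b2 * s1 ≤ n * s2 + 2 * b1 * b2 * m := by
          have q1 := mul_le_mul_of_nonneg_right hns l2.le
          have q2 := mul_le_mul_of_nonneg_left hms (by positivity : (0:ℝ) ≤ 2 * b1 * b2)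
          linarith only [q2, q1]
        have e4 : 0 ≤ n * s2 + 2 * b1 * b2 * m := by
          have := mul_nonneg hn0 l2.le
          have : 0 ≤ 2 * b1 * b2 * m := by positivity
          linarith [this]
        calc _ ≤ (b1 * c - b2 * s) * (n * s2 + 2 * b1 * b2 * m) :=
              mul_le_mul_of_nonneg_left e3 hM1p.le
          _ ≤ _ := by
              apply mul_le_mul_of_nonneg_right _ e4
              have := mul_nonneg hb2 hs0.le
              linarith only [this]
      have c2 : b1 * c * (n * s2 + 2 * b1 * b2 * m) =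
          2 * (b1 * s) * (n * c ^ 2) + 2 * (b2 * c) * (b1 ^ 2 * m) := by
        rw [hcs]
        ring
      have c3 : 2 * (b1 * s) * (n * c ^ 2) < 2 * (b1 * s) * D :=
        mul_lt_mul_of_pos_left k2 (by positivity)
      have c4 : 2 * (b2 * c) * (b1 ^ 2 * m) ≤ 2 * (b2 * c) * D :=
        mul_le_mul_of_nonneg_left k1 (by positivity)
      have c5 : 2 * (b1 * s + b2 * c) * D = 2 * (b1 * s) * D + 2 * (b2 * c) * D := by ring
      rw [c5]
      linarith only [c4, c3, c2, c1]
  rw [one_mul] at hfin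
  exact hfin

end

end Pool.Agent.MX.E
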