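import Pool.Agent.MX.E.Asr

/-!
# Project MX, block E: the slot along the segment from `0` to `z`

`q (t) = asr (b tan (t z))`, `q' = z Ev b (t z)`, `Ev b y = b / (cos² y cosh q) = b / (cos y v)` with
`v = cos y cosh q`, `v² = cos² y + b² sin² y`, `0 < Re v`.
-/

namespace Pool.Agent.MX.E

open Complex Pool.Agent.S3.E

/-- The derivative of the slot, divided by `z`. -/
noncomputable def Ev (b y : ℂ) : ℂ := b / (cos y ^ 2 * cosh (asr (b * tan y)))

theorem cos_re' (z : ℂ) : (cos z).re = Real.cos z.re * Real.cosh z.im := GeoC_cos_re z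

theorem cos_im' (z : ℂ) : (cos z).im = -(Real.sin z.re * Real.sinh z.im) := GeoC_cos_im z

theorem cos_ne_of {z : ℂ} (h0 : 0 ≤ z.re) (h1 : z.re < Real.pi / 2) : cos z ≠ 0 := by
  intro h
  have h2 := cos_re' z
  rw [h, zero_re] at h2
  have h3 : 0 < Real.cos z.re := Real.cos_pos_of_mem_Ioo ⟨by linarith [Real.pi_pos], h1⟩
  have h4 := Real.cosh_pos z.im
  have := mul_pos h3 h4
  linarith

theorem smul_re (t : ℝ) (z : ℂ) : ((t : ℂ) * z).re = t * z.re := by simp

theorem smul_im (t : ℝ) (z : ℂ) : ((t : ℂ) * z).im = t * z.im := by simp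

/-- Integration along the segment. -/
theorem seg {z b ω : ℂ} {k : ℝ} (h0 : 0 ≤ z.re) (h1 : z.re < Real.pi / 2)
    (hw : ∀ t ∈ Set.Ioo (0 : ℝ) 1, 0 < (b * tan ((t : ℂ) * z)).re)
    (hE : ∀ t ∈ Set.Ioo (0 : ℝ) 1, (ω * (z * Ev b ((t : ℂ) * z))).re < k) :
    (ω * asr (b * tan z)).re < k := by
  have hne : ∀ t ∈ Set.Icc (0 : ℝ) 1, cos ((t : ℂ) * z) ≠ 0 := by
    intro t ht
    apply cos_ne_of
    · rw [smul_re]; exact mul_nonneg ht.1 h0
    · rw [smul_re]
      have := mul_le_mul_of_nonneg_right ht.2 h0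
      linarith
  have hd : ∀ t ∈ Set.Icc (0 : ℝ) 1,
      HasDerivAt (fun s : ℝ => b * tan ((s : ℂ) * z)) (b * (z * (1 / cos ((t : ℂ) * z) ^ 2))) t := by
    intro t ht
    have h2 : HasDerivAt (fun s : ℝ => ((s : ℂ) * z)) z t := by
      have := (Complex.ofRealCLM.hasDerivAt (x := t)).mul_const z
      simpa using this
    have h3 := (hasDerivAt_tan (hne t ht)).comp t h2
    have h4 := h3.const_mul b
    refine h4.congr_deriv ?_
    ring
  set F : ℝ → ℝ := fun t => (ω * asr (b * tan ((t : ℂ) * z))).re - k * t with hF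
  have hcont : ContinuousOn F (Set.Icc 0 1) := by
    intro t ht
    apply ContinuousAt.continuousWithinAt
    have h2 : ContinuousAt (fun s : ℝ => asr (b * tan ((s : ℂ) * z))) t :=
      continuous_asr.continuousAt.comp (hd t ht).continuousAt
    exact (Complex.continuous_re.continuousAt.comp (continuousAt_const.mul h2)).sub
      (continuousAt_const.mul continuousAt_id)
  have hder : ∀ t ∈ Set.Ioo (0 : ℝ) 1,
      HasDerivAt F ((ω * (z * Ev b ((t : ℂ) * z))).re - k) t := by
    intro t ht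
    have h2 := (hasStrictDerivAt_asr (hw t ht)).hasDerivAt.comp t (hd t ⟨ht.1.le, ht.2.le⟩)
    have h3 := (h2.const_mul ω)
    have h4 := (Complex.reCLM.hasFDerivAt).comp_hasDerivAt t h3
    have h5 := h4.sub ((hasDerivAt_id t).const_mul k)
    refine h5.congr_deriv ?_
    have e : ω * (1 / cosh (asr (b * tan ((t : ℂ) * z))) * (b * (z * (1 / cos ((t : ℂ) * z) ^ 2)))) =
        ω * (z * Ev b ((t : ℂ) * z)) := by
      unfold Ev
      rw [div_eq_mul_inv b, mul_inv]
      ring
    rw [e]
    simp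
  have hanti : StrictAntiOn F (Set.Icc 0 1) := by
    apply strictAntiOn_of_deriv_neg (convex_Icc 0 1) hcont
    intro t ht
    rw [interior_Icc] at ht
    rw [(hder t ht).deriv]
    linarith [hE t ht]
  have h2 := hanti (Set.left_mem_Icc.2 zero_le_one) (Set.right_mem_Icc.2 zero_le_one) zero_lt_one
  simp only [hF, ofReal_zero, zero_mul, tan_zero, mul_zero, asr_zero, ofReal_one, one_mul,
    mul_one, zero_re, sub_zero] at h2
  linarith

/-- `v² = cos² y + b² sin² y`. -/
theorem v_sq {b y : ℂ} (hc : cos y ≠ 0) (hw : 0 ≤ (b * tan y).re) :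
    (cos y * cosh (asr (b * tan y))) ^ 2 = cos y ^ 2 + b ^ 2 * sin y ^ 2 := by
  rw [mul_pow, cosh_asr_sq hw, tan_eq_sin_div_cos]
  field_simp

theorem Ev_eq {b y : ℂ} : Ev b y = b / (cos y * (cos y * cosh (asr (b * tan y)))) := by
  unfold Ev
  rw [sq, mul_assoc]

/-- `0 < Re v`. -/
theorem v_re_pos {b y : ℂ} (h0 : 0 < y.re) (h1 : y.re < Real.pi / 2) (hI : 0 < y.im)
    (hw : 0 < (b * tan y).re) (hr : -(b * tan y).re ≤ (b * tan y).im)
    (hs : Real.sin y.re * Real.sinh y.im ≤ Real.cos y.re * Real.cosh y.im) :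
    0 < (cos y * cosh (asr (b * tan y))).re := by
  obtain ⟨e1, e2⟩ := asr_eqs hw.le
  have hp := asr_re_pos hw
  have hc := cos_asr_pos hw
  set p := (asr (b * tan y)).re
  set r := (asr (b * tan y)).im
  rw [mul_re, cos_re', cos_im', cosh_asr_re, cosh_asr_im]
  change 0 < Real.cos y.re * Real.cosh y.im * (Real.cosh p * Real.cos r) -
    -(Real.sin y.re * Real.sinh y.im) * (Real.sinh p * Real.sin r)
  have hsp : 0 < Real.sinh p := Real.sinh_pos_iff.2 hp
  have hcp := Real.cosh_pos p
  have hlt := Real.sinh_lt_cosh p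
  have hS : 0 < Real.sin y.re * Real.sinh y.im :=
    mul_pos (Real.sin_pos_of_pos_of_lt_pi h0 (by linarith [Real.pi_pos])) (Real.sinh_pos_iff.2 hI)
  -- `sinh p sin r ≥ - sinh p * (sinh p cos r / cosh p) > - cosh p cos r`
  have h2 : -(Real.sinh p * Real.cos r) ≤ Real.cosh p * Real.sin r := by
    rw [e1, e2]
    exact hr
  have h3 : -(Real.cosh p * Real.cos r) < Real.sinh p * Real.sin r := by
    have h4 : -(Real.sinh p * (Real.sinh p * Real.cos r)) ≤
        Real.cosh p * (Real.sinh p * Real.sin r) := by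
      have := mul_le_mul_of_nonneg_left h2 hsp.le
      linarith
    have h5 : Real.sinh p * (Real.sinh p * Real.cos r) < Real.cosh p * (Real.cosh p * Real.cos r) := by
      have h6 : Real.sinh p * Real.cos r < Real.cosh p * Real.cos r := by
        exact mul_lt_mul_of_pos_right hlt hc
      have h7 : 0 < Real.sinh p * Real.cos r := mul_pos hsp hc
      calc Real.sinh p * (Real.sinh p * Real.cos r) < Real.cosh p * (Real.sinh p * Real.cos r) :=
            mul_lt_mul_of_pos_right hlt h7
        _ < Real.cosh p * (Real.cosh p * Real.cos r) := mul_lt_mul_of_pos_left h6 hcp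
    by_contra hn
    push Not at hn
    have h8 := mul_le_mul_of_nonneg_left hn hcp.le
    linarith
  have h4 : 0 < Real.cosh p * Real.cos r := mul_pos hcp hc
  rcases le_or_gt 0 (Real.sinh p * Real.sin r) with h5 | h5
  · have h6 : 0 < Real.cos y.re * Real.cosh y.im := lt_of_lt_of_le hS hs
    have := mul_pos h6 h4
    have := mul_nonneg hS.le h5
    linarith
  · have h6 : Real.sin y.re * Real.sinh y.im * -(Real.sinh p * Real.sin r) <
        Real.sin y.re * Real.sinh y.im * (Real.cosh p * Real.cos r) :=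
      mul_lt_mul_of_pos_left (by linarith) hS
    have h7 : Real.sin y.re * Real.sinh y.im * (Real.cosh p * Real.cos r) ≤
        Real.cos y.re * Real.cosh y.im * (Real.cosh p * Real.cos r) :=
      mul_le_mul_of_nonneg_right hs h4.le
    linarith

end Pool.Agent.MX.E
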