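import Pool.Agent.AT2.E.VA
import Pool.Agent.H63.VC.Asym
import Pool.Agent.H63.VC.EndB
import Pool.Agent.H63.VC.Riem
import Pool.Agent.H63.VC.SlowL
import Pool.Agent.H63.VC.SlowU
import Pool.Agent.H63.VC3.CritB
import Pool.Agent.H63.VC3.Upper
import Pool.Agent.H63.VC4.KBN
import Pool.Agent.H63.VC4.UpperN
import Pool.Agent.H63.VC5.Defs
import Pool.Agent.H63.VC5.FFdilog
import Pool.Agent.H63.VC6.LocU
import Pool.Agent.H63.VC6.SlotU
import Pool.Agent.H63.VC7.Link
import Pool.Agent.H63.VC7.QcLL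
import Pool.Agent.MX.E.Pt
import Pool.Agent.S3.Gr2

/-!
# Project MX, block E: from a zero of the system to the vertex equations
-/

namespace Pool.Agent.MX.E

open Complex Pool.Agent.AT.E
open Pool.Agent.S3.E hiding bo ro be KK

variable {ι : Type*}

/-- A zero of the system in the compact region. -/
structure Zr (a w : ι → ℝ) (N : ι → Finset ι) (σ : ι → Bool) (τ : ℝ) (z : ι → ℂ) : Prop where
  nb : Nbr a w N σ
  K : ((τ, z) : ℝ × (ι → ℂ)) ∈ KK N σ
  Z : GG a w N σ τ z = 0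

/-- The slot of `i` with the neighbour `j`. -/
noncomputable def qs (σ : ι → Bool) (τ : ℝ) (z : ι → ℂ) (i j : ι) : ℂ :=
  asr (bs σ τ z i j * tan (z i))

/-! ### Elementary inequalities -/

theorem sinh_mul_le {t x : ℝ} (ht0 : 0 ≤ t) (ht1 : t ≤ 1) (hx : 0 ≤ x) :
    Real.sinh (t * x) ≤ t * Real.sinh x := by
  have hd : ∀ v : ℝ, HasDerivAt (fun u : ℝ => t * Real.sinh u - Real.sinh (t * u))
      (t * (Real.cosh v - Real.cosh (t * v))) v := by
    intro v
    have h1 := (Real.hasDerivAt_sinh v).const_mul t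
    have h2 : HasDerivAt (fun u : ℝ => t * u) t v := by
      simpa using (hasDerivAt_id v).const_mul t
    have h3 := (Real.hasDerivAt_sinh (t * v)).comp v h2
    refine (h1.sub h3).congr_deriv ?_
    ring
  have hm : MonotoneOn (fun u : ℝ => t * Real.sinh u - Real.sinh (t * u)) (Set.Ici 0) := by
    apply monotoneOn_of_deriv_nonneg (convex_Ici 0)
    · exact fun y _ => (hd y).continuousAt.continuousWithinAt
    · exact fun y _ => (hd y).differentiableAt.differentiableWithinAt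
    · intro y hy
      rw [(hd y).deriv]
      have hy0 : 0 ≤ y := interior_subset hy
      apply mul_nonneg ht0
      rw [sub_nonneg, Real.cosh_le_cosh, abs_of_nonneg (mul_nonneg ht0 hy0), abs_of_nonneg hy0]
      calc t * y ≤ 1 * y := mul_le_mul_of_nonneg_right ht1 hy0
        _ = y := one_mul y
  have := hm (Set.mem_Ici.2 le_rfl) (Set.mem_Ici.2 hx) hx
  simp at this
  linarith

theorem lt_sin_mul' {t x : ℝ} (ht0 : 0 < t) (ht1 : t < 1) (hx : 0 < x) (hx' : x ≤ Real.pi) :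
    t * Real.sin x < Real.sin (t * x) := by
  have h := strictConcaveOn_sin_Icc.2 (x := x) ⟨hx.le, hx'⟩ (y := 0)
    ⟨le_rfl, Real.pi_pos.le⟩ hx.ne' ht0 (sub_pos.2 ht1) (by ring)
  simpa using h

/-- `sinh² p (1 - (Im w)²) ≤ (Re w)²`. -/
theorem asr_bd {w : ℂ} (h : 0 ≤ w.re) :
    Real.sinh (asr w).re ^ 2 * (1 - w.im ^ 2) ≤ w.re ^ 2 := by
  obtain ⟨e1, e2⟩ := asr_eqs h
  rw [← e1, ← e2]
  set p := (asr w).re
  set r := (asr w).im
  have h1 := Real.sin_sq_add_cos_sq r
  have h2 := Real.cosh_sq p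
  have h3 := sq_nonneg (Real.sinh p)
  have h4 := sq_nonneg (Real.sin r)
  have e : (Real.sinh p * Real.cos r) ^ 2 - Real.sinh p ^ 2 * (1 - (Real.cosh p * Real.sin r) ^ 2) =
      Real.sinh p ^ 2 * (Real.sinh p ^ 2 * Real.sin r ^ 2) := by
    rw [mul_pow, mul_pow, h2, show Real.cos r ^ 2 = 1 - Real.sin r ^ 2 by linarith]
    ring
  have h5 : 0 ≤ Real.sinh p ^ 2 * (Real.sinh p ^ 2 * Real.sin r ^ 2) := by positivity
  linarith

theorem tan_of_re_zero {z : ℂ} (h : z.re = 0) :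
    tan z = ((Real.tanh z.im : ℝ) : ℂ) * I := by
  have hz : z = (z.im : ℂ) * I := by
    apply Complex.ext
    · simp [h]
    · simp
  rw [hz, Complex.tan_mul_I]
  simp

theorem tanh_facts {x : ℝ} (h : 0 < x) : 0 < Real.tanh x ∧ Real.tanh x ≤ x ∧
    Real.tanh x ^ 2 * (1 + Real.sinh x ^ 2) = Real.sinh x ^ 2 := by
  have hs := Real.sinh_pos_iff.2 h
  have hc := Real.cosh_pos x
  have e : Real.tanh x = Real.sinh x / Real.cosh x := Real.tanh_eq_sinh_div_cosh x
  refine ⟨by rw [e]; positivity, ?_, ?_⟩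
  · rw [e, div_le_iff₀ hc]
    exact Pool.Agent.S3.sinh_le_mul_cosh h.le
  · rw [e, div_pow, Real.cosh_sq]
    field_simp
    ring

/-- At `Re z = 0`, an opposite slot has `p < I`. -/
theorem key0 {z b : ℂ} (h : z.re = 0) (hI : 0 < z.im) (hb : 0 < b.re) (hb' : 0 ≤ b.im)
    (hbn : ‖b‖ ≤ 1.1) (hre : 0 ≤ (b * tan z).re) : (asr (b * tan z)).re < z.im := by
  obtain ⟨e1, e2⟩ := asr_eqs hre
  obtain ⟨t0, -, t2⟩ := tanh_facts hI
  have him : (b * tan z).im = b.re * Real.tanh z.im := by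
    rw [tan_of_re_zero h, ← mul_assoc, Complex.mul_I_im, Complex.re_mul_ofReal]
  have hre' : (b * tan z).re = -(b.im * Real.tanh z.im) := by
    rw [tan_of_re_zero h, ← mul_assoc, Complex.mul_I_re, Complex.im_mul_ofReal]
  have h0 : (b * tan z).re = 0 := by
    have := mul_nonneg hb' t0.le
    linarith
  rw [h0] at e1
  rw [him] at e2
  by_contra hcon
  push Not at hcon
  set p := (asr (b * tan z)).re
  set r := (asr (b * tan z)).im
  have hp : 0 < Real.sinh p := Real.sinh_pos_iff.2 (hI.trans_le hcon)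
  have hc : Real.cos r = 0 := by
    rcases mul_eq_zero.1 e1 with h1 | h1
    · exact absurd h1 hp.ne'
    · exact h1
  have hs : Real.sin r ^ 2 = 1 := by
    have := Real.sin_sq_add_cos_sq r
    rw [hc] at this
    linarith
  have h3 : Real.cosh p ^ 2 = b.re ^ 2 * Real.tanh z.im ^ 2 := by
    rw [← mul_pow, ← e2, mul_pow, hs, mul_one]
  have hbr : b.re ^ 2 ≤ 1.21 := by
    have h4 : b.re ≤ 1.1 := (Complex.re_le_norm _).trans hbn
    have := pow_le_pow_left₀ hb.le h4 2
    norm_num at this ⊢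
    linarith
  have h5 : Real.sinh z.im ≤ Real.sinh p := Real.sinh_le_sinh.mpr hcon
  have h6 : 0 < Real.sinh z.im := Real.sinh_pos_iff.2 hI
  have h7 : Real.sinh z.im ^ 2 ≤ Real.sinh p ^ 2 := pow_le_pow_left₀ h6.le h5 2
  rw [Real.cosh_sq] at h3
  set H := Real.sinh z.im ^ 2 with hH
  have hH0 : 0 < H := by positivity
  have h8 : 1 + H ≤ 1.21 * Real.tanh z.im ^ 2 := by
    have := mul_le_mul_of_nonneg_right hbr (sq_nonneg (Real.tanh z.im))
    linarith
  have h9 : (1 + H) * (1 + H) ≤ 1.21 * H := by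
    calc (1 + H) * (1 + H) ≤ (1.21 * Real.tanh z.im ^ 2) * (1 + H) :=
          mul_le_mul_of_nonneg_right h8 (by linarith)
      _ = 1.21 * H := by rw [mul_assoc, t2]
  nlinarith [sq_nonneg (1 - H)]

/-! ### The coefficients -/

theorem bs_re (σ : ι → Bool) (τ : ℝ) (z : ι → ℂ) (i j : ι) :
    (bs σ τ z i j).re = 1 - τ + τ * (cos (z j)).re := by
  unfold bs
  split_ifs <;> simp <;> ring

theorem bs_im_same {σ : ι → Bool} {i j : ι} (h : σ i = σ j) (τ : ℝ) (z : ι → ℂ) :
    (bs σ τ z i j).im = τ * (cos (z j)).im := by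
  unfold bs
  rw [if_pos h]
  simp

theorem bs_im_opp {σ : ι → Bool} {i j : ι} (h : σ i ≠ σ j) (τ : ℝ) (z : ι → ℂ) :
    (bs σ τ z i j).im = τ * -(cos (z j)).im := by
  unfold bs
  rw [if_neg h]
  simp

/-- The cosine of a point of the disc. -/
structure Kb (κ : ℂ) : Prop where
  re : 4 / 5 ≤ κ.re
  im : κ.im ≤ 0
  sl : -κ.im ≤ κ.re / 5
  nn : κ.re ^ 2 + κ.im ^ 2 ≤ 1.1236

theorem Nm.kb {z : ℂ} (h : Nm z.re z.im) : Kb (cos z) := by
  have h1 := h.t1
  have hc := h.c0
  have hC := Real.one_le_cosh z.im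
  refine ⟨?_, ?_, ?_, ?_⟩
  · rw [cos_re']
    nlinarith
  · rw [cos_im']
    have := mul_pos h.s0 h.h0
    linarith
  · rw [cos_re', cos_im']
    linarith
  · have h2 := normSq_cos z
    rw [normSq_apply] at h2
    have := h.k1
    nlinarith

theorem Dz.kb {z : ℂ} (h : Dz z) (h0 : 0 ≤ z.re) (hI : 0 < z.im) : Kb (cos z) := by
  rcases h0.eq_or_lt with h1 | h1
  · have hp := Real.pi_lt_d4
    have hI2 : z.im ≤ 0.16 := by
      have h2 : z.re ^ 2 + z.im ^ 2 ≤ Real.pi / 5 * (z.re + z.im / 4) := h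
      rw [← h1] at h2
      by_contra hn
      push Not at hn
      have h3 : 0.16 * z.im < z.im * z.im := mul_lt_mul_of_pos_right hn hI
      have h4 : Real.pi / 5 * (z.im / 4) ≤ 3.1416 / 5 * (z.im / 4) :=
        mul_le_mul_of_nonneg_right (by linarith) (by linarith)
      norm_num at h3 h4 h2
      nlinarith
    have hs := sinh_le hI.le (by norm_num at hI2 ⊢; linarith)
    have hs0 : 0 < Real.sinh z.im := Real.sinh_pos_iff.2 hI
    have hs1 : Real.sinh z.im ≤ 0.17 := by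
      have : z.im ^ 3 ≤ 0.16 ^ 3 := pow_le_pow_left₀ hI.le hI2 3
      norm_num at this hI2 ⊢
      linarith
    have hs2 : Real.sinh z.im ^ 2 ≤ 0.17 ^ 2 := pow_le_pow_left₀ hs0.le hs1 2
    have e1 : (cos z).re = Real.cosh z.im := by
      rw [cos_re', ← h1, Real.cos_zero, one_mul]
    have e2 : (cos z).im = 0 := by
      rw [cos_im', ← h1, Real.sin_zero, zero_mul, neg_zero]
    have hC := Real.one_le_cosh z.im
    refine ⟨by rw [e1]; linarith, by rw [e2], by rw [e1, e2]; linarith, ?_⟩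
    rw [e1, e2, Real.cosh_sq]
    norm_num at hs2 ⊢
    linarith
  · exact (h.nm h1 hI).kb

/-- A same-sign coefficient. -/
theorem Kb.bs {σ : ι → Bool} {i j : ι} (hs : σ i = σ j) {τ : ℝ} {z : ι → ℂ} (hk : Kb (cos (z j)))
    (h0 : 0 ≤ τ) (h1 : τ ≤ 1) : Kb (bs σ τ z i j) := by
  obtain ⟨k1, k2, k3, k4⟩ := hk
  set κ := cos (z j)
  have e1 := bs_re σ τ z i j
  have e2 := bs_im_same hs τ z
  have hk1 : κ.re ≤ 1.06 := by
    by_contra hn
    push Not at hn
    have := mul_self_lt_mul_self (by norm_num) hn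
    have := sq_nonneg κ.im
    norm_num at *
    nlinarith
  refine ⟨?_, ?_, ?_, ?_⟩
  · rw [e1]
    have := mul_nonneg h0 (sub_nonneg.2 k1)
    linarith
  · rw [e2]
    exact mul_nonpos_of_nonneg_of_nonpos h0 k2
  · rw [e1, e2]
    have := mul_le_mul_of_nonneg_left k3 h0
    linarith
  · rw [e1, e2]
    have f1 := mul_nonneg (mul_nonneg h0 (sub_nonneg.2 h1)) (sub_nonneg.2 hk1)
    have f2 := mul_nonneg (mul_self_nonneg τ) (sub_nonneg.2 k4)
    have e : (1 - τ + τ * κ.re) ^ 2 + (τ * κ.im) ^ 2 = (1 - τ) ^ 2 + 2 * τ * (1 - τ) * κ.re +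
      τ * τ * (κ.re ^ 2 + κ.im ^ 2) := by ring
    rw [e]
    have f3 : (1 - τ) ^ 2 + 2 * τ * (1 - τ) * 1.06 + τ * τ * 1.1236 ≤ 1.1236 := by
      have : (1 - τ) ^ 2 + 2 * τ * (1 - τ) * 1.06 + τ * τ * 1.1236 = (1 + 0.06 * τ) ^ 2 := by ring
      rw [this]
      have h2 : 1 + 0.06 * τ ≤ 1.06 := by norm_num; linarith
      have h3 : (0 : ℝ) ≤ 1 + 0.06 * τ := by positivity
      have := pow_le_pow_left₀ h3 h2 2
      norm_num at this ⊢
      linarith
    norm_num at f1 f2 f3 ⊢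
    nlinarith

namespace Zr

variable {a w : ι → ℝ} {N : ι → Finset ι} {σ : ι → Bool} {τ : ℝ} {z : ι → ℂ}

theorem τ0 (h : Zr a w N σ τ z) : 0 ≤ τ := h.K.1.1

theorem τ1 (h : Zr a w N σ τ z) : τ ≤ 1 := h.K.1.2

theorem re0 (h : Zr a w N σ τ z) (i : ι) : 0 ≤ (z i).re := (h.K.2 i).1.1

theorem im0 (h : Zr a w N σ τ z) (i : ι) : 0 ≤ (z i).im := (h.K.2 i).1.2.2.1

theorem kre (h : Zr a w N σ τ z) (i : ι) : 0 < (cos (z i)).re := by
  obtain ⟨⟨h1, h2, h3, -⟩, ⟨h4, -, h6⟩, -⟩ := h.K.2 i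
  exact re_cos_pos h1 h2 h3 h4 h6

theorem R1 (h : Zr a w N σ τ z) (i : ι) : (z i).re < Real.pi / 2 := by
  have h1 := h.kre i
  have h2 := (h.K.2 i).1.2.1
  rcases lt_or_eq_of_le h2 with h3 | h3
  · exact h3
  · rw [cos_re', h3, Real.cos_pi_div_two, zero_mul] at h1
    exact absurd h1 (lt_irrefl _)

theorem kim (h : Zr a w N σ τ z) (i : ι) : (cos (z i)).im ≤ 0 := by
  rw [cos_im']
  have hs : 0 ≤ Real.sin (z i).re :=
    Real.sin_nonneg_of_nonneg_of_le_pi (h.re0 i) (by linarith [Real.pi_pos, h.R1 i])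
  have hs2 : 0 ≤ Real.sinh (z i).im := Real.sinh_nonneg_iff.mpr (h.im0 i)
  have := mul_nonneg hs hs2
  linarith

theorem bre (h : Zr a w N σ τ z) (i j : ι) : 0 < (bs σ τ z i j).re := by
  rw [bs_re]
  have h1 := h.τ0
  have h2 := h.τ1
  have h3 := h.kre j
  rcases h1.eq_or_lt with h4 | h4
  · rw [← h4]; norm_num
  · have := mul_pos h4 h3
    linarith

theorem bim (h : Zr a w N σ τ z) {i j : ι} (hs : σ i ≠ σ j) : 0 ≤ (bs σ τ z i j).im := by
  rw [bs_im_opp hs]
  exact mul_nonneg h.τ0 (by linarith [h.kim j])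

theorem bsl (h : Zr a w N σ τ z) {i j : ι} (hs : σ i ≠ σ j) :
    (bs σ τ z i j).im ≤ 1.04 * (bs σ τ z i j).re := by
  rw [bs_im_opp hs, bs_re]
  have h1 := mul_le_mul_of_nonneg_left (h.K.2 j).2.1.2.2 h.τ0
  have h2 := h.τ1
  norm_num at h1 ⊢
  linarith

theorem bnorm (h : Zr a w N σ τ z) (i j : ι) : ‖bs σ τ z i j‖ ≤ 1.1 := by
  have h0 := h.τ0
  have h1 := h.τ1
  have hn : ‖cos (z j)‖ ≤ 1.1 := (h.K.2 j).2.1.2.1
  have e : ∀ κ : ℂ, ‖κ‖ ≤ 1.1 → ‖1 + (τ : ℂ) * (κ - 1)‖ ≤ 1.1 := by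
    intro κ hκ
    have e1 : 1 + (τ : ℂ) * (κ - 1) = ((1 - τ : ℝ) : ℂ) + (τ : ℂ) * κ := by
      push_cast
      ring
    rw [e1]
    refine (norm_add_le _ _).trans ?_
    rw [norm_mul, norm_real, norm_real, Real.norm_eq_abs, Real.norm_eq_abs, abs_of_nonneg h0,
      abs_of_nonneg (sub_nonneg.2 h1)]
    have := mul_le_mul_of_nonneg_left hκ h0
    norm_num at this ⊢
    linarith
  unfold bs
  split_ifs
  · exact e _ hn
  · exact e _ (by rw [Complex.norm_conj]; exact hn)

theorem bsq (h : Zr a w N σ τ z) (i j : ι) :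
    (bs σ τ z i j).re ^ 2 + (bs σ τ z i j).im ^ 2 ≤ 1.21 := by
  have h1 := h.bnorm i j
  have h2 := Complex.sq_norm (bs σ τ z i j)
  rw [normSq_apply] at h2
  have h3 := pow_le_pow_left₀ (norm_nonneg _) h1 2
  norm_num at h3 ⊢
  nlinarith

theorem wre (h : Zr a w N σ τ z) {i j : ι} (hij : j ∈ N i) :
    0 ≤ (bs σ τ z i j * tan (z i)).re := (h.K.2 i).2.2.1 j hij

theorem disc (h : Zr a w N σ τ z) {i : ι} (hi : Bn N σ i) : Dz (z i) := (h.K.2 i).2.2.2.1 hi

theorem bn_of (h : Zr a w N σ τ z) {i j : ι} (hij : j ∈ N i) (hs : σ i = σ j) :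
    Bn N σ i ∧ Bn N σ j := ⟨⟨j, hij, hs⟩, ⟨i, h.nb.symm i j hij, hs.symm⟩⟩

/-- The vertex equation. -/
theorem eqn (h : Zr a w N σ τ z) (i : ι) :
    (a i : ℂ) * z i = (Real.pi : ℂ) + I * (∑ j ∈ N i, qs σ τ z i j +
      (w i : ℂ) * asr (tan (z i))) := by
  have h1 : GG a w N σ τ z i = 0 := congrFun h.Z i
  unfold GG at h1
  unfold qs
  linear_combination h1

theorem eqR (h : Zr a w N σ τ z) (i : ι) :
    a i * (z i).re + (∑ j ∈ N i, (qs σ τ z i j).im + w i * (asr (tan (z i))).im) = Real.pi := by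
  have h1 := congrArg re (h.eqn i)
  simp only [re_ofReal_mul, add_re, ofReal_re, I_mul_re, add_im, im_sum, im_ofReal_mul] at h1
  linarith

theorem eqI (h : Zr a w N σ τ z) (i : ι) :
    a i * (z i).im = ∑ j ∈ N i, (qs σ τ z i j).re + w i * (asr (tan (z i))).re := by
  have h1 := congrArg im (h.eqn i)
  simp only [im_ofReal_mul, add_im, ofReal_im, I_mul_im, zero_add, re_sum, re_ofReal_mul,
    add_re] at h1
  linarith

theorem I_pos (h : Zr a w N σ τ z) (i : ι) : 0 < (z i).im := by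
  have h3 := h.im0 i
  by_contra hI
  have hI0 : (z i).im = 0 := le_antisymm (not_lt.mp hI) h3
  have e2 := h.eqI i
  rw [hI0, mul_zero] at e2
  have hz : z i = ((z i).re : ℂ) := by
    apply Complex.ext
    · simp
    · simp [hI0]
  have htan : tan (z i) = ((Real.tan (z i).re : ℝ) : ℂ) := by
    rw [hz]
    simp
  have ht0 : 0 ≤ Real.tan (z i).re :=
    Real.tan_nonneg_of_nonneg_of_le_pi_div_two (h.re0 i) (h.R1 i).le
  have hp : ∀ j, 0 ≤ (qs σ τ z i j).re := fun j => asr_re_nonneg _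
  have hP1 : 0 ≤ ∑ j ∈ N i, (qs σ τ z i j).re := Finset.sum_nonneg fun j _ => hp j
  have hP2 : 0 ≤ w i * (asr (tan (z i))).re := mul_nonneg (h.nb.w0 i) (asr_re_nonneg _)
  have hP := (Finset.sum_eq_zero_iff_of_nonneg (fun j _ => hp j)).1
    (show ∑ j ∈ N i, (qs σ τ z i j).re = 0 by linarith)
  have hPh : w i * (asr (tan (z i))).re = 0 := by linarith
  have ht : Real.tan (z i).re = 0 := by
    by_contra hne
    have htp : 0 < Real.tan (z i).re := lt_of_le_of_ne ht0 (Ne.symm hne)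
    rcases h.nb.ne i with ⟨j, hj⟩ | hpos
    · have hb := h.bre i j
      have h4 : 0 < (bs σ τ z i j * tan (z i)).re := by
        rw [htan, Complex.re_mul_ofReal]
        exact mul_pos hb htp
      have h5 : 0 < (qs σ τ z i j).re := asr_re_pos h4
      linarith [hP j hj]
    · have h4 : 0 < (tan (z i)).re := by
        rw [htan, Complex.ofReal_re]
        exact htp
      have := mul_pos hpos (asr_re_pos h4)
      linarith
  have hR0 : (z i).re = 0 := by
    by_contra hne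
    have hp : 0 < (z i).re := lt_of_le_of_ne (h.re0 i) (Ne.symm hne)
    have := Real.tan_pos_of_pos_of_lt_pi_div_two hp (h.R1 i)
    linarith
  have e1 := h.eqR i
  have hq : ∀ j, qs σ τ z i j = 0 := by
    intro j
    unfold qs
    rw [htan, ht, Complex.ofReal_zero, mul_zero, asr_zero]
  have hu : asr (tan (z i)) = 0 := by
    rw [htan, ht, Complex.ofReal_zero, asr_zero]
  rw [Finset.sum_congr rfl (fun j _ => by rw [hq j]), hR0, hu] at e1
  simp only [mul_zero, Finset.sum_const_zero, add_zero, zero_im] at e1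
  linarith [Real.pi_pos]

theorem kb (h : Zr a w N σ τ z) {i : ι} (hi : Bn N σ i) : Kb (cos (z i)) :=
  (h.disc hi).kb (h.re0 i) (h.I_pos i)

theorem kbs (h : Zr a w N σ τ z) {i j : ι} (hij : j ∈ N i) (hs : σ i = σ j) :
    Kb (bs σ τ z i j) := (h.kb (h.bn_of hij hs).2).bs hs h.τ0 h.τ1

/-- `R > 0`. -/
theorem R_pos (h : Zr a w N σ τ z) (i : ι) : 0 < (z i).re := by
  have hI := h.I_pos i
  by_contra hR
  have hR0 : (z i).re = 0 := le_antisymm (not_lt.mp hR) (h.re0 i)
  have e2 := h.eqI i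
  have htan := tan_of_re_zero hR0
  obtain ⟨t0, t1, -⟩ := tanh_facts hI
  by_cases hB : Bn N σ i
  · -- all `p_j ≤ I / 2`
    have hD := h.disc hB
    have hp := Real.pi_lt_d4
    have hI2 : (z i).im ≤ 0.16 := by
      have h2 : (z i).re ^ 2 + (z i).im ^ 2 ≤ Real.pi / 5 * ((z i).re + (z i).im / 4) := hD
      rw [hR0] at h2
      by_contra hn
      push Not at hn
      have h3 : 0.16 * (z i).im < (z i).im * (z i).im := mul_lt_mul_of_pos_right hn hI
      have h4 : Real.pi / 5 * ((z i).im / 4) ≤ 3.1416 / 5 * ((z i).im / 4) :=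
        mul_le_mul_of_nonneg_right (by linarith) (by linarith)
      norm_num at h3 h4 h2
      nlinarith
    have hT : Real.tanh (z i).im ≤ 0.16 := t1.trans hI2
    have hT2 : Real.tanh (z i).im ^ 2 ≤ 0.0256 := by
      have := pow_le_pow_left₀ t0.le hT 2
      norm_num at this ⊢
      linarith
    have key : ∀ b : ℂ, 0 ≤ (b * tan (z i)).re → b.re ^ 2 + b.im ^ 2 ≤ 1.21 → -b.im ≤ b.re / 5 →
        2 * (asr (b * tan (z i))).re ≤ (z i).im := by
      intro b hre hbn hbs
      have him : (b * tan (z i)).im = b.re * Real.tanh (z i).im := by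
        rw [htan, ← mul_assoc, Complex.mul_I_im, Complex.re_mul_ofReal]
      have hre' : (b * tan (z i)).re = -b.im * Real.tanh (z i).im := by
        rw [htan, ← mul_assoc, Complex.mul_I_re, Complex.im_mul_ofReal]
        ring
      have h1 := asr_bd hre
      rw [him, hre'] at h1
      rw [hre'] at hre
      have hb0 : 0 ≤ -b.im := by
        by_contra hn
        push Not at hn
        have := mul_neg_of_neg_of_pos hn t0
        linarith
      have hb1 : b.im ^ 2 ≤ 0.0484 := by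
        have h2 : (-b.im) ^ 2 ≤ (b.re / 5) ^ 2 := pow_le_pow_left₀ hb0 hbs 2
        norm_num at hbn ⊢
        nlinarith [sq_nonneg b.im]
      have hb2 : b.re ^ 2 ≤ 1.21 := by
        have := sq_nonneg b.im
        linarith
      set p := (asr (b * tan (z i))).re
      have h3 : (b.re * Real.tanh (z i).im) ^ 2 ≤ 0.04 := by
        rw [mul_pow]
        have := mul_le_mul hb2 hT2 (sq_nonneg _) (by norm_num)
        norm_num at this ⊢
        linarith
      have h4 : Real.sinh p ^ 2 * 0.96 ≤ 0.0484 * (z i).im ^ 2 := by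
        have h5 : Real.sinh p ^ 2 * 0.96 ≤
            Real.sinh p ^ 2 * (1 - (b.re * Real.tanh (z i).im) ^ 2) := by
          apply mul_le_mul_of_nonneg_left _ (sq_nonneg _)
          norm_num at h3 ⊢
          linarith
        have h6 : (-b.im * Real.tanh (z i).im) ^ 2 ≤ 0.0484 * (z i).im ^ 2 := by
          rw [mul_pow, neg_sq]
          exact mul_le_mul hb1 (pow_le_pow_left₀ t0.le t1 2) (sq_nonneg _) (by norm_num)
        linarith
      have hp0 : 0 ≤ p := asr_re_nonneg _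
      have h5 : p ≤ Real.sinh p := Real.self_le_sinh_iff.2 hp0
      have h6 : (2 * Real.sinh p) ^ 2 ≤ (z i).im ^ 2 := by
        norm_num at h4 ⊢
        nlinarith [sq_nonneg (z i).im]
      have h7 := le_of_sq_le_sq h6 hI.le
      linarith
    have hj : ∀ j ∈ N i, 2 * (qs σ τ z i j).re ≤ (z i).im := by
      intro j hj
      apply key _ (h.wre hj) (h.bsq i j)
      by_cases hs : σ i = σ j
      · exact (h.kbs hj hs).sl
      · have := h.bim hs
        have := h.bre i j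
        linarith
    have hu : 2 * (asr (tan (z i))).re ≤ (z i).im := by
      have := key 1 (by rw [one_mul, htan]; simp) (by norm_num) (by norm_num)
      rwa [one_mul] at this
    have hsum : 2 * ∑ j ∈ N i, (qs σ τ z i j).re ≤ (N i).card * (z i).im := by
      rw [Finset.mul_sum]
      have := Finset.sum_le_sum hj
      rwa [Finset.sum_const, nsmul_eq_mul] at this
    have hwu := mul_le_mul_of_nonneg_left hu (h.nb.w0 i)
    have h5 := (h.nb.pure i hB).2
    have h6 := mul_le_mul_of_nonneg_right h5 hI.le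
    have h7 := mul_pos (lt_of_lt_of_le (by norm_num : (0 : ℝ) < 3) (h.nb.a3 i)) hI
    linarith
  · have hop : ∀ j ∈ N i, σ i ≠ σ j := fun j hj hs => hB ⟨j, hj, hs⟩
    have key : ∀ j ∈ N i, (qs σ τ z i j).re < (z i).im := fun j hj =>
      key0 hR0 hI (h.bre i j) (h.bim (hop j hj)) (h.bnorm i j) (h.wre hj)
    have keyh : (asr (tan (z i))).re < (z i).im := by
      have h8 := key0 (b := 1) hR0 hI (by simp) (by simp) (by norm_num) (by
        rw [one_mul, htan]; simp)
      rwa [one_mul] at h8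
    have hle : ∑ j ∈ N i, (qs σ τ z i j).re ≤ ∑ _j ∈ N i, (z i).im :=
      Finset.sum_le_sum fun j hj => (key j hj).le
    have hleh : w i * (asr (tan (z i))).re ≤ w i * (z i).im :=
      mul_le_mul_of_nonneg_left keyh.le (h.nb.w0 i)
    have hcard := mul_le_mul_of_nonneg_right (h.nb.card i (Or.inl hB)).1 hI.le
    rcases h.nb.ne i with hne | hpos
    · have hlt : ∑ j ∈ N i, (qs σ τ z i j).re < ∑ _j ∈ N i, (z i).im :=
        Finset.sum_lt_sum_of_nonempty hne key
      rw [Finset.sum_const, nsmul_eq_mul] at hlt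
      linarith
    · have hlt := mul_lt_mul_of_pos_left keyh hpos
      rw [Finset.sum_const, nsmul_eq_mul] at hle
      linarith

theorem pos (h : Zr a w N σ τ z) (i : ι) :
    0 < (z i).re ∧ (z i).re < Real.pi / 2 ∧ 0 < (z i).im := ⟨h.R_pos i, h.R1 i, h.I_pos i⟩

theorem nm (h : Zr a w N σ τ z) {i : ι} (hi : Bn N σ i) : Nm (z i).re (z i).im :=
  (h.disc hi).nm (h.R_pos i) (h.I_pos i)

end Zr

/-! ### The segment -/

theorem Dz.smul {z : ℂ} (h : Dz z) {t : ℝ} (t0 : 0 ≤ t)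
    (t1 : t ≤ 1) : Dz ((t : ℂ) * z) := by
  unfold Dz at h ⊢
  rw [smul_re, smul_im]
  have h1 : t * (t * (z.re ^ 2 + z.im ^ 2)) ≤ t * (1 * (Real.pi / 5 * (z.re + z.im / 4))) := by
    apply mul_le_mul_of_nonneg_left _ t0
    apply mul_le_mul t1 h (by positivity) (by norm_num)
  linarith

theorem Dz.nm_smul {z : ℂ} (h : Dz z) (h0 : 0 < z.re) (hI : 0 < z.im) {t : ℝ}
    (ht : t ∈ Set.Ioo (0 : ℝ) 1) : Nm ((t : ℂ) * z).re ((t : ℂ) * z).im := by
  apply (h.smul ht.1.le ht.2.le).nm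
  · rw [smul_re]; exact mul_pos ht.1 h0
  · rw [smul_im]; exact mul_pos ht.1 hI

/-- The real part along the segment, opposite signs. -/
theorem segO {z b : ℂ} (h0 : 0 < z.re) (h1 : z.re < Real.pi / 2) (hI : 0 < z.im) (hb : 0 < b.re)
    (hb' : 0 ≤ b.im) (hw : 0 ≤ (b * tan z).re) {t : ℝ} (ht : t ∈ Set.Ioo (0 : ℝ) 1) :
    0 < (b * tan ((t : ℂ) * z)).re := by
  have key : ∀ y : ℂ, cos y ≠ 0 → (b * tan y).re * normSq (cos y) =
      (b.re * Real.sin (2 * y.re) - b.im * Real.sinh (2 * y.im)) / 2 := by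
    intro y hy
    rw [mul_re, Real.sin_two_mul, Real.sinh_two_mul]
    have e1 := tan_re' hy
    have e2 := tan_im' hy
    calc (b.re * (tan y).re - b.im * (tan y).im) * normSq (cos y) =
          b.re * ((tan y).re * normSq (cos y)) - b.im * ((tan y).im * normSq (cos y)) := by ring
      _ = _ := by rw [e1, e2]; ring
  have hc : cos z ≠ 0 := cos_ne_of h0.le h1
  have hr : ((t : ℂ) * z).re = t * z.re := smul_re t z
  have hi : ((t : ℂ) * z).im = t * z.im := smul_im t z
  have htr : t * z.re < z.re := by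
    have := mul_lt_mul_of_pos_right ht.2 h0
    linarith
  have hc' : cos ((t : ℂ) * z) ≠ 0 := by
    apply cos_ne_of
    · rw [hr]; exact mul_nonneg ht.1.le h0.le
    · rw [hr]; linarith
  have k1 := key z hc
  have k2 := key _ hc'
  rw [hr, hi] at k2
  have n1 : 0 < normSq (cos z) := normSq_pos.2 hc
  have n2 : 0 < normSq (cos ((t : ℂ) * z)) := normSq_pos.2 hc'
  have h3 : 0 ≤ b.re * Real.sin (2 * z.re) - b.im * Real.sinh (2 * z.im) := by
    have := mul_nonneg hw n1.le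
    linarith
  have h4 : t * Real.sin (2 * z.re) < Real.sin (2 * (t * z.re)) := by
    have := lt_sin_mul' ht.1 ht.2 (x := 2 * z.re) (by linarith) (by linarith)
    rwa [show 2 * (t * z.re) = t * (2 * z.re) by ring]
  have h5 : Real.sinh (2 * (t * z.im)) ≤ t * Real.sinh (2 * z.im) := by
    have := sinh_mul_le ht.1.le ht.2.le (x := 2 * z.im) (by linarith)
    rwa [show 2 * (t * z.im) = t * (2 * z.im) by ring]
  have h6 := mul_lt_mul_of_pos_left h4 hb
  have h7 := mul_le_mul_of_nonneg_left h5 hb'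
  have h8 := mul_nonneg ht.1.le h3
  have h9 : 0 < (b * tan ((t : ℂ) * z)).re * normSq (cos ((t : ℂ) * z)) := by
    rw [k2]
    linarith
  exact (pos_iff_pos_of_mul_pos h9).2 n2

theorem conj_mul_self' (z : ℂ) : (starRingEnd ℂ) z * z = ((normSq z : ℝ) : ℂ) := by
  rw [mul_comm, mul_conj]

/-- The slot of a same-sign edge lies above the line of slope `-1/4` over `z`. -/
theorem qS {z b : ℂ} (h0 : 0 < z.re) (hI : 0 < z.im) (hD : Dz z) (hb : Kb b) :
    0 < ((1 + I / 4) * ((starRingEnd ℂ) z * asr (b * tan z))).im := by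
  have h1 : z.re < Real.pi / 2 := (hD.nm h0 hI).lt
  have h2 := seg (z := z) (b := b) (ω := I * ((1 + I / 4) * (starRingEnd ℂ) z)) (k := 0) h0.le h1
    (fun t ht => (ptS (hD.nm_smul h0 hI ht) hb.re hb.im hb.sl hb.nn).1) (by
      intro t ht
      have h3 := (ptS (hD.nm_smul h0 hI ht) hb.re hb.im hb.sl hb.nn).2
      have e : I * ((1 + I / 4) * (starRingEnd ℂ) z) * (z * Ev b ((t : ℂ) * z)) =
          ((normSq z : ℝ) : ℂ) * (I * ((1 + I / 4) * Ev b ((t : ℂ) * z))) := by
        rw [← conj_mul_self']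
        ring
      rw [e, re_ofReal_mul, I_mul_re]
      have hn : 0 < normSq z := normSq_pos.2 (by
        intro hz
        rw [hz] at h0
        simp at h0)
      have := mul_pos hn h3
      linarith)
  have e : I * ((1 + I / 4) * (starRingEnd ℂ) z) * asr (b * tan z) =
      I * ((1 + I / 4) * ((starRingEnd ℂ) z * asr (b * tan z))) := by ring
  rw [e, I_mul_re] at h2
  linarith

/-- The slot of an opposite edge has a larger argument than `z`. -/
theorem qO {z b : ℂ} (h0 : 0 < z.re) (hI : 0 < z.im) (hD : Dz z) (hb1 : 0 < b.re) (hb2 : 0 ≤ b.im)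
    (hb3 : b.im ≤ 1.04 * b.re) (hb : b.re ^ 2 + b.im ^ 2 ≤ 1.21) (hw : 0 ≤ (b * tan z).re) :
    0 < ((starRingEnd ℂ) z * asr (b * tan z)).im := by
  have h1 : z.re < Real.pi / 2 := (hD.nm h0 hI).lt
  have h2 := seg (z := z) (b := b) (ω := I * (starRingEnd ℂ) z) (k := 0) h0.le h1
    (fun t ht => segO h0 h1 hI hb1 hb2 hw ht) (by
      intro t ht
      have h3 := ptO (hD.nm_smul h0 hI ht) hb1 hb2 hb3 hb (segO h0 h1 hI hb1 hb2 hw ht)
      have e : I * (starRingEnd ℂ) z * (z * Ev b ((t : ℂ) * z)) =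
          ((normSq z : ℝ) : ℂ) * (I * Ev b ((t : ℂ) * z)) := by
        rw [← conj_mul_self']
        ring
      rw [e, re_ofReal_mul, I_mul_re]
      have hn : 0 < normSq z := normSq_pos.2 (by
        intro hz
        rw [hz] at h0
        simp at h0)
      have := mul_pos hn h3
      linarith)
  have e : I * (starRingEnd ℂ) z * asr (b * tan z) =
      I * ((starRingEnd ℂ) z * asr (b * tan z)) := by ring
  rw [e, I_mul_re] at h2
  linarith

theorem asr_im_nonneg {w : ℂ} (h : 0 ≤ w.im) : 0 ≤ (asr w).im := by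
  rw [asr_im, if_pos h]
  exact RR_nonneg w

end Pool.Agent.MX.E
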