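import Pool.Agent.MX.E.Sys
import Pool.Agent.AT2.E.VB

/-!
# Project MX, block E: the strict disc, and the vertices with opposite neighbours only
-/

namespace Pool.Agent.MX.E

open Complex Pool.Agent.AT.E
open Pool.Agent.S3.E hiding bo ro be KK

variable {ι : Type*}

/-- The slot of an edge with opposite signs. -/
theorem slot_of {z b : ℂ} (hR0 : 0 < z.re) (hR1 : z.re < Real.pi / 2) (hI : 0 < z.im)
    (hb : 0 < b.re) (hb' : 0 ≤ b.im) (hre : 0 ≤ (b * tan z).re) :
    Slot z.re z.im ‖b‖ (arg b) (asr (b * tan z)).re (asr (b * tan z)).im := by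
  have hal0 := al_pos hR0 hR1 hI
  have hal1 := al_lt z.re z.im
  have htt := tt_pos (R := z.re) (I := z.im) hR0 hR1
  have hb0 : b ≠ 0 := by
    intro h
    rw [h] at hb
    simp at hb
  have hro : 0 < ‖b‖ := norm_pos_iff.2 hb0
  have hbe0 : 0 ≤ arg b := arg_nonneg_iff.2 hb'
  have hbe1 : arg b < Real.pi / 2 :=
    lt_of_le_of_lt (le_abs_self _) (abs_arg_lt_pi_div_two_iff.mpr (Or.inl hb))
  have hpol : b * tan z = ((‖b‖ * tt z.re z.im : ℝ) : ℂ) *
      exp (((al z.re z.im + arg b : ℝ) : ℂ) * I) := by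
    conv_lhs => rw [← norm_mul_exp_arg_mul_I b, tan_polar hR0 hR1]
    push_cast
    rw [add_mul, Complex.exp_add]
    ring
  have hwre : (b * tan z).re = ‖b‖ * tt z.re z.im * Real.cos (al z.re z.im + arg b) := by
    rw [hpol, Complex.re_ofReal_mul, Complex.exp_ofReal_mul_I_re]
  have hwim : (b * tan z).im = ‖b‖ * tt z.re z.im * Real.sin (al z.re z.im + arg b) := by
    rw [hpol, Complex.im_ofReal_mul, Complex.exp_ofReal_mul_I_im]
  have him : 0 ≤ (b * tan z).im := by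
    rw [hwim]
    apply mul_nonneg (mul_nonneg hro.le htt.le)
    apply Real.sin_nonneg_of_nonneg_of_le_pi
    · linarith
    · linarith
  obtain ⟨e1, e2⟩ := asr_eqs hre
  refine ⟨asr_re_nonneg _, asr_im_nonneg him, (abs_le.1 asr_im_abs).2, hro.le, hbe0, ?_, ?_, ?_⟩
  · by_contra hlt
    have hlt' := not_le.mp hlt
    have hc : Real.cos (al z.re z.im + arg b) < 0 := by
      apply Real.cos_neg_of_pi_div_two_lt_of_lt hlt'
      linarith [Real.pi_pos]
    have := mul_neg_of_pos_of_neg (mul_pos hro htt) hc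
    rw [← hwre] at this
    linarith
  · rw [e1, hwre]
  · rw [e2, hwim]

theorem tan_pos' {z : ℂ} (hR0 : 0 < z.re) (hR1 : z.re < Real.pi / 2) (hI : 0 < z.im) :
    0 < (tan z).re ∧ 0 < (tan z).im := by
  rw [tan_polar hR0 hR1, re_ofReal_mul, exp_ofReal_mul_I_re, im_ofReal_mul, exp_ofReal_mul_I_im]
  have h1 := al_pos hR0 hR1 hI
  have h2 := al_lt z.re z.im
  have h3 := tt_pos (I := z.im) hR0 hR1
  exact ⟨mul_pos h3 (Real.cos_pos_of_mem_Ioo ⟨by linarith, h2⟩),
    mul_pos h3 (Real.sin_pos_of_pos_of_lt_pi h1 (by linarith [Real.pi_pos]))⟩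

/-- The slot `u`. -/
theorem asr_tan {z : ℂ} (h : 0 < z.re) (h' : z.re < Real.pi / 2) (hI : 0 < z.im) :
    asr (tan z) = ((xx z.re z.im : ℝ) : ℂ) + ((th z.re z.im : ℝ) : ℂ) * I := by
  rw [asr_of_nonneg (tan_pos' h h' hI).2.le]
  exact AT2.E.ash_tan h h' hI

namespace Zr

variable {a w : ι → ℝ} {N : ι → Finset ι} {σ : ι → Bool} {τ : ℝ} {z : ι → ℂ}

theorem u_re (h : Zr a w N σ τ z) (i : ι) : (asr (tan (z i))).re = xx (z i).re (z i).im := by
  rw [asr_tan (h.pos i).1 (h.pos i).2.1 (h.pos i).2.2]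
  simp

theorem u_im (h : Zr a w N σ τ z) (i : ι) : (asr (tan (z i))).im = th (z i).re (z i).im := by
  rw [asr_tan (h.pos i).1 (h.pos i).2.1 (h.pos i).2.2]
  simp

theorem slot (h : Zr a w N σ τ z) {i j : ι} (hij : j ∈ N i) (hs : σ i ≠ σ j) :
    Slot (z i).re (z i).im ‖bs σ τ z i j‖ (arg (bs σ τ z i j)) (qs σ τ z i j).re
      (qs σ τ z i j).im :=
  slot_of (h.pos i).1 (h.pos i).2.1 (h.pos i).2.2 (h.bre i j) (h.bim hs) (h.wre hij)

/-- The vertex equation of a vertex with opposite neighbours only. -/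
theorem vx (h : Zr a w N σ τ z) {i : ι} (hi : ¬Bn N σ i) :
    AT2.E.Vx (a i) (w i) (z i).re (z i).im (N i) (fun j => ‖bs σ τ z i j‖)
      (fun j => arg (bs σ τ z i j)) (fun j => (qs σ τ z i j).re)
      (fun j => (qs σ τ z i j).im) where
  a3 := h.nb.a3 i
  h0 := h.nb.w0 i
  ne := h.nb.ne i
  card := (h.nb.card i (Or.inl hi)).1
  big := fun hw => ⟨(h.nb.big i hw).2, (h.nb.card i (Or.inl hi)).2 hw⟩
  R0 := (h.pos i).1
  R1 := (h.pos i).2.1
  I0 := (h.pos i).2.2
  sl := fun j hj => h.slot hj fun hs => hi ⟨j, hj, hs⟩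
  hR := by
    have := h.eqR i
    rwa [h.u_im] at this
  hI := by
    have := h.eqI i
    rwa [h.u_re] at this

/-- `z̄ Q` for the sum `Q` of the slots. -/
theorem zQ (h : Zr a w N σ τ z) (i : ι) :
    a i * ((z i).re ^ 2 + (z i).im ^ 2) +
      ((starRingEnd ℂ) (z i) * (∑ j ∈ N i, qs σ τ z i j + (w i : ℂ) * asr (tan (z i)))).im =
      Real.pi * (z i).re ∧
    ((starRingEnd ℂ) (z i) * (∑ j ∈ N i, qs σ τ z i j + (w i : ℂ) * asr (tan (z i)))).re =
      Real.pi * (z i).im := by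
  have h1 := h.eqn i
  set Q := ∑ j ∈ N i, qs σ τ z i j + (w i : ℂ) * asr (tan (z i))
  have h2 : (a i : ℂ) * ((normSq (z i) : ℝ) : ℂ) = (Real.pi : ℂ) * (starRingEnd ℂ) (z i) +
      I * ((starRingEnd ℂ) (z i) * Q) := by
    rw [← conj_mul_self']
    linear_combination (starRingEnd ℂ) (z i) * h1
  have r1 := congrArg re h2
  have r2 := congrArg im h2
  rw [re_ofReal_mul, ofReal_re, add_re, re_ofReal_mul, conj_re, I_mul_re, normSq_apply] at r1
  rw [im_ofReal_mul, ofReal_im, add_im, im_ofReal_mul, conj_im, I_mul_im, mul_zero] at r2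
  constructor
  · linarith
  · linarith

/-- **The disc is invariant.** -/
theorem disc_lt' (h : Zr a w N σ τ z) {i : ι} (hi : Bn N σ i) :
    a i * ((z i).re ^ 2 + (z i).im ^ 2) < Real.pi * ((z i).re + (z i).im / 4) := by
  obtain ⟨hR0, hR1, hI⟩ := h.pos i
  have hD := h.disc hi
  obtain ⟨e1, e2⟩ := h.zQ i
  have hO : ∀ b : ℂ, 0 < b.re → 0 ≤ b.im → b.im ≤ 1.04 * b.re → b.re ^ 2 + b.im ^ 2 ≤ 1.21 →
      0 ≤ (b * tan (z i)).re →
      0 < ((1 + I / 4) * ((starRingEnd ℂ) (z i) * asr (b * tan (z i)))).im := by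
    intro b h1 h2 h3 h4 h5
    have h6 := qO hR0 hI hD h1 h2 h3 h4 h5
    have h7 : 0 ≤ ((starRingEnd ℂ) (z i) * asr (b * tan (z i))).re := by
      rw [mul_re, conj_re, conj_im]
      have h8 := asr_re_nonneg (b * tan (z i))
      have h9 : 0 ≤ (asr (b * tan (z i))).im := by
        apply asr_im_nonneg
        rw [mul_im]
        obtain ⟨t1, t2⟩ := tan_pos' hR0 hR1 hI
        have := mul_nonneg h1.le t2.le
        have := mul_nonneg h2 t1.le
        linarith
      have := mul_nonneg hR0.le h8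
      have := mul_nonneg hI.le h9
      linarith
    rw [mul_im]
    simp only [add_re, one_re, add_im, one_im, zero_add]
    have e3 : (I / 4).re = 0 := by simp
    have e4 : (I / 4).im = 1 / 4 := by simp
    rw [e3, e4, add_zero, one_mul]
    linarith
  have hj : ∀ j ∈ N i, 0 < ((1 + I / 4) * ((starRingEnd ℂ) (z i) * qs σ τ z i j)).im := by
    intro j hj
    by_cases hs : σ i = σ j
    · exact qS hR0 hI hD (h.kbs hj hs)
    · exact hO _ (h.bre i j) (h.bim hs) (h.bsl hs) (h.bsq i j) (h.wre hj)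
  have hu : 0 < ((1 + I / 4) * ((starRingEnd ℂ) (z i) * asr (tan (z i)))).im := by
    have := hO 1 (by simp) (by simp) (by norm_num) (by norm_num)
      (by rw [one_mul]; exact (tan_pos' hR0 hR1 hI).1.le)
    rwa [one_mul] at this
  set Q := ∑ j ∈ N i, qs σ τ z i j + (w i : ℂ) * asr (tan (z i)) with hQ
  have hpos : 0 < ((1 + I / 4) * ((starRingEnd ℂ) (z i) * Q)).im := by
    have e : (1 + I / 4) * ((starRingEnd ℂ) (z i) * Q) =
        ∑ j ∈ N i, (1 + I / 4) * ((starRingEnd ℂ) (z i) * qs σ τ z i j) +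
          ((w i : ℝ) : ℂ) * ((1 + I / 4) * ((starRingEnd ℂ) (z i) * asr (tan (z i)))) := by
      rw [hQ, mul_add, mul_add, Finset.mul_sum, Finset.mul_sum]
      ring
    rw [e, add_im, im_sum, im_ofReal_mul]
    obtain ⟨j, hj', -⟩ := hi
    have h1 := Finset.sum_pos hj ⟨j, hj'⟩
    have h2 := mul_nonneg (h.nb.w0 i) hu.le
    linarith
  have e5 : ((1 + I / 4) * ((starRingEnd ℂ) (z i) * Q)).im =
      ((starRingEnd ℂ) (z i) * Q).im + ((starRingEnd ℂ) (z i) * Q).re / 4 := by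
    rw [mul_im]
    simp only [add_re, one_re, add_im, one_im, zero_add]
    have e3 : (I / 4).re = 0 := by simp
    have e4 : (I / 4).im = 1 / 4 := by simp
    rw [e3, e4, add_zero, one_mul]
    ring
  rw [e5, e2] at hpos
  linarith

theorem disc_lt (h : Zr a w N σ τ z) {i : ι} (hi : Bn N σ i) :
    (z i).re ^ 2 + (z i).im ^ 2 < Real.pi / 5 * ((z i).re + (z i).im / 4) := by
  have h1 := h.disc_lt' hi
  have h5 := (h.nb.pure i hi).1
  have h6 := mul_le_mul_of_nonneg_right h5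
    (by positivity : (0 : ℝ) ≤ (z i).re ^ 2 + (z i).im ^ 2)
  linarith

/-- `x I < θ R` on the disc. -/
theorem uz_ge (h : Zr a w N σ τ z) {i : ι} (hi : Bn N σ i) :
    xx (z i).re (z i).im * (z i).im < th (z i).re (z i).im * (z i).re := by
  obtain ⟨hR0, hR1, hI⟩ := h.pos i
  have h1 := qO (b := 1) hR0 hI (h.disc hi) (by simp) (by simp) (by norm_num) (by norm_num)
    (by rw [one_mul]; exact (tan_pos' hR0 hR1 hI).1.le)
  rw [one_mul, asr_tan hR0 hR1 hI, mul_im, conj_re, conj_im] at h1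
  simp at h1
  linarith

end Zr

end Pool.Agent.MX.E
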